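import Pool.Agent.Lib.MP_57313b_al.Dia.Base

/-! Elementary facts on regular rings, flatness, small idempotents, points. -/

namespace Pool.Agent.Lib.MP_57313b_al.Dia

variable {F : Type} [Field F] {A : Type*} [Ring A]

/-- frames indexed by a countable type (compose with an injection into ℕ) -/
theorem Fr.of_countable (h : Fr A) (κ : Type*) [Countable κ] [DecidableEq κ] :
    ∃ x y : κ → A, ∀ i j, y i * x j = if i = j then 1 else 0 := by
  obtain ⟨x, y, hxy⟩ := h
  obtain ⟨e, he⟩ := exists_injective_nat κ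
  refine ⟨fun i => x (e i), fun i => y (e i), fun i j => ?_⟩
  rw [hxy]
  simp only [he.eq_iff]

theorem Fr.map {C : Type*} [Ring C] (h : Fr A) (φ : A →+* C) : Fr C := by
  obtain ⟨x, y, hxy⟩ := h
  refine ⟨fun i => φ (x i), fun i => φ (y i), fun i j => ?_⟩
  rw [← map_mul, hxy]
  split_ifs <;> simp

theorem Reg.a1_step (hA : Reg A) (J : Ideal A) {h a : A} (hh : h ∈ J) (hhh : h * h = h)
    (ha : a ∈ J) : ∃ g ∈ J, g * g = g ∧ h * g = h ∧ a * g = a := by
  obtain ⟨x, hx⟩ := hA (a - a * h)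
  set b := a - a * h with hb
  have hbJ : b ∈ J := J.sub_mem ha (J.mul_mem_left _ hh)
  have hbh : b * h = 0 := by rw [hb, sub_mul, mul_assoc, hhh, sub_self]
  have hf : x * b * (x * b) = x * b := by
    calc x * b * (x * b) = x * (b * x * b) := by simp only [mul_assoc]
      _ = x * b := by rw [hx]
  have hfh : x * b * h = 0 := by rw [mul_assoc, hbh, mul_zero]
  set f := x * b with hfdef
  have hfJ : f ∈ J := J.mul_mem_left _ hbJ
  have h1 : h * (h + (f - h * f)) = h := by
    rw [mul_add, mul_sub, ← mul_assoc h h, hhh, sub_self, add_zero]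
  have h2 : f * (h + (f - h * f)) = f := by
    rw [mul_add, mul_sub, ← mul_assoc f h, hfh, hf, zero_mul, sub_zero, zero_add]
  refine ⟨h + (f - h * f), J.add_mem hh (J.sub_mem hfJ (J.mul_mem_left _ hfJ)), ?_, h1, ?_⟩
  · rw [add_mul, sub_mul, mul_assoc h f, h1, h2]
  · have h3 : a * (f - h * f) = b := by
      calc a * (f - h * f) = (a - a * h) * f := by rw [mul_sub, sub_mul, mul_assoc]
        _ = b * x * b := by rw [← hb, hfdef, mul_assoc]
        _ = b := hx
    rw [mul_add, h3, hb, add_sub_cancel]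

/-- finitely many elements of a left ideal are fixed by an idempotent of it -/
theorem Reg.idem_left (hA : Reg A) (J : Ideal A) {κ : Type*} [Finite κ] (a : κ → A)
    (ha : ∀ k, a k ∈ J) : ∃ h ∈ J, h * h = h ∧ ∀ k, a k * h = a k := by
  classical
  have key : ∀ s : Finset κ, ∃ h ∈ J, h * h = h ∧ ∀ k ∈ s, a k * h = a k := by
    intro s
    induction s using Finset.induction_on with
    | empty => exact ⟨0, J.zero_mem, by simp, by simp⟩
    | insert k s _ ih =>
      obtain ⟨h, hh, hhh, hs⟩ := ih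
      obtain ⟨g, hg, hgg, hhg, hkg⟩ := hA.a1_step J hh hhh (ha k)
      refine ⟨g, hg, hgg, fun j hj => ?_⟩
      rcases Finset.mem_insert.1 hj with rfl | hj
      · exact hkg
      · calc a j * g = a j * h * g := by rw [hs j hj]
          _ = a j := by rw [mul_assoc, hhg, hs j hj]
  have := Fintype.ofFinite κ
  obtain ⟨h, hh, hhh, hs⟩ := key Finset.univ
  exact ⟨h, hh, hhh, fun k => hs k (Finset.mem_univ k)⟩

/-- zero left annihilator gives a right inverse: `y y' y = y` gives `(1 - y y') y = 0` -/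
theorem Reg.right_inv (hA : Reg A) {y : A} (h : ∀ b, b * y = 0 → b = 0) : ∃ y', y * y' = 1 := by
  obtain ⟨x, hx⟩ := hA y
  refine ⟨x, ?_⟩
  have := h (1 - y * x) (by rw [sub_mul, one_mul, hx, sub_self])
  exact (sub_eq_zero.1 this).symm

section map
variable [Algebra F A] {C : Type*} [Ring C] [Algebra F C] (φ : A →ₐ[F] C)

theorem Reg.mem_map_iff (hA : Reg A) (J : Ideal A) (x : C) :
    x ∈ J.map φ ↔ ∃ h ∈ J, x * φ h = x := by
  constructor
  · intro hx
    induction hx using Submodule.span_induction with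
    | mem x hx =>
      obtain ⟨a, ha, rfl⟩ := hx
      obtain ⟨g, hg, -, -, hag⟩ := hA.a1_step J J.zero_mem (mul_zero 0) ha
      exact ⟨g, hg, by rw [← map_mul, hag]⟩
    | zero => exact ⟨0, J.zero_mem, by simp⟩
    | add x y _ _ hx hy =>
      obtain ⟨h₁, hh₁, hx⟩ := hx
      obtain ⟨h₂, hh₂, hy⟩ := hy
      obtain ⟨g, hg, -, hs⟩ := hA.idem_left J (κ := Bool) (fun b => if b then h₁ else h₂)
        (by intro b; cases b <;> simpa)
      have e₁ : h₁ * g = h₁ := by simpa using hs true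
      have e₂ : h₂ * g = h₂ := by simpa using hs false
      refine ⟨g, hg, ?_⟩
      have f₁ : x * φ g = x := by
        calc x * φ g = x * φ h₁ * φ g := by rw [hx]
          _ = x := by rw [mul_assoc, ← map_mul, e₁, hx]
      have f₂ : y * φ g = y := by
        calc y * φ g = y * φ h₂ * φ g := by rw [hy]
          _ = y := by rw [mul_assoc, ← map_mul, e₂, hy]
      rw [add_mul, f₁, f₂]
    | smul c x _ hx =>
      obtain ⟨h, hh, hx⟩ := hx
      exact ⟨h, hh, by rw [smul_eq_mul, mul_assoc, hx]⟩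
  · rintro ⟨h, hh, hx⟩
    rw [← hx]
    exact Ideal.mul_mem_left _ _ (Ideal.mem_map_of_mem φ hh)

theorem Reg.map_mem_map_iff (hA : Reg A) (hφ : Function.Injective φ) (J : Ideal A) (a : A) :
    φ a ∈ J.map φ ↔ a ∈ J := by
  refine ⟨fun h => ?_, fun h => Ideal.mem_map_of_mem φ h⟩
  obtain ⟨h, hh, hx⟩ := (hA.mem_map_iff φ J _).1 h
  rw [← map_mul] at hx
  rw [← hφ hx]
  exact J.mul_mem_left _ hh

/-- freeness of a witness passes to extensions: if `c * φ r ∈ J.map φ` take `h ∈ J` fixing it;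
`r * (1 - h)` has zero left annihilator, so it is right invertible -/
theorem Reg.wit_map (hA : Reg A) (J : Ideal A) {r : A} (h : ∀ b, b * r ∈ J → b = 0) (c : C)
    (hc : c * φ r ∈ J.map φ) : c = 0 := by
  obtain ⟨e, he, hx⟩ := (hA.mem_map_iff φ J _).1 hc
  obtain ⟨y', hy'⟩ := hA.right_inv (y := r - r * e) (by
    intro b hb
    apply h b
    rw [mul_sub, sub_eq_zero] at hb
    rw [hb, ← mul_assoc]
    exact J.mul_mem_left _ he)
  have h0 : c * φ (r - r * e) = 0 := by
    rw [map_sub, map_mul, mul_sub, ← mul_assoc, hx, sub_self]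
  calc c = c * φ ((r - r * e) * y') := by rw [hy', map_one, mul_one]
    _ = 0 := by rw [map_mul, ← mul_assoc, h0, zero_mul]

/-- if `c * φ u ∈ I.map φ` take `h ∈ I` fixing it, `y = u * (1 - h)`, `f = y y'` with
`y y' y = y`; then `c = c * φ (1 - f)` (as `c * φ y = 0`), `(1 - f) u = (1 - f) u h ∈ I` -/
theorem Reg.ph_map (hA : Reg A) (I M : Ideal A) {u v : A} (h : ∀ c, c * u ∈ I → c * v ∈ M)
    (c : C) (hc : c * φ u ∈ I.map φ) : c * φ v ∈ M.map φ := by
  obtain ⟨e, he, hx⟩ := (hA.mem_map_iff φ I _).1 hc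
  obtain ⟨y', hy'⟩ := hA (u - u * e)
  set y := u - u * e with hy
  have h0 : c * φ y = 0 := by
    rw [hy, map_sub, map_mul, mul_sub, ← mul_assoc, hx, sub_self]
  have h1 : (1 - y * y') * y = 0 := by rw [sub_mul, one_mul, hy', sub_self]
  have h2 : (1 - y * y') * u ∈ I := by
    have : (1 - y * y') * u = (1 - y * y') * u * e := by
      rw [mul_assoc, ← sub_eq_zero, ← mul_sub, ← hy, h1]
    rw [this]
    exact I.mul_mem_left _ he
  have h3 : c * φ v = c * φ ((1 - y * y') * v) := by
    rw [map_mul, map_sub, map_mul, map_one, ← mul_assoc, mul_sub, ← mul_assoc, h0, zero_mul,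
      sub_zero, mul_one]
  rw [h3]
  exact Ideal.mul_mem_left _ _ (Ideal.mem_map_of_mem φ (h _ h2))

/-- right multiplication by `r` carrying `φ M` into `J` carries `M.map φ` into `J` -/
theorem map_mul_mem (M : Ideal A) (J : Ideal C) (r : C) (h : ∀ m ∈ M, φ m * r ∈ J) :
    ∀ m ∈ M.map φ, m * r ∈ J := by
  intro m hm
  induction hm using Submodule.span_induction with
  | mem x hx =>
    obtain ⟨a, ha, rfl⟩ := hx
    exact h a ha
  | zero => simp
  | add x y _ _ hx hy => rw [add_mul]; exact J.add_mem hx hy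
  | smul c x _ hx => rw [smul_eq_mul, mul_assoc]; exact J.mul_mem_left _ hx

end map

theorem Le.refl {g : A} (h : g * g = g) : Le g g := ⟨h, h⟩

theorem Le.trans {g₂ g₁ g : A} (h : Le g₂ g₁) (h' : Le g₁ g) : Le g₂ g := by
  constructor
  · calc g * g₂ = g * (g₁ * g₂) := by rw [h.1]
      _ = g₂ := by rw [← mul_assoc, h'.1, h.1]
  · calc g₂ * g = g₂ * g₁ * g := by rw [h.2]
      _ = g₂ := by rw [mul_assoc, h'.2, h.2]

theorem Sm.one (N : Ideal A) : Sm N 1 := ⟨mul_one 1, by simp⟩

theorem Sm.mul_mem {N : Ideal A} {g m : A} (hg : Sm N g) (hm : m ∈ N) : m * g ∈ N := by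
  have : m * g = m - m * (1 - g) := by rw [mul_sub, mul_one, sub_sub_cancel]
  rw [this]
  exact N.sub_mem hm (N.mul_mem_left _ hg.2)

theorem Sm.ne_zero {N : Ideal A} (hN : Mx N) {g : A} (hg : Sm N g) : g ≠ 0 := by
  rintro rfl
  exact hN.1 (by simpa using hg.2)

/-- `a * g = 0` puts `a` in `N` -/
theorem Sm.mem_of_mul_eq_zero {N : Ideal A} {g a : A} (hg : Sm N g) (h : a * g = 0) : a ∈ N := by
  have : a = a * (1 - g) := by rw [mul_sub, mul_one, h, sub_zero]
  rw [this]
  exact N.mul_mem_left _ hg.2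

/-- Right kill. Take an idempotent `1 - h ∈ N` fixing `1 - g` and all `m k * g`;
`g₁ = h * g`. -/
theorem Reg.rk (hA : Reg A) {N : Ideal A} {g : A} (hg : Sm N g) {κ : Type*} [Finite κ]
    (m : κ → A) (hm : ∀ k, m k ∈ N) : ∃ g₁, Sm N g₁ ∧ Le g₁ g ∧ ∀ k, m k * g₁ = 0 := by
  obtain ⟨e, he, hee, hs⟩ := hA.idem_left N (κ := Option κ)
    (fun o => o.elim (1 - g) fun k => m k * g)
    (by
      rintro (_ | k)
      · exact hg.2
      · exact hg.mul_mem (hm k))
  have h1 : (1 - g) * e = 1 - g := hs none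
  have h2 : ∀ k, m k * g * e = m k * g := fun k => hs (some k)
  have hgh : g * (1 - e) = 1 - e := by
    rw [sub_mul, one_mul] at h1
    rw [mul_sub, mul_one]
    have : g * e = e - (1 - g) := by rw [← h1, sub_sub_cancel]
    rw [this]
    abel
  have hhh : (1 - e) * (1 - e) = 1 - e := by
    rw [mul_sub, mul_one, sub_mul, one_mul, hee, sub_self, sub_zero]
  refine ⟨(1 - e) * g, ⟨?_, ?_⟩, ⟨?_, ?_⟩, fun k => ?_⟩
  · calc (1 - e) * g * ((1 - e) * g) = (1 - e) * (g * (1 - e)) * g := by simp only [mul_assoc]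
      _ = (1 - e) * g := by rw [hgh, hhh]
  · have : 1 - (1 - e) * g = (1 - g) + e * g := by rw [sub_mul, one_mul]; abel
    rw [this]
    exact N.add_mem hg.2 (hg.mul_mem he)
  · rw [← mul_assoc, hgh]
  · rw [mul_assoc, hg.1]
  · calc m k * ((1 - e) * g) = m k * (g * (1 - e) * g) := by rw [hgh]
      _ = (m k * g - m k * g * e) * g := by
        rw [mul_sub, mul_one, sub_mul, sub_mul, mul_sub]; simp only [mul_assoc]
      _ = 0 := by rw [h2, sub_self, zero_mul]

/-- Left kill. With `p' = g p g` take `h ≤ g` killing `g - p'` on the right (`rk`);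
`g₁ = h * p'`, `c = h * g`. -/
theorem Reg.lk (hA : Reg A) {N : Ideal A} {g p : A} (hg : Sm N g) (hp : 1 - p ∈ N) :
    ∃ g₁ c, Sm N g₁ ∧ Le g₁ g ∧ g₁ = c * p * g := by
  have hm : g - g * p * g ∈ N := by
    have : g - g * p * g = g * (1 - p) * g := by rw [mul_sub, mul_one, sub_mul, hg.1]
    rw [this]
    exact hg.mul_mem (N.mul_mem_left _ hp)
  obtain ⟨h, hh, hle, hk⟩ := hA.rk hg (κ := Unit) (fun _ => g - g * p * g) fun _ => hm
  have h1 : g * p * g * h = h := by
    have := hk ()
    rw [sub_mul, hle.1, sub_eq_zero] at this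
    exact this.symm
  refine ⟨h * (g * p * g), h * g, ⟨?_, ?_⟩, ⟨?_, ?_⟩, by simp only [mul_assoc]⟩
  · calc h * (g * p * g) * (h * (g * p * g)) = h * (g * p * g * h) * (g * p * g) := by
          simp only [mul_assoc]
      _ = h * (g * p * g) := by rw [h1, hh.1]
  · have : 1 - h * (g * p * g) = (1 - h) + h * (g - g * p * g) := by
      rw [mul_sub, hle.2]; abel
    rw [this]
    exact N.add_mem hh.2 (N.mul_mem_left _ hm)
  · rw [← mul_assoc, hle.1]
  · rw [mul_assoc, mul_assoc, hg.1]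

/-- `A` has no socle. If `a x b = 1`, put `p = x b x₁ y₁ a`; `p x ≠ 0` so `p ∉ N`,
`c p - 1 ∈ N`, `c p x = x`; multiply by `b x₂` on the right. -/
theorem Mx.ns_bot {N : Ideal A} (hN : Mx N) (hpi : PI A) (hfr : Fr A) : NS N ⊥ := by
  intro x hx
  simp only [Ideal.mem_bot] at hx ⊢
  by_contra hne
  obtain ⟨a, b, hab⟩ := hpi x hne
  obtain ⟨X, Y, hXY⟩ := hfr
  have h11 : Y 1 * X 1 = 1 := by simpa using hXY 1 1
  have h22 : Y 2 * X 2 = 1 := by simpa using hXY 2 2
  have h12 : Y 1 * X 2 = 0 := by simpa using hXY 1 2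
  have h10 : (1 : A) ≠ 0 := fun h => hN.1 (h ▸ N.zero_mem)
  have hp : x * b * X 1 * Y 1 * a ∉ N := by
    intro hp
    apply h10
    calc (1 : A) = Y 1 * (a * x * b) * X 1 * Y 1 * (a * x * b) * X 1 := by
          rw [hab, mul_one, mul_one, h11, one_mul, h11]
      _ = Y 1 * a * (x * b * X 1 * Y 1 * a * x) * b * X 1 := by simp only [mul_assoc]
      _ = 0 := by rw [hx _ hp]; simp
  obtain ⟨c, hc⟩ := hN.2 _ hp
  have h3 := hx _ hc
  rw [sub_mul, one_mul, sub_eq_zero] at h3
  apply h10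
  calc (1 : A) = Y 2 * (a * x * b) * X 2 := by rw [hab, mul_one, h22]
    _ = Y 2 * a * x * b * X 2 := by simp only [mul_assoc]
    _ = Y 2 * a * (c * (x * b * X 1 * Y 1 * a) * x) * b * X 2 := by rw [h3]
    _ = Y 2 * a * c * x * b * X 1 * (Y 1 * (a * x * b) * X 2) := by simp only [mul_assoc]
    _ = 0 := by rw [hab, mul_one, h12, mul_zero]

/-- If `U` has no element killed by `N`, no element of `U` is killed by the annihilator of a
finite subset of `A / N`. Induction on the finite set: take `w` for the smaller set; if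
`w * X k ∉ N` take `c` with `c w X k - 1 ∈ N`; if the claim fails then `N` kills `c w u`,
so `c w u = 0`; with `c' = w * X k` the element `w - c' c w` works for the larger set. -/
theorem Mx.ann {N : Ideal A} (hN : Mx N) {U : Type*} [AddCommGroup U] [Module A U]
    (hU : ∀ u : U, (∀ m ∈ N, m • u = 0) → u = 0) {κ : Type*} [Finite κ] (X : κ → A) {u : U}
    (hu : u ≠ 0) : ∃ w, (∀ k, w * X k ∈ N) ∧ w • u ≠ 0 := by
  classical
  have key : ∀ s : Finset κ, ∃ w, (∀ k ∈ s, w * X k ∈ N) ∧ w • u ≠ 0 := by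
    intro s
    induction s using Finset.induction_on with
    | empty => exact ⟨1, by simp, by simpa using hu⟩
    | insert k s _ ih =>
      obtain ⟨w, hw, hwu⟩ := ih
      by_cases hk : w * X k ∈ N
      · refine ⟨w, fun j hj => ?_, hwu⟩
        rcases Finset.mem_insert.1 hj with rfl | hj
        · exact hk
        · exact hw j hj
      obtain ⟨c, hc⟩ := hN.2 _ hk
      by_contra hcon
      have hcon' : ∀ w', (∀ j ∈ insert k s, w' * X j ∈ N) → w' • u = 0 := by
        intro w' h'
        by_contra h''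
        exact hcon ⟨w', h', h''⟩
      have h0 : (c * w) • u = 0 := by
        apply hU
        intro m hm
        rw [← mul_smul]
        apply hcon'
        intro j hj
        rcases Finset.mem_insert.1 hj with rfl | hj
        · have : m * (c * w) * X j = m * (c * (w * X j) - 1) + m := by
            rw [mul_sub, mul_one, sub_add_cancel]; simp only [mul_assoc]
          rw [this]
          exact N.add_mem (N.mul_mem_left _ hc) hm
        · rw [mul_assoc, mul_assoc]
          exact N.mul_mem_left _ (N.mul_mem_left _ (hw j hj))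
      apply hwu
      have h1 := hcon' (w - w * X k * (c * w)) (by
        intro j hj
        rcases Finset.mem_insert.1 hj with rfl | hj
        · have : (w - w * X j * (c * w)) * X j = -(w * X j) * (c * (w * X j) - 1) := by
            rw [sub_mul, neg_mul, mul_sub, mul_one, neg_sub]; simp only [mul_assoc]
          rw [this]
          exact N.mul_mem_left _ hc
        · rw [sub_mul, mul_assoc, mul_assoc c]
          exact N.sub_mem (hw j hj) (N.mul_mem_left _ (N.mul_mem_left _ (hw j hj))))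
      rwa [sub_smul, mul_smul, h0, smul_zero, sub_zero] at h1
  have := Fintype.ofFinite κ
  obtain ⟨w, hw, hwu⟩ := key Finset.univ
  exact ⟨w, fun k => hw k (Finset.mem_univ k), hwu⟩

theorem NS.quot {N I : Ideal A} (h : NS N I) (u : A ⧸ I) (hu : ∀ m ∈ N, m • u = 0) : u = 0 := by
  obtain ⟨x, rfl⟩ := Submodule.Quotient.mk_surjective I u
  rw [Submodule.Quotient.mk_eq_zero]
  apply h
  intro m hm
  have := hu m hm
  rwa [← Submodule.Quotient.mk_smul, Submodule.Quotient.mk_eq_zero, smul_eq_mul] at this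

/-- the inverse of an isomorphism of simple modules: take `v` with `v * y - 1 ∈ J` -/
theorem Mx.exists_inv {J P : Ideal A} (hJ : Mx J) (hP : Mx P) {y : A} (hy : y ∉ J)
    (h : ∀ m ∈ P, m * y ∈ J) : ∃ v ∉ P, ∀ b ∈ J, b * v ∈ P := by
  obtain ⟨v, hv⟩ := hJ.2 y hy
  refine ⟨v, fun hvP => hJ.1 ?_, fun b hb => ?_⟩
  · have := J.sub_mem (h v hvP) hv
    rwa [sub_sub_cancel] at this
  · by_contra hbv
    obtain ⟨z, hz⟩ := hP.2 _ hbv
    apply hy
    have h1 : y = z * b * (v * y - 1) + z * b - (z * (b * v) - 1) * y := by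
      rw [mul_sub, mul_one, sub_add_cancel, sub_mul, one_mul]
      simp only [mul_assoc, sub_sub_cancel]
    rw [h1]
    exact J.sub_mem (J.add_mem (J.mul_mem_left _ hv) (J.mul_mem_left _ hb)) (h _ hz)

theorem NS.symm {M M' : Ideal A} (hM : Mx M) (hM' : Mx M') (h : NS M M') : NS M' M := by
  intro x hx
  by_contra hxM
  obtain ⟨v, hv, hb⟩ := hM.exists_inv hM' hxM hx
  exact hv (h v hb)

theorem Mx.unif {I : Ideal A} (h : Mx I) : Unif I := by
  intro x hx y hy
  obtain ⟨z, hz⟩ := h.2 x hx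
  obtain ⟨w, hw⟩ := h.2 y hy
  refine ⟨z, w, ?_, fun hzx => h.1 ?_⟩
  · have := I.sub_mem hz hw
    rwa [sub_sub_sub_cancel_right] at this
  · have := I.sub_mem hzx hz
    rwa [sub_sub_cancel] at this

theorem exists_mx (h : (1 : A) ≠ 0) : ∃ N : Ideal A, Mx N := by
  have : Nontrivial A := ⟨⟨1, 0, h⟩⟩
  obtain ⟨N, hN⟩ := Ideal.exists_maximal A
  refine ⟨N, fun h1 => hN.ne_top ((Ideal.eq_top_iff_one N).2 h1), fun x hx => ?_⟩
  obtain ⟨y, c, hc, hyc⟩ := hN.exists_inv hx
  refine ⟨y, ?_⟩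
  have : y * x - 1 = -c := by rw [← hyc]; abel
  rw [this]
  exact N.neg_mem hc

/-- a right invertible element of `N g` not killing `c` modulo `J`. First replace `m g` by an
idempotent `e ∈ N`, `e g = e`, `e c ∉ J`. Take `a e b = 1`. Either `a e` works or
`a e + (e - e b a e)` does (right inverse `e b`). -/
theorem exists_right_inv (hA : Reg A) (hpi : PI A) {N J : Ideal A} {g m c : A} (hg : Sm N g)
    (hm : m ∈ N) (hc : m * g * c ∉ J) :
    ∃ β β', β ∈ N ∧ β * g = β ∧ β * β' = 1 ∧ β * c ∉ J := by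
  obtain ⟨x, hx⟩ := hA (m * g)
  set e := x * (m * g) with he
  have hye : m * g * e = m * g := by rw [he, ← mul_assoc, hx]
  have hee : e * e = e := by
    calc e * e = x * (m * g * e) := by rw [mul_assoc x]
      _ = e := by rw [hye]
  have heN : e ∈ N := N.mul_mem_left _ (hg.mul_mem hm)
  have heg : e * g = e := by rw [he, mul_assoc, mul_assoc, hg.1]
  have hec : e * c ∉ J := by
    intro h'
    apply hc
    rw [← hye, mul_assoc]
    exact J.mul_mem_left _ h'
  have he0 : e ≠ 0 := by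
    intro h'
    apply hec
    rw [h', zero_mul]
    exact J.zero_mem
  obtain ⟨a, b, hab⟩ := hpi e he0
  by_cases h1 : a * e * c ∈ J
  · refine ⟨a * e + (e - e * b * (a * e)), e * b, ?_, ?_, ?_, ?_⟩
    · exact N.add_mem (N.mul_mem_left _ heN)
        (N.sub_mem heN (N.mul_mem_left _ (N.mul_mem_left _ heN)))
    · rw [add_mul, sub_mul, mul_assoc (e * b), mul_assoc a, heg]
    · have h2 : a * e * (e * b) = 1 := by rw [← mul_assoc, mul_assoc a, hee, hab]
      rw [add_mul, sub_mul, mul_assoc (e * b), h2, ← mul_assoc, hee, mul_one, sub_self, add_zero]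
    · intro h'
      apply hec
      have h2 : e * c = (a * e + (e - e * b * (a * e))) * c - a * e * c + e * b * (a * e * c) := by
        rw [add_mul, sub_mul, mul_assoc (e * b)]; abel
      rw [h2]
      exact J.add_mem (J.sub_mem h' h1) (J.mul_mem_left _ h1)
  · exact ⟨a * e, b, N.mul_mem_left _ heN, by rw [mul_assoc, heg], hab, h1⟩

/-- a copy of the idempotent `e` below `g`, inside `N`. By `Mx.ns_bot` some `m ∈ N` has
`m g ≠ 0`; `rk` gives `g₂ ≤ g` with `m g₂ = 0`, so `h = g - g₂ ∈ N` is a nonzero idempotent;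
take `a h b = 1`, `u = h b e`, `u' = e a h`. -/
theorem exists_copy (hA : Reg A) (hpi : PI A) (hfr : Fr A) {N : Ideal A} (hN : Mx N) {g e : A}
    (hg : Sm N g) (he : e * e = e) :
    ∃ u u', u' * u = e ∧ u * e = u ∧ e * u' = u' ∧ Le (u * u') g ∧ u * u' ∈ N := by
  obtain ⟨m, hm, hmg⟩ : ∃ m ∈ N, m * g ≠ 0 := by
    by_contra hcon
    apply hg.ne_zero hN
    have := hN.ns_bot hpi hfr g (fun m hm => by
      rw [Ideal.mem_bot]
      by_contra h'
      exact hcon ⟨m, hm, h'⟩)
    rwa [Ideal.mem_bot] at this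
  obtain ⟨g₂, hg₂, hle, hk⟩ := hA.rk hg (κ := Unit) (fun _ => m) fun _ => hm
  have hk' : m * g₂ = 0 := hk ()
  set h := g - g₂ with hh
  have hgh : g * h = h := by rw [hh, mul_sub, hg.1, hle.1]
  have hhg : h * g = h := by rw [hh, sub_mul, hg.1, hle.2]
  have hhh : h * h = h := by
    calc h * h = h * g - (g - g₂) * g₂ := by rw [← hh, ← mul_sub]
      _ = h := by rw [hhg, sub_mul, hle.1, hg₂.1, sub_self, sub_zero]
  have hhN : h ∈ N := by
    have : h = (1 - g₂) - (1 - g) := by rw [hh]; abel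
    rw [this]
    exact N.sub_mem hg₂.2 hg.2
  have hh0 : h ≠ 0 := by
    intro h'
    apply hmg
    rw [sub_eq_zero.1 h', hk']
  obtain ⟨a, b, hab⟩ := hpi h hh0
  refine ⟨h * b * e, e * a * h, ?_, ?_, ?_, ⟨?_, ?_⟩, ?_⟩
  · calc e * a * h * (h * b * e) = e * (a * (h * h) * b) * e := by simp only [mul_assoc]
      _ = e := by rw [hhh, hab, mul_one, he]
  · rw [mul_assoc, he]
  · rw [← mul_assoc, ← mul_assoc, he]
  · calc g * (h * b * e * (e * a * h)) = g * h * b * e * (e * a * h) := by simp only [mul_assoc]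
      _ = h * b * e * (e * a * h) := by rw [hgh]
  · rw [mul_assoc, mul_assoc (e * a), hhg]
  · exact N.mul_mem_left _ (N.mul_mem_left _ hhN)

end Pool.Agent.Lib.MP_57313b_al.Dia
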