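import Pool.Agent.Lib.MP_57313b_al.Dia.Alg1

/-! Density, left kill, the centre, modules with promise `Z`. -/

namespace Pool.Agent.Lib.MP_57313b_al.Dia

variable {F : Type} [Field F] {A : Type*} [Ring A] [Algebra F A]

theorem alg2_kill {N : Ideal A} {p : A} {Ψ : Set A} (h : ∀ y ∈ Ψ, p * y ∈ N) {x : A}
    (hx : x ∈ Submodule.span F Ψ ⊔ N.restrictScalars F) : p * x ∈ N := by
  have : Submodule.span F Ψ ⊔ N.restrictScalars F ≤
      (N.restrictScalars F).comap (LinearMap.mulLeft F p) :=
    sup_le (Submodule.span_le.2 fun y hy => h y hy) fun y hy => N.mul_mem_left p hy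
  exact this hx

theorem alg2_smul {N : Ideal A} (c : F) {x : A} (hx : x ∈ N) : c • x ∈ N :=
  (N.restrictScalars F).smul_mem c hx

theorem alg2_dens {N N' : Ideal A} (hN : Pt F N) (hN' : Mx N') (hns : NS N' N)
    {κ' : Type*} [Finite κ'] (e' : κ' → A) (Ψ : Finset A) : ∀ σ : A,
    σ ∉ Submodule.span F (Ψ : Set A) ⊔ N.restrictScalars F →
    ∃ p, (∀ y ∈ Ψ, p * y ∈ N) ∧ (∀ k, p * e' k ∈ N') ∧ p * σ - 1 ∈ N := by
  classical
  induction Ψ using Finset.induction_on with
  | empty =>
    intro σ hσ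
    have h1 : (Submodule.Quotient.mk σ : A ⧸ N) ≠ 0 := fun h =>
      hσ (Submodule.mem_sup_right ((Submodule.Quotient.mk_eq_zero N).1 h))
    obtain ⟨w, hw, hw'⟩ := hN'.ann (U := A ⧸ N) hns.quot e' h1
    have h2 : w * σ ∉ N := fun h => hw' ((Submodule.Quotient.mk_eq_zero N).2 h)
    obtain ⟨z, hz⟩ := hN.1.2 _ h2
    exact ⟨z * w, by simp, fun k => by rw [mul_assoc]; exact N'.mul_mem_left z (hw k),
      by rwa [mul_assoc]⟩
  | insert ψ Ψ _ ih =>
    intro σ hσ
    have hle : Submodule.span F (Ψ : Set A) ⊔ N.restrictScalars F ≤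
        Submodule.span F ((insert ψ Ψ : Finset A) : Set A) ⊔ N.restrictScalars F :=
      sup_le_sup_right (Submodule.span_mono (by simp)) _
    by_cases hψ : ψ ∈ Submodule.span F (Ψ : Set A) ⊔ N.restrictScalars F
    · obtain ⟨p, h1, h2, h3⟩ := ih σ fun h => hσ (hle h)
      refine ⟨p, fun y hy => ?_, h2, h3⟩
      rcases Finset.mem_insert.1 hy with rfl | hy
      · exact alg2_kill (fun y hy => h1 y hy) hψ
      · exact h1 y hy
    obtain ⟨p₀, a1, a2, a3⟩ := ih ψ hψ
    by_contra hcon
    have H : ∀ p, (∀ y ∈ Ψ, p * y ∈ N) → (∀ k, p * e' k ∈ N') → p * ψ ∈ N → p * σ ∈ N := by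
      intro p b1 b2 b3
      by_contra b4
      obtain ⟨z, hz⟩ := hN.1.2 _ b4
      refine hcon ⟨z * p, fun y hy => ?_,
        fun k => by rw [mul_assoc]; exact N'.mul_mem_left z (b2 k), by rwa [mul_assoc]⟩
      rw [mul_assoc]
      rcases Finset.mem_insert.1 hy with rfl | hy
      · exact N.mul_mem_left z b3
      · exact N.mul_mem_left z (b1 y hy)
    obtain ⟨c, hc⟩ := hN.2 (p₀ * σ) fun m hm => by
      rw [← mul_assoc]
      refine H _ (fun y hy => by rw [mul_assoc]; exact N.mul_mem_left m (a1 y hy))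
        (fun k => by rw [mul_assoc]; exact N'.mul_mem_left m (a2 k)) ?_
      have := N.add_mem (N.mul_mem_left m a3) hm
      rwa [mul_sub, mul_one, sub_add_cancel, ← mul_assoc] at this
    obtain ⟨q, b1, b2, b3⟩ := ih (σ - c • ψ) fun h => hσ (by
      have h1 : c • ψ ∈
          Submodule.span F ((insert ψ Ψ : Finset A) : Set A) ⊔ N.restrictScalars F :=
        Submodule.smul_mem _ _ (Submodule.mem_sup_left (Submodule.subset_span (by simp)))
      simpa using Submodule.add_mem _ (hle h) h1)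
    have h1 := H (q - q * ψ * p₀)
      (fun y hy => by
        rw [sub_mul, mul_assoc (q * ψ)]
        exact N.sub_mem (b1 y hy) (N.mul_mem_left _ (a1 y hy)))
      (fun k => by
        rw [sub_mul, mul_assoc (q * ψ)]
        exact N'.sub_mem (b2 k) (N'.mul_mem_left _ (a2 k)))
      (by
        have := N.neg_mem (N.mul_mem_left (q * ψ) a3)
        have e : -(q * ψ * (p₀ * ψ - 1)) = (q - q * ψ * p₀) * ψ := by noncomm_ring
        rwa [e] at this)
    have h2 := N.sub_mem (N.add_mem h1 (N.mul_mem_left (q * ψ) hc)) b3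
    have e : (q - q * ψ * p₀) * σ + q * ψ * (p₀ * σ - algebraMap F A c) -
        (q * (σ - c • ψ) - 1) = 1 := by
      rw [Algebra.algebraMap_eq_smul_one]
      simp only [mul_sub, sub_mul, mul_smul_comm, mul_one, mul_assoc]
      abel
    rw [e] at h2
    exact hN.1.1 h2

/-- Density. First: if `σ` is not in the span of `Ψ` modulo `N` there is `p` with `p Ψ ⊆ N`,
`p e' ⊆ N'`, `p σ - 1 ∈ N` (induction on the finite set `Ψ`, base case `Mx.ann` with
`U = A ⧸ N`; step: if `p₀ ψ ≡ 1` and the claim fails then `N p₀ σ ⊆ N`, `p₀ σ ≡ λ`, and the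
smaller annihilator kills `σ - λ ψ`). Then `p = ∑ c i * p i`. -/
theorem density {N N' : Ideal A} (hN : Pt F N) (hN' : Mx N') (hns : NS N' N)
    {κ κ' : Type*} [Fintype κ] [Finite κ'] (e : κ → A) (he : IndM F N e) (c : κ → A)
    (e' : κ' → A) : ∃ p, (∀ k, p * e k - c k ∈ N) ∧ ∀ k, p * e' k ∈ N' := by
  classical
  have key : ∀ k, ∃ p, (∀ j, j ≠ k → p * e j ∈ N) ∧ (∀ k, p * e' k ∈ N') ∧ p * e k - 1 ∈ N := by
    intro k
    obtain ⟨p, h1, h2, h3⟩ := alg2_dens hN hN' hns e' ((Finset.univ.erase k).image e) (e k) (by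
      intro h
      obtain ⟨y, hy, n, hn, e1⟩ := Submodule.mem_sup.1 h
      have hle : Submodule.span F (((Finset.univ.erase k).image e : Finset A) : Set A) ≤
          (LinearMap.ker (LinearMap.proj k : (κ → F) →ₗ[F] F)).map
            (Fintype.linearCombination F e) := by
        rw [Submodule.span_le]
        intro y hy
        obtain ⟨j, hj, rfl⟩ := Finset.mem_image.1 hy
        exact ⟨Pi.single j 1, by simp [(Finset.ne_of_mem_erase hj).symm], by simp⟩
      obtain ⟨d, hd, rfl⟩ := hle hy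
      have h4 : ∑ j, (Pi.single k (1 : F) - d : κ → F) j • e j ∈ N := by
        have : ∑ j, (Pi.single k (1 : F) - d : κ → F) j • e j = n := by
          rw [← Fintype.linearCombination_apply, map_sub, Fintype.linearCombination_apply_single,
            one_smul, ← e1, add_sub_cancel_left]
        rw [this]; exact hn
      have h5 := he _ h4 k
      have h6 : d k = 0 := hd
      simp [h6] at h5)
    exact ⟨p, fun j hj => h1 _ (Finset.mem_image_of_mem _ (by simp [hj])), h2, h3⟩
  choose p h1 h2 h3 using key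
  refine ⟨∑ k, c k * p k, fun j => ?_, fun j => ?_⟩
  · rw [Finset.sum_mul, ← Finset.add_sum_erase _ _ (Finset.mem_univ j), add_sub_right_comm]
    refine N.add_mem ?_ (N.sum_mem fun k hk => ?_)
    · have := N.mul_mem_left (c j) (h3 j)
      rwa [mul_sub, mul_one, ← mul_assoc] at this
    · rw [mul_assoc]
      exact N.mul_mem_left _ (h1 k j (Finset.ne_of_mem_erase hk).symm)
  · rw [Finset.sum_mul]
    exact N'.sum_mem fun k _ => by rw [mul_assoc]; exact N'.mul_mem_left _ (h2 k j)

/-- if `g a - λ ∉ N` for all `λ`, the family `(1, g a)` is independent modulo `N`: take `p` from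
`density` (any `N'` with the hypotheses is available) and use `lk` -/
theorem lk_same (hA : Reg A) {N N' : Ideal A} (hN : Pt F N) (hN' : Mx N') (hns : NS N' N)
    {g : A} (hg : Sm N g) (a : A) :
    ∃ g₁, Sm N g₁ ∧ Le g₁ g ∧ ∃ c : F, g₁ * a - algebraMap F A c ∈ N := by
  by_cases h : ∃ c : F, g * a - algebraMap F A c ∈ N
  · exact ⟨g, hg, Le.refl hg.1, h⟩
  obtain ⟨p, h1, -, h3⟩ := alg2_dens hN hN' hns (Empty.elim : Empty → A) {g * a} 1 (by
    intro h1
    obtain ⟨y, hy, n, hn, e1⟩ := Submodule.mem_sup.1 h1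
    rw [Finset.coe_singleton] at hy
    obtain ⟨c, rfl⟩ := Submodule.mem_span_singleton.1 hy
    by_cases hc : c = 0
    · rw [hc, zero_smul, zero_add] at e1
      exact hN.1.1 (e1 ▸ hn)
    · refine h ⟨c⁻¹, ?_⟩
      have h2 := N.neg_mem (alg2_smul c⁻¹ hn)
      rwa [eq_sub_of_add_eq' e1, smul_sub, smul_smul, inv_mul_cancel₀ hc, one_smul, neg_sub,
        ← Algebra.algebraMap_eq_smul_one] at h2)
  obtain ⟨g₁, c, a1, a2, a3⟩ := hA.lk (p := p) hg (by simpa using N.neg_mem h3)
  refine ⟨g₁, a1, a2, 0, ?_⟩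
  rw [map_zero, sub_zero, a3, mul_assoc, mul_assoc]
  exact N.mul_mem_left _ (h1 _ (by simp))

theorem lk_other (hA : Reg A) {N N' : Ideal A} (hN : Pt F N) (hN' : Mx N') (hns : NS N' N)
    {g : A} (hg : Sm N g) {κ : Type*} [Finite κ] (a : κ → A) :
    ∃ g₁, Sm N g₁ ∧ Le g₁ g ∧ ∀ k, g₁ * a k ∈ N' := by
  obtain ⟨p, -, h2, h3⟩ := alg2_dens hN hN' hns (fun k => g * a k) ∅ 1 (by
    simpa using hN.1.1)
  obtain ⟨g₁, c, a1, a2, a3⟩ := hA.lk (p := p) hg (by simpa using N.neg_mem h3)
  refine ⟨g₁, a1, a2, fun k => ?_⟩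
  rw [a3, mul_assoc, mul_assoc]
  exact N'.mul_mem_left _ (h2 k)

/-- If `g h = 0` always gives `g a h = 0` then `M a ⊆ M` (use `rk`), so `a' = a - λ ∈ M`, and
`a'` commutes with every idempotent. Take `h` from `rk` with `a' h = 0`, `h ≠ 0`; `a'` commutes
with `h + (1 - h) c h`, so `a' c h = 0` for all `c`; by `PI`, `a' = 0`. -/
theorem Good.pre {M : Ideal A} (h : Good F M) : Pre F A := by
  refine ⟨fun e => h.pt.1.1 (e ▸ M.zero_mem), h.reg, h.pi, h.fr, fun a ha => ?_⟩
  by_contra hcon
  have H : ∀ g h : A, g * h = 0 → g * a * h = 0 := fun g h e => by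
    by_contra e'; exact hcon ⟨g, h, e, e'⟩
  obtain ⟨c, hc⟩ := h.pt.2 a fun m hm => by
    obtain ⟨g₁, a1, -, a3⟩ := h.reg.rk (Sm.one M) (fun _ : Unit => m) fun _ => hm
    exact a1.mem_of_mul_eq_zero (H _ _ (a3 ()))
  set b := a - algebraMap F A c with hb
  have H' : ∀ g h : A, g * h = 0 → g * b * h = 0 := fun g h e => by
    rw [hb, mul_sub, sub_mul, H g h e, ← Algebra.commutes, mul_assoc, e, mul_zero, sub_zero]
  obtain ⟨g, a1, -, a3⟩ := h.reg.rk (Sm.one M) (fun _ : Unit => b) fun _ => hc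
  have bg : b * g = 0 := a3 ()
  have gg := a1.1
  have gb : g * b = 0 := by
    have := H' g (1 - g) (by rw [mul_sub, mul_one, gg, sub_self])
    rwa [mul_sub, mul_one, mul_assoc, bg, mul_zero, sub_zero] at this
  obtain ⟨x, y, hxy⟩ := h.pi g (a1.ne_zero h.pt.1)
  have e1 : ((1 + (1 - g) * x) * g) * ((1 + (1 - g) * x) * g) = (1 + (1 - g) * x) * g := by
    have : g * ((1 + (1 - g) * x) * g) = g := by
      rw [add_mul, one_mul, mul_add, gg, ← mul_assoc, ← mul_assoc, mul_sub, mul_one, gg,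
        sub_self, zero_mul, zero_mul, add_zero]
    rw [mul_assoc, this]
  have e2 := H' (1 - (1 + (1 - g) * x) * g) ((1 + (1 - g) * x) * g)
    (by rw [sub_mul, one_mul, e1, sub_self])
  rw [sub_mul, one_mul, mul_assoc _ g b, gb, mul_zero, sub_zero] at e2
  have e3 : b * x * g = 0 := by
    have : b * ((1 + (1 - g) * x) * g) = b * g + b * x * g - b * g * x * g := by noncomm_ring
    rwa [this, bg, zero_mul, zero_mul, zero_add, sub_zero] at e2
  have e4 : b = 0 := by
    calc b = b * (x * g * y) := by rw [hxy, mul_one]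
      _ = b * x * g * y := by noncomm_ring
      _ = 0 := by rw [e3, zero_mul]
  exact ha c (sub_eq_zero.1 e4)

theorem Pre.op (h : Pre F A) : Pre F Aᵐᵒᵖ := by
  refine ⟨fun e => h.ne (congrArg MulOpposite.unop e), fun a => ?_, fun x hx => ?_, ?_,
    fun a ha => ?_⟩
  · obtain ⟨x, hx⟩ := h.reg a.unop
    exact ⟨MulOpposite.op x, MulOpposite.unop_injective (by simpa [mul_assoc] using hx)⟩
  · obtain ⟨a, b, e⟩ := h.pi x.unop (by simpa using hx)
    exact ⟨MulOpposite.op b, MulOpposite.op a,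
      MulOpposite.unop_injective (by simpa [mul_assoc] using e)⟩
  · obtain ⟨x, y, e⟩ := h.fr
    refine ⟨fun i => MulOpposite.op (y i), fun i => MulOpposite.op (x i), fun i j => ?_⟩
    rw [← MulOpposite.op_mul, e]
    by_cases hij : i = j
    · simp [hij]
    · simp [hij, Ne.symm hij]
  · obtain ⟨g, g', e1, e2⟩ := h.nc a.unop fun c e => ha c (MulOpposite.unop_injective e)
    refine ⟨MulOpposite.op g', MulOpposite.op g, by rw [← MulOpposite.op_mul, e1]; rfl,
      fun e => e2 ?_⟩
    simpa [mul_assoc] using congrArg MulOpposite.unop e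

theorem alg2_socle {N I : Ideal A} (hN : Pt F N) (U : Finset A) :
    (∀ u ∈ U, ∀ m ∈ N, m * u ∈ I) → ∀ u' : A, (∀ m ∈ N, m * u' ∈ I) →
    u' ∈ Ideal.span (U : Set A) ⊔ I →
    u' ∈ Submodule.span F (U : Set A) ⊔ I.restrictScalars F := by
  classical
  induction U using Finset.induction_on with
  | empty => intro _ u' _ h; simpa using h
  | insert u U _ ih =>
    intro hU u' hu' h
    have ih' := ih fun v hv => hU v (Finset.mem_insert_of_mem hv)
    have hu := hU u (Finset.mem_insert_self _ _)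
    have hle : Submodule.span F (U : Set A) ⊔ I.restrictScalars F ≤
        Submodule.span F ((insert u U : Finset A) : Set A) ⊔ I.restrictScalars F :=
      sup_le_sup_right (Submodule.span_mono (by simp)) _
    rw [Finset.coe_insert, Ideal.span_insert, sup_assoc] at h
    obtain ⟨y, hy, w, hw, rfl⟩ := Submodule.mem_sup.1 h
    obtain ⟨a, rfl⟩ := Ideal.mem_span_singleton'.1 hy
    by_cases h1 : u ∈ Ideal.span (U : Set A) ⊔ I
    · exact hle (ih' _ hu' (Ideal.add_mem _ (Ideal.mul_mem_left _ _ h1) hw))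
    have h2 : ∀ b, b * u ∈ Ideal.span (U : Set A) ⊔ I → b ∈ N := fun b hb => by
      by_contra hb'
      obtain ⟨z, hz⟩ := hN.1.2 b hb'
      have := Ideal.sub_mem _ (Ideal.mul_mem_left _ z hb) (Submodule.mem_sup_right (hu _ hz))
      rw [sub_mul, one_mul, mul_assoc, sub_sub_cancel] at this
      exact h1 this
    obtain ⟨c, hc⟩ := hN.2 a fun m hm => h2 _ (by
      have := Ideal.sub_mem _ (Submodule.mem_sup_right (hu' m hm)) (Ideal.mul_mem_left _ m hw)
      rwa [mul_add, add_sub_cancel_right, ← mul_assoc] at this)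
    have h3 := ih' (a * u + w - c • u)
      (fun m hm => by
        rw [mul_sub, mul_smul_comm]
        exact I.sub_mem (hu' m hm) (alg2_smul c (hu m hm)))
      (by
        have := Ideal.add_mem _ (Submodule.mem_sup_right (hu _ hc)) hw
        rwa [sub_mul, ← Algebra.smul_def, ← add_sub_right_comm] at this)
    have h4 : c • u ∈ Submodule.span F ((insert u U : Finset A) : Set A) ⊔ I.restrictScalars F :=
      Submodule.smul_mem _ _ (Submodule.mem_sup_left (Submodule.subset_span (by simp)))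
    simpa using Submodule.add_mem _ (hle h3) h4

/-- A module with promise `Z` has no socle at a point. Let `H = {u | N u ⊆ I}`. Lemma: if
`u 0, …, u m ∈ H` and `u' ≡ ∑ a i * u i` mod `I` lies in `H` then `u' ≡ ∑ λ i • u i`
(induction on `m`: either the last `u` is in `I + ∑ A (u i)` (earlier ones) or
`A u ∩ (I + …) ⊆ I` forces `N a ⊆ N`). For `x ∈ H`, `x ∉ I`, `1 ∈ ∑_{i ≤ m} A x d^i + I`, so
`x d^(m+1)` is such a combination, a monic polynomial in `d` sends `x` into `I`; factor it;
`y (d - λ) ∈ I` gives `y ∈ I` (else `1 ∈ ∑ A y d^i + I`, so `d - λ ∈ I` and `1 ∈ I`). -/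
theorem Prom.ns_of_Z {A : Type} [Ring A] [Algebra F A] [IsAlgClosed F] {M N I : Ideal A} {d : A}
    (hN : Pt F N) (h : (Prom.Z I d).Holds F M) : NS N I := by
  classical
  obtain ⟨⟨s1, s2⟩, hd⟩ := h
  have hpow : ∀ n, ∀ i ∈ I, i * d ^ n ∈ I := fun n => by
    induction n with
    | zero => simp
    | succ n ih => intro i hi; rw [pow_succ, ← mul_assoc]; exact s1 _ (ih i hi)
  have key : ∀ (c : F) (y : A), y * (d - algebraMap F A c) ∈ I → y ∈ I := by
    intro c y hy
    rcases hd y with h1 | h1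
    · exact h1
    have hle : Ideal.span (Set.range fun i : ℕ => y * d ^ i) ⊔ I ≤
        Submodule.comap (LinearMap.toSpanSingleton A A (d - algebraMap F A c)) I := by
      refine sup_le (Ideal.span_le.2 ?_) fun i hi => ?_
      · rintro _ ⟨i, rfl⟩
        change y * d ^ i * (d - algebraMap F A c) ∈ I
        have : d ^ i * (d - algebraMap F A c) = (d - algebraMap F A c) * d ^ i := by
          rw [mul_sub, sub_mul, ← pow_succ, ← pow_succ', Algebra.commutes]
        rw [mul_assoc, this, ← mul_assoc]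
        exact hpow i _ hy
      · change i * (d - algebraMap F A c) ∈ I
        rw [mul_sub, ← Algebra.commutes]
        exact I.sub_mem (s1 i hi) (I.mul_mem_left _ hi)
    have h2 : 1 * (d - algebraMap F A c) ∈ I := hle h1
    rw [one_mul] at h2
    obtain ⟨a, ha⟩ := s2 c
    have h3 := I.mul_mem_left y (I.sub_mem (I.mul_mem_left a h2) ha)
    rwa [sub_sub_cancel, mul_one] at h3
  have poly : ∀ (n : ℕ) (f : Polynomial F), f.natDegree = n → f ≠ 0 → ∀ y : A,
      y * Polynomial.aeval d f ∈ I → y ∈ I := by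
    intro n
    induction n with
    | zero =>
      intro f hf h0 y hy
      obtain ⟨c, rfl⟩ := Polynomial.natDegree_eq_zero.1 hf
      have hc : c ≠ 0 := fun e => h0 (by rw [e, map_zero])
      rw [Polynomial.aeval_C, ← Algebra.commutes, ← Algebra.smul_def] at hy
      have := alg2_smul c⁻¹ hy
      rwa [smul_smul, inv_mul_cancel₀ hc, one_smul] at this
    | succ n ih =>
      intro f hf h0 y hy
      obtain ⟨c, hc⟩ := IsAlgClosed.exists_root f
        (by rw [Polynomial.degree_eq_natDegree h0, hf]; exact_mod_cast Nat.succ_ne_zero n)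
      obtain ⟨g, rfl⟩ := Polynomial.dvd_iff_isRoot.2 hc
      have hg : g ≠ 0 := right_ne_zero_of_mul h0
      rw [Polynomial.natDegree_mul (Polynomial.X_sub_C_ne_zero c) hg,
        Polynomial.natDegree_X_sub_C] at hf
      rw [mul_comm (Polynomial.X - Polynomial.C c), map_mul, map_sub, Polynomial.aeval_X,
        Polynomial.aeval_C, ← mul_assoc] at hy
      exact ih g (by omega) hg y (key c _ hy)
  intro x hx
  rcases hd x with h1 | h1
  · exact h1
  let U : ℕ → Finset A := fun n => (Finset.range n).image fun i => x * d ^ i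
  have hmono : ∀ {n n'}, n ≤ n' → Ideal.span (U n : Set A) ≤ Ideal.span (U n' : Set A) :=
    fun h => Ideal.span_mono (Finset.coe_subset.2
      (Finset.image_subset_image (Finset.range_mono h)))
  obtain ⟨y, hy, i, hi, e1⟩ := Submodule.mem_sup.1 h1
  obtain ⟨n, hn⟩ : ∃ n, y ∈ Ideal.span (U n : Set A) := by
    clear e1
    induction hy using Submodule.span_induction with
    | mem z hz =>
      obtain ⟨j, rfl⟩ := hz
      exact ⟨j + 1, Ideal.subset_span (Finset.mem_coe.2
        (Finset.mem_image_of_mem _ (Finset.self_mem_range_succ j)))⟩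
    | zero => exact ⟨0, Ideal.zero_mem _⟩
    | add a b _ _ ha hb =>
      obtain ⟨n, ha⟩ := ha
      obtain ⟨n', hb⟩ := hb
      exact ⟨max n n', Ideal.add_mem _ (hmono (le_max_left _ _) ha) (hmono (le_max_right _ _) hb)⟩
    | smul a b _ hb =>
      obtain ⟨n, hb⟩ := hb
      exact ⟨n, Ideal.mul_mem_left _ a hb⟩
  have hH : ∀ j, ∀ m ∈ N, m * (x * d ^ j) ∈ I := fun j m hm => by
    rw [← mul_assoc]; exact hpow j _ (hx m hm)
  have h2 := alg2_socle hN (U n)
    (fun u hu => by obtain ⟨j, -, rfl⟩ := Finset.mem_image.1 hu; exact hH j) (x * d ^ n) (hH n)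
    (by
      have := Ideal.mul_mem_left _ (x * d ^ n)
        (Ideal.add_mem _ (Submodule.mem_sup_left hn) (Submodule.mem_sup_right hi))
      rwa [e1, mul_one] at this)
  obtain ⟨z, hz, j, hj, e2⟩ := Submodule.mem_sup.1 h2
  have hle : Submodule.span F (U n : Set A) ≤ (Polynomial.degreeLT F n).map
      (LinearMap.mulLeft F x ∘ₗ (Polynomial.aeval d).toLinearMap) := by
    rw [Submodule.span_le]
    intro u hu
    obtain ⟨l, hl, rfl⟩ := Finset.mem_image.1 hu
    refine ⟨Polynomial.X ^ l, Polynomial.mem_degreeLT.2 ?_, by simp⟩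
    rw [Polynomial.degree_X_pow]
    exact_mod_cast Finset.mem_range.1 hl
  obtain ⟨g, hg, rfl⟩ := hle hz
  refine poly _ (Polynomial.X ^ n - g) rfl
    (Polynomial.monic_X_pow_sub (Polynomial.mem_degreeLT.1 hg)).ne_zero x ?_
  rw [map_sub, map_pow, Polynomial.aeval_X, mul_sub, ← e2]
  simpa using hj

end Pool.Agent.Lib.MP_57313b_al.Dia
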