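import Mathlib

/-! Definitions for the construction: good rings, promises, stages. All ideals are LEFT ideals. -/

namespace Pool.Agent.Lib.MP_57313b_al.Dia

section
variable (F : Type) [Field F]

/-- von Neumann regular -/
def Reg (A : Type*) [Ring A] : Prop := ∀ a : A, ∃ x, a * x * a = a

/-- purely infinite simple -/
def PI (A : Type*) [Ring A] : Prop := ∀ x : A, x ≠ 0 → ∃ a b, a * x * b = 1

/-- infinite frames -/
def Fr (A : Type*) [Ring A] : Prop :=
  ∃ x y : ℕ → A, ∀ i j, y i * x j = if i = j then 1 else 0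

/-- maximal left ideal, elementwise -/
def Mx {A : Type*} [Ring A] (N : Ideal A) : Prop := 1 ∉ N ∧ ∀ x ∉ N, ∃ z, z * x - 1 ∈ N

/-- maximal left ideal whose simple module has only scalar endomorphisms -/
def Pt {A : Type*} [Ring A] [Algebra F A] (N : Ideal A) : Prop :=
  Mx N ∧ ∀ x, (∀ m ∈ N, m * x ∈ N) → ∃ c : F, x - algebraMap F A c ∈ N

/-- `A / I` has no nonzero element killed by `M` -/
def NS {A : Type*} [Ring A] (M I : Ideal A) : Prop := ∀ x, (∀ m ∈ M, m * x ∈ I) → x ∈ I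

/-- `A / I` is uniform -/
def Unif {A : Type*} [Ring A] (I : Ideal A) : Prop :=
  ∀ x ∉ I, ∀ y ∉ I, ∃ a b, a * x - b * y ∈ I ∧ a * x ∉ I

/-- every nonzero cyclic submodule of `A / I` maps onto `A / P` -/
def Det {A : Type*} [Ring A] (P I : Ideal A) : Prop :=
  ∀ x ∉ I, ∃ v ∉ P, ∀ c, c * x ∈ I → c * v ∈ P

structure Pre (A : Type*) [Ring A] [Algebra F A] : Prop where
  ne : (1 : A) ≠ 0
  reg : Reg A
  pi : PI A
  fr : Fr A
  nc : ∀ a : A, (∀ c : F, a ≠ algebraMap F A c) → ∃ g h : A, g * h = 0 ∧ g * a * h ≠ 0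

structure Good {A : Type*} [Ring A] [Algebra F A] (M : Ideal A) : Prop where
  reg : Reg A
  pi : PI A
  fr : Fr A
  pt : Pt F M

/-- promise data -/
inductive Prom (A : Type) [Ring A] : Type
  | G (I : Ideal A) (S : Set (A × A))
  | Z (I : Ideal A) (d : A)

variable {F} in
def Prom.map {A C : Type} [Ring A] [Algebra F A] [Ring C] [Algebra F C] (φ : A →ₐ[F] C) :
    Prom A → Prom C
  | .G I S => .G (I.map φ) (Prod.map φ φ '' S)
  | .Z I d => .Z (I.map φ) (φ d)

/-- the part of a promise that passes to every extension -/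
def Prom.Stat {A : Type} [Ring A] [Algebra F A] (M : Ideal A) : Prom A → Prop
  | .G I S => ∀ p ∈ S, ∀ c, c * p.1 ∈ I → c * p.2 ∈ M
  | .Z I d => (∀ i ∈ I, i * d ∈ I) ∧ ∀ c : F, ∃ a, a * (d - algebraMap F A c) - 1 ∈ I

/-- the promise is kept at `x` -/
def Prom.Done {A : Type} [Ring A] (M : Ideal A) : Prom A → A → Prop
  | .G I S, x => x ∈ I ∨ ∃ p ∈ S, ∃ b z, x - b * p.1 ∈ I ∧ z * (b * p.2) - 1 ∈ M
  | .Z I d, x => x ∈ I ∨ (1 : A) ∈ Ideal.span (Set.range fun i : ℕ => x * d ^ i) ⊔ I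

def Prom.Holds {A : Type} [Ring A] [Algebra F A] (M : Ideal A) (π : Prom A) : Prop :=
  π.Stat F M ∧ ∀ x, π.Done M x

/-- idempotent fixing the generator of `A / N` -/
def Sm {A : Type*} [Ring A] (N : Ideal A) (g : A) : Prop := g * g = g ∧ 1 - g ∈ N

/-- the order of idempotents -/
def Le {A : Type*} [Ring A] (g₁ g : A) : Prop := g * g₁ = g₁ ∧ g₁ * g = g₁

/-- linearly independent modulo `N` -/
def IndM {A : Type*} [Ring A] [Algebra F A] (N : Ideal A) {κ : Type*} [Fintype κ] (e : κ → A) :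
    Prop :=
  ∀ c : κ → F, ∑ k, c k • e k ∈ N → ∀ k, c k = 0

variable {F} in
/-- the family `γ` acts independently on `V` -/
def Ind {A U : Type*} [Ring A] [AddCommGroup U] [Module A U] [Module F U] (V : Submodule F U)
    {κ : Type*} [Fintype κ] (γ : κ → A) : Prop :=
  ∀ v : κ → U, (∀ k, v k ∈ V) → ∑ k, γ k • v k = 0 → ∀ k, v k = 0

/-- the left ideal `L` is generated by an idempotent -/
def Gen {C : Type*} [Ring C] (L : Ideal C) : Prop := ∃ f ∈ L, ∀ y ∈ L, y * f = y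

variable {F}

/-- `T` is generated by the image of `A` and the `τ k` -/
def Gens {A T : Type} [Ring A] [Algebra F A] [Ring T] [Algebra F T] (ι : A →ₐ[F] T) {κ : Type}
    (τ : κ → T) : Prop :=
  ∀ S : Subalgebra F T, (∀ a, ι a ∈ S) → (∀ k, τ k ∈ S) → ∀ x, x ∈ S

/-- `T` is obtained from `A` by freely adjoining `t` -/
structure IsFree {A T : Type} [Ring A] [Algebra F A] [Ring T] [Algebra F T] (ι : A →ₐ[F] T)
    (t : T) : Prop where
  gens : Gens ι fun _ : Unit => t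
  lift : ∀ (C : Type) [Ring C] [Algebra F C] (φ : A →ₐ[F] C) (c : C),
    ∃ θ : T →ₐ[F] C, (∀ a, θ (ι a) = φ a) ∧ θ t = c

/-- `T` is obtained from `A` by universally adjoining an isomorphism between the idempotents
`g false` and `g true` -/
structure IsUniv {A T : Type} [Ring A] [Algebra F A] [Ring T] [Algebra F T] (ι : A →ₐ[F] T)
    (g : Bool → A) (τ : Bool → T) : Prop where
  gens : Gens ι τ
  rel1 : ∀ ε, ι (g (!ε)) * τ ε * ι (g ε) = τ ε
  rel2 : ∀ ε, τ (!ε) * τ ε = ι (g ε)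
  lift : ∀ (C : Type) [Ring C] [Algebra F C] (φ : A →ₐ[F] C) (σ : Bool → C),
    (∀ ε, φ (g (!ε)) * σ ε * φ (g ε) = σ ε) → (∀ ε, σ (!ε) * σ ε = φ (g ε)) →
    ∃ θ : T →ₐ[F] C, (∀ a, θ (ι a) = φ a) ∧ ∀ ε, θ (τ ε) = σ ε

/-- the shape of the free witness -/
def Wit {A T : Type} [Ring A] [Algebra F A] [Ring T] [Algebra F T] (I : Ideal A) (ι : A →ₐ[F] T)
    (t r : T) : Prop :=
  ∃ (κ : Type) (_ : Fintype κ) (c : A) (δ γ a : κ → A),
    r = ι c + ∑ k, ι (δ k) * t * ι (γ k) ∧ ∑ k, δ k * a k = 1 ∧ IndM F I γ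

variable (F) in
/-- a countable algebra over `A` with two marked elements -/
structure Stg (A : Type) [Ring A] [Algebra F A] : Type 1 where
  T : Type
  [ring : Ring T]
  [alg : Algebra F T]
  [cnt : Countable T]
  ι : A →ₐ[F] T
  r : Bool → T

attribute [instance] Stg.ring Stg.alg Stg.cnt

structure Stg.Hom {A : Type} [Ring A] [Algebra F A] (X Y : Stg F A) where
  f : X.T →ₐ[F] Y.T
  hι : ∀ a, f (X.ι a) = Y.ι a
  hr : ∀ ε, f (X.r ε) = Y.r ε

def Stg.Hom.comp {A : Type} [Ring A] [Algebra F A] {X Y Z : Stg F A} (θ' : Y.Hom Z)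
    (θ : X.Hom Y) : X.Hom Z where
  f := θ'.f.comp θ.f
  hι a := by simp [θ.hι, θ'.hι]
  hr ε := by simp [θ.hr, θ'.hr]

def Stg.Hom.id {A : Type} [Ring A] [Algebra F A] (X : Stg F A) : X.Hom X where
  f := AlgHom.id F _
  hι _ := rfl
  hr _ := rfl

variable (F) in
/-- hypotheses of the merge step: two non-isomorphic points -/
structure MH {A : Type} [Ring A] [Algebra F A] (M : Bool → Ideal A) : Prop where
  reg : Reg A
  pi : PI A
  fr : Fr A
  pt : ∀ ε, Pt F (M ε)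
  ns : ∀ ε, NS (M ε) (M (!ε))

variable (F) in
/-- a stage of the merge step -/
structure MS {A : Type} [Ring A] [Algebra F A] (M : Bool → Ideal A) : Type 1
    extends Stg F A where
  g : Bool → A
  τ : Bool → T
  sm : ∀ ε, Sm (M ε) (g ε)
  univ : IsUniv ι g τ
  inj : Function.Injective ι
  wit : ∀ ε, ∃ v, r ε = τ ε + ι v ∧ v * g ε = 0
  inv : ∀ ε, r (!ε) * r ε = 1

/-- a transition between stages of the merge step -/
structure MS.Tr {A : Type} [Ring A] [Algebra F A] {M : Bool → Ideal A} (X Y : MS F M)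
    extends X.toStg.Hom Y.toStg where
  w : Bool → A
  le : ∀ ε, Le (Y.g ε) (X.g ε)
  hτ : ∀ ε, f (X.τ ε) = Y.ι (w ε) + Y.τ ε
  hw : ∀ ε, w ε * Y.g ε = 0 ∧ Y.g (!ε) * w ε = 0

end

end Pool.Agent.Lib.MP_57313b_al.Dia
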