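import Pool.Agent.Lib.MP_57313b_al.Dia.Lim

/-! The first ring. -/

namespace Pool.Agent.Lib.MP_57313b_al.Dia

variable {F : Type} [Field F]

section End
variable {V : Type} [AddCommGroup V] [Module F V]

/-- endomorphism rings of vector spaces are regular -/
theorem br_reg (f : Module.End F V) : ∃ g : Module.End F V, f * g * f = f := by
  obtain ⟨s, hs⟩ := f.rangeRestrict.exists_rightInverse_of_surjective f.range_rangeRestrict
  obtain ⟨g, hg⟩ := LinearMap.exists_extend s
  refine ⟨g, ?_⟩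
  ext v
  have h1 : g (f v) = s (f.rangeRestrict v) := LinearMap.congr_fun hg (f.rangeRestrict v)
  have h2 : f.rangeRestrict (s (f.rangeRestrict v)) = f.rangeRestrict v :=
    LinearMap.congr_fun hs (f.rangeRestrict v)
  have h3 : f (s (f.rangeRestrict v)) = f v := congrArg Subtype.val h2
  simp only [Module.End.mul_apply, h1, h3]

/-- the diagonal action on `ℕ →₀ V` -/
noncomputable def brDiag (f : Module.End F V) : Module.End F (ℕ →₀ V) :=
  Finsupp.mapRange.linearMap f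

theorem brDiag_apply (f : Module.End F V) (w : ℕ →₀ V) (n : ℕ) : brDiag f w n = f (w n) := by
  simp [brDiag]

theorem brDiag_mul (f g : Module.End F V) : brDiag (f * g) = brDiag f * brDiag g := by
  refine LinearMap.ext fun w => Finsupp.ext fun n => ?_
  simp only [Module.End.mul_apply, brDiag_apply]

theorem brDiag_zero : brDiag (0 : Module.End F V) = 0 := by
  refine LinearMap.ext fun w => Finsupp.ext fun n => ?_
  simp [brDiag_apply]

/-- a countable space embeds into `ℕ →₀ F` -/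
theorem br_embed (W : Type) [AddCommGroup W] [Module F W] [Countable W] :
    ∃ j : W →ₗ[F] ℕ →₀ F, Function.Injective j := by
  let b := Module.Basis.ofVectorSpace F W
  obtain ⟨e, he⟩ := exists_injective_nat (Module.Basis.ofVectorSpaceIndex F W)
  refine ⟨(Finsupp.lmapDomain F F e).comp b.repr.toLinearMap, ?_⟩
  exact (Finsupp.mapDomain_injective he).comp b.repr.injective

/-- a nonzero diagonal operator generates the unit ideal in one step -/
theorem br_pi [Countable V] {f : Module.End F V} (hf : f ≠ 0) :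
    ∃ a b : Module.End F (ℕ →₀ V), a * brDiag f * b = 1 := by
  obtain ⟨v, hv⟩ : ∃ v, f v ≠ 0 := by
    by_contra h
    push Not at h
    exact hf (LinearMap.ext h)
  obtain ⟨j, hj⟩ := br_embed (F := F) (ℕ →₀ V)
  let b : Module.End F (ℕ →₀ V) :=
    (Finsupp.mapRange.linearMap (LinearMap.toSpanSingleton F V v)).comp j
  have hb : LinearMap.ker (brDiag f * b) = ⊥ := by
    rw [LinearMap.ker_eq_bot']
    intro w hw
    apply hj
    rw [map_zero]
    ext n
    have h1 : f ((j w n) • v) = 0 := by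
      have := congrArg (fun u : ℕ →₀ V => u n) hw
      simpa [b, brDiag_apply] using this
    rw [map_smul, smul_eq_zero] at h1
    simpa using h1.resolve_right hv
  obtain ⟨a, ha⟩ := LinearMap.exists_leftInverse_of_injective _ hb
  exact ⟨a, b, by rw [mul_assoc]; exact ha⟩

/-- frames in `End (ℕ →₀ V)` -/
theorem br_fr : Fr (Module.End F (ℕ →₀ V)) := by
  have hp : ∀ i : ℕ, Function.Injective (Nat.pair i) := fun i a b h => (Nat.pair_eq_pair.1 h).2
  refine ⟨fun j => Finsupp.lmapDomain V F (Nat.pair j),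
    fun i => Finsupp.lcomapDomain (Nat.pair i) (hp i), fun i j => ?_⟩
  refine LinearMap.ext fun w => Finsupp.ext fun n => ?_
  simp only [Module.End.mul_apply, Finsupp.lmapDomain_apply, Finsupp.lcomapDomain_apply,
    Finsupp.comapDomain_apply]
  split_ifs with h
  · subst h
    rw [Finsupp.mapDomain_apply (hp i)]
    rfl
  · rw [Finsupp.mapDomain_of_notMem_range]
    · rfl
    · rintro ⟨m, hm⟩
      exact h (Nat.pair_eq_pair.1 hm).1.symm

end End

/-- a stage acts on `ℕ →₀ X.T` -/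
noncomputable def brRho (X : Stg F F) : X.T →ₐ[F] Module.End F (ℕ →₀ X.T) :=
  Algebra.lsmul F F (ℕ →₀ X.T)

theorem brRho_eq (X : Stg F F) (x : X.T) : brRho X x = brDiag (LinearMap.mulLeft F x) := by
  refine LinearMap.ext fun w => Finsupp.ext fun n => ?_
  simp [brRho, brDiag_apply]

/-- adjoining countably many elements of an overring to a stage -/
theorem br_ext [Countable F] (X : Stg F F) {E : Type} [Ring E] [Algebra F E] (hE : (1 : E) ≠ 0)
    (ρ : X.T →ₐ[F] E) (s : Set E) (hs : s.Countable) :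
    ∃ (Y : Stg F F) (θ : X.Hom Y) (φ : Y.T →ₐ[F] E),
      (1 : Y.T) ≠ 0 ∧ Function.Injective φ ∧ (∀ x, φ (θ.f x) = ρ x) ∧ ∀ a ∈ s, ∃ y, φ y = a := by
  let S := Algebra.adjoin F (Set.range ρ ∪ s)
  have hc : Countable S := by
    have h1 : (Set.range ρ ∪ s).Countable := (Set.countable_range _).union hs
    rw [← Cardinal.mk_le_aleph0_iff]
    refine (Algebra.cardinalMk_adjoin_le F _).trans ?_
    refine sup_le (sup_le Cardinal.mk_le_aleph0 ?_) le_rfl
    exact Cardinal.mk_le_aleph0_iff.2 h1.to_subtype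
  let θ : X.T →ₐ[F] S := ρ.codRestrict S fun x => Algebra.subset_adjoin (Or.inl ⟨x, rfl⟩)
  let Y : Stg F F := { T := S, ι := θ.comp X.ι, r := fun ε => θ (X.r ε) }
  exact ⟨Y, ⟨θ, fun _ => rfl, fun _ => rfl⟩, S.val, fun h => hE (congrArg Subtype.val h),
    Subtype.val_injective, fun _ => rfl,
    fun a ha => ⟨⟨a, Algebra.subset_adjoin (Or.inr ha)⟩, rfl⟩⟩

theorem br_one_ne (X : Stg F F) (hX : (1 : X.T) ≠ 0) : (1 : Module.End F (ℕ →₀ X.T)) ≠ 0 := by
  intro h1
  have h2 := LinearMap.congr_fun h1 (Finsupp.single 0 1)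
  simp only [Module.End.one_apply, LinearMap.zero_apply, Finsupp.single_eq_zero] at h2
  exact hX h2

/-- the four tasks -/
def brDone (τ : Fin 4) (X : Stg F F) (x : X.T) : Prop :=
  (τ = 0 → ∃ y, x * y * x = x) ∧ (τ = 1 → x = 0 ∨ ∃ a b, a * x * b = 1) ∧
  (τ = 2 → ∃ u v : ℕ → X.T, ∀ i j, v i * u j = if i = j then 1 else 0) ∧
  (τ = 3 → (∃ c, x = algebraMap F X.T c) ∨ ∃ g a b, g * g = 0 ∧ a * (g * x * g) * b = 1)

theorem brDone_mono (τ : Fin 4) (X Y : Stg F F) (θ : X.Hom Y) (x : X.T) (h : brDone τ X x) :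
    brDone τ Y (θ.f x) := by
  obtain ⟨h0, h1, h2, h3⟩ := h
  refine ⟨fun e => ?_, fun e => ?_, fun e => ?_, fun e => ?_⟩
  · obtain ⟨y, hy⟩ := h0 e
    exact ⟨θ.f y, by rw [← map_mul, ← map_mul, hy]⟩
  · rcases h1 e with h | ⟨a, b, h⟩
    · exact Or.inl (by rw [h, map_zero])
    · exact Or.inr ⟨θ.f a, θ.f b, by rw [← map_mul, ← map_mul, h, map_one]⟩
  · obtain ⟨u, v, h⟩ := h2 e
    refine ⟨fun i => θ.f (u i), fun i => θ.f (v i), fun i j => ?_⟩
    rw [← map_mul, h]
    split_ifs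
    · exact map_one _
    · exact map_zero _
  · rcases h3 e with ⟨c, h⟩ | ⟨g, a, b, h, h'⟩
    · exact Or.inl ⟨c, by rw [h, AlgHom.commutes]⟩
    · refine Or.inr ⟨θ.f g, θ.f a, θ.f b, by rw [← map_mul, h, map_zero], ?_⟩
      rw [← map_mul, ← map_mul, ← map_mul, ← map_mul, h', map_one]

/-- a square zero operator `g` with `g x g ≠ 0` -/
theorem br_nc {T : Type} [Ring T] [Algebra F T] {x : T} (hx : ∀ c, x ≠ algebraMap F T c)
    (h1 : (1 : T) ≠ 0) :
    ∃ g : Module.End F T, g * g = 0 ∧ g * LinearMap.mulLeft F x * g ≠ 0 := by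
  have hx' : x ∉ Submodule.span F {(1 : T)} := by
    intro h
    obtain ⟨c, hc⟩ := Submodule.mem_span_singleton.1 h
    exact hx c (by rw [← hc, Algebra.algebraMap_eq_smul_one])
  obtain ⟨f, hf, hf'⟩ := Submodule.exists_dual_map_eq_bot_of_notMem hx' inferInstance
  have hf1 : f 1 = 0 := by
    have : f 1 ∈ (Submodule.span F {(1 : T)}).map f :=
      Submodule.mem_map_of_mem (Submodule.mem_span_singleton_self _)
    rwa [hf', Submodule.mem_bot] at this
  refine ⟨f.smulRight 1, ?_, fun h => ?_⟩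
  · ext w
    simp [hf1]
  · have := LinearMap.congr_fun h x
    simp only [Module.End.mul_apply, LinearMap.smulRight_apply, LinearMap.mulLeft_apply,
      mul_one, map_smul, LinearMap.zero_apply, smul_eq_zero] at this
    rcases this with h | h | h
    · exact hf h
    · exact hf h
    · exact h1 h

theorem brDone_step [Countable F] (X : Stg F F) (hX : (1 : X.T) ≠ 0) (τ : Fin 4) (x : X.T) :
    ∃ Y : Stg F F, (1 : Y.T) ≠ 0 ∧ ∃ θ : X.Hom Y, brDone τ Y (θ.f x) := by
  obtain ⟨y₀, hy₀⟩ := br_reg (brRho X x)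
  obtain ⟨u₀, v₀, huv⟩ := br_fr (F := F) (V := X.T)
  obtain ⟨a₀, b₀, hab⟩ : ∃ a b, x = 0 ∨ a * brRho X x * b = 1 := by
    by_cases h : x = 0
    · exact ⟨0, 0, Or.inl h⟩
    · have : LinearMap.mulLeft F x ≠ 0 := fun h' => h (by simpa using LinearMap.congr_fun h' 1)
      obtain ⟨a, b, h'⟩ := br_pi this
      exact ⟨a, b, Or.inr (by rw [brRho_eq, h'])⟩
  obtain ⟨g₀, c₀, d₀, hg⟩ : ∃ g a b, (∃ c, x = algebraMap F X.T c) ∨
      (g * g = 0 ∧ a * (g * brRho X x * g) * b = 1) := by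
    by_cases h : ∃ c, x = algebraMap F X.T c
    · exact ⟨0, 0, 0, Or.inl h⟩
    · push Not at h
      obtain ⟨g, h1, h2⟩ := br_nc h hX
      obtain ⟨a, b, h'⟩ := br_pi h2
      refine ⟨brDiag g, a, b, Or.inr ⟨by rw [← brDiag_mul, h1, brDiag_zero], ?_⟩⟩
      rw [brRho_eq, ← brDiag_mul, ← brDiag_mul, h']
  obtain ⟨Y, θ, φ, hY, hφ, hθ, hs⟩ := br_ext X (br_one_ne X hX) (brRho X)
    (({y₀, a₀, b₀, g₀, c₀, d₀} ∪ Set.range u₀) ∪ Set.range v₀)
    (((Set.toFinite _).countable.union (Set.countable_range _)).union (Set.countable_range _))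
  obtain ⟨y, rfl⟩ := hs y₀ (by simp)
  obtain ⟨a, rfl⟩ := hs a₀ (by simp)
  obtain ⟨b, rfl⟩ := hs b₀ (by simp)
  obtain ⟨g, rfl⟩ := hs g₀ (by simp)
  obtain ⟨c, rfl⟩ := hs c₀ (by simp)
  obtain ⟨d, rfl⟩ := hs d₀ (by simp)
  choose u hu using fun i => hs (u₀ i) (Or.inl (Or.inr ⟨i, rfl⟩))
  choose v hv using fun i => hs (v₀ i) (Or.inr ⟨i, rfl⟩)
  refine ⟨Y, hY, θ, fun _ => ⟨y, hφ ?_⟩, fun _ => ?_, fun _ => ⟨u, v, fun i j => hφ ?_⟩,
    fun _ => ?_⟩
  · rw [map_mul, map_mul, hθ, hy₀]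
  · rcases hab with h | h
    · exact Or.inl (by rw [h, map_zero])
    · exact Or.inr ⟨a, b, hφ (by rw [map_mul, map_mul, hθ, h, map_one])⟩
  · rw [map_mul, hu, hv, huv]
    split_ifs
    · exact (map_one φ).symm
    · exact (map_zero φ).symm
  · rcases hg with ⟨e, h⟩ | ⟨h, h'⟩
    · exact Or.inl ⟨e, by rw [h, AlgHom.commutes]⟩
    · refine Or.inr ⟨g, c, d, hφ (by rw [map_mul, h, map_zero]), hφ ?_⟩
      rw [map_mul, map_mul, map_mul, map_mul, hθ, h', map_one]

/-- The first ring. Use `exists_tasks` over `A = F` with `Adm X` = nontrivial. For a stage `X`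
let `W = ℕ →₀ X.T` (countable dimension), `X.T` acting diagonally; `End W` is regular, a nonzero
`T ∈ End X.T` acting diagonally has `a T b = 1` in `End W`; `Y` is the subalgebra generated by
`X.T` and countably many witnesses. Tasks: regular, `PI`, frames, and
`(∃ c, x = algebraMap c) ∨ ∃ g a b, g g = 0 ∧ a (g x g) b = 1` (for `x ∉ F`, `g w = f w • 1`
with `f 1 = 0`, `f x ≠ 0`). -/
theorem exists_pre [Countable F] :
    ∃ (A : Type) (_ : Ring A) (_ : Algebra F A) (_ : Countable A), Pre F A := by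
  obtain ⟨B, X, f, hD, hA, -, hker⟩ := exists_tasks (F := F) (A := F)
    (fun X => (1 : X.T) ≠ 0) (Fin 4) brDone brDone_mono brDone_step
    { T := F, ι := AlgHom.id F F, r := fun _ => 0 } one_ne_zero
  have h1 : (1 : B.T) ≠ 0 := by
    intro h
    obtain ⟨m, θ, -, hθ⟩ := hker 0 1 (by rw [map_one, h])
    exact hA m (by rw [← hθ, map_one])
  refine ⟨B.T, inferInstance, inferInstance, inferInstance, h1, fun a => (hD 0 a).1 rfl,
    fun x hx => ((hD 1 x).2.1 rfl).resolve_left hx, (hD 2 0).2.2.1 rfl, fun a ha => ?_⟩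
  rcases (hD 3 a).2.2.2 rfl with ⟨c, h⟩ | ⟨g, u, v, h, h'⟩
  · exact absurd h (ha c)
  · refine ⟨g, g, h, fun h0 => h1 ?_⟩
    rw [← h', h0, mul_zero, zero_mul]

end Pool.Agent.Lib.MP_57313b_al.Dia
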