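import Pool.Agent.Lib.MP_57313b_al.Dia.IDual

/-! From the outside view to the internal statements. Internal right modules over the ring with
multiplication `m` (which is the opposite of the multiplication of `R`) are left `R`-modules. -/

namespace Pool.Agent.Lib.MP_57313b_al.Dia

open Pool.Agent.Shared.Forcing

universe u v w

set_option synthInstance.maxSize 4000
set_option linter.unusedSectionVars false

variable {M : Type u} {E : M → M → Prop} [Kit E] {R : Type v} [Ring R] [Obj E R]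

/-- `p` and `s` present the addition and the action of `N` -/
structure Rep (E : M → M → Prop) (R : Type v) [Ring R] [Obj E R] (N : Type w) [AddCommGroup N]
    [Module R N] [Obj E N] (p s : M) : Prop where
  add : ∀ (x y : N) z, Op E p (io E x) (io E y) z ↔ z = io E (x + y)
  smul : ∀ (x : N) (r : R) z, Op E s (io E x) (io E r) z ↔ z = io E (r • x)

/-- an internal module, seen from outside: the type `{x // E x N}` with operations chosen from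
`IsOp` (`AddGroup.ofLeftAxioms`, `Module.ofMinimalAxioms`) -/
theorem IsMod.outside {a m N p s : M} (hR : Rep E R R a m) (h : IsMod E (car E R) a m N p s) :
    ∃ (N' : Type u) (_ : AddCommGroup N') (_ : Module R N') (_ : Obj E N'),
      car E N' = N ∧ Rep E R N' p s := by
  obtain ⟨⟨hp, hass, hcomm, o, ho, hon⟩, hs, h1, h2, h3, h4⟩ := h
  choose ad had1 had2 using hp
  choose sm hsm1 hsm2 using hs
  choose ho1 ng hng1 hng2 using hon
  let N' := {x // E x N}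
  letI : Add N' := ⟨fun x y => ⟨ad x.1 y.1 x.2 y.2, had1 _ _ _ _⟩⟩
  letI : Zero N' := ⟨⟨o, ho⟩⟩
  letI : Neg N' := ⟨fun x => ⟨ng x.1 x.2, hng1 _ _⟩⟩
  letI : SMul R N' := ⟨fun r x => ⟨sm x.1 (io E r) x.2 (io_el r), hsm1 _ _ _ _⟩⟩
  have A : ∀ (x y : N') z, Op E p x.1 y.1 z ↔ z = (x + y).1 := fun x y z => had2 _ _ x.2 y.2 z
  have S : ∀ (x : N') (r : R) z, Op E s x.1 (io E r) z ↔ z = (r • x).1 := fun x r z =>
    hsm2 _ _ x.2 (io_el r) z
  have A' : ∀ x y : N', Op E p x.1 y.1 (x + y).1 := fun x y => (A x y _).2 rfl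
  have S' : ∀ (x : N') (r : R), Op E s x.1 (io E r) (r • x).1 := fun x r => (S x r _).2 rfl
  letI G : AddGroup N' := AddGroup.ofLeftAxioms
    (fun x y z => Subtype.ext ((A x (y + z) _).1
      (hass _ _ _ _ _ _ x.2 y.2 z.2 (A' x y) (A' y z) (A' (x + y) z))))
    (fun x => Subtype.ext ((A 0 x _).1 (ho1 _ x.2)).symm)
    (fun x => Subtype.ext ((A (-x) x _).1 (hng2 _ x.2)).symm)
  letI : AddCommGroup N' :=
    { G with add_comm := fun x y => Subtype.ext ((A y x _).1 (hcomm _ _ _ x.2 y.2 (A' x y))) }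
  letI : Module R N' := Module.ofMinimalAxioms
    (fun r x y => Subtype.ext ((S (x + y) r _).1 (h1 _ _ _ _ _ _ _ x.2 y.2 (io_el r) (A' x y)
      (S' x r) (S' y r) (A' (r • x) (r • y)))).symm)
    (fun r r' x => Subtype.ext ((S x (r + r') _).1 (h2 _ _ _ _ _ _ _ x.2 (io_el r) (io_el r')
      ((hR.add r r' _).2 rfl) (S' x r) (S' x r') (A' (r • x) (r' • x)))).symm)
    (fun r r' x => Subtype.ext ((S x (r * r') _).1 (h3 _ _ _ _ _ _ x.2 (io_el r') (io_el r)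
      ((hR.smul r' r _).2 rfl) (S' x r') (S' (r' • x) r))).symm)
    (fun x => Subtype.ext ((S x 1 _).1 (h4 _ _ (io_el 1) (fun r hr => by
      obtain ⟨r, rfl⟩ := el_car.1 hr
      exact (hR.smul 1 r _).2 (by rw [smul_eq_mul, mul_one])) x.2)).symm)
  letI : Obj E N' := ⟨Subtype.val, Subtype.val_injective, N, fun z =>
    ⟨fun hz => ⟨⟨z, hz⟩, rfl⟩, fun ⟨x, hx⟩ => hx ▸ x.2⟩⟩
  exact ⟨N', inferInstance, inferInstance, inferInstance, rfl, A, S⟩

section Br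

variable {N : Type w} [AddCommGroup N] [Module R N] [Obj E N] {p s : M}

theorem Rep.iadd (h : Rep E R N p s) : IAdd E N := ⟨IF.of_op _ p h.add⟩

theorem Rep.ismul (h : Rep E R N p s) : ISMul E R N :=
  haveI := IF.of_op (fun (x : N) (r : R) => r • x) s h.smul
  ⟨IF.comp (fun q : N × R => q.2 • q.1) fun q : R × N => (q.2, q.1)⟩

theorem br_rep [IAdd E N] [ISMul E R N] : ∃ p s, Rep E R N p s := by
  obtain ⟨p, hp⟩ := IF.op (E := E) fun x y : N => x + y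
  obtain ⟨s, hs⟩ := IF.op (E := E) fun (x : N) (r : R) => r • x
  exact ⟨p, s, hp, hs⟩

omit [Kit E] in
theorem br_all {P : M → Prop} : (∀ z, E z (car E N) → P z) ↔ ∀ x : N, P (io E x) :=
  ⟨fun h x => h _ (io_el x), fun h z hz => by obtain ⟨x, rfl⟩ := el_car.1 hz; exact h x⟩

omit [Kit E] in
theorem Rep.isAb (h : Rep E R N p s) : IsAb E (car E N) p := by
  refine ⟨fun x y hx hy => ?_, fun x y z u v w hx hy hz a b c => ?_, fun x y u hx hy a => ?_,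
    io E (0 : N), io_el _, fun x hx => ?_⟩
  · obtain ⟨x, rfl⟩ := el_car.1 hx
    obtain ⟨y, rfl⟩ := el_car.1 hy
    exact ⟨_, io_el (x + y), h.add x y⟩
  · obtain ⟨x, rfl⟩ := el_car.1 hx
    obtain ⟨y, rfl⟩ := el_car.1 hy
    obtain ⟨z, rfl⟩ := el_car.1 hz
    rw [h.add] at a b
    subst a b
    rw [h.add] at c ⊢
    rw [c, add_assoc]
  · obtain ⟨x, rfl⟩ := el_car.1 hx
    obtain ⟨y, rfl⟩ := el_car.1 hy
    rw [h.add] at a ⊢
    rw [a, add_comm]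
  · obtain ⟨x, rfl⟩ := el_car.1 hx
    exact ⟨(h.add _ _ _).2 (by rw [zero_add]), _, io_el (-x),
      (h.add _ _ _).2 (by rw [neg_add_cancel])⟩

omit [Kit E] in
theorem Rep.isMod {a m : M} (hR : Rep E R R a m) (h : Rep E R N p s) :
    IsMod E (car E R) a m (car E N) p s := by
  refine ⟨h.isAb, fun x r hx hr => ?_, fun x y r u v w t hx hy hr a b c d => ?_,
    fun x r r' u v w t hx hr hr' a b c d => ?_, fun x r r' u v w hx hr hr' a b c => ?_,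
    fun e x he a hx => ?_⟩
  · obtain ⟨x, rfl⟩ := el_car.1 hx
    obtain ⟨r, rfl⟩ := el_car.1 hr
    exact ⟨_, io_el (r • x), h.smul x r⟩
  · obtain ⟨x, rfl⟩ := el_car.1 hx
    obtain ⟨y, rfl⟩ := el_car.1 hy
    obtain ⟨r, rfl⟩ := el_car.1 hr
    rw [h.add] at a
    rw [h.smul] at b c
    subst a b c
    rw [h.add] at d
    rw [h.smul, d, smul_add]
  · obtain ⟨x, rfl⟩ := el_car.1 hx
    obtain ⟨r, rfl⟩ := el_car.1 hr
    obtain ⟨r', rfl⟩ := el_car.1 hr'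
    rw [hR.add] at a
    rw [h.smul] at b c
    subst a b c
    rw [h.add] at d
    rw [h.smul, d, add_smul]
  · obtain ⟨x, rfl⟩ := el_car.1 hx
    obtain ⟨r, rfl⟩ := el_car.1 hr
    obtain ⟨r', rfl⟩ := el_car.1 hr'
    rw [hR.smul] at a
    rw [h.smul] at b
    subst a b
    rw [h.smul] at c ⊢
    rw [c, smul_eq_mul, mul_smul]
  · obtain ⟨x, rfl⟩ := el_car.1 hx
    obtain ⟨e, rfl⟩ := el_car.1 he
    have := io_inj.1 ((hR.smul _ _ _).1 (a _ (io_el (1 : R))))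
    rw [smul_eq_mul, one_mul] at this
    rw [h.smul, ← this, one_smul]

/-- `A` is the exact representative of `S` -/
def Ex (E : M → M → Prop) {α : Type w} [Obj E α] (S : Set α) (A : M) : Prop :=
  ∀ z, E z A ↔ ∃ a ∈ S, io E a = z

omit [Kit E] in
theorem Ex.el {α : Type w} [Obj E α] {S : Set α} {A : M} (h : Ex E S A) (a : α) :
    E (io E a) A ↔ a ∈ S := by
  rw [h]; simp [io_inj]

omit [Kit E] in
theorem br_ex_top : Ex E ((⊤ : Submodule R N) : Set N) (car E N) := fun z => by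
  rw [el_car (E := E)]; simp

omit [Kit E] in
theorem Rep.isSub (h : Rep E R N p s) (S : Submodule R N) {A : M} (hA : Ex E (S : Set N) A) :
    IsSub E (car E R) (car E N) p s A := by
  refine ⟨fun z hz => ?_, ⟨_, (hA.el 0).2 S.zero_mem⟩, fun x y z hx hy a => ?_,
    fun x r z hx hr a => ?_⟩
  · obtain ⟨x, -, rfl⟩ := (hA z).1 hz
    exact io_el x
  · obtain ⟨x, hx', rfl⟩ := (hA _).1 hx
    obtain ⟨y, hy', rfl⟩ := (hA _).1 hy
    rw [(h.add _ _ _).1 a, hA.el]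
    exact S.add_mem hx' hy'
  · obtain ⟨x, hx', rfl⟩ := (hA _).1 hx
    obtain ⟨r, rfl⟩ := el_car.1 hr
    rw [(h.smul _ _ _).1 a, hA.el]
    exact S.smul_mem r hx'

omit [Kit E] in
theorem Rep.ofSub (h : Rep E R N p s) {A : M} (hA : IsSub E (car E R) (car E N) p s A) :
    ∃ S : Submodule R N, ISet E (S : Set N) ∧ Ex E (S : Set N) A := by
  obtain ⟨h1, ⟨x₀, hx₀⟩, h2, h3⟩ := hA
  obtain ⟨x₀, rfl⟩ := el_car.1 (h1 _ hx₀)
  refine ⟨{ carrier := {x | E (io E x) A}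
            add_mem' := fun hx hy => h2 _ _ _ hx hy ((h.add _ _ _).2 rfl)
            zero_mem' := h3 _ _ _ hx₀ (io_el (0 : R)) ((h.smul _ _ _).2 (by rw [zero_smul]))
            smul_mem' := fun r _ hx => h3 _ _ _ hx (io_el r) ((h.smul _ _ _).2 rfl) },
    ISet.trace A, fun z => ⟨fun hz => ?_, ?_⟩⟩
  · obtain ⟨x, rfl⟩ := el_car.1 (h1 _ hz)
    exact ⟨x, hz, rfl⟩
  · rintro ⟨x, hx, rfl⟩
    exact hx

variable {B : Type*} [AddCommGroup B] [Module R B] [Obj E B] {q t : M}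

theorem Ex.maps {Γ : Submodule R (B × N)} {g : M} (hg : Ex E (Γ : Set (B × N)) g) {x y : M} :
    Maps E g x y ↔ ∃ b n, (b, n) ∈ Γ ∧ io E b = x ∧ io E n = y := by
  rw [maps_iff, hg]
  simp only [io_prod, kp_inj]
  exact ⟨fun ⟨z, a, b⟩ => ⟨z.1, z.2, a, b⟩, fun ⟨b, n, a, c⟩ => ⟨(b, n), a, c⟩⟩

theorem br_graph_uniq {Γ : Submodule R (B × N)} (h1 : ∀ n, (0, n) ∈ Γ → n = 0) {b : B}
    {n n' : N} (a : (b, n) ∈ Γ) (a' : (b, n') ∈ Γ) : n = n' :=
  sub_eq_zero.1 (h1 _ (by simpa using Γ.sub_mem a a'))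

theorem br_isHom (hB : Rep E R B q t) (h : Rep E R N p s) {S : Submodule R B} {A : M}
    (hA : Ex E (S : Set B) A) {Γ : Submodule R (B × N)} {g : M} (hg : Ex E (Γ : Set (B × N)) g)
    (h1 : ∀ n, (0, n) ∈ Γ → n = 0) (h2 : ∀ b ∈ S, ∃ n, (b, n) ∈ Γ) :
    IsHom E (car E R) A q t (car E N) p s g := by
  refine ⟨fun x hx => ?_, fun x y z u v w _ _ a b c d => ?_, fun x r z u w _ hr a b c => ?_⟩
  · obtain ⟨x, hx', rfl⟩ := (hA _).1 hx
    obtain ⟨n, hn⟩ := h2 x hx'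
    refine ⟨_, io_el n, fun y' => ?_⟩
    rw [hg.maps]
    constructor
    · rintro ⟨b, n', a, e, rfl⟩
      rw [io_inj.1 e] at a
      rw [br_graph_uniq h1 a hn]
    · rintro rfl
      exact ⟨x, n, hn, rfl, rfl⟩
  · obtain ⟨x, u, b', rfl, rfl⟩ := hg.maps.1 b
    obtain ⟨y, v, c', rfl, rfl⟩ := hg.maps.1 c
    exact hg.maps.2 ⟨x + y, u + v, Γ.add_mem b' c', ((hB.add _ _ _).1 a).symm,
      ((h.add _ _ _).1 d).symm⟩
  · obtain ⟨x, u, b', rfl, rfl⟩ := hg.maps.1 b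
    obtain ⟨r, rfl⟩ := el_car.1 hr
    exact hg.maps.2 ⟨r • x, r • u, Γ.smul_mem r b', ((hB.smul _ _ _).1 a).symm,
      ((h.smul _ _ _).1 c).symm⟩

theorem br_ofHom (hB : Rep E R B q t) (h : Rep E R N p s) {S : Submodule R B}
    [ISet E (S : Set B)] {A : M} (hA : Ex E (S : Set B) A) {f : M}
    (hf : IsHom E (car E R) A q t (car E N) p s f) :
    ∃ Γ : Submodule R (B × N), ISet E (Γ : Set (B × N)) ∧ (∀ n, (0, n) ∈ Γ → n = 0) ∧
      (∀ b ∈ S, ∃ n, (b, n) ∈ Γ) ∧ (∀ b n, (b, n) ∈ Γ ↔ b ∈ S ∧ Maps E f (io E b) (io E n)) ∧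
      ∀ b ∈ S, ∀ y, Maps E f (io E b) y → ∃ n : N, io E n = y := by
  obtain ⟨h1, h2, h3⟩ := hf
  have h4 : ∀ b ∈ S, ∃ n : N, ∀ y', Maps E f (io E b) y' ↔ y' = io E n := fun b hb => by
    obtain ⟨y, hy, e⟩ := h1 _ ((hA.el b).2 hb)
    obtain ⟨n, rfl⟩ := el_car.1 hy
    exact ⟨n, e⟩
  have h0 : Maps E f (io E (0 : B)) (io E (0 : N)) := by
    obtain ⟨n, hn⟩ := h4 0 S.zero_mem
    exact h3 _ _ _ _ _ ((hA.el 0).2 S.zero_mem) (io_el (0 : R))
      ((hB.smul _ _ _).2 (by rw [zero_smul])) ((hn _).2 rfl) ((h.smul _ _ _).2 (by rw [zero_smul]))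
  let Γ : Submodule R (B × N) :=
    { carrier := {z | z.1 ∈ S ∧ Maps E f (io E z.1) (io E z.2)}
      add_mem' := fun a b => ⟨S.add_mem a.1 b.1, h2 _ _ _ _ _ _ ((hA.el _).2 a.1)
        ((hA.el _).2 b.1) ((hB.add _ _ _).2 rfl) a.2 b.2 ((h.add _ _ _).2 rfl)⟩
      zero_mem' := ⟨S.zero_mem, h0⟩
      smul_mem' := fun r _ a => ⟨S.smul_mem r a.1, h3 _ _ _ _ _ ((hA.el _).2 a.1) (io_el r)
        ((hB.smul _ _ _).2 rfl) a.2 ((h.smul _ _ _).2 rfl)⟩ }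
  refine ⟨Γ, ?_, fun n hn => ?_, fun b hb => ?_, fun _ _ => Iff.rfl, fun b hb y hy => ?_⟩
  · haveI : IP E fun z : B × N => E (io E z) f := ⟨f, fun _ => Iff.rfl⟩
    exact ISet.of_mem_iff Γ (fun z => z.1 ∈ S ∧ E (io E z) f) fun z =>
      and_congr_right fun _ => maps_iff
  · obtain ⟨n', hn'⟩ := h4 0 S.zero_mem
    exact io_inj.1 (((hn' _).1 hn.2).trans ((hn' _).1 h0).symm)
  · obtain ⟨n, hn⟩ := h4 b hb
    exact ⟨n, hb, (hn _).2 rfl⟩
  · obtain ⟨n, hn⟩ := h4 b hb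
    exact ⟨n, ((hn _).1 hy).symm⟩

variable {a m : M}

theorem br_injv [IAdd E R] [IMul E R] [IAdd E N] [ISMul E R N] (hR : Rep E R R a m)
    (h : Rep E R N p s) (hb : Baer E R (⊤ : Submodule R N)) :
    Injv E (car E R) a m (car E N) p s := by
  intro B q t A f hB' hA hf
  obtain ⟨B, _, _, _, rfl, hB⟩ := hB'.outside hR
  haveI := hB.iadd
  haveI := hB.ismul
  obtain ⟨S, _, hS⟩ := hB.ofSub hA
  obtain ⟨Γ, _, a1, -, a3, a4⟩ := br_ofHom hB h hS hf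
  haveI : ISet E ((⊤ : Submodule R N) : Set N) := ISet.of_mem_iff _ (fun _ => True) (by simp)
  obtain ⟨Γ', _, b1, b2, -, b4⟩ := hb.extend Γ a1 fun _ _ => trivial
  obtain ⟨g, hg⟩ := ISet.exact (E := E) (Γ' : Set (B × N))
  refine ⟨g, br_isHom hB h br_ex_top hg b2 fun b _ => b4 b, fun x y hx hy => ?_⟩
  obtain ⟨x, hx', rfl⟩ := (hS _).1 hx
  obtain ⟨n, rfl⟩ := a4 x hx' y hy
  exact (Ex.maps hg).2 ⟨x, n, b1 ((a3 x n).2 ⟨hx', hy⟩), rfl, rfl⟩

theorem br_baer [IAdd E R] [IMul E R] [IAdd E N] [ISMul E R N] (hR : Rep E R R a m)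
    (h : Rep E R N p s) (hb : Injv E (car E R) a m (car E N) p s) :
    Baer E R (⊤ : Submodule R N) := by
  intro Γ _ h1 _
  let S : Submodule R R := Γ.map (LinearMap.fst R R N)
  have hS : ∀ r, r ∈ S ↔ ∃ n, (r, n) ∈ Γ := fun r =>
    ⟨fun ⟨z, hz, e⟩ => ⟨z.2, e ▸ hz⟩, fun ⟨n, hn⟩ => ⟨(r, n), hn, rfl⟩⟩
  haveI : ISet E (S : Set R) := ISet.of_mem_iff S _ hS
  obtain ⟨A, hA⟩ := ISet.exact (E := E) (S : Set R)
  obtain ⟨f, hf⟩ := ISet.exact (E := E) (Γ : Set (R × N))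
  obtain ⟨g, hg, e⟩ := hb _ _ _ A f (hR.isMod hR) (hR.isSub S hA)
    (br_isHom hR h hA hf h1 fun b hb => (hS b).1 hb)
  haveI : ISet E ((⊤ : Submodule R R) : Set R) := ISet.of_mem_iff _ (fun _ => True) (by simp)
  obtain ⟨Γ', -, a1, a2, a3, -⟩ := br_ofHom hR h br_ex_top hg
  obtain ⟨n₀, hn₀⟩ := a2 1 trivial
  refine ⟨n₀, trivial, fun z hz => br_graph_uniq (b := z.1) a1 ?_ ?_⟩
  · exact (a3 _ _).2 ⟨trivial, e _ _ ((Ex.el hA _).2 ((hS _).2 ⟨z.2, hz⟩))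
      ((Ex.maps hf).2 ⟨_, _, hz, rfl, rfl⟩)⟩
  · simpa using Γ'.smul_mem z.1 hn₀

theorem br_ex_eq {S : Submodule R N} {A : M} (hA : Ex E (S : Set N) A) :
    A = car E N ↔ S = ⊤ := by
  constructor
  · rintro rfl
    exact eq_top_iff.2 fun x _ => (hA.el x).1 (io_el x)
  · rintro rfl
    exact Kit.ext _ _ fun z => (hA z).trans (br_ex_top z).symm

theorem br_indec (h : Rep E R N p s) :
    Indec E (car E R) (car E N) p s ↔ Nontrivial N ∧ Ind' E R N := by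
  refine and_congr ⟨fun ⟨x, y, hx, hy, e⟩ => ?_, fun ⟨x, y, e⟩ =>
    ⟨_, _, io_el x, io_el y, fun c => e (io_inj.1 c)⟩⟩ ⟨fun H A C _ _ hc => ?_, ?_⟩
  · obtain ⟨x, rfl⟩ := el_car.1 hx
    obtain ⟨y, rfl⟩ := el_car.1 hy
    exact ⟨x, y, fun c => e (by rw [c])⟩
  · obtain ⟨A', hA⟩ := ISet.exact (E := E) (A : Set N)
    obtain ⟨C', hC⟩ := ISet.exact (E := E) (C : Set N)
    rw [← br_ex_eq hA, ← br_ex_eq hC]
    refine H _ _ (h.isSub A hA) (h.isSub C hC) (br_all.2 fun z => ?_)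
    obtain ⟨x, hx, y, hy, rfl⟩ := Submodule.mem_sup.1 (hc.sup_eq_top ▸ Submodule.mem_top (x := z))
    refine ⟨_, _, (Ex.el hA x).2 hx, (Ex.el hC y).2 hy, (h.add _ _ _).2 rfl,
      fun x' y' hx'' hy'' e => ?_⟩
    obtain ⟨x', hx', rfl⟩ := (hA _).1 hx''
    obtain ⟨y', hy', rfl⟩ := (hC _).1 hy''
    have e1 := io_inj.1 ((h.add _ _ _).1 e)
    have e2 : x - x' = y' - y := by rw [sub_eq_sub_iff_add_eq_add, e1, add_comm]
    have e3 : x - x' = 0 := (Submodule.disjoint_def.1 hc.disjoint) _ (A.sub_mem hx hx')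
      (e2 ▸ C.sub_mem hy' hy)
    rw [sub_eq_zero.1 e3, sub_eq_zero.1 (e2.symm.trans e3)]
    exact ⟨rfl, rfl⟩
  · intro H A' C' hA hC hd
    obtain ⟨A, i1, hA⟩ := h.ofSub hA
    obtain ⟨C, i2, hC⟩ := h.ofSub hC
    rw [br_ex_eq hA, br_ex_eq hC]
    refine H A C i1 i2 ⟨Submodule.disjoint_def.2 fun z h1 h2 => ?_,
      codisjoint_iff.2 (eq_top_iff.2 fun z _ => ?_)⟩
    · obtain ⟨x, y, -, -, -, e⟩ := hd _ (io_el z)
      have e1 := (e _ _ ((hA.el z).2 h1) ((hC.el 0).2 C.zero_mem)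
        ((h.add _ _ _).2 (by rw [add_zero]))).1
      have e2 := (e _ _ ((hA.el 0).2 A.zero_mem) ((hC.el z).2 h2)
        ((h.add _ _ _).2 (by rw [zero_add]))).1
      exact io_inj.1 (e1.trans e2.symm)
    · obtain ⟨x, y, hx', hy', e, -⟩ := hd _ (io_el z)
      obtain ⟨x, hx, rfl⟩ := (hA _).1 hx'
      obtain ⟨y, hy, rfl⟩ := (hC _).1 hy'
      rw [io_inj.1 ((h.add _ _ _).1 e)]
      exact Submodule.add_mem_sup hx hy

theorem br_iso (hB : Rep E R B q t) (h : Rep E R N p s) (Γ : Submodule R (B × N))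
    [ISet E (Γ : Set (B × N))] (h1 : ∀ n, (0, n) ∈ Γ → n = 0) (h2 : ∀ b, (b, 0) ∈ Γ → b = 0)
    (h3 : ∀ b, ∃ n, (b, n) ∈ Γ) (h4 : ∀ n, ∃ b, (b, n) ∈ Γ) :
    Iso E (car E R) (car E B) q t (car E N) p s := by
  obtain ⟨f, hf⟩ := ISet.exact (E := E) (Γ : Set (B × N))
  refine ⟨f, br_isHom hB h br_ex_top hf h1 fun b _ => h3 b, fun x x' y _ _ a' b' => ?_,
    br_all.2 fun n => ?_⟩
  · obtain ⟨x, n, a, rfl, rfl⟩ := (Ex.maps hf).1 a'
    obtain ⟨x', n', b, rfl, e⟩ := (Ex.maps hf).1 b'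
    rw [io_inj.1 e] at b
    rw [sub_eq_zero.1 (h2 (x - x') (by simpa using Γ.sub_mem a b))]
  · obtain ⟨b, hb⟩ := h4 n
    exact ⟨_, io_el b, (Ex.maps hf).2 ⟨b, n, hb, rfl, rfl⟩⟩

omit [Kit E] in
theorem br_ring (hR : Rep E R R a m) : IsRing E (car E R) a m := by
  obtain ⟨h1, h2, h3, h4, h5, -⟩ := hR.isMod hR
  refine ⟨h1, h2, fun x y z u v w hx hy hz a b c => h5 x y z v u w hx hy hz b a c,
    ⟨_, io_el (1 : R), br_all.2 fun x => ⟨(hR.smul _ _ _).2 (by rw [smul_eq_mul, mul_one]),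
      (hR.smul _ _ _).2 (by rw [one_smul])⟩⟩,
    fun x y z u v w t hx hy hz => h4 x y z u v w t hx hy hz,
    fun x y z u v w t hx hy hz => h3 y z x u v w t hy hz hx⟩

theorem br_simple (hR : Rep E R R a m) (h1 : (1 : R) ≠ 0) (hpi : PI R) :
    Simple E (car E R) a m := by
  refine ⟨⟨_, _, io_el (1 : R), io_el (0 : R), fun c => h1 (io_inj.1 c)⟩, fun I hI h => ?_⟩
  obtain ⟨S, -, hS⟩ := hR.ofSub hI
  rw [br_ex_eq hS]
  by_cases h0 : ∀ x ∈ S, x = 0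
  · refine Or.inr fun x y hx' hy' => ?_
    obtain ⟨x, hx, rfl⟩ := (hS _).1 hx'
    obtain ⟨y, hy, rfl⟩ := (hS _).1 hy'
    rw [h0 x hx, h0 y hy]
  · push Not at h0
    obtain ⟨x, hx, h0⟩ := h0
    obtain ⟨c, d, e⟩ := hpi x h0
    refine Or.inl ((Ideal.eq_top_iff_one S).2 ((hS.el 1).1 ?_))
    exact h _ _ _ ((hS.el _).2 (S.smul_mem c hx)) (io_el d) ((hR.smul _ _ _).2 (by
      rw [smul_eq_mul, smul_eq_mul, e]))

theorem br_art [IAdd E R] [IMul E R] (hR : Rep E R R a m) (h1 : (1 : R) ≠ 0) (hpi : PI R)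
    (hfr : Fr R) : ¬ Artinian E (car E R) a m := by
  intro H
  let L : Set (Pow E R) := {J | (∃ x, x ∈ J.1 ∧ x ≠ 0) ∧
    (∀ x y, x ∈ J.1 → y ∈ J.1 → x + y ∈ J.1) ∧ ∀ r x, x ∈ J.1 → r * x ∈ J.1}
  haveI : ISet E L := ISet.setOf _
  obtain ⟨S, hS⟩ := ISet.exact (E := E) L
  obtain ⟨I, hI, hmin⟩ := H S
    ⟨_, (Ex.el hS ⟨{_x | True}, inferInstance⟩).2
      ⟨⟨1, trivial, h1⟩, fun _ _ _ _ => trivial, fun _ _ _ => trivial⟩⟩ (fun I hI => by
      obtain ⟨J, ⟨⟨x, hx, -⟩, a2, a3⟩, rfl⟩ := (hS _).1 hI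
      exact hR.isSub
        { carrier := J.1
          add_mem' := fun a b => a2 _ _ a b
          zero_mem' := by simpa using a3 0 x hx
          smul_mem' := fun r x a => a3 r x a } (el_pow J))
  obtain ⟨J, ⟨⟨x, hx, h0⟩, -, a3⟩, rfl⟩ := (hS _).1 hI
  obtain ⟨c, d, e⟩ := hpi x h0
  obtain ⟨X, Y, hXY⟩ := hfr
  let J' : Pow E R := ⟨{z | ∃ r, z = r * (Y 1 * c * x)}, inferInstance⟩
  have hJ' : J' ∈ L := by
    refine ⟨⟨_, ⟨1, rfl⟩, fun h => h1 ?_⟩, ?_, ?_⟩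
    · have : 1 * (Y 1 * c * x) * d * X 1 = Y 1 * (c * x * d) * X 1 := by noncomm_ring
      rw [h, e, mul_one, hXY, if_pos rfl, zero_mul, zero_mul] at this
      exact this.symm
    · rintro _ _ ⟨r, rfl⟩ ⟨r', rfl⟩
      exact ⟨r + r', by rw [add_mul]⟩
    · rintro r _ ⟨r', rfl⟩
      exact ⟨r * r', by rw [mul_assoc r]⟩
  have e1 : J' = J := io_inj.1 (hmin _ ((Ex.el hS J').2 hJ') fun z hz => by
    obtain ⟨_, ⟨r, rfl⟩, rfl⟩ := (el_pow J' z).1 hz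
    exact (el_pow J _).2 ⟨_, a3 _ _ (a3 _ _ hx), rfl⟩)
  obtain ⟨r, hr⟩ : x ∈ J'.1 := e1 ▸ hx
  have e2 : Y 0 * (c * (r * (Y 1 * c * x)) * d) * X 0 =
      Y 0 * c * r * (Y 1 * (c * x * d) * X 0) := by noncomm_ring
  rw [← hr, e, mul_one, mul_one, hXY, hXY, if_pos rfl, if_neg one_ne_zero, mul_zero] at e2
  exact h1 e2

end Br

/-- The internal statement. `IAdd`, `IMul`, `ISMul` come from `Rep` by `IF.of_op`; conversely
`IF.op` gives `p`, `s` for the hull `H` of `exists_hull`. Lemmas for represented modules: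
`Rep → IsMod`; `IsSub A ↔ A` is the exact representative of an internal submodule; `IsHom` gives
an internal graph and a total internal graph gives `IsHom` (`ISet.exact`, `maps_iff`);
`Baer ⊤ → Injv` (`IsMod.outside`, `Baer.extend`); `Injv → Baer ⊤` (take `B = R`);
`Indec ↔ Nontrivial ∧ Ind'`. Not artinian: the set of all nonzero internal left ideals
(an internal subset of `Pow E R`) has no minimal member: if `a x b = 1` then
`R (y 1 * a * x)` is nonzero and does not contain `x`. -/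
theorem bridge {a m : M} (hR : Rep E R R a m) (h2 : ∀ x : R, x + x = 0) (hreg : Reg R)
    (hpi : PI R) (hfr : Fr R) (P : Ideal R) (hP : ISet E (P : Set R)) (hmx : Mx P)
    (star : ∀ I : Ideal R, ISet E (I : Set R) → 1 ∉ I → Unif I → Mx I ∨ Det P I → ¬ NS P I) :
    IsRing E (car E R) a m ∧ Regular E (car E R) m ∧ Simple E (car E R) a m ∧
      ¬ Artinian E (car E R) a m ∧ OnePoint E (car E R) a m := by
  haveI := hR.iadd
  haveI : IMul E R := ⟨hR.ismul.out⟩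
  have h1 : (1 : R) ≠ 0 := fun h => hmx.1 (h ▸ P.zero_mem)
  refine ⟨br_ring hR, br_all.2 fun x => ?_, br_simple hR h1 hpi, br_art hR h1 hpi hfr, ?_⟩
  · obtain ⟨y, hy⟩ := hreg x
    exact ⟨_, _, io_el y, (hR.smul _ _ _).2 rfl, (hR.smul _ _ _).2 (by
      rw [smul_eq_mul, smul_eq_mul, ← mul_assoc, hy])⟩
  obtain ⟨H, _, _, _, _, _, hH, d, hd, hd', hd''⟩ := exists_hull (E := E) h2 P hmx
  obtain ⟨p, s, h⟩ := br_rep (E := E) (R := R) (N := H)
  refine ⟨_, p, s, hR.isMod h, br_injv hR h hH,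
    (br_indec h).2 ⟨⟨d, 0, hd⟩, fun A C _ _ hc => ?_⟩, fun N p' s' a1 a2 a3 => ?_⟩
  · by_contra! c
    have key : ∀ A : Submodule R H, A ≠ ⊥ → d ∈ A := fun A hA => by
      obtain ⟨x, hx, h0⟩ := (Submodule.ne_bot_iff A).1 hA
      obtain ⟨r, rfl⟩ := hd'' x h0
      exact A.smul_mem r hx
    refine hd (Submodule.disjoint_def.1 hc.disjoint d (key A ?_) (key C ?_))
    · rintro rfl
      exact c.2 (by simpa using hc.sup_eq_top)
    · rintro rfl
      exact c.1 (by simpa using hc.sup_eq_top)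
  · obtain ⟨N, _, _, _, rfl, hN⟩ := a1.outside hR
    haveI := hN.iadd
    haveI := hN.ismul
    obtain ⟨_, b⟩ := (br_indec hN).1 a3
    obtain ⟨Γ, _, c1, c2, c3, c4⟩ := exists_iso hmx (fun I _ => star_all hmx star I) hH hd hd' hd''
      (br_baer hR hN a2) b
    exact br_iso hN h Γ c1 c2 c3 c4

end Pool.Agent.Lib.MP_57313b_al.Dia
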