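import Pool.Agent.Shared.Forcing.Defs

/-! Rings and right modules read inside a structure `(M, E)`, where `E x y` interprets `x ∈ y`. -/

namespace Pool.Agent.Lib.MP_57313b_al.Dia

open Pool.Agent.Shared.Forcing

universe u

variable {M : Type u} (E : M → M → Prop)

/-- `((x, y), z) ∈ f`: the binary operation `f` sends `(x, y)` to `z`. -/
def Op (f x y z : M) : Prop := ∃ p, IsKPair E p x y ∧ Maps E f p z

/-- `f` gives a binary operation `A × B → C`. -/
def IsOp (f A B C : M) : Prop :=
  ∀ x y, E x A → E y B → ∃ z, E z C ∧ ∀ z', Op E f x y z' ↔ z' = z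

/-- `(N, p)` is an abelian group with addition `p`. -/
def IsAb (N p : M) : Prop :=
  IsOp E p N N N ∧
  (∀ x y z u v w, E x N → E y N → E z N → Op E p x y u → Op E p y z v → Op E p u z w →
    Op E p x v w) ∧
  (∀ x y u, E x N → E y N → Op E p x y u → Op E p y x u) ∧
  ∃ o, E o N ∧ ∀ x, E x N → Op E p o x x ∧ ∃ y, E y N ∧ Op E p y x o

/-- `(R, a, m)` is an associative ring with `1`, with addition `a` and multiplication `m`. -/
def IsRing (R a m : M) : Prop :=
  IsAb E R a ∧ IsOp E m R R R ∧
  (∀ x y z u v w, E x R → E y R → E z R → Op E m x y u → Op E m y z v → Op E m u z w →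
    Op E m x v w) ∧
  (∃ e, E e R ∧ ∀ x, E x R → Op E m e x x ∧ Op E m x e x) ∧
  (∀ x y z u v w t, E x R → E y R → E z R → Op E a y z u → Op E m x y v → Op E m x z w →
    Op E a v w t → Op E m x u t) ∧
  ∀ x y z u v w t, E x R → E y R → E z R → Op E a y z u → Op E m y x v → Op E m z x w →
    Op E a v w t → Op E m u x t

/-- `(N, p, s)` is a unital right module over the ring `(R, a, m)`, with addition `p` and
action `s : N × R → N`. -/
def IsMod (R a m N p s : M) : Prop :=
  IsAb E N p ∧ IsOp E s N R N ∧
  (∀ x y r u v w t, E x N → E y N → E r R → Op E p x y u → Op E s x r v → Op E s y r w →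
    Op E p v w t → Op E s u r t) ∧
  (∀ x r r' u v w t, E x N → E r R → E r' R → Op E a r r' u → Op E s x r v → Op E s x r' w →
    Op E p v w t → Op E s x u t) ∧
  (∀ x r r' u v w, E x N → E r R → E r' R → Op E m r r' u → Op E s x r v → Op E s v r' w →
    Op E s x u w) ∧
  ∀ e x, E e R → (∀ r, E r R → Op E m e r r) → E x N → Op E s x e x

/-- `A` is a submodule of the right `R`-module `(N, p, s)`: a nonempty subset closed under the
addition and the action. For `(N, p, s) = (R, a, m)` these are the right ideals. -/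
def IsSub (R N p s A : M) : Prop :=
  Sub E A N ∧ (∃ x, E x A) ∧ (∀ x y z, E x A → E y A → Op E p x y z → E z A) ∧
  ∀ x r z, E x A → E r R → Op E s x r z → E z A

/-- `f` gives a homomorphism from `A`, with the operations `p`, `s`, to the module
`(N, p', s')`. -/
def IsHom (R A p s N p' s' f : M) : Prop :=
  (∀ x, E x A → ∃ y, E y N ∧ ∀ y', Maps E f x y' ↔ y' = y) ∧
  (∀ x y z u v w, E x A → E y A → Op E p x y z → Maps E f x u → Maps E f y v →
    Op E p' u v w → Maps E f z w) ∧
  ∀ x r z u w, E x A → E r R → Op E s x r z → Maps E f x u → Op E s' u r w → Maps E f z w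

/-- The module `(N, p, s)` is injective: every homomorphism from a submodule `A` of a module
`B` to `N` extends to `B`. -/
def Injv (R a m N p s : M) : Prop :=
  ∀ B q t A f, IsMod E R a m B q t → IsSub E R B q t A → IsHom E R A q t N p s f →
    ∃ g, IsHom E R B q t N p s g ∧ ∀ x y, E x A → Maps E f x y → Maps E g x y

/-- The module `(N, p, s)` is indecomposable: it is nonzero, and if it is the direct sum of
submodules `A` and `C` then one of them is `N`. -/
def Indec (R N p s : M) : Prop :=
  (∃ x y, E x N ∧ E y N ∧ x ≠ y) ∧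
  ∀ A C, IsSub E R N p s A → IsSub E R N p s C →
    (∀ z, E z N → ∃ x y, E x A ∧ E y C ∧ Op E p x y z ∧
      ∀ x' y', E x' A → E y' C → Op E p x' y' z → x' = x ∧ y' = y) → A = N ∨ C = N

/-- The modules `(N, p, s)` and `(N', p', s')` are isomorphic. -/
def Iso (R N p s N' p' s' : M) : Prop :=
  ∃ f, IsHom E R N p s N' p' s' f ∧
    (∀ x x' y, E x N → E x' N → Maps E f x y → Maps E f x' y → x = x') ∧
    ∀ y, E y N' → ∃ x, E x N ∧ Maps E f x y

/-- von Neumann regular: for every `x` there is `y` with `x y x = x`. -/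
def Regular (R m : M) : Prop := ∀ x, E x R → ∃ y u, E y R ∧ Op E m x y u ∧ Op E m u x x

/-- simple: nonzero, and a two-sided ideal is `R` or has only one element. -/
def Simple (R a m : M) : Prop :=
  (∃ x y, E x R ∧ E y R ∧ x ≠ y) ∧
  ∀ I, IsSub E R R a m I → (∀ x r z, E x I → E r R → Op E m r x z → E z I) →
    I = R ∨ ∀ x y, E x I → E y I → x = y

/-- right artinian: every nonempty set of right ideals has a minimal member. -/
def Artinian (R a m : M) : Prop :=
  ∀ S, (∃ I, E I S) → (∀ I, E I S → IsSub E R R a m I) →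
    ∃ I, E I S ∧ ∀ J, E J S → Sub E J I → J = I

/-- The ring has exactly one indecomposable injective right module up to isomorphism. -/
def OnePoint (R a m : M) : Prop :=
  ∃ N p s, IsMod E R a m N p s ∧ Injv E R a m N p s ∧ Indec E R N p s ∧
    ∀ N' p' s', IsMod E R a m N' p' s' → Injv E R a m N' p' s' → Indec E R N' p' s' →
      Iso E R N' p' s' N p s

end Pool.Agent.Lib.MP_57313b_al.Dia
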