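import Pool.Agent.Lib.MP_57313b_al.Dia.Alg1

/-! Direct limits, the task construction, transport of promises. -/

namespace Pool.Agent.Lib.MP_57313b_al.Dia

variable {F : Type} [Field F]

/-- direct limit of a sequence of countable algebras (Mathlib `DirectLimit`) -/
theorem exists_limit (T : ℕ → Type) [∀ n, Ring (T n)] [∀ n, Algebra F (T n)]
    [∀ n, Countable (T n)] (θ : ∀ n, T n →ₐ[F] T (n + 1)) :
    ∃ (B : Type) (_ : Ring B) (_ : Algebra F B) (_ : Countable B) (f : ∀ n, T n →ₐ[F] B)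
      (Θ : ∀ n m, n ≤ m → (T n →ₐ[F] T m)),
      (∀ n x, Θ n n le_rfl x = x) ∧
      (∀ n m (h : n ≤ m) x, Θ n (m + 1) (h.trans (Nat.le_succ m)) x = θ m (Θ n m h x)) ∧
      (∀ n m (h : n ≤ m) x, f m (Θ n m h x) = f n x) ∧ (∀ b, ∃ n x, f n x = b) ∧
      ∀ n x, f n x = 0 → ∃ m h, Θ n m h x = 0 := by
  let Θ : ∀ n m, n ≤ m → (T n →ₐ[F] T m) := fun n _ h =>
    Nat.leRecOn (C := fun k => T n →ₐ[F] T k) h (fun {k} g => (θ k).comp g) (AlgHom.id F (T n))
  have h0 : ∀ n x, Θ n n le_rfl x = x := by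
    intro n x
    simp only [Θ]
    rw [Nat.leRecOn_self]
    rfl
  have h1 : ∀ n m (h : n ≤ m) x,
      Θ n (m + 1) (h.trans (Nat.le_succ m)) x = θ m (Θ n m h x) := by
    intro n m h x
    simp only [Θ]
    rw [Nat.leRecOn_succ h]
    rfl
  have h2 : ∀ i j k (hij : i ≤ j) (hjk : j ≤ k) x,
      Θ j k hjk (Θ i j hij x) = Θ i k (hij.trans hjk) x := by
    intro i j k hij hjk x
    induction k, hjk using Nat.le_induction with
    | base => rw [h0]
    | succ k hjk ih => rw [h1 j k hjk, ih, h1 i k (hij.trans hjk)]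
  have : DirectedSystem T (fun i j h => (Θ i j h : T i → T j)) :=
    ⟨fun i x => h0 i x, fun k j i hij hjk x => h2 i j k hij hjk x⟩
  refine ⟨DirectLimit T Θ, inferInstance, inferInstance, inferInstance,
    fun n => DirectLimit.Algebra.of T Θ n, Θ, h0, h1, ?_, ?_, ?_⟩
  · intro n m h x
    exact DirectLimit.Algebra.of_f h x
  · intro b
    obtain ⟨n, x, rfl⟩ := DirectLimit.exists_eq_mk Θ b
    exact ⟨n, x, rfl⟩
  · intro n x hx
    exact (DirectLimit.exists_eq_zero (f := Θ) ⟨n, x⟩).1 hx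

variable {A : Type} [Ring A] [Algebra F A]

/-- The task construction: enumerate the triples (stage, task, element) so that each is treated
at a later stage, and pass to the direct limit. -/
theorem exists_tasks (Adm : Stg F A → Prop) (𝒯 : Type) [Countable 𝒯]
    (Done : 𝒯 → ∀ X : Stg F A, X.T → Prop)
    (mono : ∀ τ (X Y : Stg F A) (θ : X.Hom Y) x, Done τ X x → Done τ Y (θ.f x))
    (step : ∀ X, Adm X → ∀ τ x, ∃ Y, Adm Y ∧ ∃ θ : X.Hom Y, Done τ Y (θ.f x))
    (X₀ : Stg F A) (h₀ : Adm X₀) :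
    ∃ (B : Stg F A) (X : ℕ → Stg F A) (f : ∀ n, (X n).Hom B), (∀ τ x, Done τ B x) ∧
      (∀ n, Adm (X n)) ∧ (∀ b, ∃ n x, (f n).f x = b) ∧
      ∀ n x, (f n).f x = 0 → ∃ (m : ℕ) (θ : (X n).Hom (X m)),
        (∀ y, (f m).f (θ.f y) = (f n).f y) ∧ θ.f x = 0 := by
  classical
  let St : Type 1 := Σ X : {X : Stg F A // Adm X}, ℕ → ℕ → Option (𝒯 × X.1.T)
  have en : ∀ X : Stg F A, ∃ e : ℕ → Option (𝒯 × X.T), Function.Surjective e := fun X =>
    exists_surjective_nat _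
  choose e he using en
  have key : ∀ (n : ℕ) (s : St), ∃ (s' : St) (θ : s.1.1.Hom s'.1.1),
      (∀ τ x, s.2 n.unpair.1 n.unpair.2 = some (τ, x) → Done τ s'.1.1 (θ.f x)) ∧
      (∀ k, k ≠ n + 1 → ∀ j, s'.2 k j = (s.2 k j).map (Prod.map id θ.f)) ∧
      Function.Surjective (s'.2 (n + 1)) := by
    intro n s
    have : ∃ Y, Adm Y ∧ ∃ θ : s.1.1.Hom Y,
        ∀ τ x, s.2 n.unpair.1 n.unpair.2 = some (τ, x) → Done τ Y (θ.f x) := by
      rcases h : s.2 n.unpair.1 n.unpair.2 with _ | ⟨τ, x⟩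
      · exact ⟨s.1.1, s.1.2, Stg.Hom.id _, fun τ x h' => by cases h'⟩
      · obtain ⟨Y, hY, θ, hθ⟩ := step s.1.1 s.1.2 τ x
        exact ⟨Y, hY, θ, fun τ' x' h' => by cases h'; exact hθ⟩
    obtain ⟨Y, hY, θ, hθ⟩ := this
    refine ⟨⟨⟨Y, hY⟩, fun k j => if k = n + 1 then e Y j else (s.2 k j).map (Prod.map id θ.f)⟩,
      θ, hθ, fun k hk j => if_neg hk, ?_⟩
    intro o
    obtain ⟨j, hj⟩ := he Y o
    exact ⟨j, (if_pos rfl).trans hj⟩
  choose nx θ k1 k2 k3 using key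
  let s : ℕ → St := fun n => Nat.rec ⟨⟨X₀, h₀⟩, fun _ => e X₀⟩ nx n
  let X : ℕ → Stg F A := fun n => (s n).1.1
  let η : ∀ n, (X n).Hom (X (n + 1)) := fun n => θ n (s n)
  obtain ⟨B, _, _, _, f, Θ, a0, a1, a2, a3, a4⟩ :=
    exists_limit (F := F) (fun n => (X n).T) (fun n => (η n).f)
  have bι : ∀ n m (h : n ≤ m) a, Θ n m h ((X n).ι a) = (X m).ι a := by
    intro n m h a
    induction m, h using Nat.le_induction with
    | base => exact a0 n _
    | succ m h ih => rw [a1 n m h, ih, (η m).hι]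
  have br : ∀ n m (h : n ≤ m) ε, Θ n m h ((X n).r ε) = (X m).r ε := by
    intro n m h a
    induction m, h using Nat.le_induction with
    | base => exact a0 n _
    | succ m h ih => rw [a1 n m h, ih, (η m).hr]
  let B' : Stg F A := { T := B, ι := (f 0).comp (X 0).ι, r := fun ε => f 0 ((X 0).r ε) }
  let f' : ∀ n, (X n).Hom B' := fun n =>
    { f := f n
      hι := fun a => by
        rw [← bι 0 n (Nat.zero_le n) a]
        exact a2 0 n _ _
      hr := fun ε => by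
        rw [← br 0 n (Nat.zero_le n) ε]
        exact a2 0 n _ _ }
  have sur : ∀ n, Function.Surjective ((s n).2 n) := by
    intro n
    cases n with
    | zero => exact he X₀
    | succ n => exact k3 n (s n)
  refine ⟨B', X, f', ?_, fun n => (s n).1.2, a3, ?_⟩
  · intro τ b
    obtain ⟨n, x, rfl⟩ := a3 b
    obtain ⟨j, hj⟩ := sur n (some (τ, x))
    have tr : ∀ m (h : n ≤ m), (s m).2 n j = some (τ, Θ n m h x) := by
      intro m h
      induction m, h using Nat.le_induction with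
      | base => rw [a0]; exact hj
      | succ m h ih =>
        rw [a1 n m h]
        have := k2 m (s m) n (by omega) j
        rw [ih] at this
        exact this
    have hle : n ≤ Nat.pair n j := Nat.left_le_pair n j
    have d1 := k1 (Nat.pair n j) (s (Nat.pair n j)) τ (Θ n _ hle x)
      (by rw [Nat.unpair_pair]; exact tr _ hle)
    have d2 := mono τ (X (Nat.pair n j + 1)) B' (f' (Nat.pair n j + 1)) _ d1
    have d3 : (f' (Nat.pair n j + 1)).f ((η (Nat.pair n j)).f (Θ n _ hle x)) = f n x := by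
      rw [← a1 n _ hle]
      exact a2 n _ _ x
    rw [← d3]
    exact d2
  · intro n x hx
    obtain ⟨m, h, hm⟩ := a4 n x hx
    exact ⟨m, ⟨Θ n m h, bι n m h, br n m h⟩, fun y => a2 n m h y, hm⟩

variable {C D : Type} [Ring C] [Algebra F C] [Ring D] [Algebra F D]

theorem lim_map_map (I : Ideal A) (φ : A →ₐ[F] C) (ψ : C →ₐ[F] D) :
    (I.map φ).map ψ = I.map (ψ.comp φ) := by
  refine le_antisymm (Ideal.span_le.2 ?_) (Ideal.span_le.2 ?_)
  · rintro _ ⟨y, hy, rfl⟩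
    induction hy using Submodule.span_induction with
    | mem y hy =>
      obtain ⟨x, hx, rfl⟩ := hy
      exact Ideal.mem_map_of_mem (ψ.comp φ) hx
    | zero => rw [map_zero]; exact zero_mem _
    | add y z _ _ hy hz => rw [map_add]; exact add_mem hy hz
    | smul a y _ hy => rw [smul_eq_mul, map_mul]; exact Ideal.mul_mem_left _ _ hy
  · rintro _ ⟨x, hx, rfl⟩
    exact Ideal.mem_map_of_mem ψ (Ideal.mem_map_of_mem φ hx)

theorem Prom.map_map (π : Prom A) (φ : A →ₐ[F] C) (ψ : C →ₐ[F] D) :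
    (π.map φ).map ψ = π.map (ψ.comp φ) := by
  cases π with
  | G I S =>
    simp only [Prom.map, lim_map_map, Set.image_image]
    rfl
  | Z I d =>
    simp only [Prom.map, lim_map_map]
    rfl

theorem Prom.map_id (π : Prom A) : π.map (AlgHom.id F A) = π := by
  have h : ∀ I : Ideal A, I.map (AlgHom.id F A) = I := fun I => by
    refine le_antisymm (Ideal.span_le.2 ?_) fun x hx => Ideal.mem_map_of_mem (AlgHom.id F A) hx
    rintro _ ⟨x, hx, rfl⟩
    exact hx
  cases π with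
  | G I S =>
    simp only [Prom.map, h]
    congr 1
    ext p
    constructor
    · rintro ⟨q, hq, rfl⟩
      exact hq
    · exact fun hp => ⟨p, hp, rfl⟩
  | Z I d =>
    simp only [Prom.map, h]
    rfl

theorem Prom.Stat.map (hA : Reg A) {M : Ideal A} {π : Prom A} (h : π.Stat F M) (φ : A →ₐ[F] C) :
    (π.map φ).Stat F (M.map φ) := by
  cases π with
  | G I S =>
    rintro _ ⟨p, hp, rfl⟩ c hc
    exact hA.ph_map φ I M (h p hp) c hc
  | Z I d =>
    refine ⟨map_mul_mem φ I _ _ fun m hm => ?_, fun c => ?_⟩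
    · rw [← map_mul]
      exact Ideal.mem_map_of_mem φ (h.1 m hm)
    · obtain ⟨a, ha⟩ := h.2 c
      refine ⟨φ a, ?_⟩
      have := Ideal.mem_map_of_mem φ ha
      rwa [map_sub, map_mul, map_sub, map_one, AlgHom.commutes] at this

theorem Prom.Done.map {M : Ideal A} {π : Prom A} {x : A} (h : π.Done M x) (φ : A →ₐ[F] C) :
    (π.map φ).Done (M.map φ) (φ x) := by
  cases π with
  | G I S =>
    rcases h with h | ⟨p, hp, b, z, h1, h2⟩
    · exact Or.inl (Ideal.mem_map_of_mem φ h)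
    · refine Or.inr ⟨_, ⟨p, hp, rfl⟩, φ b, φ z, ?_, ?_⟩
      · have := Ideal.mem_map_of_mem φ h1
        rwa [map_sub, map_mul] at this
      · have := Ideal.mem_map_of_mem φ h2
        rwa [map_sub, map_mul, map_mul, map_one] at this
  | Z I d =>
    rcases h with h | h
    · exact Or.inl (Ideal.mem_map_of_mem φ h)
    · refine Or.inr ?_
      obtain ⟨u, hu, v, hv, huv⟩ := Submodule.mem_sup.1 h
      refine Submodule.mem_sup.2 ⟨φ u, ?_, φ v, Ideal.mem_map_of_mem φ hv, by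
        rw [← map_add, huv, map_one]⟩
      clear huv
      induction hu using Submodule.span_induction with
      | mem y hy =>
        obtain ⟨i, rfl⟩ := hy
        exact Ideal.subset_span ⟨i, by simp only [map_mul, map_pow]⟩
      | zero => rw [map_zero]; exact zero_mem _
      | add y z _ _ hy hz => rw [map_add]; exact add_mem hy hz
      | smul a y _ hy => rw [smul_eq_mul, map_mul]; exact Ideal.mul_mem_left _ _ hy

/-- a ring covered by good subrings is good -/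
theorem good_of_cover {ι : Type} [Nonempty ι] (T : ι → Type) [∀ i, Ring (T i)]
    [∀ i, Algebra F (T i)] (M : ∀ i, Ideal (T i)) (h : ∀ i, Good F (M i)) (f : ∀ i, T i →ₐ[F] C)
    (hf : ∀ i, Function.Injective (f i)) (N : Ideal C) (hN : ∀ i, (M i).map (f i) = N)
    (cov : ∀ x, ∃ i y, f i y = x) : Good F N := by
  obtain ⟨i₀⟩ := ‹Nonempty ι›
  have mem : ∀ i y, f i y ∈ N ↔ y ∈ M i := fun i y => by
    rw [← hN i]
    exact (h i).reg.map_mem_map_iff (f i) (hf i) (M i) y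
  refine ⟨fun x => ?_, fun x hx => ?_, (h i₀).fr.map (f i₀).toRingHom, ⟨?_, fun x hx => ?_⟩,
    fun x hx => ?_⟩
  · obtain ⟨i, y, rfl⟩ := cov x
    obtain ⟨z, hz⟩ := (h i).reg y
    exact ⟨f i z, by rw [← map_mul, ← map_mul, hz]⟩
  · obtain ⟨i, y, rfl⟩ := cov x
    obtain ⟨a, b, hab⟩ := (h i).pi y fun h0 => hx (by rw [h0, map_zero])
    exact ⟨f i a, f i b, by rw [← map_mul, ← map_mul, hab, map_one]⟩
  · intro h1
    rw [← map_one (f i₀), mem] at h1
    exact (h i₀).pt.1.1 h1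
  · obtain ⟨i, y, rfl⟩ := cov x
    obtain ⟨z, hz⟩ := (h i).pt.1.2 y fun h0 => hx ((mem i y).2 h0)
    refine ⟨f i z, ?_⟩
    have := (mem i _).2 hz
    rwa [map_sub, map_mul, map_one] at this
  · obtain ⟨i, y, rfl⟩ := cov x
    obtain ⟨c, hc⟩ := (h i).pt.2 y fun m hm => by
      rw [← mem i, map_mul]
      exact hx _ ((mem i m).2 hm)
    refine ⟨c, ?_⟩
    have := (mem i _).2 hc
    rwa [map_sub, AlgHom.commutes] at this

/-- Assembly of a step. Tasks: `Reg`, `PI` (`x = 0 ∨ ∃ a b, a x b = 1`), the promises in `S`,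
and the extra tasks. -/
theorem step_of_tasks [Countable A] (hA : Reg A) (M : Ideal A) (S : Set (Prom A))
    (hS : S.Countable) (hS' : ∀ π ∈ S, π.Stat F M) (Adm : Stg F A → Prop)
    (hinj : ∀ X, Adm X → Function.Injective X.ι) (𝒯 : Type) [Countable 𝒯]
    (Done : 𝒯 → ∀ X : Stg F A, X.T → Prop)
    (mono : ∀ τ (X Y : Stg F A) (θ : X.Hom Y) x, Done τ X x → Done τ Y (θ.f x))
    (step : ∀ X, Adm X → ∀ τ x, ∃ Y, Adm Y ∧ ∃ θ : X.Hom Y, Done τ Y (θ.f x))
    (sreg : ∀ X, Adm X → ∀ x, ∃ Y, Adm Y ∧ ∃ θ : X.Hom Y, ∃ y, θ.f x * y * θ.f x = θ.f x)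
    (spi : ∀ X, Adm X → ∀ x, ∃ Y, Adm Y ∧ ∃ θ : X.Hom Y,
      θ.f x = 0 ∨ ∃ a b, a * θ.f x * b = 1)
    (sprom : ∀ π ∈ S, ∀ X, Adm X → ∀ x, ∃ Y, Adm Y ∧ ∃ θ : X.Hom Y,
      (π.map Y.ι).Done (M.map Y.ι) (θ.f x))
    (X₀ : Stg F A) (h₀ : Adm X₀) :
    ∃ (B : Stg F A) (X : ℕ → Stg F A) (f : ∀ n, (X n).Hom B),
      Function.Injective B.ι ∧ Reg B.T ∧ PI B.T ∧
      (∀ π ∈ S, (π.map B.ι).Holds F (M.map B.ι)) ∧ (∀ τ x, Done τ B x) ∧
      (∀ n, Adm (X n)) ∧ (∀ b, ∃ n x, (f n).f x = b) ∧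
      ∀ n x, (f n).f x = 0 → ∃ (m : ℕ) (θ : (X n).Hom (X m)),
        (∀ y, (f m).f (θ.f y) = (f n).f y) ∧ θ.f x = 0 := by
  have : Countable S := hS.to_subtype
  let Dn : 𝒯 ⊕ Bool ⊕ S → ∀ X : Stg F A, X.T → Prop := fun t X x =>
    match t with
    | .inl τ => Done τ X x
    | .inr (.inl true) => ∃ y, x * y * x = x
    | .inr (.inl false) => x = 0 ∨ ∃ a b, a * x * b = 1
    | .inr (.inr π) => (π.1.map X.ι).Done (M.map X.ι) x
  have mono' : ∀ t (X Y : Stg F A) (θ : X.Hom Y) x, Dn t X x → Dn t Y (θ.f x) := by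
    rintro (τ | (_ | _) | π) X Y θ x hx
    · exact mono τ X Y θ x hx
    · rcases hx with hx | ⟨a, b, hab⟩
      · exact Or.inl (by rw [hx, map_zero])
      · exact Or.inr ⟨θ.f a, θ.f b, by rw [← map_mul, ← map_mul, hab, map_one]⟩
    · obtain ⟨y, hy⟩ := hx
      exact ⟨θ.f y, by rw [← map_mul, ← map_mul, hy]⟩
    · have hc : θ.f.comp X.ι = Y.ι := AlgHom.ext θ.hι
      have := Prom.Done.map hx θ.f
      rw [Prom.map_map, lim_map_map, hc] at this
      exact this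
  have step' : ∀ X, Adm X → ∀ t x, ∃ Y, Adm Y ∧ ∃ θ : X.Hom Y, Dn t Y (θ.f x) := by
    rintro X hX (τ | (_ | _) | π) x
    · exact step X hX τ x
    · exact spi X hX x
    · exact sreg X hX x
    · exact sprom π.1 π.2 X hX x
  obtain ⟨B, X, f, hD, hX, hc, hk⟩ := exists_tasks Adm _ Dn mono' step' X₀ h₀
  refine ⟨B, X, f, ?_, fun x => hD (.inr (.inl true)) x, fun x hx => ?_,
    fun π hπ => ⟨(hS' π hπ).map hA B.ι, fun x => hD (.inr (.inr ⟨π, hπ⟩)) x⟩,
    fun τ x => hD (.inl τ) x, hX, hc, hk⟩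
  · rw [injective_iff_map_eq_zero]
    intro a ha
    obtain ⟨m, θ, -, h0⟩ := hk 0 ((X 0).ι a) (by rw [(f 0).hι, ha])
    rw [θ.hι] at h0
    exact (injective_iff_map_eq_zero _).1 (hinj _ (hX m)) a h0
  · exact (hD (.inr (.inl false)) x).resolve_left hx

end Pool.Agent.Lib.MP_57313b_al.Dia
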