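import Pool.Agent.Lib.MP_57313b_al.Dia.Free2
import Pool.Agent.Lib.MP_57313b_al.Dia.Lim

/-! The free step: the three derivation systems, the tasks, the step theorem. -/

namespace Pool.Agent.Lib.MP_57313b_al.Dia

variable {F : Type} [Field F] {A : Type} [Ring A] [Algebra F A] {M I : Ideal A}
  {T : Type} [Ring T] [Algebra F T] {ι : A →ₐ[F] T} {t r : T}

theorem f3_map_mem {T' : Type} [Ring T'] [Algebra F T'] {ι' : A →ₐ[F] T'} (θ : T →ₐ[F] T')
    (hθ : ∀ a, θ (ι a) = ι' a) (J : Ideal A) {x : T} (hx : x ∈ J.map ι) : θ x ∈ J.map ι' := by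
  refine Submodule.span_induction (p := fun x _ => θ x ∈ J.map ι') ?_ ?_ ?_ ?_ hx
  · rintro _ ⟨a, ha, rfl⟩
    rw [hθ]
    exact Ideal.mem_map_of_mem _ ha
  · simp
  · intro x y _ _ h1 h2
    rw [map_add]
    exact add_mem h1 h2
  · intro a x _ h1
    rw [smul_eq_mul, map_mul]
    exact Ideal.mul_mem_left _ _ h1

omit [Algebra F A] in
theorem f3_ind_unit {U : Type} [AddCommGroup U] [Module A U] [Module F U] {V : Submodule F U}
    {γ : A} (h : ∀ v ∈ V, γ • v = 0 → v = 0) : Ind V fun _ : Unit => γ := by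
  intro v hv hs k
  apply h _ (hv k)
  simpa using hs

theorem f3_sum_mem {N : Type} [Fintype N] (J : Ideal A) (b : N → T) (n : N → A)
    (hn : ∀ a, n a ∈ J) : ∑ a, b a * ι (n a) ∈ J.map ι :=
  Ideal.sum_mem _ fun a _ => Ideal.mul_mem_left _ _ (Ideal.mem_map_of_mem _ (hn a))

/-- `κ = Unit`, `δ = 1`, `η w = x w * γ` with `γ` from `exists_small` for `X = n` -/
theorem derSys_G (hA : Good F M) (hI : NS M I) :
    DerSys I ι M fun x y => ∃ z, y - z * x ∈ M.map ι := by
  classical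
  refine ⟨?_, ?_, ?_, ?_⟩
  · rintro x y z ⟨a, ha⟩ ⟨b, hb⟩
    refine ⟨b * a, ?_⟩
    have e : z - b * a * x = (z - b * y) + b * (y - a * x) := by noncomm_ring
    rw [e]
    exact add_mem hb (Ideal.mul_mem_left _ _ ha)
  · rintro θ hθ x y ⟨a, ha⟩
    refine ⟨θ a, ?_⟩
    have := f3_map_mem θ hθ M ha
    simpa using this
  · intro n hn j hj
    obtain ⟨z, hz⟩ := hA.pt.1.2 n hn
    refine ⟨ι z, ?_⟩
    have e : 1 - ι z * (ι n + j) = -(ι (z * n - 1)) - ι z * j := by
      simp only [map_sub, map_mul, map_one]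
      noncomm_ring
    rw [e]
    exact sub_mem (neg_mem (Ideal.mem_map_of_mem _ hz)) (Ideal.mul_mem_left _ _ hj)
  · intro W _ n w₀ hw V hV
    obtain ⟨x, y, hxy⟩ := hA.fr.of_countable W
    obtain ⟨γ, g, hγ, hg, hk⟩ := exists_small hA.reg hA.fr hA.pt.1 hI.quot V n
    refine ⟨Unit, inferInstance, fun _ => 1, (), fun p => x p.1 * γ,
      Ind.prod (η := fun _ _ => γ) hxy fun _ => f3_ind_unit hγ, ?_, ?_, ?_, ?_⟩
    · intro w
      have := hg.mem_of_mul_eq_zero (hk w)
      simpa [mul_assoc] using Ideal.mul_mem_left M (x w) this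
    · simpa using hw
    · intro _ j hj
      simpa using hj
    · intro x τ j hj
      exact ⟨τ (), by simpa using hj⟩

/-- `κ = Unit`; if `a (n w₀) b = 1` take `γ`, `g` from `exists_small` for `X w = n w * b`,
`δ = b * g`, `η w = x w * γ` -/
theorem derSys_PI (hA : Good F M) (hI : NS M I) :
    DerSys I ι ⊥ fun x y => ∃ a b, y = a * x * b := by
  classical
  refine ⟨?_, ?_, ?_, ?_⟩
  · rintro x y z ⟨a, b, rfl⟩ ⟨a', b', rfl⟩
    exact ⟨a' * a, b * b', by noncomm_ring⟩
  · rintro θ _ x y ⟨a, b, rfl⟩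
    exact ⟨θ a, θ b, by simp⟩
  · intro n hn j hj
    have hj0 : j = 0 := by simpa using hj
    obtain ⟨a, b, hab⟩ := hA.pi n (by simpa using hn)
    refine ⟨ι a, ι b, ?_⟩
    rw [hj0, add_zero, ← map_mul, ← map_mul, hab, map_one]
  · intro W _ n w₀ hw V hV
    obtain ⟨x, y, hxy⟩ := hA.fr.of_countable W
    obtain ⟨a, b, hab⟩ := hA.pi (n w₀) (by simpa using hw)
    obtain ⟨γ, g, hγ, hg, hk⟩ :=
      exists_small hA.reg hA.fr hA.pt.1 hI.quot V fun w => n w * b
    refine ⟨Unit, inferInstance, fun _ => b * g, (), fun p => x p.1 * γ,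
      Ind.prod (η := fun _ _ => γ) hxy fun _ => f3_ind_unit hγ, ?_, ?_, ?_, ?_⟩
    · intro w
      have e : x w * γ * n w * (b * g) = x w * (γ * (n w * b) * g) := by noncomm_ring
      simp [e, hk w]
    · intro h0
      have h1 : n w₀ * (b * g) = 0 := by simpa using h0
      apply hg.ne_zero hA.pt.1
      calc g = a * n w₀ * b * g := by rw [hab, one_mul]
        _ = a * (n w₀ * (b * g)) := by noncomm_ring
        _ = 0 := by rw [h1, mul_zero]
    · intro _ j hj
      have hj0 : j = 0 := by simpa using hj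
      simp [hj0]
    · intro x τ j hj
      have hj0 : j = 0 := by simpa using hj
      exact ⟨τ (), ι (b * g), by simp [hj0]⟩

section Z
variable {U : Type} [AddCommGroup U] [Module A U] [Module F U] [IsScalarTower F A U]

/-- the vectors killed by `J` whose first images lie in `V` -/
def f3H (V : Submodule F U) (J : Ideal A) (n d : A) (m : ℕ) : Submodule F U where
  carrier := {u | (∀ j ∈ J, j • u = 0) ∧ ∀ k ≤ m, (n * d ^ k) • u ∈ V}
  add_mem' := by
    rintro u u' ⟨h1, h2⟩ ⟨h3, h4⟩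
    refine ⟨fun j hj => by rw [smul_add, h1 j hj, h3 j hj, add_zero], fun k hk => ?_⟩
    rw [smul_add]
    exact add_mem (h2 k hk) (h4 k hk)
  zero_mem' := ⟨fun j _ => smul_zero _, fun k _ => by simp⟩
  smul_mem' := by
    rintro c u ⟨h1, h2⟩
    refine ⟨fun j hj => by rw [smul_comm, h1 j hj, smul_zero], fun k hk => ?_⟩
    rw [smul_comm]
    exact V.smul_mem c (h2 k hk)

theorem f3H_anti (V : Submodule F U) (J : Ideal A) (n d : A) {m m' : ℕ} (h : m ≤ m') :
    f3H V J n d m' ≤ f3H V J n d m :=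
  fun _ hu => ⟨hu.1, fun k hk => hu.2 k (hk.trans h)⟩

theorem f3H_fin (V : Submodule F U) [FiniteDimensional F V] (J : Ideal A) (n d : A) (m : ℕ)
    (α : ℕ → A) (hα : 1 - ∑ i ∈ Finset.range (m + 1), α i * (n * d ^ i) ∈ J) :
    FiniteDimensional F (f3H V J n d m) := by
  classical
  let L : ℕ → U →ₗ[F] U := fun i => DistribSMul.toLinearMap F U (α i)
  have hle : f3H V J n d m ≤ (Finset.range (m + 1)).sup fun i => V.map (L i) := by
    intro u hu
    have h1 := hu.1 _ hα
    rw [sub_smul, one_smul, sub_eq_zero, Finset.sum_smul] at h1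
    rw [h1]
    refine Submodule.sum_mem _ fun i hi => ?_
    refine (Finset.le_sup (f := fun i => V.map (L i)) hi) ?_
    refine ⟨(n * d ^ i) • u, hu.2 i (Nat.lt_succ_iff.mp (Finset.mem_range.mp hi)), ?_⟩
    simp [L, mul_smul]
  exact Submodule.finiteDimensional_of_le hle

theorem f3H_bot [IsAlgClosed F] (V : Submodule F U) [FiniteDimensional F V] {J : Ideal A}
    {n d : A} (hd : ∀ i ∈ J, i * d ∈ J)
    (hc : ∀ c : F, ∃ a, a * (d - algebraMap F A c) - 1 ∈ J) (m₀ : ℕ)
    (α : ℕ → A) (hα : 1 - ∑ i ∈ Finset.range (m₀ + 1), α i * (n * d ^ i) ∈ J) :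
    ∃ m, f3H V J n d m = ⊥ := by
  have h0 := f3H_fin V J n d m₀ α hα
  have hfin : ∀ k, FiniteDimensional F (f3H V J n d (m₀ + k)) := fun k =>
    Submodule.finiteDimensional_of_le (f3H_anti V J n d (Nat.le_add_right m₀ k))
  let k := Function.argmin fun k => Module.finrank F (f3H V J n d (m₀ + k))
  have hk : Module.finrank F (f3H V J n d (m₀ + k)) ≤
      Module.finrank F (f3H V J n d (m₀ + (k + 1))) :=
    Function.argmin_le (fun k => Module.finrank F (f3H V J n d (m₀ + k))) (k + 1)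
  have := hfin k
  have heq : f3H V J n d (m₀ + (k + 1)) = f3H V J n d (m₀ + k) :=
    Submodule.eq_of_le_of_finrank_le (f3H_anti V J n d (by omega)) hk
  refine ⟨m₀ + k, ?_⟩
  by_contra hne
  have : Nontrivial (f3H V J n d (m₀ + k)) := Submodule.nontrivial_iff_ne_bot.mpr hne
  have hmap : ∀ u ∈ f3H V J n d (m₀ + k),
      DistribSMul.toLinearMap F U d u ∈ f3H V J n d (m₀ + k) := by
    intro u hu
    have hu' : u ∈ f3H V J n d (m₀ + (k + 1)) := heq ▸ hu
    refine ⟨fun j hj => ?_, fun i hi => ?_⟩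
    · have := hu.1 _ (hd j hj)
      simpa [mul_smul] using this
    · have := hu'.2 (i + 1) (by omega)
      simpa [mul_smul, pow_succ] using this
  obtain ⟨c, hc'⟩ := Module.End.exists_eigenvalue
    ((DistribSMul.toLinearMap F U d).restrict hmap)
  obtain ⟨u, hu⟩ := hc'.exists_hasEigenvector
  have h1 : d • (u : U) = c • (u : U) := by
    have := congrArg Subtype.val hu.apply_eq_smul
    simpa using this
  obtain ⟨a, ha⟩ := hc c
  have h2 := u.2.1 _ ha
  rw [sub_smul, one_smul, mul_smul, sub_smul, algebraMap_smul, h1, sub_self, smul_zero, zero_sub,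
    neg_eq_zero] at h2
  exact hu.2 (Subtype.ext h2)

/-- the relation module acts on tuples -/
def f3Z (V : Submodule F U) (J : Ideal A) (n d : A) (m : ℕ) :
    Submodule A ((Fin (m + 1) → V) →ₗ[F] U) where
  carrier := {z | ∃ η : Fin (m + 1) → A, ∑ i, η i * n * d ^ (i : ℕ) ∈ J ∧
    ∀ v, z v = ∑ i, η i • (v i : U)}
  add_mem' := by
    rintro z z' ⟨η, h1, h2⟩ ⟨η', h3, h4⟩
    refine ⟨η + η', ?_, fun v => ?_⟩
    · simpa [add_mul, Finset.sum_add_distrib] using add_mem h1 h3
    · simp [h2, h4, add_smul, Finset.sum_add_distrib]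
  zero_mem' := ⟨0, by simp, by simp⟩
  smul_mem' := by
    rintro a z ⟨η, h1, h2⟩
    refine ⟨fun i => a * η i, ?_, fun v => ?_⟩
    · simpa [Finset.mul_sum, mul_assoc] using Ideal.mul_mem_left J a h1
    · simp [h2, Finset.smul_sum, mul_smul]

/-- the linear map attached to a tuple of ring elements -/
def f3L (V : Submodule F U) {m : ℕ} (η : Fin (m + 1) → A) : (Fin (m + 1) → V) →ₗ[F] U where
  toFun v := ∑ i, η i • (v i : U)
  map_add' v v' := by simp [Finset.sum_add_distrib]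
  map_smul' c v := by
    simp only [Pi.smul_apply, Submodule.coe_smul, RingHom.id_apply, Finset.smul_sum]
    exact Finset.sum_congr rfl fun i _ => smul_comm _ _ _

theorem f3_key [IsAlgClosed F] (hfr : Fr A) (V : Submodule F U) [FiniteDimensional F V]
    {J : Ideal A} {d : A} (h : (Prom.Z J d).Holds F M) (n : A) :
    ∃ m₀, ∀ m ≥ m₀, ∃ η : Fin (m + 1) → A, ∑ i, η i * n * d ^ (i : ℕ) ∈ J ∧ Ind V η := by
  classical
  obtain ⟨⟨hd, hc⟩, hdone⟩ := h
  have hdp : ∀ (k : ℕ), ∀ j ∈ J, j * d ^ k ∈ J := by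
    intro k
    induction k with
    | zero => simp
    | succ k ih =>
      intro j hj
      rw [pow_succ, ← mul_assoc]
      exact hd _ (ih j hj)
  rcases hdone n with hn | hn
  · refine ⟨0, fun m _ => ?_⟩
    obtain ⟨x, y, hxy⟩ := hfr.of_countable (Fin (m + 1))
    refine ⟨x, Ideal.sum_mem _ fun i _ => hdp _ _ (Ideal.mul_mem_left _ _ hn), ?_⟩
    intro v _ hs k
    have := congrArg (fun u => y k • u) hs
    simpa [Finset.smul_sum, ← mul_smul, hxy] using this
  · obtain ⟨y, hy, j, hj, hyj⟩ := Submodule.mem_sup.mp hn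
    obtain ⟨c, rfl⟩ := Finsupp.mem_span_range_iff_exists_finsupp.mp hy
    have hα : ∀ m, c.support.sup id ≤ m →
        1 - ∑ i ∈ Finset.range (m + 1), c i * (n * d ^ i) ∈ J := by
      intro m hm
      have e : (c.sum fun i a => a • (n * d ^ i)) =
          ∑ i ∈ Finset.range (m + 1), c i * (n * d ^ i) := by
        refine Finsupp.sum_of_support_subset c (fun i hi => ?_) _ (by simp)
        have : i ≤ c.support.sup id := Finset.le_sup (f := id) hi
        exact Finset.mem_range.mpr (by omega)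
      rw [← e, ← hyj]
      simpa using hj
    obtain ⟨m₁, hm₁⟩ := f3H_bot V hd hc _ c (hα _ le_rfl)
    refine ⟨max m₁ (c.support.sup id), fun m hm => ?_⟩
    have hH : f3H V J n d m = ⊥ :=
      le_bot_iff.mp (hm₁ ▸ f3H_anti V J n d ((le_max_left _ _).trans hm))
    have hα' : 1 - ∑ i : Fin (m + 1), c i * n * d ^ (i : ℕ) ∈ J := by
      have := hα m ((le_max_right _ _).trans hm)
      rw [← Fin.sum_univ_eq_sum_range (fun i => c i * (n * d ^ i))] at this
      simpa [mul_assoc] using this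
    obtain ⟨z, ⟨η, hη, hz⟩, hinj⟩ := hfr.exists_inj (f3Z V J n d m) (by
      intro v hv
      by_contra hcon
      push Not at hcon
      have hkill : ∀ η : Fin (m + 1) → A, ∑ i, η i * n * d ^ (i : ℕ) ∈ J →
          ∑ i, η i • (v i : U) = 0 := fun η hη => hcon (f3L V η) ⟨η, hη, fun _ => rfl⟩
      set u : U := ∑ i : Fin (m + 1), c i • (v i : U) with hu
      set s : A := ∑ i : Fin (m + 1), c i * n * d ^ (i : ℕ) with hs
      have h1 : ∀ j ∈ J, j • u = 0 := by
        intro j hj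
        have e : ∑ i : Fin (m + 1), j * c i * n * d ^ (i : ℕ) = j - j * (1 - s) := by
          simp [hs, mul_sub, Finset.mul_sum, mul_assoc]
        have := hkill (fun i => j * c i) (e ▸ sub_mem hj (Ideal.mul_mem_left _ _ hα'))
        simpa [hu, Finset.smul_sum, mul_smul] using this
      have h2 : ∀ k : Fin (m + 1), (n * d ^ (k : ℕ)) • u = v k := by
        intro k
        have e : ∑ i : Fin (m + 1), (n * d ^ (k : ℕ) * c i - if i = k then 1 else 0) * n *
            d ^ (i : ℕ) = -(n * d ^ (k : ℕ) * (1 - s)) := by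
          simp [hs, mul_sub, sub_mul, Finset.mul_sum, mul_assoc, Finset.sum_sub_distrib]
        have := hkill (fun i => n * d ^ (k : ℕ) * c i - if i = k then 1 else 0)
          (e ▸ neg_mem (Ideal.mul_mem_left _ _ hα'))
        simp only [sub_smul, Finset.sum_sub_distrib, ite_smul, one_smul, zero_smul,
          Finset.sum_ite_eq', Finset.mem_univ, if_true, sub_eq_zero] at this
        rw [← this, hu, Finset.smul_sum]
        simp [mul_smul]
      have h3 : u ∈ f3H V J n d m := by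
        refine ⟨h1, fun k hk => ?_⟩
        have := h2 ⟨k, by omega⟩
        simp only at this
        rw [this]
        exact (v _).2
      rw [hH, Submodule.mem_bot] at h3
      apply hv
      funext k
      apply Subtype.ext
      rw [← h2 k, h3, smul_zero]
      rfl)
    refine ⟨η, hη, fun v hv hs k => ?_⟩
    have h0 : z (fun i => ⟨v i, hv i⟩) = z 0 := by
      rw [hz, map_zero]
      exact hs
    have := congrFun (hinj h0) k
    simpa using congrArg Subtype.val this

end Z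

theorem f3_mul_pow {J : Ideal A} {d : A} (hd : ∀ i ∈ J, i * d ∈ J) (x : T) {y : T}
    (hy : y ∈ Ideal.span (Set.range fun i : ℕ => x * ι d ^ i) ⊔ J.map ι) (k : ℕ) :
    y * ι d ^ k ∈ Ideal.span (Set.range fun i : ℕ => x * ι d ^ i) ⊔ J.map ι := by
  induction k with
  | zero => simpa using hy
  | succ k ih =>
    rw [pow_succ, ← mul_assoc]
    obtain ⟨a, ha, j, hj, e⟩ := Submodule.mem_sup.mp ih
    rw [← e, add_mul]
    refine Submodule.add_mem_sup ?_ ?_
    · refine Submodule.span_induction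
        (p := fun a _ => a * ι d ∈ Ideal.span (Set.range fun i : ℕ => x * ι d ^ i)) ?_ ?_ ?_ ?_ ha
      · rintro _ ⟨i, rfl⟩
        exact Ideal.subset_span ⟨i + 1, by simp [pow_succ, mul_assoc]⟩
      · simp
      · intro a b _ _ h1 h2
        rw [add_mul]
        exact add_mem h1 h2
      · intro c a _ h1
        rw [smul_eq_mul, mul_assoc]
        exact Ideal.mul_mem_left _ _ h1
    · refine map_mul_mem ι J (J.map ι) (ι d) (fun m hm => ?_) j hj
      rw [← map_mul]
      exact Ideal.mem_map_of_mem _ (hd m hm)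

theorem f3_map_sup {C D : Type} [Ring C] [Algebra F C] [Ring D] [Algebra F D] (θ : C →ₐ[F] D)
    {J : Ideal C} {J' : Ideal D} (hJ : ∀ j ∈ J, θ j ∈ J') {x d y : C}
    (hy : y ∈ Ideal.span (Set.range fun i : ℕ => x * d ^ i) ⊔ J) :
    θ y ∈ Ideal.span (Set.range fun i : ℕ => θ x * θ d ^ i) ⊔ J' := by
  obtain ⟨a, ha, j, hj, e⟩ := Submodule.mem_sup.mp hy
  rw [← e, map_add]
  refine Submodule.add_mem_sup ?_ (hJ j hj)
  refine Submodule.span_induction
    (p := fun a _ => θ a ∈ Ideal.span (Set.range fun i : ℕ => θ x * θ d ^ i)) ?_ ?_ ?_ ?_ ha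
  · rintro _ ⟨i, rfl⟩
    exact Ideal.subset_span ⟨i, by simp⟩
  · simp
  · intro a b _ _ h1 h2
    rw [map_add]
    exact add_mem h1 h2
  · intro c a _ h1
    rw [smul_eq_mul, map_mul]
    exact Ideal.mul_mem_left _ _ h1

/-- `κ = Fin (m + 1)`, `δ i = d ^ i`, `k₀ = 0`. For one `n ∉ J` and all large `m` there is
`η : Fin (m + 1) → A` with `∑ η i n d ^ i ∈ J` and `Ind V η` (for `n ∈ J` take frames). By
`Fr.exists_inj` (space `Fin (m + 1) → V`) it suffices that `v ≠ 0` is not killed by all such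
`η`. Let `1 - ∑_{i ≤ m₀} α i n d ^ i ∈ J`, `m ≥ m₀`. If `v` is killed by all `η`, then
`u = ∑ α i v i` has `J u = 0`, `n d ^ j u = v j`. The spaces
`H m = {u | J u = 0, n d ^ j u ∈ V for j ≤ m}` decrease, lie in `∑ α i V` for `m ≥ m₀`; when
`H m = H (m + 1)`, `d` acts on `H m`; an eigenvector `u` has `a (d - λ) - 1 ∈ J`, so `u = 0`.
Hence `H m = 0` for large `m`. Join the nodes with `Ind.prod`. -/
theorem derSys_Z [IsAlgClosed F] (hA : Good F M) {J : Ideal A} {d : A}
    (h : (Prom.Z J d).Holds F M) :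
    DerSys I ι J fun x y =>
      y ∈ Ideal.span (Set.range fun i : ℕ => x * ι d ^ i) ⊔ J.map ι := by
  classical
  have hd : ∀ i ∈ J, i * d ∈ J := h.1.1
  refine ⟨?_, ?_, ?_, ?_⟩
  · intro x y z hy hz
    refine (sup_le ?_ le_sup_right :
      Ideal.span (Set.range fun i : ℕ => y * ι d ^ i) ⊔ J.map ι ≤ _) hz
    refine Ideal.span_le.mpr ?_
    rintro _ ⟨i, rfl⟩
    exact f3_mul_pow hd x hy i
  · intro θ hθ x y hy
    have := f3_map_sup θ (fun j hj => f3_map_mem θ hθ J hj) hy
    rwa [hθ] at this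
  · intro n hn j hj
    have h1 := f3_map_sup ι (fun j hj => Ideal.mem_map_of_mem ι hj) ((h.2 n).resolve_left hn)
    rw [map_one] at h1
    refine (sup_le ?_ le_sup_right :
      Ideal.span (Set.range fun i : ℕ => ι n * ι d ^ i) ⊔ J.map ι ≤ _) h1
    refine Ideal.span_le.mpr ?_
    rintro _ ⟨i, rfl⟩
    refine f3_mul_pow hd (ι n + j) ?_ i
    have e : ι n = (ι n + j) * ι d ^ 0 + -j := by simp
    rw [e]
    refine Submodule.add_mem_sup (Ideal.subset_span ⟨0, by simp⟩) (neg_mem hj)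
  · intro W _ n w₀ hw V hV
    obtain ⟨x, y, hxy⟩ := hA.fr.of_countable W
    choose m₀ hm₀ using fun w => f3_key hA.fr V h (n w)
    choose η hη hind using fun w => hm₀ w (Finset.univ.sup m₀)
      (Finset.le_sup (f := m₀) (Finset.mem_univ w))
    refine ⟨Fin (Finset.univ.sup m₀ + 1), inferInstance, fun i => d ^ (i : ℕ), 0,
      fun p => x p.1 * η p.1 p.2, Ind.prod hxy hind, ?_, ?_, ?_, ?_⟩
    · intro w
      simpa [Finset.mul_sum, mul_assoc] using Ideal.mul_mem_left J (x w) (hη w)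
    · simpa using hw
    · intro k j hj
      change j * d ^ (k : ℕ) ∈ J
      induction (k : ℕ) with
      | zero => simpa using hj
      | succ k ih =>
        rw [pow_succ, ← mul_assoc]
        exact hd _ ih
    · intro x τ j hj
      refine Submodule.add_mem_sup (Ideal.sum_mem _ fun k _ => ?_) hj
      rw [mul_assoc, map_pow]
      exact Ideal.mul_mem_left _ _ (Ideal.subset_span ⟨k, rfl⟩)

theorem free_pi (hA : Good F M) (hI : NS M I) (hT : IsFree ι t) (hr : Wit I ι t r) (x : T) :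
    ∃ θ : T →ₐ[F] T, (∀ a, θ (ι a) = ι a) ∧ Wit I ι t (θ r) ∧
      (θ x = 0 ∨ ∃ a b, a * θ x * b = 1) := by
  obtain ⟨N, _, _, root, par, dep, lab, b, n, hb, rfl⟩ := exists_tree hT x
  by_cases hn : ∃ a, n a ∉ (⊥ : Ideal A)
  · obtain ⟨θ, hθ, hw, a, c, e⟩ := reduce hA hI hT (derSys_PI hA hI) hr hb n hn
    exact ⟨θ, hθ, hw, Or.inr ⟨a, c, e.symm⟩⟩
  · push Not at hn
    refine ⟨AlgHom.id F T, fun _ => rfl, hr, Or.inl ?_⟩
    have h0 : ∀ a, n a = 0 := fun a => by simpa using hn a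
    simp [h0]

/-- For `G J S`: `x = ∑ b a n a`, frames `x' a`, `y' a`, `N = ∑ x' a n a`. If `N ∈ J` all
`n a ∈ J`. Else `N - β u ∈ J`, `β v ∉ M` with `(u, v) ∈ S`; `(1 - ∑ x' y') β u ∈ J`, so by
`Stat` `(1 - ∑ x' y') β v ∈ M` and some `y' a β v ∉ M`. Apply `reduce` with `derSys_G` to
`n' a = y' a β v`; the multiplier is `θ (∑ b a ι (y' a β))`. -/
theorem free_prom [IsAlgClosed F] (hA : Good F M) (hI : NS M I) (hT : IsFree ι t)
    (hr : Wit I ι t r) {π : Prom A} (hπ : π.Holds F M) (x : T) :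
    ∃ θ : T →ₐ[F] T, (∀ a, θ (ι a) = ι a) ∧ Wit I ι t (θ r) ∧
      (π.map ι).Done (M.map ι) (θ x) := by
  obtain ⟨N, _, _, root, par, dep, lab, b, n, hb, rfl⟩ := exists_tree hT x
  cases π with
  | Z J d =>
    by_cases hn : ∃ a, n a ∉ J
    · obtain ⟨θ, hθ, hw, e⟩ := reduce hA hI hT (derSys_Z hA hπ) hr hb n hn
      exact ⟨θ, hθ, hw, Or.inr e⟩
    · push Not at hn
      exact ⟨AlgHom.id F T, fun _ => rfl, hr, Or.inl (f3_sum_mem J b n hn)⟩
  | G J S =>
    obtain ⟨x', y', hxy⟩ := hA.fr.of_countable N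
    have hy : ∀ a, y' a * ∑ c, x' c * n c = n a := by
      intro a
      simp [Finset.mul_sum, ← mul_assoc, hxy]
    rcases hπ.2 (∑ c, x' c * n c) with h0 | ⟨p, hp, β, z, h1, h2⟩
    · refine ⟨AlgHom.id F T, fun _ => rfl, hr, Or.inl (f3_sum_mem J b n fun a => ?_)⟩
      rw [← hy a]
      exact Ideal.mul_mem_left _ _ h0
    · have hE : (1 - ∑ a, x' a * y' a) * ∑ c, x' c * n c = 0 := by
        rw [sub_mul, one_mul, Finset.sum_mul]
        simp only [mul_assoc, hy, sub_self]
      have h3 : (1 - ∑ a, x' a * y' a) * β * p.1 ∈ J := by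
        have e : (1 - ∑ a, x' a * y' a) * β * p.1 =
            -((1 - ∑ a, x' a * y' a) * (∑ c, x' c * n c - β * p.1)) := by
          rw [mul_sub (1 - ∑ a, x' a * y' a), hE]
          noncomm_ring
        rw [e]
        exact neg_mem (Ideal.mul_mem_left _ _ h1)
      have h4 := hπ.1 p hp _ h3
      have hn : ∃ a, y' a * β * p.2 ∉ M := by
        by_contra hcon
        push Not at hcon
        have h5 : (∑ a, x' a * y' a) * β * p.2 ∈ M := by
          rw [Finset.sum_mul, Finset.sum_mul]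
          refine Ideal.sum_mem _ fun a _ => ?_
          simpa [mul_assoc] using Ideal.mul_mem_left M (x' a) (hcon a)
        have h6 : β * p.2 ∈ M := by
          have e : β * p.2 = (1 - ∑ a, x' a * y' a) * β * p.2 + (∑ a, x' a * y' a) * β * p.2 := by
            noncomm_ring
          rw [e]
          exact add_mem h4 h5
        apply hA.pt.1.1
        have e : (1 : A) = z * (β * p.2) - (z * (β * p.2) - 1) := by simp
        rw [e]
        exact sub_mem (Ideal.mul_mem_left _ _ h6) h2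
      obtain ⟨θ, hθ, hw, z', e⟩ :=
        reduce hA hI hT (derSys_G hA hI) hr hb (fun a => y' a * β * p.2) hn
      refine ⟨θ, hθ, hw, Or.inr ⟨Prod.map ι ι p, ⟨p, hp, rfl⟩,
        θ (∑ a, b a * ι (y' a * β)), z', ?_, ?_⟩⟩
      · have h5 := f3_map_mem θ hθ J (f3_sum_mem (ι := ι) J b
          (fun a => y' a * (∑ c, x' c * n c - β * p.1)) fun a => Ideal.mul_mem_left _ _ h1)
        have e' : θ (∑ a, b a * ι (n a)) - θ (∑ a, b a * ι (y' a * β)) * (Prod.map ι ι p).1 =
            θ (∑ a, b a * ι (y' a * (∑ c, x' c * n c - β * p.1))) := by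
          rw [Prod.map_fst, ← hθ p.1, ← map_mul, ← map_sub, Finset.sum_mul,
            ← Finset.sum_sub_distrib]
          congr 1
          refine Finset.sum_congr rfl fun a _ => ?_
          rw [mul_sub (y' a), hy, map_sub, mul_sub, mul_assoc (b a), ← map_mul, mul_assoc]
        rw [e']
        exact h5
      · have e' : θ (∑ a, b a * ι (y' a * β)) * (Prod.map ι ι p).2 =
            θ (∑ a, b a * ι (y' a * β * p.2)) := by
          rw [Prod.map_snd, ← hθ p.2, ← map_mul, Finset.sum_mul]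
          congr 1
          refine Finset.sum_congr rfl fun a _ => ?_
          rw [mul_assoc (b a), ← map_mul]
        rw [e', ← neg_sub]
        exact neg_mem e

/-- admissible stages of the free step -/
def f3Adm (I : Ideal A) (X : Stg F A) : Prop :=
  ∃ t, IsFree X.ι t ∧ Function.Injective X.ι ∧ Wit I X.ι t (X.r true)

theorem f3_next {X : Stg F A} {t : X.T} (hT : IsFree X.ι t) (hinj : Function.Injective X.ι)
    (P : ∀ Y : Stg F A, X.Hom Y → Prop) (θ : X.T →ₐ[F] X.T) (hθ : ∀ a, θ (X.ι a) = X.ι a)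
    (hw : Wit I X.ι t (θ (X.r true)))
    (hP : P { X with r := fun ε => θ (X.r ε) } ⟨θ, hθ, fun _ => rfl⟩) :
    ∃ Y, f3Adm I Y ∧ ∃ θ : X.Hom Y, P Y θ :=
  ⟨{ X with r := fun ε => θ (X.r ε) }, ⟨t, hT, hinj, hw⟩, ⟨θ, hθ, fun _ => rfl⟩, hP⟩

/-- The free step: `step_of_tasks` with `T, ι, t` from `exists_free`,
`Adm X = ∃ t, IsFree X.ι t ∧ Injective X.ι ∧ Wit I X.ι t (X.r true)` (a substitution `θ` is a
`Hom` from `X` to `{X with r := θ ∘ X.r}`), extra task: absorption. -/
theorem step_free [IsAlgClosed F] [Countable F] [Countable A] (hA : Good F M) (S : Set (Prom A))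
    (hS : S.Countable) (hS' : ∀ π ∈ S, π.Holds F M) (hI : NS M I) (hI' : 1 ∉ I) :
    ∃ (B : Type) (_ : Ring B) (_ : Algebra F B) (_ : Countable B) (φ : A →ₐ[F] B),
      Function.Injective φ ∧ Good F (M.map φ) ∧ (∀ π ∈ S, (π.map φ).Holds F (M.map φ)) ∧
      ∃ r : B, ∀ b, b * r ∈ I.map φ → b = 0 := by
  obtain ⟨T, _, _, _, ι, t, hT, hinj⟩ := exists_free (F := F) (A := A)
  obtain ⟨B, X, f, hBinj, hreg, hpi, hprom, habs, hadm, hcov, hker⟩ :=
    step_of_tasks hA.reg M S hS (fun π hπ => (hS' π hπ).1) (f3Adm I)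
      (fun X hX => hX.choose_spec.2.1) Unit
      (fun _ X x => ∃ a, x - X.ι a ∈ M.map X.ι)
      (by
        rintro _ X Y θ x ⟨a, ha⟩
        refine ⟨a, ?_⟩
        have := f3_map_mem θ.f θ.hι M ha
        rwa [map_sub, θ.hι] at this)
      (by
        rintro X ⟨t, hT, hinj, hw⟩ _ x
        obtain ⟨θ, hθ, hw', h⟩ := free_abs hA hI hT hw x
        exact f3_next hT hinj (fun Y θ => ∃ a, θ.f x - Y.ι a ∈ M.map Y.ι) θ hθ hw' h)
      (by
        rintro X ⟨t, hT, hinj, hw⟩ x
        obtain ⟨θ, hθ, hw', h⟩ := free_reg hA hI hT hw x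
        exact f3_next hT hinj (fun Y θ => ∃ y, θ.f x * y * θ.f x = θ.f x) θ hθ hw' h)
      (by
        rintro X ⟨t, hT, hinj, hw⟩ x
        obtain ⟨θ, hθ, hw', h⟩ := free_pi hA hI hT hw x
        exact f3_next hT hinj (fun Y θ => θ.f x = 0 ∨ ∃ a b, a * θ.f x * b = 1) θ hθ hw' h)
      (by
        rintro π hπ X ⟨t, hT, hinj, hw⟩ x
        obtain ⟨θ, hθ, hw', h⟩ := free_prom hA hI hT hw (hS' π hπ) x
        exact f3_next hT hinj (fun Y θ => (π.map Y.ι).Done (M.map Y.ι) (θ.f x)) θ hθ hw' h)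
      { T := T, ι := ι, r := fun _ => t } ⟨t, hT, hinj, wit_start hI'⟩
  have hmem := hA.reg.map_mem_map_iff B.ι hBinj M
  refine ⟨B.T, inferInstance, inferInstance, inferInstance, B.ι, hBinj,
    ⟨hreg, hpi, hA.fr.map (B.ι : A →+* B.T), ⟨?_, ?_⟩, ?_⟩, hprom, B.r true, ?_⟩
  · intro h1
    rw [← map_one B.ι, hmem] at h1
    exact hA.pt.1.1 h1
  · intro x hx
    obtain ⟨a, ha⟩ := habs () x
    have ha' : a ∉ M := by
      intro h
      apply hx
      have := add_mem ha (Ideal.mem_map_of_mem B.ι h)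
      simpa using this
    obtain ⟨z, hz⟩ := hA.pt.1.2 a ha'
    refine ⟨B.ι z, ?_⟩
    have e : B.ι z * x - 1 = B.ι z * (x - B.ι a) + B.ι (z * a - 1) := by
      simp only [map_sub, map_mul, map_one]
      noncomm_ring
    rw [e]
    exact add_mem (Ideal.mul_mem_left _ _ ha) (Ideal.mem_map_of_mem _ hz)
  · intro x hx
    obtain ⟨a, ha⟩ := habs () x
    obtain ⟨c, hc⟩ := hA.pt.2 a fun m hm => by
      rw [← hmem]
      have e : B.ι (m * a) = B.ι m * x - B.ι m * (x - B.ι a) := by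
        simp only [map_mul]
        noncomm_ring
      rw [e]
      exact sub_mem (hx _ (Ideal.mem_map_of_mem _ hm)) (Ideal.mul_mem_left _ _ ha)
    refine ⟨c, ?_⟩
    have e : x - algebraMap F B.T c = (x - B.ι a) + B.ι (a - algebraMap F A c) := by
      simp
    rw [e]
    exact add_mem ha (Ideal.mem_map_of_mem _ hc)
  · intro b hb
    obtain ⟨n, x, rfl⟩ := hcov b
    obtain ⟨h, hh, e⟩ := (hA.reg.mem_map_iff B.ι I _).mp hb
    obtain ⟨m, θ, hθ, h0⟩ := hker n (x * (X n).r true * (X n).ι h - x * (X n).r true) (by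
      rw [map_sub, map_mul, map_mul, (f n).hι, (f n).hr, e, sub_self])
    obtain ⟨t', hT', -, hw⟩ := hadm m
    rw [map_sub, map_mul, map_mul, θ.hι, θ.hr, sub_eq_zero] at h0
    have h1 : θ.f x = 0 := hw.free hT' _ (h0 ▸ Ideal.mul_mem_left _ _ (Ideal.mem_map_of_mem _ hh))
    rw [← hθ, h1, map_zero]

end Pool.Agent.Lib.MP_57313b_al.Dia
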