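import Pool.Agent.Lib.MP_57313b_al.Dia.Merge3Aux
import Pool.Agent.Lib.MP_57313b_al.Dia.Lim

/-! The merge step: regularity and the step theorem. -/

namespace Pool.Agent.Lib.MP_57313b_al.Dia

variable {F : Type} [Field F] [Countable F] {A : Type} [Ring A] [Algebra F A] [Countable A]

section aux
variable {T : Type} [Ring T] [Algebra F T]

omit [Countable F] [Countable A] in
/-- splitting relations into a pure part and a remainder -/
theorem m3_split (hA : Reg A) (ι : A →ₐ[F] T) {J : Type} [Finite J] (k : A) (q : J → A)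
    (ρ σ : J → T) (N : Ideal A) (hk : k ∈ N) (hq : ∀ j, q j ∈ N)
    (h1 : ∀ j, ∃ u, ι (q j) = u * ρ j) (h2 : ∀ j, ∃ u, σ j = u * ρ j)
    (h3 : ∀ j, ∃ u v, ρ j = u * ι (q j) + v * σ j) :
    ∃ k' ∈ N, k' * k' = k' ∧
      Ideal.span (insert (ι k) (Set.range ρ)) = Ideal.span (insert (ι k') (Set.range σ)) := by
  have hρ : ∀ j, ρ j ∈ Ideal.span (insert (ι k) (Set.range ρ)) := fun j =>
    Ideal.subset_span (Set.mem_insert_of_mem _ ⟨j, rfl⟩)
  obtain ⟨k', hk', hkk, hfix⟩ := hA.idem_left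
    (N ⊓ (Ideal.span (insert (ι k) (Set.range ρ))).comap ι) (fun o : Option J => o.elim k q) (by
      rintro (_ | j)
      · exact ⟨hk, Ideal.subset_span (Set.mem_insert _ _)⟩
      · refine ⟨hq j, ?_⟩
        obtain ⟨u, hu⟩ := h1 j
        change ι (q j) ∈ Ideal.span (insert (ι k) (Set.range ρ))
        rw [hu]
        exact Ideal.mul_mem_left _ _ (hρ j))
  have hk0 : ι k' ∈ Ideal.span (insert (ι k') (Set.range σ)) :=
    Ideal.subset_span (Set.mem_insert _ _)
  have hfix' : ∀ o : Option J, ι (o.elim k q) ∈ Ideal.span (insert (ι k') (Set.range σ)) := by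
    intro o
    rw [← hfix o, map_mul]
    exact Ideal.mul_mem_left _ _ hk0
  refine ⟨k', hk'.1, hkk, le_antisymm ?_ ?_⟩
  · rw [Ideal.span_le]
    rintro _ (rfl | ⟨j, rfl⟩)
    · exact hfix' none
    · obtain ⟨u, v, huv⟩ := h3 j
      rw [huv]
      exact Ideal.add_mem _ (Ideal.mul_mem_left _ _ (hfix' (some j)))
        (Ideal.mul_mem_left _ _ (Ideal.subset_span (Set.mem_insert_of_mem _ ⟨j, rfl⟩)))
  · rw [Ideal.span_le]
    rintro _ (rfl | ⟨j, rfl⟩)
    · exact hk'.2
    · obtain ⟨u, hu⟩ := h2 j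
      rw [hu]
      exact Ideal.mul_mem_left _ _ (hρ j)

omit [Countable F] in
theorem m3_pair {k x y : T} (h1 : ∃ u v, x = u * k + v * y) (h2 : ∃ u v, y = u * k + v * x) :
    Ideal.span {k, x} = Ideal.span {k, y} := by
  have key : ∀ x y : T, (∃ u v, x = u * k + v * y) → Ideal.span {k, x} ≤ Ideal.span {k, y} := by
    rintro x y ⟨u, v, huv⟩
    rw [Ideal.span_le]
    rintro _ (rfl | rfl)
    · exact Ideal.subset_span (Set.mem_insert _ _)
    · rw [huv]
      exact Ideal.add_mem _ (Ideal.mul_mem_left _ _ (Ideal.subset_span (Set.mem_insert _ _)))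
        (Ideal.mul_mem_left _ _ (Ideal.subset_span (Set.mem_insert_of_mem _ rfl)))
  exact le_antisymm (key x y h1) (key y x h2)

end aux

/-- the independent case of the regularity task -/
theorem m3_gen {M : Bool → Ideal A} (h : MH F M) (X : MS F M) {J : Type} [Fintype J]
    {φ ψ : J → A} (hφ : ∀ j, X.g false * φ j = φ j) (hψ : ∀ j, X.g true * ψ j = ψ j) {k : A}
    (hk : k * k = k) (iφ : ∀ c : J → F, ∑ j, c j • (φ j * (1 - k)) = 0 → ∀ j, c j = 0)
    (iψ : ∀ c : J → F, ∑ j, c j • (ψ j * (1 - k)) = 0 → ∀ j, c j = 0) :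
    ∃ (Y : MS F M) (θ : X.Tr Y), Gen ((Ideal.span (insert (X.ι k)
      (Set.range fun j => X.τ false * X.ι (φ j) - X.ι (ψ j)))).map θ.f) := by
  classical
  obtain ⟨G, g₁, w₀, h₁, hle, hw, hw', hkG, m1, m2, m3⟩ := m3_core h X.sm hφ hψ hk iφ iψ
  obtain ⟨Y, θ, hY, hθ⟩ := MS.tr h X g₁ h₁ hle w₀ hw hw'
  refine ⟨Y, θ, ?_⟩
  have hg3 : Y.g true * Y.g true = Y.g true := (Y.sm true).1
  have a1 : ∀ i j, θ.w false * (φ i * G j * g₁ true) =
      ψ i * G j * g₁ true - if i = j then g₁ true else 0 := by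
    intro i j
    have e := (hθ false).1
    simp only [Bool.not_false] at e
    rw [← m2, ← e, mul_assoc (θ.w false), mul_assoc (w₀ true), m2, m3]
  have a2 : ∀ i j, (θ.w false * φ i - ψ i) * (G j * Y.g true) =
      - if i = j then Y.g true else 0 := by
    intro i j
    have e := congrArg (· * Y.g true) (a1 i j)
    simp only [sub_mul, mul_assoc, (hY true).1, ite_mul, zero_mul] at e
    rw [sub_mul, mul_assoc, e]
    abel
  have a3 : ∀ i j, Y.τ false * Y.ι (φ i) * Y.ι (G j * Y.g true) = 0 := by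
    intro i j
    have e : Y.g false * (φ i * (G j * Y.g true)) = 0 := by
      have e1 := congrArg (fun z => Y.g false * z * Y.g true) (m1 i j)
      simp only [mul_assoc, (hY true).1, mul_zero, zero_mul] at e1
      rw [← mul_assoc (Y.g false) (g₁ false), (hY false).2] at e1
      exact e1
    rw [← Y.univ.rel1 false, mul_assoc, mul_assoc, ← map_mul, ← map_mul, e, map_zero, mul_zero]
  have a4 : Y.ι (Y.g true) * Y.τ false = Y.τ false := by
    have e := Y.univ.rel1 false
    simp only [Bool.not_false] at e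
    conv_lhs => rw [← e, ← mul_assoc, ← mul_assoc, ← map_mul, hg3]
    exact e
  have hρ : ∀ i, θ.f (X.τ false * X.ι (φ i) - X.ι (ψ i)) =
      Y.τ false * Y.ι (φ i) + Y.ι (θ.w false * φ i - ψ i) := by
    intro i
    rw [map_sub, map_mul, θ.hτ, θ.hι, θ.hι, map_sub, map_mul]
    noncomm_ring
  let N : Ideal A := ⨅ j, LinearMap.ker (LinearMap.toSpanSingleton A A (G j * Y.g true))
  have hN : ∀ a, a ∈ N ↔ ∀ j, a * (G j * Y.g true) = 0 := by
    intro a
    simp [N, Submodule.mem_iInf, LinearMap.mem_ker, LinearMap.toSpanSingleton_apply]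
  obtain ⟨k', hk', hkk, hspan⟩ := m3_split h.reg Y.ι k
    (fun i => (1 - Y.g true) * (θ.w false * φ i - ψ i))
    (fun i => Y.τ false * Y.ι (φ i) + Y.ι (θ.w false * φ i - ψ i))
    (fun i => Y.ι (Y.g true) * (Y.τ false * Y.ι (φ i) + Y.ι (θ.w false * φ i - ψ i))) N
    ((hN k).2 fun j => by rw [← mul_assoc, hkG, zero_mul])
    (fun i => (hN _).2 fun j => by
      rw [mul_assoc, a2]
      split_ifs
      · rw [mul_neg, sub_mul, one_mul, hg3, sub_self, neg_zero]
      · rw [neg_zero, mul_zero])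
    (fun i => ⟨Y.ι (1 - Y.g true), by
      rw [mul_add, ← map_mul, ← mul_assoc, map_sub Y.ι 1, map_one, sub_mul (1 : Y.T), one_mul, a4,
        sub_self, zero_mul, zero_add]⟩)
    (fun i => ⟨_, rfl⟩)
    (fun i => ⟨1, 1, by
      rw [one_mul, one_mul, mul_add, ← mul_assoc, a4, map_mul, map_sub Y.ι 1, map_one]
      noncomm_ring⟩)
  have himg : θ.f '' insert (X.ι k) (Set.range fun j => X.τ false * X.ι (φ j) - X.ι (ψ j)) =
      insert (Y.ι k) (Set.range fun i =>
        Y.τ false * Y.ι (φ i) + Y.ι (θ.w false * φ i - ψ i)) := by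
    rw [Set.image_insert_eq, θ.hι, ← Set.range_comp]
    congr 2
    funext i
    exact hρ i
  rw [Ideal.map_span, himg, hspan]
  refine gen_of (h := Y.ι (Y.g true)) (G := fun j => - Y.ι (G j * Y.g true)) ?_ ?_ ?_ ?_
  · rw [← map_mul, hkk]
  · intro j
    rw [← mul_assoc, ← map_mul, hg3]
  · intro i j
    rw [mul_neg, mul_assoc, add_mul, a3, zero_add, ← map_mul, ← map_mul, a2]
    split_ifs
    · rw [mul_neg, hg3, map_neg, neg_neg]
    · simp
  · intro j
    rw [mul_neg, ← map_mul, (hN k').1 hk' j, map_zero, neg_zero]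

omit [Countable F] [Countable A] in
theorem m3_hom_mem {X Y : Stg F A} (θ : X.Hom Y) (J : Ideal A) {x : X.T} (hx : x ∈ J.map X.ι) :
    θ.f x ∈ J.map Y.ι := by
  have : J.map X.ι ≤ (J.map Y.ι).comap θ.f := by
    rw [Ideal.map_le_iff_le_comap]
    intro a ha
    rw [Ideal.mem_comap, Ideal.mem_comap, θ.hι]
    exact Ideal.mem_map_of_mem _ ha
  exact this hx

/-- Regularity. `Gens.lin`; write `τ = τ false`, `g = g false`, `g' = g true`. First replace
the relations by relations `ρ j = τ φ j - ψ j` with `g φ j = φ j`, `g' ψ j = ψ j` and pure ones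
(`τ ε φ - ψ` generates the same left ideal as `(1 - g (!ε)) ψ` and `τ ε φ - g (!ε) ψ`, and for
`ε = true` the latter as `τ false (g false ψ) - g true φ`). `skeleton` with
`P L = ∃ Y θ, Gen (L.map θ)`. If no combination is pure, the `φ j (1 - k)` are independent and
the `ψ j (1 - k)` are independent. `G₀` from `Pre.am` (`N = M true`, `W` the span of both
families), `G j = (1 - k) G₀ j`; the families `φ i G j` and `(1, ψ i G j)` are independent
modulo `M true`. `density` gives `a* κ` with `a* κ φ i G j ≡ δ`, `p ≡ 1` with `p ψ i G j ≡ δ i j`,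
`b* κ ≡ 0` with `b* κ ψ i G j ≡ δ` (all modulo `M true`); `lk` for `p` gives `g₁ true`;
`lk_other` gives `g₁ false φ i G j ∈ M true`; `rk` gives `h ≤ g₁ true` killing all these on the
right. `α i j = φ i G j h`, `β i j = ψ i G j h - δ i j h`,
`w₀ false = ∑ β κ a* κ (g - g₁ false)`, `w₀ true = ∑ α κ b* κ (g' - h)`; `MS.tr` for
`(g₁ false, h)` gives `w false α = β`, so `θ (ρ i) G j g₃ = - δ i j g₃` with `g₃ = Y.g true`.
Split `θ (ρ i)` into the pure part `(1 - g₃) θ (ρ i)` and `σ i = g₃ θ (ρ i)`; `Reg.idem_left`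
and `gen_of` with `h = ι g₃`. -/
theorem MS.task_reg {M : Bool → Ideal A} (h : MH F M) (X : MS F M) (x : X.T) :
    ∃ (Y : MS F M) (θ : X.Tr Y), ∃ y, θ.f x * y * θ.f x = θ.f x := by
  classical
  obtain ⟨J, _, ε, φ, ψ, k, hlin⟩ := X.univ.gens.lin h.fr x
  have hgg : ∀ e, X.ι (X.g e) * X.ι (X.g e) = X.ι (X.g e) := fun e => by
    rw [← map_mul, (X.sm e).1]
  have tl : ∀ e, X.ι (X.g (!e)) * X.τ e = X.τ e := by
    intro e
    conv_lhs => rw [← X.univ.rel1 e, ← mul_assoc, ← mul_assoc, hgg]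
    exact X.univ.rel1 e
  have tr : ∀ e, X.τ e * X.ι (X.g e) = X.τ e := by
    intro e
    conv_lhs => rw [← X.univ.rel1 e, mul_assoc, hgg]
    exact X.univ.rel1 e
  have tl0 : X.ι (X.g true) * X.τ false = X.τ false := tl false
  have tl1 : X.ι (X.g false) * X.τ true = X.τ true := tl true
  have t01 : X.τ false * X.τ true = X.ι (X.g true) := X.univ.rel2 true
  have t10 : X.τ true * X.τ false = X.ι (X.g false) := X.univ.rel2 false
  let φ' : J → A := fun j => X.g false * cond (ε j) (ψ j) (φ j)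
  let ψ' : J → A := fun j => X.g true * cond (ε j) (φ j) (ψ j)
  have hφ' : ∀ j, X.g false * φ' j = φ' j := fun j => by
    simp only [φ']; rw [← mul_assoc, (X.sm false).1]
  have hψ' : ∀ j, X.g true * ψ' j = ψ' j := fun j => by
    simp only [ψ']; rw [← mul_assoc, (X.sm true).1]
  obtain ⟨k', -, -, hspan⟩ := m3_split h.reg X.ι k (fun j => (1 - X.g (!ε j)) * ψ j)
    (fun j => X.τ (ε j) * X.ι (φ j) - X.ι (ψ j))
    (fun j => X.τ false * X.ι (φ' j) - X.ι (ψ' j)) ⊤ trivial (fun _ => trivial)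
    (fun j => ⟨X.ι (X.g (!ε j)) - 1, by
      rw [sub_mul (X.ι (X.g (!ε j))), mul_sub, ← mul_assoc, tl, map_mul, map_sub, map_one]
      noncomm_ring⟩)
    (fun j => by
      simp only [φ', ψ']
      cases ε j
      · refine ⟨X.ι (X.g true), ?_⟩
        simp only [cond_false, map_mul]
        rw [mul_sub, ← mul_assoc, ← mul_assoc, tl0, tr]
      · refine ⟨- X.τ false, ?_⟩
        simp only [cond_true, map_mul]
        rw [neg_mul, mul_sub, ← mul_assoc, ← mul_assoc, t01, tr, neg_sub])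
    (fun j => by
      simp only [φ', ψ']
      cases ε j
      · refine ⟨-1, 1, ?_⟩
        simp only [cond_false, map_mul, Bool.not_false, map_sub, map_one]
        rw [← mul_assoc (X.τ false), tr]
        noncomm_ring
      · refine ⟨-1, - X.τ true, ?_⟩
        simp only [cond_true, map_mul, Bool.not_true, map_sub, map_one]
        rw [neg_mul (X.τ true), mul_sub (X.τ true), ← mul_assoc (X.τ true), ← mul_assoc (X.τ true),
          t10, tr, ← mul_assoc (X.ι (X.g false)), hgg]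
        noncomm_ring)
  have key := skeleton (ι := X.ι) h.reg (fun j => X.τ false * X.ι (φ' j) - X.ι (ψ' j))
    (fun L => ∃ (Y : MS F M) (θ : X.Tr Y), Gen (L.map θ.f)) (by
      intro s k₀ hk₀ hs
      have hsum : ∀ c : s → F, ∑ j ∈ s, (fun j => if hj : j ∈ s then c ⟨j, hj⟩ else 0) j •
          (X.τ false * X.ι (φ' j) - X.ι (ψ' j)) =
          X.τ false * X.ι (∑ j : s, c j • φ' j) - X.ι (∑ j : s, c j • ψ' j) := by
        intro c
        rw [← Finset.sum_coe_sort s, map_sum, map_sum, Finset.mul_sum, ← Finset.sum_sub_distrib]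
        refine Finset.sum_congr rfl fun j _ => ?_
        simp only [j.2, dif_pos, map_smul, smul_sub, mul_smul_comm]
      have hfin : ∀ (c : s → F) (a : A), Ideal.span {X.ι k₀, X.τ false *
          X.ι (∑ j : s, c j • φ' j) - X.ι (∑ j : s, c j • ψ' j)} =
          Ideal.span {X.ι k₀, X.ι a} → ∀ j, c j = 0 := by
        intro c a ha j
        have := hs (fun j => if hj : j ∈ s then c ⟨j, hj⟩ else 0) a (by rw [hsum]; exact ha) j j.2
        simpa only [j.2, dif_pos] using this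
      have hfix : ∀ (c : s → F) (u : J → A), ∑ j : s, c j • (u j * (1 - k₀)) = 0 →
          X.ι (∑ j : s, c j • u j) = X.ι (∑ j : s, c j • u j) * X.ι k₀ := by
        intro c u hu
        have e : (∑ j : s, c j • u j) * (1 - k₀) = 0 := by
          rw [← hu, Finset.sum_mul]
          exact Finset.sum_congr rfl fun j _ => smul_mul_assoc _ _ _
        rw [mul_sub, mul_one, sub_eq_zero] at e
        rw [← map_mul, ← e]
      obtain ⟨Y, θ, hY⟩ := m3_gen h X (J := s) (φ := fun j => φ' j) (ψ := fun j => ψ' j)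
        (fun j => hφ' j) (fun j => hψ' j) hk₀
        (fun c hc => hfin c (∑ j : s, c j • ψ' j) (m3_pair
          ⟨X.τ false * X.ι (∑ j : s, c j • φ' j), -1, by
            rw [mul_assoc, ← hfix c φ' hc]; noncomm_ring⟩
          ⟨X.τ false * X.ι (∑ j : s, c j • φ' j), -1, by
            rw [mul_assoc, ← hfix c φ' hc]; noncomm_ring⟩))
        (fun c hc => hfin c (∑ j : s, c j • φ' j) (m3_pair
          ⟨- X.ι (∑ j : s, c j • ψ' j), X.τ false, by
            rw [neg_mul, ← hfix c ψ' hc]; noncomm_ring⟩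
          ⟨X.τ true * X.ι (∑ j : s, c j • ψ' j), X.τ true, by
            have e : X.g false * ∑ j : s, c j • φ' j = ∑ j : s, c j • φ' j := by
              rw [Finset.mul_sum]
              exact Finset.sum_congr rfl fun j _ => by rw [mul_smul_comm, hφ']
            rw [mul_assoc, ← hfix c ψ' hc, mul_sub, ← mul_assoc, t10, ← map_mul, e]
            abel⟩))
      refine ⟨Y, θ, ?_⟩
      rw [Set.image_eq_range]
      exact hY) Finset.univ k'
  obtain ⟨Y, θ, hY⟩ := key
  refine ⟨Y, θ, hlin Y.T θ.f ?_⟩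
  rw [hspan]
  rwa [Finset.coe_univ, Set.image_univ] at hY

/-- The merge step: `step_of_tasks` with `M false = M`, `M true = I` (`NS.symm`),
`Adm X = ∃ Y : MS F _, Y.toStg = X`, extra tasks `task_abs`, `task_kill`. In the limit `B` every
`x ≡ a + a' r false` modulo `M.map`. If `a' ∉ I`, `density` gives `p a ∈ M`, `p a' - 1 ∈ I`, so
`r true p x ≡ 1`. If `M x ⊆ M.map` and `a' ∉ I`, some `m ∈ M` has `m a' ∉ I`, so `1 ∈ M.map`,
impossible. -/
theorem step_merge [IsAlgClosed F] {M I : Ideal A} (hA : Good F M) (S : Set (Prom A))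
    (hS : S.Countable) (hS' : ∀ π ∈ S, π.Holds F M) (hI : NS M I) (hI' : Pt F I) :
    ∃ (B : Type) (_ : Ring B) (_ : Algebra F B) (_ : Countable B) (φ : A →ₐ[F] B),
      Function.Injective φ ∧ Good F (M.map φ) ∧ (∀ π ∈ S, (π.map φ).Holds F (M.map φ)) ∧
      ∃ r r' : B, (∀ m ∈ M.map φ, m * r ∈ I.map φ) ∧ r' * r = 1 := by
  let MM : Bool → Ideal A := fun b => cond b I M
  have h : MH F MM := by
    refine ⟨hA.reg, hA.pi, hA.fr, ?_, ?_⟩
    · rintro (_ | _)
      · exact hA.pt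
      · exact hI'
    · rintro (_ | _)
      · exact hI
      · exact NS.symm hA.pt.1 hI'.1 hI
  obtain ⟨X₀⟩ := MS.start h
  let Done : Option (Bool × A) → ∀ X : Stg F A, X.T → Prop := fun t X x =>
    t.elim (∃ a a' : A, x - X.ι a - X.ι a' * X.r false ∈ M.map X.ι)
      fun p => p.2 ∈ MM (!p.1) → X.ι p.2 * X.r p.1 ∈ (MM p.1).map X.ι
  obtain ⟨B, X, f, hinj, hreg, hpi, hprom, hdone, hadm, -, -⟩ := step_of_tasks hA.reg M S hS
    (fun π hπ => (hS' π hπ).1) (fun X => ∃ Y : MS F MM, Y.toStg = X)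
    (by rintro _ ⟨Y, rfl⟩; exact Y.inj) (Option (Bool × A)) Done
    (by
      rintro (_ | ⟨e, m⟩) X Y θ x hx
      · obtain ⟨a, a', hx⟩ := hx
        refine ⟨a, a', ?_⟩
        have := m3_hom_mem θ M hx
        rwa [map_sub, map_sub, map_mul, θ.hι, θ.hι, θ.hr] at this
      · intro hm
        have := m3_hom_mem θ _ (hx hm)
        rwa [map_mul, θ.hι, θ.hr] at this)
    (by
      rintro _ ⟨X, rfl⟩ (_ | ⟨e, m⟩) x
      · obtain ⟨Y, θ, a, a', hY⟩ := MS.task_abs h X x
        exact ⟨Y.toStg, ⟨Y, rfl⟩, θ.toHom, a, a', hY⟩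
      · by_cases hm : m ∈ MM (!e)
        · obtain ⟨Y, θ, hY⟩ := MS.task_kill h X e hm
          exact ⟨Y.toStg, ⟨Y, rfl⟩, θ.toHom, fun _ => hY⟩
        · exact ⟨X.toStg, ⟨X, rfl⟩, Stg.Hom.id _, fun hm' => absurd hm' hm⟩)
    (by
      rintro _ ⟨X, rfl⟩ x
      obtain ⟨Y, θ, hY⟩ := MS.task_reg h X x
      exact ⟨Y.toStg, ⟨Y, rfl⟩, θ.toHom, hY⟩)
    (by
      rintro _ ⟨X, rfl⟩ x
      obtain ⟨Y, θ, hY⟩ := MS.task_pi h X x
      exact ⟨Y.toStg, ⟨Y, rfl⟩, θ.toHom, hY⟩)
    (by
      rintro π hπ _ ⟨X, rfl⟩ x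
      obtain ⟨Y, θ, hY⟩ := MS.task_prom h X (π := π) (hS' π hπ) x
      exact ⟨Y.toStg, ⟨Y, rfl⟩, θ.toHom, hY⟩)
    X₀.toStg ⟨X₀, rfl⟩
  have hinv : ∀ e, B.r (!e) * B.r e = 1 := by
    intro e
    obtain ⟨Y, hY⟩ := hadm 0
    have e1 : (X 0).r (!e) * (X 0).r e = 1 := by
      rw [← hY]; exact Y.inv e
    rw [← (f 0).hr, ← (f 0).hr, ← map_mul, e1, map_one]
  have habs : ∀ x : B.T, ∃ a a' : A, x - B.ι a - B.ι a' * B.r false ∈ M.map B.ι :=
    fun x => hdone none x
  have hk0 : ∀ m ∈ I, B.ι m * B.r false ∈ M.map B.ι := fun m hm => hdone (some (false, m)) 0 hm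
  have hk1 : ∀ m ∈ M, B.ι m * B.r true ∈ I.map B.ι := fun m hm => hdone (some (true, m)) 0 hm
  have hmem : ∀ a, B.ι a ∈ M.map B.ι ↔ a ∈ M := hA.reg.map_mem_map_iff B.ι hinj M
  have hone : (1 : B.T) ∉ M.map B.ι := by
    rw [← map_one B.ι, hmem]
    exact hA.pt.1.1
  have hA1 : ∀ (x : B.T) (a a' : A), x - B.ι a - B.ι a' * B.r false ∈ M.map B.ι → a' ∈ I →
      x - B.ι a ∈ M.map B.ι := by
    intro x a a' hx ha'
    simpa using (M.map B.ι).add_mem hx (hk0 a' ha')
  have hA2 : ∀ (x : B.T) (a a' : A), x - B.ι a - B.ι a' * B.r false ∈ M.map B.ι → a' ∉ I →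
      ∃ z, z * x - 1 ∈ M.map B.ι := by
    intro x a a' hx ha'
    obtain ⟨p, hp, hp'⟩ := density hI' hA.pt.1 hI (fun _ : Unit => a') (by
      intro c hc k
      by_contra hne
      apply ha'
      have hc' : c k • a' ∈ I := by simpa using hc
      have := I.mul_mem_left (algebraMap F A (c k)⁻¹) hc'
      rwa [← Algebra.smul_def, smul_smul, inv_mul_cancel₀ hne, one_smul] at this)
      (fun _ => 1) (fun _ : Unit => a)
    refine ⟨B.r true * B.ι p, ?_⟩
    have e : B.r true * B.ι p * x - 1 = B.r true * (B.ι p * (x - B.ι a - B.ι a' * B.r false) +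
        B.ι (p * a) + B.ι (p * a' - 1) * B.r false) := by
      have e1 : B.r true * B.r false = 1 := hinv false
      rw [map_sub, map_mul, map_mul, map_one]
      conv_lhs => rw [← e1]
      noncomm_ring
    rw [e]
    exact Ideal.mul_mem_left _ _ (Ideal.add_mem _ (Ideal.add_mem _ (Ideal.mul_mem_left _ _ hx)
      ((hmem _).2 (hp' ()))) (hk0 _ (hp ())))
  refine ⟨B.T, inferInstance, inferInstance, inferInstance, B.ι, hinj,
    ⟨hreg, hpi, hA.fr.map B.ι.toRingHom, ⟨hone, ?_⟩, ?_⟩, hprom, B.r true, B.r false,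
    map_mul_mem B.ι M _ _ hk1, hinv true⟩
  · intro x hx
    obtain ⟨a, a', hxa⟩ := habs x
    by_cases ha' : a' ∈ I
    · have h1 := hA1 x a a' hxa ha'
      have h2 : a ∉ M := by
        intro ha
        apply hx
        simpa using (M.map B.ι).add_mem h1 ((hmem a).2 ha)
      obtain ⟨z, hz⟩ := hA.pt.1.2 a h2
      refine ⟨B.ι z, ?_⟩
      have e : B.ι z * x - 1 = B.ι z * (x - B.ι a) + B.ι (z * a - 1) := by
        rw [map_sub, map_mul, map_one]; noncomm_ring
      rw [e]
      exact Ideal.add_mem _ (Ideal.mul_mem_left _ _ h1) ((hmem _).2 hz)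
    · exact hA2 x a a' hxa ha'
  · intro x hx
    obtain ⟨a, a', hxa⟩ := habs x
    by_cases ha' : a' ∈ I
    · have h1 := hA1 x a a' hxa ha'
      obtain ⟨c, hc⟩ := hA.pt.2 a (by
        intro m hm
        rw [← hmem]
        have e : B.ι (m * a) = B.ι m * x - B.ι m * (x - B.ι a) := by
          rw [map_mul]; noncomm_ring
        rw [e]
        exact Ideal.sub_mem _ (hx _ ((hmem m).2 hm)) (Ideal.mul_mem_left _ _ h1))
      refine ⟨c, ?_⟩
      have e : x - algebraMap F B.T c = (x - B.ι a) + B.ι (a - algebraMap F A c) := by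
        rw [map_sub, AlgHom.commutes]; abel
      rw [e]
      exact Ideal.add_mem _ h1 ((hmem _).2 hc)
    · exfalso
      have hm : ∃ m ∈ M, m * a' ∉ I := by
        by_contra hcon
        push Not at hcon
        exact ha' (hI a' hcon)
      obtain ⟨m, hm, hma⟩ := hm
      obtain ⟨z, hz⟩ := hA2 (B.ι m * x) (m * a) (m * a') (by
        have e : B.ι m * x - B.ι (m * a) - B.ι (m * a') * B.r false =
            B.ι m * (x - B.ι a - B.ι a' * B.r false) := by
          rw [map_mul, map_mul]; noncomm_ring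
        rw [e]
        exact Ideal.mul_mem_left _ _ hxa) hma
      apply hone
      have := (M.map B.ι).sub_mem (Ideal.mul_mem_left _ z (hx _ ((hmem m).2 hm))) hz
      simpa using this

end Pool.Agent.Lib.MP_57313b_al.Dia
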