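import Pool.Agent.Lib.MP_57313b_al.Dia.Poset
import Pool.Agent.Lib.MP_57313b_al.Dia.Free3
import Pool.Agent.Lib.MP_57313b_al.Dia.Merge3

/-! No name is a bad ideal. -/

namespace Pool.Agent.Lib.MP_57313b_al.Dia

variable {F : Type} [Field F]

theorem nn_le_refl (p : Cond F) : p.le p := ⟨_, Ext.refl p⟩

theorem nn_le_trans {s q p : Cond F} (h : s.le q) (h' : q.le p) : s.le p := by
  obtain ⟨_, h⟩ := h
  obtain ⟨_, h'⟩ := h'
  exact ⟨_, h.trans h'⟩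

theorem nn_map_map {A B C : Type} [Ring A] [Algebra F A] [Ring B] [Algebra F B] [Ring C]
    [Algebra F C] (I : Ideal A) (φ : A →ₐ[F] B) (ψ : B →ₐ[F] C) :
    (I.map φ).map ψ = I.map (ψ.comp φ) :=
  Ideal.map_mapₐ φ ψ

theorem nn_out_mono {In : Cond F → Om → Prop} {p q : Cond F} {ω : Om} (hq : q.le p)
    (h : Out In p ω) : Out In q ω := fun s hs => h s (nn_le_trans hs hq)

/-- the ideal decided by a condition -/
def nnIdeal {In : Cond F → Om → Prop} {p₀ : Cond F} (h : Nm In p₀) (q : Cond F)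
    (hq : q.le p₀) : Ideal q.A where
  carrier := {x | In q (q.j x)}
  add_mem' := fun hx hy => h.add q hq _ _ hx hy
  zero_mem' := h.zero q hq
  smul_mem' := fun a _ hx => h.mul q hq a _ hx

theorem nn_mem {In : Cond F → Om → Prop} {p₀ : Cond F} (h : Nm In p₀) {q : Cond F}
    (hq : q.le p₀) (x : q.A) : x ∈ nnIdeal h q hq ↔ In q (q.j x) := Iff.rfl

theorem nn_up {In : Cond F → Om → Prop} {p₀ : Cond F} (h : Nm In p₀) {q s : Cond F}
    (hq : q.le p₀) (hs : s.le p₀) {ψ : q.A →ₐ[F] s.A} (hψ : Ext s q ψ) :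
    (nnIdeal h q hq).map ψ ≤ nnIdeal h s hs := by
  refine Ideal.map_le_iff_le_comap.2 fun y hy => ?_
  rw [Ideal.mem_comap, nn_mem, hψ.j]
  exact h.mono q s _ ⟨ψ, hψ⟩ hy

/-- an open dense property of pairs (condition, point) -/
structure NnDO (p₀ : Cond F) (W : Cond F → Om → Prop) : Prop where
  mono : ∀ p q ω, q.le p → W p ω → W q ω
  dense : ∀ p : Cond F, p.le p₀ → ∀ x, ∃ q : Cond F, q.le p ∧ W q (p.j x)

theorem NnDO.and {p₀ : Cond F} {W W' : Cond F → Om → Prop} (h : NnDO p₀ W) (h' : NnDO p₀ W') :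
    NnDO p₀ fun p ω => W p ω ∧ W' p ω := by
  refine ⟨fun p q ω hq hw => ⟨h.mono p q ω hq hw.1, h'.mono p q ω hq hw.2⟩, fun p hp x => ?_⟩
  obtain ⟨q, ⟨φ, hφ⟩, hw⟩ := h.dense p hp x
  obtain ⟨s, hs, hw'⟩ := h'.dense q (nn_le_trans ⟨φ, hφ⟩ hp) (φ x)
  rw [hφ.j] at hw'
  exact ⟨s, nn_le_trans hs ⟨φ, hφ⟩, h.mono q s _ hs hw, hw'⟩

/-- properties of elements that pass to extensions and can be forced on elements that are out -/
theorem nn_do_out {In : Cond F → Om → Prop} {p₀ : Cond F} (h : Nm In p₀)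
    (V : ∀ p : Cond F, p.A → Prop)
    (mono : ∀ p q φ x, Ext q p φ → V p x → V q (φ x))
    (dense : ∀ p : Cond F, p.le p₀ → ∀ x, Out In p (p.j x) → ∃ q φ, Ext q p φ ∧ V q (φ x)) :
    NnDO p₀ fun p ω => In p ω ∨ ∃ x, p.j x = ω ∧ V p x := by
  refine ⟨?_, fun p hp x => ?_⟩
  · rintro p q ω ⟨φ, hφ⟩ (hw | ⟨x, rfl, hx⟩)
    · exact Or.inl (h.mono p q ω ⟨φ, hφ⟩ hw)
    · exact Or.inr ⟨φ x, hφ.j x, mono p q φ x hφ hx⟩
  · by_cases hx : In p (p.j x)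
    · exact ⟨p, nn_le_refl p, Or.inl hx⟩
    · obtain ⟨q, ⟨φ, hφ⟩, ho⟩ := h.reg p _ hx
      rw [← hφ.j] at ho
      obtain ⟨s, ψ, hψ, hv⟩ := dense q (nn_le_trans ⟨φ, hφ⟩ hp) (φ x) ho
      exact ⟨s, ⟨_, hψ.trans hφ⟩, Or.inr ⟨ψ (φ x), by rw [hψ.j, hφ.j], hv⟩⟩

theorem nn_do_ns {In : Cond F → Om → Prop} {p₀ : Cond F} (h : Nm In p₀) :
    NnDO p₀ fun p ω => In p ω ∨ ∃ x, p.j x = ω ∧ ∃ m ∈ p.M, Out In p (p.j (m * x)) := by
  refine nn_do_out h (fun p x => ∃ m ∈ p.M, Out In p (p.j (m * x))) ?_ h.ns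
  rintro p q φ x hφ ⟨m, hm, ho⟩
  refine ⟨φ m, (hφ.mem_M m).2 hm, ?_⟩
  rw [← map_mul, hφ.j]
  exact nn_out_mono ⟨φ, hφ⟩ ho

theorem nn_do_mx {In : Cond F → Om → Prop} {p₀ : Cond F} (h : Nm In p₀) (h' : NmMx In p₀) :
    NnDO p₀ fun p ω => In p ω ∨ ∃ x, p.j x = ω ∧ ∃ a, In p (p.j (a * x - 1)) := by
  refine nn_do_out h (fun p x => ∃ a, In p (p.j (a * x - 1))) ?_ h'
  rintro p q φ x hφ ⟨a, ha⟩
  refine ⟨φ a, ?_⟩
  rw [← map_mul, ← map_one φ, ← map_sub, hφ.j]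
  exact h.mono p q _ ⟨φ, hφ⟩ ha

theorem nn_do_det {In : Cond F → Om → Prop} {p₀ : Cond F} (h : Nm In p₀) (h' : NmDet In p₀) :
    NnDO p₀ fun p ω => In p ω ∨ ∃ x, p.j x = ω ∧ ∃ v ∉ p.M,
      ∀ s ψ, Ext s p ψ → ∀ c, In s (s.j (c * ψ x)) → c * ψ v ∈ s.M := by
  refine nn_do_out h (fun p x => ∃ v ∉ p.M,
      ∀ s ψ, Ext s p ψ → ∀ c, In s (s.j (c * ψ x)) → c * ψ v ∈ s.M) ?_ h'
  rintro p q φ x hφ ⟨v, hv, hv'⟩
  exact ⟨φ v, fun hm => hv ((hφ.mem_M v).1 hm), fun s ψ hψ c hc => hv' s _ (hψ.trans hφ) c hc⟩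

theorem nn_do_right {In : Cond F → Om → Prop} {p₀ : Cond F} (h : Nm In p₀) :
    NnDO p₀ fun p ω => ∃ x, p.j x = ω ∧
      ((∀ s ψ, Ext s p ψ → ∀ y, In s (s.j y) → In s (s.j (y * ψ x))) ∨
        ∃ y, In p (p.j y) ∧ Out In p (p.j (y * x))) := by
  refine ⟨?_, fun p hp x => ?_⟩
  · rintro p q ω ⟨φ, hφ⟩ ⟨x, rfl, hx | ⟨y, hy, ho⟩⟩
    · exact ⟨φ x, hφ.j x, Or.inl fun s ψ hψ y hy => hx s _ (hψ.trans hφ) y hy⟩
    · refine ⟨φ x, hφ.j x, Or.inr ⟨φ y, ?_, ?_⟩⟩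
      · rw [hφ.j]
        exact h.mono p q _ ⟨φ, hφ⟩ hy
      · rw [← map_mul, hφ.j]
        exact nn_out_mono ⟨φ, hφ⟩ ho
  · by_cases hx : ∀ s ψ, Ext s p ψ → ∀ y, In s (s.j y) → In s (s.j (y * ψ x))
    · exact ⟨p, nn_le_refl p, x, rfl, Or.inl hx⟩
    · push Not at hx
      obtain ⟨s, ψ, hψ, y, hy, hn⟩ := hx
      obtain ⟨t, ⟨χ, hχ⟩, ho⟩ := h.reg s _ hn
      refine ⟨t, ⟨_, hχ.trans hψ⟩, χ (ψ x), by rw [hχ.j, hψ.j], Or.inr ⟨χ y, ?_, ?_⟩⟩
      · rw [hχ.j]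
        exact h.mono s t _ ⟨χ, hχ⟩ hy
      · rw [← map_mul, hχ.j]
        exact ho

theorem nn_ns {In : Cond F → Om → Prop} {p₀ q : Cond F} (h : Nm In p₀) (hq : q.le p₀)
    (hN : ∀ x, In q (q.j x) ∨ ∃ x', q.j x' = q.j x ∧ ∃ m ∈ q.M, Out In q (q.j (m * x'))) :
    NS q.M (nnIdeal h q hq) := by
  intro x hx
  rcases hN x with h1 | ⟨x', hx', m, hm, ho⟩
  · exact h1
  · obtain rfl := q.j_inj hx'
    exact (ho q (nn_le_refl q) (hx m hm)).elim

/-- A pinned ideal with a free witness is not uniform. Apply `step_free` to `q` with promises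
`insert π q.S` and target `I`, get `r ≤ q` and `ρ`. With frames let `e = x 0 * y 0`
(idempotent, `e ≠ 0`, `e ≠ 1`). For `s ≤ r` pinning and `Reg.wit_map` show that `In s (c ρ)`
implies `c = 0`. So `e ρ`, `(1 - e) ρ` are out at `r`; `unif` gives `a e = b (1 - e)`, hence
`a e = 0`, contradicting `zero`. -/
theorem Nm.pin [IsAlgClosed F] [Countable F] {In : Cond F → Om → Prop} {p₀ q : Cond F}
    (h : Nm In p₀) (hq : q.le p₀) (I : Ideal q.A) (hI : NS q.M I) (hI' : 1 ∉ I) (π : Prom q.A)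
    (hπ : π.Holds F q.M)
    (pin : ∀ s ψ, Ext s q ψ → (π.map ψ).Holds F s.M → ∀ x, In s (s.j x) → x ∈ I.map ψ) :
    False := by
  obtain ⟨B, _, _, _, φ, hφ, hg, hS, r, hr⟩ := step_free q.good (insert π q.S)
    (q.Scnt.insert π) (fun π' hπ' => by
      rcases hπ' with rfl | hπ'
      · exact hπ
      · exact q.holds _ hπ') hI hI'
  obtain ⟨t, e, _, ht, htS⟩ := q.extend φ hφ hg (insert π q.S) (Set.subset_insert _ _)
    (q.Scnt.insert π) hS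
  have ht0 : t.le p₀ := nn_le_trans ⟨_, ht⟩ hq
  have key : ∀ s ψ, Ext s t ψ → ∀ c, In s (s.j (c * ψ (e r))) → c = 0 := by
    intro s ψ hψ c hc
    have h1 := hψ.S _ (htS π (Set.mem_insert _ _))
    rw [Prom.map_map] at h1
    have h2 := pin s _ (hψ.trans ht) (s.holds _ h1) _ hc
    rw [← AlgHom.comp_assoc, ← nn_map_map] at h2
    exact Reg.wit_map (ψ.comp e) hg.reg (I.map φ) hr c h2
  have out : ∀ c : t.A, c ≠ 0 → Out In t (t.j (c * e r)) := by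
    rintro c hc s ⟨ψ, hψ⟩ hin
    rw [← hψ.j, map_mul] at hin
    exact hc (hψ.inj ((key s ψ hψ _ hin).trans (map_zero ψ).symm))
  obtain ⟨x, y, hxy⟩ := t.good.fr
  have h10 : (1 : t.A) ≠ 0 := fun h0 => t.good.pt.1.1 (h0 ▸ t.M.zero_mem)
  have h00 : y 0 * x 0 = 1 := by simpa using hxy 0 0
  have h11 : y 1 * x 1 = 1 := by simpa using hxy 1 1
  have h01 : y 0 * x 1 = 0 := by simpa using hxy 0 1
  obtain ⟨g, hgd⟩ : ∃ g, g = x 0 * y 0 := ⟨_, rfl⟩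
  have hgg : g * g = g := by
    rw [hgd, mul_assoc, ← mul_assoc (y 0), h00, one_mul]
  have hg0 : g ≠ 0 := by
    intro h0
    apply h10
    have : y 0 * g * x 0 = 1 := by
      rw [hgd, ← mul_assoc, h00, one_mul, h00]
    rw [← this, h0, mul_zero, zero_mul]
  have hg1 : 1 - g ≠ 0 := by
    intro h0
    apply h10
    have : y 1 * (1 - g) * x 1 = 1 := by
      rw [hgd, mul_assoc, sub_mul, one_mul, mul_assoc, h01, mul_zero, sub_zero, h11]
    rw [← this, h0, mul_zero, zero_mul]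
  obtain ⟨s, ψ, hψ, a, b, hab, ho⟩ := h.unif t ht0 _ _ (out g hg0) (out _ hg1)
  have h3 : a * ψ g - b * ψ (1 - g) = 0 := by
    refine key s ψ hψ _ ?_
    rw [sub_mul, mul_assoc, mul_assoc, ← map_mul, ← map_mul]
    exact hab
  have h4 : a * ψ g = 0 := by
    have h5 := congrArg (· * ψ g) h3
    beta_reduce at h5
    rw [sub_mul, mul_assoc, mul_assoc, ← map_mul, ← map_mul, hgg, sub_mul, one_mul, hgg,
      sub_self, map_zero, mul_zero, sub_zero, zero_mul] at h5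
    exact h5
  rw [map_mul, ← mul_assoc, h4, zero_mul] at ho
  exact ho s (nn_le_refl s) (h.zero s (nn_le_trans ⟨ψ, hψ⟩ ht0))

theorem nn_det [IsAlgClosed F] [Countable F] {In : Cond F → Om → Prop} {p₀ : Cond F}
    (h : Nm In p₀) (h' : NmDet In p₀) : False := by
  have hd := (nn_do_ns h).and (nn_do_det h h')
  obtain ⟨q, hq, hW⟩ := Cond.fusion p₀ _ hd.mono hd.dense
  refine h.pin hq (nnIdeal h q hq) (nn_ns h hq fun x => (hW x).1) (h.one q hq)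
    (Prom.G (nnIdeal h q hq) {p | ∀ s ψ, Ext s q ψ → ∀ c, In s (s.j (c * ψ p.1)) →
      c * ψ p.2 ∈ s.M}) ⟨fun p hp c hc => hp q _ (Ext.refl q) c hc, fun x => ?_⟩ ?_
  · rcases (hW x).2 with h1 | ⟨x', hx', v, hv, hv'⟩
    · exact Or.inl h1
    · obtain rfl := q.j_inj hx'
      obtain ⟨z, hz⟩ := q.good.pt.1.2 v hv
      refine Or.inr ⟨(x', v), hv', 1, z, ?_, ?_⟩
      · rw [one_mul, sub_self]
        exact Ideal.zero_mem _
      · rwa [one_mul]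
  · intro s ψ hψ hπ x hx
    have hs : s.le p₀ := nn_le_trans ⟨ψ, hψ⟩ hq
    rcases hπ.2 x with h1 | ⟨_, ⟨p, hp, rfl⟩, b, z, hb, hz⟩
    · exact h1
    · have h2 : x - (x - b * ψ p.1) ∈ nnIdeal h s hs :=
        Ideal.sub_mem _ hx (nn_up h hq hs hψ hb)
      rw [sub_sub_cancel] at h2
      have h3 := s.M.sub_mem (s.M.mul_mem_left z (hp s ψ hψ b h2)) hz
      exact (s.good.pt.1.1 (by simpa using h3)).elim

theorem nn_merge [IsAlgClosed F] [Countable F] {In : Cond F → Om → Prop} {p₀ q : Cond F}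
    (h : Nm In p₀) (hq : q.le p₀) (hI : NS q.M (nnIdeal h q hq))
    (hP : Pt F (nnIdeal h q hq)) : False := by
  obtain ⟨B, _, _, _, φ, hφ, hg, hS, r, r', hr, hr'⟩ :=
    step_merge q.good q.S q.Scnt q.holds hI hP
  obtain ⟨t, e, _, ht, _⟩ := q.extend φ hφ hg q.S subset_rfl q.Scnt hS
  have ht0 : t.le p₀ := nn_le_trans ⟨_, ht⟩ hq
  have out : Out In t (t.j (e r)) := by
    rintro s ⟨ψ, hψ⟩ hin
    have hs : s.le p₀ := nn_le_trans ⟨ψ, hψ⟩ ht0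
    rw [← hψ.j] at hin
    have h1 := h.mul s hs (ψ (e r')) _ hin
    rw [← map_mul, ← map_mul, hr', map_one, map_one] at h1
    exact h.one s hs h1
  obtain ⟨s, ψ, hψ, m, hm, ho⟩ := h.ns t ht0 _ out
  have hs : s.le p₀ := nn_le_trans ⟨ψ, hψ⟩ ht0
  have hE := hψ.trans ht
  rw [hE.M, ← AlgHom.comp_assoc, ← nn_map_map] at hm
  refine ho s (nn_le_refl s) (map_mul_mem (ψ.comp e) (q.M.map φ) (nnIdeal h s hs) (ψ (e r))
    (fun m₀ hm₀ => ?_) m hm)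
  refine nn_up h hq hs hE ?_
  rw [← AlgHom.comp_assoc, ← nn_map_map]
  have h2 := Ideal.mem_map_of_mem (ψ.comp e) (hr m₀ hm₀)
  rwa [map_mul] at h2

theorem nn_mx [IsAlgClosed F] [Countable F] {In : Cond F → Om → Prop} {p₀ : Cond F}
    (h : Nm In p₀) (h' : NmMx In p₀) : False := by
  have hd := ((nn_do_ns h).and (nn_do_mx h h')).and (nn_do_right h)
  obtain ⟨q, hq, hW⟩ := Cond.fusion p₀ _ hd.mono hd.dense
  have hI := nn_ns h hq fun x => (hW x).1.1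
  have hM : Mx (nnIdeal h q hq) := by
    refine ⟨h.one q hq, fun x hx => ?_⟩
    rcases (hW x).1.2 with h1 | ⟨x', hx', a, ha⟩
    · exact (hx h1).elim
    · obtain rfl := q.j_inj hx'
      exact ⟨a, ha⟩
  by_cases hP : Pt F (nnIdeal h q hq)
  · exact nn_merge h hq hI hP
  have hd' : ∃ d, (∀ m ∈ nnIdeal h q hq, m * d ∈ nnIdeal h q hq) ∧
      ∀ c : F, d - algebraMap F q.A c ∉ nnIdeal h q hq := by
    by_contra hc
    push Not at hc
    exact hP ⟨hM, hc⟩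
  obtain ⟨d, hd1, hd2⟩ := hd'
  have hR : ∀ s ψ, Ext s q ψ → ∀ y, In s (s.j y) → In s (s.j (y * ψ d)) := by
    obtain ⟨d', hdd, h1 | ⟨y, hy, ho⟩⟩ := (hW d).2
    · obtain rfl := q.j_inj hdd
      exact h1
    · obtain rfl := q.j_inj hdd
      exact (ho q (nn_le_refl q) (hd1 y hy)).elim
  refine h.pin hq (nnIdeal h q hq) hI hM.1 (Prom.Z (nnIdeal h q hq) d)
    ⟨⟨hd1, fun c => hM.2 _ (hd2 c)⟩, fun x => ?_⟩ ?_
  · by_cases hx : x ∈ nnIdeal h q hq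
    · exact Or.inl hx
    · obtain ⟨z, hz⟩ := hM.2 x hx
      refine Or.inr ?_
      have h1 : z * x ∈ Ideal.span (Set.range fun i : ℕ => x * d ^ i) :=
        Ideal.mul_mem_left _ z (Ideal.subset_span ⟨0, by simp⟩)
      have h2 := Ideal.sub_mem _ (Ideal.mem_sup_left (T := nnIdeal h q hq) h1)
        (Ideal.mem_sup_right hz)
      rwa [sub_sub_cancel] at h2
  · intro s ψ hψ hπ x hx
    have hs : s.le p₀ := nn_le_trans ⟨ψ, hψ⟩ hq
    rcases hπ.2 x with h1 | h1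
    · exact h1
    · have h2 : ∀ i : ℕ, x * ψ d ^ i ∈ nnIdeal h s hs := by
        intro i
        induction i with
        | zero => rwa [pow_zero, mul_one]
        | succ i ih =>
          rw [pow_succ, ← mul_assoc]
          exact hR s ψ hψ _ ih
      have h3 : Ideal.span (Set.range fun i : ℕ => x * ψ d ^ i) ⊔ (nnIdeal h q hq).map ψ ≤
          nnIdeal h s hs := by
        refine sup_le (Ideal.span_le.2 ?_) (nn_up h hq hs hψ)
        rintro _ ⟨i, rfl⟩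
        exact h2 i
      exact (h.one s hs (h3 h1)).elim

/-- Main theorem. By fusion get `q ≤ p₀` such that for all `x ∈ q.A`: `q` decides `x`
(`In` or `Out`); if out, the witnesses of `ns` and of `NmMx` / `NmDet` lie in `q.A`; and either
`q` forces that right multiplication by `x` keeps the ideal (for all `s ≤ q`, `y ∈ s.A`,
`In s y → In s (y * x)`) or some `y ∈ q.A` is in while `y * x` is out. `I = {x | In q x}` is an
ideal with `NS q.M I`, and `x ∈ I.map ψ` gives `In s x` for `s ≤ q`.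
`NmDet`: `π = G I S`, `S = {(u, v) | ∀ s ψ c, Ext s q ψ → In s (c ψ u) → c ψ v ∈ s.M}`; `pin`.
`NmMx` and `Pt F I`: `step_merge`; `ρ` is out, and `ns` at `r` fails.
`NmMx` and not `Pt F I`: `d` with `I d ⊆ I`, `d - λ ∉ I`; `π = Z I d`; `pin`. -/
theorem Nm.false [IsAlgClosed F] [Countable F] {In : Cond F → Om → Prop} {p₀ : Cond F}
    (h : Nm In p₀) (h' : NmMx In p₀ ∨ NmDet In p₀) : False :=
  h'.elim (nn_mx h) (nn_det h)

end Pool.Agent.Lib.MP_57313b_al.Dia
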