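import Pool.Agent.Lib.MP_57313b_al.Dia.Names
import Pool.Agent.Lib.MP_57313b_al.Dia.NoName
import Pool.Agent.Lib.MP_57313b_al.Dia.Bridge

/-! The generic ring has the required properties. -/

namespace Pool.Agent.Lib.MP_57313b_al.Dia

open Pool.Agent.Shared.Forcing Pool.Agent.Lib.MP_23bd8d_gt Cardinal

set_option synthInstance.maxSize 4000

variable {U : UU} {p : CC}

/-- the name of the main maximal left ideal -/
noncomputable def MN : SName BB ll := setN fun p => (p.M : Set p.A)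

theorem cst_MN (h : GG U p) (x : p.A) : EU U (cst (p.j x) U).1 (sm U MN) ↔ x ∈ p.M := by
  rw [cst_val h]
  refine ⟨fun h' => ?_, fun h' => el_setN h h'⟩
  refine wlog_setN _ (fun q p φ hφ x hx => (hφ.mem_M x).mpr hx) _ p U h' h ?_
  intro U q φ y hφ hy _ e
  rw [← hφ.mem_M, q.j_inj ((hφ.j x).trans (pt_inj e))]
  exact hy

noncomputable def PM (U : UU) : Ideal (RR U) where
  carrier := {x | EU U x.1 (sm U MN)}
  add_mem' := fun {x y} => ind3 (fun U x y _ => EU U x.1 (sm U MN) → EU U y.1 (sm U MN) →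
    EU U (x + y).1 (sm U MN)) (fun U p x y _ h => by
      rw [cst_add h, cst_MN h, cst_MN h, cst_MN h]
      exact p.M.add_mem) U x y x
  zero_mem' := ind3 (fun U _ _ _ => EU U (0 : RR U).1 (sm U MN)) (fun U p _ _ _ h => by
      rw [cst_zero h, cst_MN h]
      exact p.M.zero_mem) U 0 0 0
  smul_mem' := fun x y => ind3 (fun U x y _ => EU U y.1 (sm U MN) → EU U (x * y).1 (sm U MN))
    (fun U p x y _ h => by
      rw [cst_mul h, cst_MN h, cst_MN h]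
      exact p.M.mul_mem_left x) U x y x

theorem cst_PM (h : GG U p) (x : p.A) : cst (p.j x) U ∈ PM U ↔ x ∈ p.M := cst_MN h x

instance Dec.memPM (t : ∀ U, RR U) [Named t] : Dec fun U => t U ∈ PM U := Dec.elR t _

theorem cst_sub (h : GG U p) (x y : p.A) :
    cst (p.j x) U - cst (p.j y) U = cst (p.j (x - y)) U := (map_sub h.hom x y).symm

noncomputable instance (U : UU) : Obj (EU U) (RR U) where
  ι := Subtype.val
  inj := Subtype.val_injective
  set := sm U RN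
  mem_set z := ⟨fun h => ⟨⟨z, h⟩, rfl⟩, fun ⟨a, e⟩ => e ▸ a.2⟩

theorem RR_rep (U : UU) : Rep (EU U) (RR U) (RR U) (sm U oAdd.N) (sm U oMul.N) :=
  ⟨fun x y z => oAdd.app_spec x y z, fun x r z => oMul.app_spec x r z⟩

theorem RR_two (U : UU) (x : RR U) : x + x = 0 :=
  ind3 (fun _ x _ _ => x + x = 0) (fun U p x _ _ h => by
    rw [cst_add h, cst_zero h, ← two_smul FF x, show (2 : FF) = 0 from CharTwo.two_eq_zero,
      zero_smul]) U x x x

theorem RR_reg (U : UU) : Reg (RR U) := fun x =>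
  ind3 (fun _ x _ _ => ∃ y, x * y * x = x) (fun U p x _ _ h => by
    obtain ⟨y, hy⟩ := p.good.reg x
    exact ⟨cst (p.j y) U, by rw [cst_mul h, cst_mul h, hy]⟩) U x x x

theorem RR_pi (U : UU) : PI (RR U) := fun x =>
  ind3 (fun _ x _ _ => x ≠ 0 → ∃ a b, a * x * b = 1) (fun U p x _ _ h hx => by
    obtain ⟨a, b, hy⟩ := p.good.pi x fun e => hx (by rw [e, cst_zero h])
    exact ⟨cst (p.j a) U, cst (p.j b) U, by rw [cst_mul h, cst_mul h, hy, cst_one h]⟩) U x x x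

theorem RR_mx (U : UU) : Mx (PM U) :=
  ⟨ind3 (fun U _ _ _ => 1 ∉ PM U) (fun U p _ _ _ h => by
      rw [cst_one h, cst_PM h]
      exact p.good.pt.1.1) U 0 0 0,
    fun x => ind3 (fun U x _ _ => x ∉ PM U → ∃ z, z * x - 1 ∈ PM U) (fun U p x _ _ h hx => by
      rw [cst_PM h] at hx
      obtain ⟨z, hz⟩ := p.good.pt.1.2 x hx
      exact ⟨cst (p.j z) U, by rwa [cst_mul h, cst_one h, cst_sub h, cst_PM h]⟩) U x x x⟩

/-- a witness in the generic ring is forced by an extension -/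
theorem extract (Ψ : ∀ U, RR U → Prop) [∀ X, Dec fun U => Ψ U (el X U)] (hp : GG U p)
    (h : ∃ x, Ψ U x) :
    ∃ (q : CC) (φ : p.A →ₐ[FF] q.A) (y : q.A), Ext q p φ ∧
      ∀ U', GG U' q → Ψ U' (cst (q.j y) U') := by
  obtain ⟨x, hx⟩ := h
  obtain ⟨X, rfl⟩ := el_surj x
  revert hx
  refine wlog_R (el X) p U hp ?_
  intro U q φ y hφ hq e hx
  rw [e] at hx
  obtain ⟨r, ⟨ψ, hψ⟩, hr⟩ := exists_forces (fun U => Ψ U (cst (q.j y) U)) hq hx
  exact ⟨r, ψ.comp φ, ψ y, hψ.trans hφ, fun U' h' => by rw [hψ.j]; exact hr U' h'⟩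

section star
variable (Y : HN)

/-- membership in the set named by `Y` -/
def InY (U : UU) (x : RR U) : Prop := EU U x.1 (cls U Y)

instance (t : ∀ U, RR U) [Named t] : Dec fun U => InY Y U (t U) := Dec.elR t Y

/-- the forcing relation of `Y` -/
def FY (p : CC) (ω : Om) : Prop := ∀ U, GG U p → InY Y U (cst ω U)

variable {Y}

theorem out_iff {ω : Om} : Out (FY Y) p ω ↔ ∀ U, GG U p → ¬ InY Y U (cst ω U) := by
  constructor
  · intro h U hp hY
    obtain ⟨q, hq, h'⟩ := exists_forces (fun U => InY Y U (cst ω U)) hp hY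
    exact h q hq h'
  · intro h q hq h'
    obtain ⟨U, hU⟩ := exists_GG q
    exact h U (hU.mono hq) (h' U hU)

variable (Y) in
def Bad (U : UU) : Prop :=
  InY Y U 0 ∧ (∀ x y, InY Y U x → InY Y U y → InY Y U (x + y)) ∧
    (∀ a x, InY Y U x → InY Y U (a * x)) ∧ ¬ InY Y U 1 ∧
    (∀ x, ¬ InY Y U x → ∃ m, m ∈ PM U ∧ ¬ InY Y U (m * x)) ∧
    ∀ x y, ¬ InY Y U x → ¬ InY Y U y → ∃ a b, InY Y U (a * x - b * y) ∧ ¬ InY Y U (a * x)

instance : Dec (Bad Y) := by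
  unfold Bad
  infer_instance

theorem nm_of_bad {p₀ : CC} (h : ∀ U, GG U p₀ → Bad Y U) : Nm (FY Y) p₀ where
  mono p q ω hq h U hU := h U (hU.mono hq)
  reg p ω h := by
    simp only [FY, not_forall] at h
    obtain ⟨U, hU, h⟩ := h
    obtain ⟨q, hq, h'⟩ := exists_forces (fun U => ¬ InY Y U (cst ω U)) hU h
    exact ⟨q, hq, out_iff.mpr h'⟩
  zero p hp U hU := cst_zero hU ▸ (h U (hU.mono hp)).1
  add p hp x y hx hy U hU := cst_add hU x y ▸ (h U (hU.mono hp)).2.1 _ _ (hx U hU) (hy U hU)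
  mul p hp a x hx U hU := cst_mul hU a x ▸ (h U (hU.mono hp)).2.2.1 _ _ (hx U hU)
  one p hp h1 := by
    obtain ⟨U, hU⟩ := exists_GG p
    exact (h U (hU.mono hp)).2.2.2.1 (cst_one hU ▸ h1 U hU)
  ns p hp x hx := by
    obtain ⟨U, hU⟩ := exists_GG p
    obtain ⟨q, φ, m, hφ, H⟩ := extract
      (fun U m => m ∈ PM U ∧ ¬ InY Y U (m * cst (p.j x) U)) hU
      ((h U (hU.mono hp)).2.2.2.2.1 _ (out_iff.mp hx U hU))
    obtain ⟨U', hU'⟩ := exists_GG q
    refine ⟨q, φ, hφ, m, (cst_PM hU' m).mp (H U' hU').1, out_iff.mpr fun U hU => ?_⟩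
    rw [← cst_mul hU, hφ.j]
    exact (H U hU).2
  unif p hp x y hx hy := by
    obtain ⟨U, hU⟩ := exists_GG p
    obtain ⟨q, φ, a, hφ, H⟩ := extract
      (fun U a => ∃ b, InY Y U (a * cst (p.j x) U - b * cst (p.j y) U) ∧
        ¬ InY Y U (a * cst (p.j x) U)) hU
      ((h U (hU.mono hp)).2.2.2.2.2 _ _ (out_iff.mp hx U hU) (out_iff.mp hy U hU))
    obtain ⟨U', hU'⟩ := exists_GG q
    obtain ⟨r, ψ, b, hψ, H'⟩ := extract
      (fun U b => InY Y U (cst (q.j a) U * cst (p.j x) U - b * cst (p.j y) U) ∧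
        ¬ InY Y U (cst (q.j a) U * cst (p.j x) U)) hU' (H U' hU')
    refine ⟨r, ψ.comp φ, hψ.trans hφ, ψ a, b, fun U hU => ?_, out_iff.mpr fun U hU => ?_⟩
    · rw [← cst_sub hU, ← cst_mul hU, ← cst_mul hU, (hψ.trans hφ).j, (hψ.trans hφ).j, hψ.j]
      exact (H' U hU).1
    · rw [← cst_mul hU, (hψ.trans hφ).j, hψ.j]
      exact (H' U hU).2

theorem nmMx_of {p₀ : CC}
    (h : ∀ U, GG U p₀ → ∀ x, ¬ InY Y U x → ∃ z, InY Y U (z * x - 1)) : NmMx (FY Y) p₀ := by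
  intro p hp x hx
  obtain ⟨U, hU⟩ := exists_GG p
  obtain ⟨q, φ, a, hφ, H⟩ := extract (fun U z => InY Y U (z * cst (p.j x) U - 1)) hU
    (h U (hU.mono hp) _ (out_iff.mp hx U hU))
  refine ⟨q, φ, hφ, a, fun U hU => ?_⟩
  rw [← cst_sub hU, ← cst_mul hU, hφ.j, ← cst_one hU]
  exact H U hU

theorem nmDet_of {p₀ : CC} (h : ∀ U, GG U p₀ → ∀ x, ¬ InY Y U x →
    ∃ v, v ∉ PM U ∧ ∀ c, InY Y U (c * x) → c * v ∈ PM U) : NmDet (FY Y) p₀ := by
  intro p hp x hx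
  obtain ⟨U, hU⟩ := exists_GG p
  obtain ⟨q, φ, v, hφ, H⟩ := extract
    (fun U v => v ∉ PM U ∧ ∀ c, InY Y U (c * cst (p.j x) U) → c * v ∈ PM U) hU
    (h U (hU.mono hp) _ (out_iff.mp hx U hU))
  obtain ⟨U', hU'⟩ := exists_GG q
  refine ⟨q, φ, hφ, v, fun hv => (H U' hU').1 ((cst_PM hU' v).mpr hv), fun s ψ hψ c hc => ?_⟩
  obtain ⟨U, hU⟩ := exists_GG s
  have := hc U hU
  rw [← cst_mul hU, hψ.j, hφ.j] at this
  rw [← cst_PM hU, ← cst_mul hU, hψ.j]
  exact (H U (hU.mono ⟨ψ, hψ⟩)).2 _ this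

end star

theorem RR_star (hp : GG U p) (I : Ideal (RR U)) (hI : ISet (EU U) (I : Set (RR U))) (h1 : 1 ∉ I)
    (hu : Unif I) (h : Mx I ∨ Det (PM U) I) : ¬ NS (PM U) I := by
  intro hns
  obtain ⟨s, hs⟩ := hI.ex
  obtain ⟨Y, rfl⟩ := cls_surj s
  replace hs : ∀ x, InY Y U x ↔ x ∈ I := fun x => (hs x).symm
  have hb : Bad Y U := by
    simp only [Bad, hs]
    refine ⟨I.zero_mem, fun _ _ => I.add_mem, fun a _ => I.mul_mem_left a, h1, fun x hx => ?_,
      fun x y hx hy => hu x hx y hy⟩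
    by_contra! H
    exact hx (hns x H)
  rcases h with h | h
  · obtain ⟨q, -, hq⟩ := exists_forces
      (fun U => Bad Y U ∧ ∀ x, ¬ InY Y U x → ∃ z, InY Y U (z * x - 1)) hp
      ⟨hb, by simpa only [hs] using h.2⟩
    exact (nm_of_bad fun U hU => (hq U hU).1).false (Or.inl (nmMx_of fun U hU => (hq U hU).2))
  · obtain ⟨q, -, hq⟩ := exists_forces
      (fun U => Bad Y U ∧ ∀ x, ¬ InY Y U x →
        ∃ v, v ∉ PM U ∧ ∀ c, InY Y U (c * x) → c * v ∈ PM U) hp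
      ⟨hb, by simp only [hs]; exact h⟩
    exact (nm_of_bad fun U hU => (hq U hU).1).false (Or.inr (nmDet_of fun U hU => (hq U hU).2))

theorem model : ∃ (M : Type 2) (E : M → M → Prop), ModelZFC E ∧ ∃ R a m : M,
    IsRing E R a m ∧ Regular E R m ∧ Simple E R a m ∧ ¬ Artinian E R a m ∧ OnePoint E R a m := by
  obtain ⟨p⟩ : Nonempty CC := Cond.nonempty
  obtain ⟨U, hU⟩ := exists_GG p
  exact ⟨MU U, EU U, md_modelZFC tame U, _, _, _, bridge (RR_rep U) (RR_two U) (RR_reg U)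
    (RR_pi U) (p.good.fr.map hU.hom) (PM U) ⟨sm U MN, fun _ => Iff.rfl⟩ (RR_mx U) (RR_star hU)⟩

end Pool.Agent.Lib.MP_57313b_al.Dia
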