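import Pool.Agent.Lib.MP_57313b_al.Dia.Alg1

/-! Universal extensions, linearization, generation by idempotents. -/

namespace Pool.Agent.Lib.MP_57313b_al.Dia

variable {F : Type} [Field F] {A : Type} [Ring A] [Algebra F A]

/-- the relations making `a ↦ ι (inl a)` an algebra map -/
inductive UvRel (F : Type) [Field F] (A : Type) [Ring A] [Algebra F A] (κ : Type) :
    FreeAlgebra F (A ⊕ κ) → FreeAlgebra F (A ⊕ κ) → Prop
  | add (a b : A) : UvRel F A κ (FreeAlgebra.ι F (Sum.inl (a + b)))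
      (FreeAlgebra.ι F (Sum.inl a) + FreeAlgebra.ι F (Sum.inl b))
  | mul (a b : A) : UvRel F A κ (FreeAlgebra.ι F (Sum.inl (a * b)))
      (FreeAlgebra.ι F (Sum.inl a) * FreeAlgebra.ι F (Sum.inl b))
  | alg (c : F) : UvRel F A κ (FreeAlgebra.ι F (Sum.inl (algebraMap F A c)))
      (algebraMap F _ c)

theorem uv_countable_free [Countable F] (X : Type) [Countable X] :
    Countable (FreeAlgebra F X) := by
  rw [← Cardinal.mk_le_aleph0_iff]
  refine (FreeAlgebra.cardinalMk_le_max F X).trans ?_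
  exact max_le (max_le Cardinal.mk_le_aleph0 Cardinal.mk_le_aleph0) le_rfl

/-- freely adjoining a family -/
theorem uv_exists_free [Countable F] [Countable A] (κ : Type) [Countable κ] :
    ∃ (T : Type) (_ : Ring T) (_ : Algebra F T) (_ : Countable T) (ι : A →ₐ[F] T) (τ : κ → T),
      Gens ι τ ∧ ∀ (C : Type) [Ring C] [Algebra F C] (φ : A →ₐ[F] C) (c : κ → C),
        ∃ θ : T →ₐ[F] C, (∀ a, θ (ι a) = φ a) ∧ ∀ k, θ (τ k) = c k := by
  have hc := uv_countable_free (F := F) (A ⊕ κ)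
  let q : FreeAlgebra F (A ⊕ κ) →ₐ[F] RingQuot (UvRel F A κ) := RingQuot.mkAlgHom F _
  have hq : Function.Surjective q := RingQuot.mkAlgHom_surjective F _
  have hadd : ∀ a b : A, q (FreeAlgebra.ι F (Sum.inl (a + b))) =
      q (FreeAlgebra.ι F (Sum.inl a)) + q (FreeAlgebra.ι F (Sum.inl b)) := fun a b => by
    rw [← map_add]; exact RingQuot.mkAlgHom_rel F (UvRel.add a b)
  have hmul : ∀ a b : A, q (FreeAlgebra.ι F (Sum.inl (a * b))) =
      q (FreeAlgebra.ι F (Sum.inl a)) * q (FreeAlgebra.ι F (Sum.inl b)) := fun a b => by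
    rw [← map_mul]; exact RingQuot.mkAlgHom_rel F (UvRel.mul a b)
  have halg : ∀ c : F, q (FreeAlgebra.ι F (Sum.inl (algebraMap F A c))) =
      algebraMap F _ c := fun c => by
    rw [← q.commutes]; exact RingQuot.mkAlgHom_rel F (UvRel.alg c)
  let ι : A →ₐ[F] RingQuot (UvRel F A κ) :=
    { toFun := fun a => q (FreeAlgebra.ι F (Sum.inl a))
      map_one' := by simpa using halg 1
      map_mul' := hmul
      map_zero' := by simpa using halg 0
      map_add' := hadd
      commutes' := halg }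
  refine ⟨RingQuot (UvRel F A κ), inferInstance, inferInstance, hq.countable, ι,
    fun k => q (FreeAlgebra.ι F (Sum.inr k)), ?_, ?_⟩
  · intro S h1 h2 x
    obtain ⟨y, rfl⟩ := hq x
    induction y using FreeAlgebra.induction with
    | grade0 r => rw [q.commutes]; exact S.algebraMap_mem r
    | grade1 z =>
      rcases z with a | k
      · exact h1 a
      · exact h2 k
    | mul a b ha hb => rw [map_mul]; exact S.mul_mem ha hb
    | add a b ha hb => rw [map_add]; exact S.add_mem ha hb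
  · intro C _ _ φ c
    let l : FreeAlgebra F (A ⊕ κ) →ₐ[F] C := FreeAlgebra.lift F (Sum.elim φ c)
    have hl : ∀ ⦃x y⦄, UvRel F A κ x y → l x = l y := by
      intro x y h
      cases h <;> simp [l]
    refine ⟨RingQuot.liftAlgHom F ⟨l, hl⟩, fun a => ?_, fun k => ?_⟩
    · change RingQuot.liftAlgHom F ⟨l, hl⟩ (RingQuot.mkAlgHom F _ _) = _
      rw [RingQuot.liftAlgHom_mkAlgHom_apply]
      simp [l]
    · change RingQuot.liftAlgHom F ⟨l, hl⟩ (RingQuot.mkAlgHom F _ _) = _
      rw [RingQuot.liftAlgHom_mkAlgHom_apply]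
      simp [l]

/-- `RingQuot` of `FreeAlgebra F (A ⊕ Unit)`; `t ↦ 0` gives a retraction onto `A` -/
theorem exists_free [Countable F] [Countable A] :
    ∃ (T : Type) (_ : Ring T) (_ : Algebra F T) (_ : Countable T) (ι : A →ₐ[F] T) (t : T),
      IsFree ι t ∧ Function.Injective ι := by
  obtain ⟨T, _, _, hT, ι, τ, hg, hl⟩ := uv_exists_free (F := F) (A := A) Unit
  refine ⟨T, inferInstance, inferInstance, hT, ι, τ (), ⟨hg, fun C _ _ φ c => ?_⟩, ?_⟩
  · obtain ⟨θ, h1, h2⟩ := hl C φ fun _ => c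
    exact ⟨θ, h1, h2 ()⟩
  · obtain ⟨θ, h1, -⟩ := hl A (AlgHom.id F A) fun _ => 0
    intro a b hab
    have := congrArg θ hab
    rwa [h1, h1] at this

/-- the isomorphism between the two idempotents exists in the endomorphism ring of `A` -/
theorem uv_exists_end (hpi : PI A) (g : Bool → A) (hg : ∀ ε, g ε * g ε = g ε)
    (hg' : ∀ ε, g ε ≠ 0) : ∃ σ : Bool → Module.End F A,
      (∀ ε, Algebra.lmul F A (g (!ε)) * σ ε * Algebra.lmul F A (g ε) = σ ε) ∧
      ∀ ε, σ (!ε) * σ ε = Algebra.lmul F A (g ε) := by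
  let V : Bool → Submodule F A := fun ε => LinearMap.range (LinearMap.mulLeft F (g ε))
  let p : ∀ ε, A →ₗ[F] V ε := fun ε => (LinearMap.mulLeft F (g ε)).rangeRestrict
  have hp : ∀ ε x, (p ε x : A) = g ε * x := fun ε x => rfl
  have hV : ∀ ε (v : V ε), g ε * v = v := by
    rintro ε ⟨_, x, rfl⟩
    simp [← mul_assoc, hg]
  have hpV : ∀ ε (v : V ε), p ε v = v := fun ε v => Subtype.ext (hV ε v)
  have hr : ∀ ε, Module.rank F (V ε) = Module.rank F A := by
    intro ε
    refine le_antisymm (Submodule.rank_le _) ?_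
    obtain ⟨a, b, hab⟩ := hpi _ (hg' ε)
    refine LinearMap.rank_le_of_injective ((p ε).comp (LinearMap.mulLeft F b)) ?_
    intro x y hxy
    have h1 : g ε * (b * x) = g ε * (b * y) := congrArg Subtype.val hxy
    have h2 : a * g ε * b * x = a * g ε * b * y := by
      simp only [mul_assoc, h1]
    simpa [hab] using h2
  let e : V false ≃ₗ[F] V true := LinearEquiv.ofRankEq _ _ (by rw [hr, hr])
  have hpp : ∀ ε x, p ε (g ε * x) = p ε x := fun ε x =>
    Subtype.ext (by simp [hp, ← mul_assoc, hg])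
  refine ⟨fun ε => match ε with
    | false => (V true).subtype ∘ₗ e.toLinearMap ∘ₗ p false
    | true => (V false).subtype ∘ₗ e.symm.toLinearMap ∘ₗ p true, ?_, ?_⟩
  · rintro (_ | _)
    · ext x
      simp [hpp, hV]
    · ext x
      simp [hpp, hV]
  · rintro (_ | _)
    · ext x
      simp [hpV, hp]
    · ext x
      simp [hpV, hp]

/-- `RingQuot` of `FreeAlgebra F (A ⊕ Bool)`. Injectivity: act on `A`; the `F`-spaces
`g ε A` have the rank of `A` (if `a g b = 1`, `x ↦ g b x` is injective), so there is a linear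
equivalence between them. -/
theorem exists_univ [Countable F] [Countable A] (hpi : PI A) (g : Bool → A)
    (hg : ∀ ε, g ε * g ε = g ε) (hg' : ∀ ε, g ε ≠ 0) :
    ∃ (T : Type) (_ : Ring T) (_ : Algebra F T) (_ : Countable T) (ι : A →ₐ[F] T)
      (τ : Bool → T), IsUniv ι g τ ∧ Function.Injective ι := by
  obtain ⟨T, _, _, hT, ι, τ, hgen, hl⟩ := uv_exists_free (F := F) (A := A) Bool
  let r : T → T → Prop := fun x y => ∃ ε,
    (x = ι (g (!ε)) * τ ε * ι (g ε) ∧ y = τ ε) ∨ (x = τ (!ε) * τ ε ∧ y = ι (g ε))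
  let q : T →ₐ[F] RingQuot r := RingQuot.mkAlgHom F _
  have hq : Function.Surjective q := RingQuot.mkAlgHom_surjective F _
  have hU : IsUniv (q.comp ι) g fun ε => q (τ ε) := by
    refine ⟨?_, fun ε => ?_, fun ε => ?_, ?_⟩
    · intro S h1 h2 x
      obtain ⟨y, rfl⟩ := hq x
      exact hgen (S.comap q) h1 h2 y
    · simp only [AlgHom.comp_apply, ← map_mul]
      exact RingQuot.mkAlgHom_rel F ⟨ε, Or.inl ⟨rfl, rfl⟩⟩
    · simp only [AlgHom.comp_apply, ← map_mul]
      exact RingQuot.mkAlgHom_rel F ⟨ε, Or.inr ⟨rfl, rfl⟩⟩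
    · intro C _ _ φ σ h1 h2
      obtain ⟨l, l1, l2⟩ := hl C φ σ
      have hr : ∀ ⦃x y⦄, r x y → l x = l y := by
        rintro x y ⟨ε, ⟨rfl, rfl⟩ | ⟨rfl, rfl⟩⟩
        · simp only [map_mul, l1, l2, h1]
        · simp only [map_mul, l1, l2, h2]
      refine ⟨RingQuot.liftAlgHom F ⟨l, hr⟩, fun a => ?_, fun ε => ?_⟩
      · change RingQuot.liftAlgHom F ⟨l, hr⟩ (RingQuot.mkAlgHom F _ _) = _
        rw [RingQuot.liftAlgHom_mkAlgHom_apply]
        exact l1 a
      · change RingQuot.liftAlgHom F ⟨l, hr⟩ (RingQuot.mkAlgHom F _ _) = _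
        rw [RingQuot.liftAlgHom_mkAlgHom_apply, l2]
  refine ⟨RingQuot r, inferInstance, inferInstance, hq.countable, q.comp ι, fun ε => q (τ ε),
    hU, ?_⟩
  obtain ⟨σ, h1, h2⟩ := uv_exists_end (F := F) hpi g hg hg'
  obtain ⟨θ, hθ, -⟩ := hU.lift (Module.End F A) (Algebra.lmul F A) σ h1 h2
  intro a b hab
  have := congrArg θ hab
  rw [hθ, hθ] at this
  exact Algebra.lmul_injective this

variable {T : Type} [Ring T] [Algebra F T] {ι : A →ₐ[F] T} {κ : Type} {τ : κ → T}

theorem Gens.left (h : Gens ι τ) {P : T → Prop} (h1 : P 1) (hadd : ∀ x y, P x → P y → P (x + y))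
    (hι : ∀ a x, P x → P (ι a * x)) (hτ : ∀ k x, P x → P (τ k * x)) (x : T) : P x := by
  let S : Subalgebra F T :=
    { carrier := {y | ∀ x, P x → P (y * x)}
      mul_mem' := fun {a b} ha hb x hx => by rw [mul_assoc]; exact ha _ (hb x hx)
      add_mem' := fun {a b} ha hb x hx => by rw [add_mul]; exact hadd _ _ (ha x hx) (hb x hx)
      algebraMap_mem' := fun c x hx => by rw [← ι.commutes]; exact hι _ x hx }
  have := h S hι hτ x 1 h1
  rwa [mul_one] at this

theorem Gens.right (h : Gens ι τ) {P : T → Prop} (h1 : P 1) (hadd : ∀ x y, P x → P y → P (x + y))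
    (hι : ∀ a x, P x → P (x * ι a)) (hτ : ∀ k x, P x → P (x * τ k)) (x : T) : P x := by
  let S : Subalgebra F T :=
    { carrier := {y | ∀ x, P x → P (x * y)}
      mul_mem' := fun {a b} ha hb x hx => by rw [← mul_assoc]; exact hb _ (ha x hx)
      add_mem' := fun {a b} ha hb x hx => by rw [mul_add]; exact hadd _ _ (ha x hx) (hb x hx)
      algebraMap_mem' := fun c x hx => by rw [← ι.commutes]; exact hι _ x hx }
  have := h S hι hτ x 1 h1
  rwa [one_mul] at this

theorem uv_span_mul {J : Type*} {ρ : J → T} {L : Ideal T} {y z : T}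
    (hz : z ∈ Ideal.span (Set.range ρ)) (h : ∀ j, ρ j * y ∈ L) : z * y ∈ L := by
  induction hz using Submodule.span_induction with
  | mem x hx => obtain ⟨j, rfl⟩ := hx; exact h j
  | zero => simp
  | add a b _ _ ha hb => rw [add_mul]; exact L.add_mem ha hb
  | smul c a _ ha => rw [smul_eq_mul, mul_assoc]; exact L.mul_mem_left c ha

theorem uv_lin [Nonempty κ] (h : Gens ι τ) (hA : Fr A) (x : T) :
    ∃ (J : Type) (_ : Fintype J) (ε : J → κ) (φ ψ : J → A) (k y₀ : A) (ϖ : T),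
      (∀ j, (τ (ε j) * ι (φ j) - ι (ψ j)) * ϖ = 0) ∧ ι k * ϖ = x ∧ ι y₀ * ϖ = 1 ∧
      ι k - x * ι y₀ ∈ Ideal.span (Set.range fun j => τ (ε j) * ι (φ j) - ι (ψ j)) := by
  obtain ⟨X, Y, hXY⟩ := hA
  have h00 : ι (Y 0) * ι (X 0) = 1 := by rw [← map_mul, hXY]; simp
  have h01 : ι (Y 0) * ι (X 1) = 0 := by rw [← map_mul, hXY]; simp
  have h10 : ι (Y 1) * ι (X 0) = 0 := by rw [← map_mul, hXY]; simp
  have h11 : ι (Y 1) * ι (X 1) = 1 := by rw [← map_mul, hXY]; simp
  have k0 : ∀ u v : T, ι (Y 0) * (ι (X 0) * u + ι (X 1) * v) = u := fun u v => by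
    rw [mul_add, ← mul_assoc, ← mul_assoc, h00, h01]; simp
  have k1 : ∀ u v : T, ι (Y 1) * (ι (X 0) * u + ι (X 1) * v) = v := fun u v => by
    rw [mul_add, ← mul_assoc, ← mul_assoc, h10, h11]; simp
  have hs : ∀ (t : T) (a b y : A), t * ι (a * y) - ι (b * y) = (t * ι a - ι b) * ι y :=
    fun t a b y => by rw [map_mul, map_mul, sub_mul, mul_assoc]
  induction x using h.left with
  | h1 =>
    exact ⟨Empty, inferInstance, Empty.elim, Empty.elim, Empty.elim, 1, 1, 1,
      fun j => j.elim, by simp, by simp, by simp⟩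
  | hadd x x' hx hx' =>
    obtain ⟨J, _, ε, φ, ψ, k, y₀, ϖ, a1, a2, a3, a4⟩ := hx
    obtain ⟨J', _, ε', φ', ψ', k', y₀', ϖ', b1, b2, b3, b4⟩ := hx'
    obtain ⟨e₀⟩ := ‹Nonempty κ›
    refine ⟨Option (J ⊕ J'), inferInstance, fun o => o.elim e₀ (Sum.elim ε ε'),
      fun o => o.elim 0 (Sum.elim (fun j => φ j * Y 0) fun j => φ' j * Y 1),
      fun o => o.elim (y₀ * Y 0 - y₀' * Y 1) (Sum.elim (fun j => ψ j * Y 0) fun j => ψ' j * Y 1),
      k * Y 0 + k' * Y 1, y₀ * Y 0, ι (X 0) * ϖ + ι (X 1) * ϖ', ?_, ?_, ?_, ?_⟩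
    · rintro (_ | j | j)
      · simp only [Option.elim, map_zero, mul_zero, zero_sub, map_sub, map_mul, neg_mul, sub_mul,
          mul_assoc, k0, k1, a3, b3, sub_self, neg_zero]
      · simp only [Option.elim, Sum.elim_inl, hs, mul_assoc, k0, a1]
      · simp only [Option.elim, Sum.elim_inr, hs, mul_assoc, k1, b1]
    · simp only [map_add, map_mul, add_mul (ι k * ι (Y 0)), mul_assoc, k0, k1, a2, b2]
    · simp only [map_mul, mul_assoc, k0, a3]
    · have e : ι (k * Y 0 + k' * Y 1) - (x + x') * ι (y₀ * Y 0) =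
          (ι k - x * ι y₀) * ι (Y 0) + (ι k' - x' * ι y₀') * ι (Y 1) +
            x' * (τ e₀ * ι 0 - ι (y₀ * Y 0 - y₀' * Y 1)) := by
        simp only [map_add, map_mul, map_sub, map_zero]; noncomm_ring
      rw [e]
      refine Ideal.add_mem _ (Ideal.add_mem _ (uv_span_mul a4 fun j => ?_)
        (uv_span_mul b4 fun j => ?_)) (Ideal.mul_mem_left _ _ ?_)
      · exact Ideal.subset_span ⟨some (Sum.inl j), hs _ _ _ _⟩
      · exact Ideal.subset_span ⟨some (Sum.inr j), hs _ _ _ _⟩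
      · exact Ideal.subset_span ⟨none, rfl⟩
  | hι a x hx =>
    obtain ⟨J, _, ε, φ, ψ, k, y₀, ϖ, a1, a2, a3, a4⟩ := hx
    refine ⟨J, inferInstance, ε, φ, ψ, a * k, y₀, ϖ, a1, by rw [map_mul, mul_assoc, a2], a3, ?_⟩
    rw [map_mul, mul_assoc, ← mul_sub]
    exact Ideal.mul_mem_left _ _ a4
  | hτ e x hx =>
    obtain ⟨J, _, ε, φ, ψ, k, y₀, ϖ, a1, a2, a3, a4⟩ := hx
    refine ⟨Option J, inferInstance, fun o => o.elim e ε,
      fun o => o.elim (k * Y 0) fun j => φ j * Y 0,
      fun o => o.elim (Y 1) fun j => ψ j * Y 0,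
      Y 1, y₀ * Y 0, ι (X 0) * ϖ + ι (X 1) * (τ e * x), ?_, k1 _ _, ?_, ?_⟩
    · rintro (_ | j)
      · simp only [Option.elim, map_mul, sub_mul, mul_assoc, k0, k1, a2, sub_self]
      · simp only [Option.elim, hs, mul_assoc, k0, a1]
    · simp only [map_mul, mul_assoc, k0, a3]
    · have e' : ι (Y 1) - τ e * x * ι (y₀ * Y 0) =
          τ e * ((ι k - x * ι y₀) * ι (Y 0)) - (τ e * ι (k * Y 0) - ι (Y 1)) := by
        simp only [map_mul]; noncomm_ring
      rw [e']
      refine Ideal.sub_mem _ (Ideal.mul_mem_left _ _ (uv_span_mul a4 fun j => ?_)) ?_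
      · exact Ideal.subset_span ⟨some j, hs _ _ _ _⟩
      · exact Ideal.subset_span ⟨none, rfl⟩

/-- Linearization. Prove by `Gens.left`: there are `J, ε, φ, ψ, k, y₀ ∈ A, ϖ ∈ T` with
`ρ j * ϖ = 0`, `ι k * ϖ = x`, `ι y₀ * ϖ = 1`, `ι k - x * ι y₀ ∈ span (range ρ)`, where
`ρ j = τ (ε j) * ι (φ j) - ι (ψ j)`. For `τ e * x`: `ϖ' = x₁ ϖ + x₂ τ e x`, `k' = y₂`,
`y₀' = y₀ y₁`, relations `ρ j y₁` and `τ e k y₁ - y₂`. For `x + x'`: `ϖ'' = x₁ ϖ + x₂ ϖ'`,
relations `ρ j y₁`, `ρ' j y₂`, and `φ = 0`, `ψ = y₀ y₁ - y₀' y₂`; `k'' = k y₁ + k' y₂`,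
`y₀'' = y₀ y₁`. Finally if `f` generates the image of `L` then `f ϖ ∈ C x`,
`x y₀ f = x y₀`, and `y₀ f ϖ = c x` has `x c x = x`. -/
theorem Gens.lin [Nonempty κ] (h : Gens ι τ) (hA : Fr A) (x : T) :
    ∃ (J : Type) (_ : Fintype J) (ε : J → κ) (φ ψ : J → A) (k : A),
      ∀ (C : Type) [Ring C] [Algebra F C] (θ : T →ₐ[F] C),
        Gen ((Ideal.span (insert (ι k)
          (Set.range fun j => τ (ε j) * ι (φ j) - ι (ψ j)))).map θ) →
        ∃ c, θ x * c * θ x = θ x := by
  obtain ⟨J, _, ε, φ, ψ, k, y₀, ϖ, a1, a2, a3, a4⟩ := uv_lin h hA x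
  refine ⟨J, inferInstance, ε, φ, ψ, k, fun C _ _ θ ⟨f, hf, hgen⟩ => ?_⟩
  have hxy : x * ι y₀ ∈ Ideal.span (insert (ι k)
      (Set.range fun j => τ (ε j) * ι (φ j) - ι (ψ j))) := by
    have : x * ι y₀ = ι k - (ι k - x * ι y₀) := by abel
    rw [this]
    exact Ideal.sub_mem _ (Ideal.subset_span (Set.mem_insert _ _))
      (Ideal.span_mono (Set.subset_insert _ _) a4)
  have h1 := hgen _ (Ideal.mem_map_of_mem θ hxy)
  have h2 : f * θ ϖ ∈ Ideal.span {θ x} := by
    refine map_mul_mem θ _ _ _ (fun m hm => ?_) f hf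
    induction hm using Submodule.span_induction with
    | mem z hz =>
      rcases hz with rfl | ⟨j, rfl⟩
      · rw [← map_mul, a2]; exact Ideal.subset_span rfl
      · rw [← map_mul, a1, map_zero]; exact Ideal.zero_mem _
    | zero => simp
    | add a b _ _ ha hb => rw [map_add, add_mul]; exact Ideal.add_mem _ ha hb
    | smul c a _ ha => rw [smul_eq_mul, map_mul, mul_assoc]; exact Ideal.mul_mem_left _ _ ha
  obtain ⟨c, hc⟩ := Ideal.mem_span_singleton'.1 h2
  refine ⟨θ (ι y₀) * c, ?_⟩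
  rw [← mul_assoc, ← map_mul, mul_assoc, hc, ← mul_assoc, h1, ← map_mul, mul_assoc, a3, mul_one]

/-- Induction on the number of relations: a nontrivial combination of relations that is
equivalent to a pure relation removes one relation (`A k + A a = A k'` by `Reg.idem_left`). -/
theorem skeleton (hA : Reg A) {J : Type} (ρ : J → T) (P : Ideal T → Prop)
    (H : ∀ (s : Finset J) (k : A), k * k = k →
      (∀ (c : J → F) (a : A), Ideal.span {ι k, ∑ j ∈ s, c j • ρ j} = Ideal.span {ι k, ι a} →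
        ∀ j ∈ s, c j = 0) → P (Ideal.span (insert (ι k) (ρ '' s))))
    (s : Finset J) (k : A) : P (Ideal.span (insert (ι k) (ρ '' s))) := by
  classical
  induction s using Finset.strongInduction generalizing k with
  | H s ih =>
  obtain ⟨z, hz⟩ := hA k
  have hk : Ideal.span (insert (ι k) (ρ '' s)) = Ideal.span (insert (ι (z * k)) (ρ '' s)) := by
    refine le_antisymm (Ideal.span_le.2 ?_) (Ideal.span_le.2 ?_)
    · rintro _ (rfl | hy)
      · have : ι k = ι k * ι (z * k) := by rw [← map_mul, ← mul_assoc, hz]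
        rw [this]
        exact Ideal.mul_mem_left _ _ (Ideal.subset_span (Set.mem_insert _ _))
      · exact Ideal.subset_span (Set.mem_insert_of_mem _ hy)
    · rintro _ (rfl | hy)
      · rw [map_mul]
        exact Ideal.mul_mem_left _ _ (Ideal.subset_span (Set.mem_insert _ _))
      · exact Ideal.subset_span (Set.mem_insert_of_mem _ hy)
  rw [hk]
  have hid : z * k * (z * k) = z * k := by rw [mul_assoc z k, ← mul_assoc k, hz]
  generalize z * k = k₁ at hid
  by_cases hc : ∀ (c : J → F) (a : A),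
      Ideal.span {ι k₁, ∑ j ∈ s, c j • ρ j} = Ideal.span {ι k₁, ι a} → ∀ j ∈ s, c j = 0
  · exact H s k₁ hid hc
  push Not at hc
  obtain ⟨c, a, hca, j₀, hj₀, hc0⟩ := hc
  obtain ⟨k', hk', -, hfix⟩ := hA.idem_left (Ideal.span {k₁, a}) ![k₁, a] (by
    intro i
    fin_cases i
    · exact Ideal.subset_span (Set.mem_insert _ _)
    · exact Ideal.subset_span (Set.mem_insert_of_mem _ rfl))
  have f0 : k₁ * k' = k₁ := hfix 0
  have f1 : a * k' = a := hfix 1
  have hsm : ∀ (L : Ideal T) (d : F) (y : T), y ∈ L → d • y ∈ L := fun L d y hy => by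
    rw [Algebra.smul_def]; exact L.mul_mem_left _ hy
  have key : Ideal.span (insert (ι k₁) (ρ '' s)) =
      Ideal.span (insert (ι k') (ρ '' (s.erase j₀ : Finset J))) := by
    refine le_antisymm (Ideal.span_le.2 ?_) (Ideal.span_le.2 ?_)
    · have m0 : ι k' ∈ Ideal.span (insert (ι k') (ρ '' (s.erase j₀ : Finset J))) :=
        Ideal.subset_span (Set.mem_insert _ _)
      have m1 : ι k₁ ∈ Ideal.span (insert (ι k') (ρ '' (s.erase j₀ : Finset J))) := by
        rw [← f0, map_mul]; exact Ideal.mul_mem_left _ _ m0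
      have m2 : ι a ∈ Ideal.span (insert (ι k') (ρ '' (s.erase j₀ : Finset J))) := by
        rw [← f1, map_mul]; exact Ideal.mul_mem_left _ _ m0
      have m3 : ∀ j ∈ s.erase j₀,
          ρ j ∈ Ideal.span (insert (ι k') (ρ '' (s.erase j₀ : Finset J))) := fun j hj =>
        Ideal.subset_span (Set.mem_insert_of_mem _ ⟨j, hj, rfl⟩)
      have m4 : ∑ j ∈ s, c j • ρ j ∈
          Ideal.span (insert (ι k') (ρ '' (s.erase j₀ : Finset J))) := by
        have : ∑ j ∈ s, c j • ρ j ∈ Ideal.span {ι k₁, ι a} := by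
          rw [← hca]; exact Ideal.subset_span (Set.mem_insert_of_mem _ rfl)
        refine (Ideal.span_le.2 ?_ : Ideal.span {ι k₁, ι a} ≤ _) this
        rintro _ (rfl | rfl)
        exacts [m1, m2]
      rintro _ (rfl | ⟨j, hj, rfl⟩)
      · exact m1
      · by_cases hjj : j = j₀
        · subst hjj
          rw [← Finset.add_sum_erase s _ hj₀] at m4
          have m5 := (Ideal.add_mem_iff_left _
            (Ideal.sum_mem _ fun i hi => hsm _ (c i) _ (m3 i hi))).1 m4
          have := hsm _ (c j)⁻¹ _ m5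
          rwa [smul_smul, inv_mul_cancel₀ hc0, one_smul] at this
        · exact m3 j (Finset.mem_erase.2 ⟨hjj, hj⟩)
    · rintro _ (rfl | ⟨j, hj, rfl⟩)
      · obtain ⟨u, v, huv⟩ := Ideal.mem_span_pair.1 hk'
        have m1 : ι k' ∈ Ideal.span {ι k₁, ι a} := by
          rw [← huv, map_add, map_mul, map_mul]
          exact Ideal.add_mem _
            (Ideal.mul_mem_left _ _ (Ideal.subset_span (Set.mem_insert _ _)))
            (Ideal.mul_mem_left _ _ (Ideal.subset_span (Set.mem_insert_of_mem _ rfl)))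
        rw [← hca] at m1
        refine (Ideal.span_le.2 ?_ : Ideal.span {ι k₁, ∑ j ∈ s, c j • ρ j} ≤ _) m1
        rintro _ (rfl | rfl)
        · exact Ideal.subset_span (Set.mem_insert _ _)
        · exact Ideal.sum_mem _ fun i hi => hsm _ _ _
            (Ideal.subset_span (Set.mem_insert_of_mem _ ⟨i, hi, rfl⟩))
      · exact Ideal.subset_span
          (Set.mem_insert_of_mem _ ⟨j, Finset.mem_of_mem_erase hj, rfl⟩)
  rw [key]
  exact ih _ (Finset.erase_ssubset hj₀) k'

/-- with `E = ∑ G j * σ j` the generator is `k + E - E * k` -/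
theorem gen_of {C : Type*} [Ring C] {J : Type} [Fintype J] [DecidableEq J] {k h : C}
    {σ G : J → C} (hk : k * k = k) (hσ : ∀ j, h * σ j = σ j)
    (h1 : ∀ i j, σ i * G j = if i = j then h else 0) (h2 : ∀ j, k * G j = 0) :
    Gen (Ideal.span (insert k (Set.range σ))) := by
  have mk : k ∈ Ideal.span (insert k (Set.range σ)) := Ideal.subset_span (Set.mem_insert _ _)
  have kE : k * ∑ j, G j * σ j = 0 := by
    simp only [Finset.mul_sum, ← mul_assoc, h2, zero_mul, Finset.sum_const_zero]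
  have sE : ∀ i, σ i * ∑ j, G j * σ j = σ i := fun i => by
    simp only [Finset.mul_sum, ← mul_assoc, h1, ite_mul, zero_mul, Finset.sum_ite_eq,
      Finset.mem_univ, if_true, hσ]
  refine ⟨k + ∑ j, G j * σ j - (∑ j, G j * σ j) * k, ?_, fun y hy => ?_⟩
  · exact Ideal.sub_mem _ (Ideal.add_mem _ mk (Ideal.sum_mem _ fun j _ =>
      Ideal.mul_mem_left _ _ (Ideal.subset_span (Set.mem_insert_of_mem _ ⟨j, rfl⟩))))
      (Ideal.mul_mem_left _ _ mk)
  · induction hy using Submodule.span_induction with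
    | mem z hz =>
      rcases hz with rfl | ⟨i, rfl⟩
      · rw [mul_sub, mul_add, ← mul_assoc, kE, hk]; simp
      · rw [mul_sub, mul_add, ← mul_assoc, sE]; abel
    | zero => simp
    | add a b _ _ ha hb => rw [add_mul, ha, hb]
    | smul c a _ ha => rw [smul_eq_mul, mul_assoc, ha]

end Pool.Agent.Lib.MP_57313b_al.Dia
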