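import Pool.Agent.Lib.MP_57313b_al.Dia.LI
import Pool.Agent.Lib.MP_57313b_al.Dia.Univ

/-! The free step: admissible substitutions, the witness, absorption and regularity. -/

namespace Pool.Agent.Lib.MP_57313b_al.Dia

variable {F : Type} [Field F] {A : Type} [Ring A] [Algebra F A] {M I : Ideal A}
  {T : Type} [Ring T] [Algebra F T] {ι : A →ₐ[F] T} {t r : T}

/-- the filtration by the number of letters `t` -/
def f1Fl (ι : A →ₐ[F] T) (t : T) : ℕ → Submodule F T
  | 0 => ⊥
  | n + 1 => Submodule.span F {z | (∃ a, z = ι a) ∨ ∃ y ∈ f1Fl ι t n, ∃ a, z = y * t * ι a}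

theorem f1Fl_mul {n : ℕ} {x : T} (h : x ∈ f1Fl ι t n) (a : A) : x * ι a ∈ f1Fl ι t n := by
  cases n with
  | zero => rw [(Submodule.mem_bot F).mp h, zero_mul]; exact zero_mem _
  | succ n =>
    induction h using Submodule.span_induction with
    | mem z hz =>
      rcases hz with ⟨b, rfl⟩ | ⟨y, hy, b, rfl⟩
      · exact Submodule.subset_span (Or.inl ⟨b * a, (map_mul _ _ _).symm⟩)
      · exact Submodule.subset_span (Or.inr ⟨y, hy, b * a, by rw [map_mul, mul_assoc]⟩)
    | zero => rw [zero_mul]; exact zero_mem _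
    | add x y _ _ h1 h2 => rw [add_mul]; exact add_mem h1 h2
    | smul c x _ h1 => rw [smul_mul_assoc]; exact Submodule.smul_mem _ c h1

theorem f1Fl_mono : Monotone (f1Fl ι t) := monotone_nat_of_le_succ fun n => by
  induction n with
  | zero => exact bot_le
  | succ n ih => exact Submodule.span_mono fun z hz => hz.imp_right fun ⟨y, h, e⟩ => ⟨y, ih h, e⟩

theorem f1Fl_ex (hT : IsFree ι t) (x : T) : ∃ n, x ∈ f1Fl ι t n :=
  hT.gens.right (P := fun x => ∃ n, x ∈ f1Fl ι t n)
    ⟨1, Submodule.subset_span (Or.inl ⟨1, (map_one ι).symm⟩)⟩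
    (fun _ _ ⟨n, h⟩ ⟨m, h'⟩ => ⟨max n m, add_mem (f1Fl_mono (le_max_left _ _) h)
      (f1Fl_mono (le_max_right _ _) h')⟩) (fun a _ ⟨n, h⟩ => ⟨n, f1Fl_mul h a⟩)
    (fun _ x ⟨n, h⟩ => ⟨n + 1, Submodule.subset_span
      (Or.inr ⟨x, h, 1, by rw [map_one, mul_one]⟩)⟩) x

theorem f1_act (hT : IsFree ι t) (π : A ⧸ I →ₗ[F] F) :
    ∃ θ : T →ₐ[F] Module.End F ((A ⧸ I) × T), (∀ a u w, θ (ι a) (u, w) = (a • u, ι a * w)) ∧
      (∀ u, θ t (u, 0) = (0, π u • 1)) ∧ ∀ x w, θ x (0, w) = (0, x * w) := by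
  obtain ⟨θ, h1, h2⟩ := hT.lift (Module.End F ((A ⧸ I) × T))
    ((LinearMap.prodMapAlgHom F (A ⧸ I) T).comp
      ((Algebra.lsmul F F (A ⧸ I)).prod ((Algebra.lmul F T).comp ι)))
    (LinearMap.prod 0 (LinearMap.toSpanSingleton F T 1 ∘ₗ π ∘ₗ LinearMap.fst F _ _ +
      LinearMap.mulLeft F t ∘ₗ LinearMap.snd F _ _))
  have h3 : ∀ a u w, θ (ι a) (u, w) = (a • u, ι a * w) := fun a u w => by rw [h1]; rfl
  have h4 : ∀ u w, θ t (u, w) = (0, π u • 1 + t * w) := fun u w => by rw [h2]; rfl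
  refine ⟨θ, h3, fun u => by rw [h4, mul_zero, add_zero], fun x => hT.gens.left
    (P := fun x => ∀ w, θ x (0, w) = (0, x * w)) (fun w => by simp) (fun x y h h' w => ?_)
    (fun a x h w => ?_) (fun _ x h w => ?_) x⟩
  · rw [map_add, LinearMap.add_apply, h, h', add_mul, Prod.mk_add_mk, add_zero]
  · rw [map_mul, Module.End.mul_apply, h, h3, smul_zero, mul_assoc]
  · rw [map_mul, Module.End.mul_apply, h, h4, map_zero, zero_smul, zero_add, mul_assoc]

theorem f1_span {C : Type*} [Ring C] (u v w : C) :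
    Ideal.span {u, w * u + v} = Ideal.span {u, v} := by
  have h1 : ∀ v : C, u ∈ Ideal.span {u, v} := fun v => Ideal.subset_span (Or.inl rfl)
  have h2 : ∀ v : C, v ∈ Ideal.span {u, v} := fun v => Ideal.subset_span (Or.inr rfl)
  refine le_antisymm (Ideal.span_le.mpr ?_) (Ideal.span_le.mpr ?_) <;> rintro _ (rfl | rfl)
  · exact h1 _
  · exact add_mem (Ideal.mul_mem_left _ _ (h1 _)) (h2 _)
  · exact h1 _
  · simpa using sub_mem (h2 _) (Ideal.mul_mem_left _ w (h1 (w * u + _)))

/-- The witness is free. Filtration `Fl 0 = ⊥`, `Fl (n+1) = span {ι a, y * t * ι a | y ∈ Fl n}`,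
closed under right multiplication by `ι A`, exhaustive (`Gens.right`). Fix `k` and a linear
`π : A ⧸ I → F` with `π (γ k') = δ`. Let `T` act on `(A ⧸ I) × T` by `lift`:
`a (u, w) = (a u, ι a w)`, `t (u, w) = (0, π u • 1 + t w)`. Then `x (0, w) = (0, x w)`,
`b ∈ Fl (n+1)` gives `(b (u, 0)).2 ∈ Fl n`, `I.map ι` kills `(1, 0)`, `r (1, 0) = (c, δ k)`. So
`b * δ k ∈ Fl n` for all `k`, `b = ∑ b δ k a k ∈ Fl n`. -/
theorem Wit.free (hT : IsFree ι t) (hr : Wit I ι t r) (b : T) (hb : b * r ∈ I.map ι) : b = 0 := by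
  classical
  obtain ⟨κ, _, c, δ, γ, a, rfl, h1, h2⟩ := hr
  obtain ⟨g, hg⟩ := (Fintype.linearCombination F fun k =>
    (Submodule.Quotient.mk (γ k) : A ⧸ I)).exists_leftInverse_of_injective
    (LinearMap.ker_eq_bot'.mpr fun m hm => funext (h2 m ((Submodule.Quotient.mk_eq_zero I).mp (by
      simpa [Fintype.linearCombination_apply, ← Submodule.mkQ_apply] using hm))))
  have key : ∀ n, b ∈ f1Fl ι t (n + 1) → ∀ k, b * ι (δ k) ∈ f1Fl ι t n := by
    intro n hn k
    obtain ⟨θ, t1, t2, t3⟩ := f1_act hT (LinearMap.proj k ∘ₗ g)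
    have a1 : ∀ x ∈ f1Fl ι t (n + 1), ∀ u, (θ x (u, 0)).2 ∈ f1Fl ι t n := by
      intro x hx u
      induction hx using Submodule.span_induction with
      | mem z hz =>
        rcases hz with ⟨b, rfl⟩ | ⟨y, hy, b, rfl⟩
        · rw [t1, mul_zero]; exact zero_mem _
        · simp only [map_mul, Module.End.mul_apply, t1, mul_zero, t2, t3, mul_smul_comm, mul_one]
          exact Submodule.smul_mem _ _ hy
      | zero => rw [map_zero]; exact zero_mem _
      | add x y _ _ h1 h2 => rw [map_add]; exact add_mem h1 h2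
      | smul c x _ h1 => rw [map_smul]; exact Submodule.smul_mem _ c h1
    have a2 : ∀ x ∈ I.map ι, θ x (Submodule.Quotient.mk 1, 0) = 0 := by
      intro x hx
      induction hx using Submodule.span_induction with
      | mem z hz =>
        obtain ⟨i, hi, rfl⟩ := hz
        rw [t1, ← Submodule.Quotient.mk_smul, smul_eq_mul, mul_one, mul_zero,
          (Submodule.Quotient.mk_eq_zero I).mpr hi]
        rfl
      | zero => rw [map_zero]; rfl
      | add x y _ _ h1 h2 => rw [map_add, LinearMap.add_apply, h1, h2, add_zero]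
      | smul c x _ h1 => rw [smul_eq_mul, map_mul, Module.End.mul_apply, h1, map_zero]
    have a3 : ∀ k', g (Submodule.Quotient.mk (γ k')) k = if k = k' then 1 else 0 := fun k' => by
      have := congrFun (LinearMap.congr_fun hg (Pi.single k' 1)) k
      rwa [LinearMap.comp_apply, Fintype.linearCombination_apply_single, one_smul,
        LinearMap.id_apply, Pi.single_apply] at this
    have a4 : θ (ι c + ∑ k, ι (δ k) * t * ι (γ k)) (Submodule.Quotient.mk 1, 0) =
        (Submodule.Quotient.mk c, 0) + (0, ι (δ k)) := by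
      simp only [map_add, map_sum, map_mul, LinearMap.add_apply, LinearMap.sum_apply,
        Module.End.mul_apply, t1, t2, ← Submodule.Quotient.mk_smul, smul_eq_mul, mul_one, mul_zero,
        LinearMap.comp_apply, LinearMap.proj_apply, a3, smul_zero]
      rw [Finset.sum_eq_single_of_mem k (Finset.mem_univ _) fun k' _ h => by
        simp [h.symm], if_pos rfl, one_smul, mul_one]
    have a5 := congrArg Prod.snd (a2 _ hb)
    rw [map_mul, Module.End.mul_apply, a4, map_add, t3, Prod.snd_add, Prod.snd_zero] at a5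
    exact (eq_neg_of_add_eq_zero_right a5 : b * ι (δ k) = _) ▸ neg_mem (a1 b hn _)
  obtain ⟨n, hn⟩ := f1Fl_ex hT b
  induction n with
  | zero => exact (Submodule.mem_bot F).mp hn
  | succ n ih =>
    refine ih ?_
    rw [← mul_one b, ← map_one ι, ← h1, map_sum, Finset.mul_sum]
    exact Submodule.sum_mem _ fun k _ => by
      rw [map_mul, ← mul_assoc]; exact f1Fl_mul (key n hn k) _

theorem wit_start (hI : 1 ∉ I) : Wit I ι t t := by
  refine ⟨Unit, inferInstance, 0, fun _ => 1, fun _ => 1, fun _ => 1, by simp, by simp,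
    fun c h k => by_contra fun e => hI ?_⟩
  simpa [smul_smul, e] using I.smul_of_tower_mem (c k)⁻¹ h

/-- Substitutions with prescribed probes. `V` is the span of the classes of the `γ k`.
`θ t = ∑ a p * (t Γ p + c p) + (1 - e) t x` with `e = ∑ a p ξ p` and `x` from `Ind.sum`
(second family: the single element `1`). -/
theorem Wit.subst (hA : Fr A) (hT : IsFree ι t) (hr : Wit I ι t r) :
    ∃ V : Submodule F (A ⧸ I), FiniteDimensional F V ∧
      ∀ (P : Type) [Fintype P] [DecidableEq P] (ξ a Γ c : P → A),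
        (∀ p q, ξ p * a q = if p = q then 1 else 0) → Ind V Γ →
        ∃ θ : T →ₐ[F] T, (∀ a, θ (ι a) = ι a) ∧ Wit I ι t (θ r) ∧
          ∀ p, ι (ξ p) * θ t = t * ι (Γ p) + ι (c p) := by
  obtain ⟨κ, _, c₀, δ, γ, a₀, rfl, h1, h2⟩ := hr
  refine ⟨Submodule.span F (Set.range fun k => Submodule.Quotient.mk (γ k)),
    FiniteDimensional.span_of_finite F (Set.finite_range _), fun P _ _ ξ a Γ c h3 h4 => ?_⟩
  have := FiniteDimensional.span_of_finite F
    (Set.finite_range fun k => (Submodule.Quotient.mk (γ k) : A ⧸ I))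
  obtain ⟨x, hx⟩ := h4.sum hA (γ' := fun _ : Unit => 1) fun v _ h k => by simpa using h
  let α : P ⊕ Unit → A := Sum.elim a fun _ => 1 - ∑ p, a p * ξ p
  obtain ⟨θ, t1, t2⟩ := hT.lift T ι (ι (∑ p, a p * c p) +
    ∑ s, ι (α s) * t * ι (Sum.elim Γ (fun _ : Unit => x * 1) s))
  refine ⟨θ, t1, ⟨κ × (P ⊕ Unit), inferInstance, c₀ + ∑ k, δ k * (∑ p, a p * c p) * γ k,
    fun q => δ q.1 * α q.2, fun q => Sum.elim Γ (fun _ : Unit => x * 1) q.2 * γ q.1,
    fun q => Sum.elim ξ (fun _ => 1) q.2 * a₀ q.1, ?_, ?_, fun d hd q => ?_⟩, fun p => ?_⟩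
  · generalize ∑ p, a p * c p = c' at t2
    simp only [map_add, map_sum, map_mul, t1, t2, Fintype.sum_prod_type, mul_add, add_mul,
      Finset.sum_add_distrib, Finset.mul_sum, Finset.sum_mul, mul_assoc, add_assoc]
  · refine (Fintype.sum_prod_type _).trans ((Finset.sum_congr rfl fun k _ => ?_).trans h1)
    simp only [mul_assoc, ← Finset.mul_sum]
    simp only [← mul_assoc, ← Finset.sum_mul]
    rw [show ∑ s, α s * Sum.elim ξ (fun _ => 1) s = 1 by simp [α], mul_one]
  · refine h2 (fun k => d (k, q.2)) ((Submodule.Quotient.mk_eq_zero I).mp ?_) q.1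
    refine Eq.trans ?_ (hx (fun s => ∑ k, d (k, s) • Submodule.Quotient.mk (γ k))
      (fun s => Submodule.sum_mem _ fun k _ => Submodule.smul_mem _ _
        (Submodule.subset_span ⟨k, rfl⟩)) ?_ q.2)
    · simp [← Submodule.mkQ_apply]
    · rw [← (Submodule.Quotient.mk_eq_zero I).mpr hd, Fintype.sum_prod_type_right]
      simp only [← Submodule.mkQ_apply, map_sum, Finset.smul_sum]
      refine Finset.sum_congr rfl fun s _ => Finset.sum_congr rfl fun k _ => ?_
      rw [← LinearMap.map_smul_of_tower, ← map_smul, smul_eq_mul, mul_smul_comm]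
  · have e1 : ∀ s, ξ p * α s = if s = Sum.inl p then 1 else 0 := by
      rintro (q | q)
      · simp [α, h3, eq_comm]
      · simp [α, mul_sub, Finset.mul_sum, ← mul_assoc, h3]
    have e2 : ξ p * ∑ p, a p * c p = c p := by simp [Finset.mul_sum, ← mul_assoc, h3]
    rw [t2, mul_add, ← map_mul, e2, add_comm, Finset.mul_sum]
    simp only [← mul_assoc, ← map_mul, e1]
    rw [Finset.sum_eq_single_of_mem (Sum.inl p) (Finset.mem_univ _) fun s _ h => by simp [h]]
    simp

/-- Absorption. Write `x = ι n₀ + ∑ y i * t * ι (n i)` (`Gens.right`); take `θ t = t γ` with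
`γ * n i ∈ M`, `γ` injective on `V` (`exists_small`, `Sm.mem_of_mul_eq_zero`). -/
theorem free_abs (hA : Good F M) (hI : NS M I) (hT : IsFree ι t) (hr : Wit I ι t r) (x : T) :
    ∃ θ : T →ₐ[F] T, (∀ a, θ (ι a) = ι a) ∧ Wit I ι t (θ r) ∧ ∃ a, θ x - ι a ∈ M.map ι := by
  obtain ⟨n₀, hx⟩ : ∃ n₀, x - ι n₀ ∈ Ideal.span (Set.range fun n => t * ι n) := by
    refine hT.gens.right (P := fun x => ∃ n₀, x - ι n₀ ∈ Ideal.span (Set.range fun n => t * ι n))
      ⟨1, by simp⟩ (fun x y ⟨n, h⟩ ⟨m, h'⟩ => ⟨n + m, ?_⟩) (fun a x ⟨n, h⟩ => ⟨n * a, ?_⟩)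
      (fun _ x _ => ⟨0, ?_⟩) x
    · rw [map_add, add_sub_add_comm]; exact add_mem h h'
    · rw [map_mul, ← sub_mul]
      generalize x - ι n = y at h
      induction h using Submodule.span_induction with
      | mem z hz =>
        obtain ⟨m, rfl⟩ := hz
        exact Ideal.subset_span ⟨m * a, by simp only [map_mul, mul_assoc]⟩
      | zero => rw [zero_mul]; exact zero_mem _
      | add x y _ _ h1 h2 => rw [add_mul]; exact add_mem h1 h2
      | smul c x _ h1 => rw [smul_eq_mul, mul_assoc]; exact Ideal.mul_mem_left _ c h1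
    · rw [map_zero, sub_zero]
      exact Ideal.mul_mem_left _ x (Ideal.subset_span ⟨1, by simp⟩)
  obtain ⟨y, hy⟩ := Finsupp.mem_span_range_iff_exists_finsupp.mp hx
  obtain ⟨V, _, hV⟩ := hr.subst hA.fr hT
  obtain ⟨γ, g, g1, g2, g3⟩ := exists_small hA.reg hA.fr hA.pt.1 hI.quot V
    fun n : y.support => (n : A)
  obtain ⟨θ, t1, t2, t3⟩ := hV Unit (fun _ => 1) (fun _ => 1) (fun _ => γ) (fun _ => 0)
    (by simp) fun v h h' k => g1 _ (h k) (by simpa using h')
  refine ⟨θ, t1, t2, n₀, ?_⟩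
  rw [← t1, ← map_sub, ← hy, Finsupp.sum, map_sum]
  refine Ideal.sum_mem _ fun n hn => ?_
  have := t3 ()
  rw [map_one, one_mul, map_zero, add_zero] at this
  rw [smul_eq_mul, map_mul, map_mul, this, t1, mul_assoc, ← map_mul]
  exact Ideal.mul_mem_left _ _ (Ideal.mul_mem_left _ _
    (Ideal.mem_map_of_mem _ (g2.mem_of_mul_eq_zero (g3 ⟨n, hn⟩))))

/-- Regularity. `Gens.lin` and `skeleton` with `P L = ∃ θ admissible, Gen (L.map θ)`. If no
combination of the `ρ j = t φ j - ψ j` (`j ∈ s`) is pure then the `φ j (1 - k)` are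
independent. `b i * φ j (1 - k) * ζ = δ` (`Pre.ri`); `γ`, `g` from `exists_small` for
`X j = φ j (1 - k) ζ`; `a g b = 1`; frames `x j`, `y j`; `z j = (1 - k) ζ g b x j`,
`c = ∑ i j, (δ i j + ψ i z j) y j a b i`, `θ t = t γ + c`. Then `θ (ρ i) z j = δ`, `k z j = 0`;
use `gen_of` with `h = 1`. -/
theorem free_reg (hA : Good F M) (hI : NS M I) (hT : IsFree ι t) (hr : Wit I ι t r) (x : T) :
    ∃ θ : T →ₐ[F] T, (∀ a, θ (ι a) = ι a) ∧ Wit I ι t (θ r) ∧ ∃ y, θ x * y * θ x = θ x := by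
  classical
  obtain ⟨J, _, ε, φ, ψ, k, h⟩ := hT.gens.lin hA.fr x
  refine (skeleton (ι := ι) hA.reg (fun j => t * ι (φ j) - ι (ψ j))
    (fun L => ∃ θ : T →ₐ[F] T, (∀ a, θ (ι a) = ι a) ∧ Wit I ι t (θ r) ∧ Gen (L.map θ))
    (fun s k hk H => ?_) Finset.univ k).imp fun θ t =>
      ⟨t.1, t.2.1, h T θ (by simpa only [Finset.coe_univ, Set.image_univ] using t.2.2)⟩
  have li : LinearIndependent F fun j : s => φ j * (1 - k) := by
    refine Fintype.linearIndependent_iff.mpr fun c hc j => ?_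
    have e : ∀ j : s, Function.extend Subtype.val c 0 (j : J) = c j :=
      Subtype.val_injective.extend_apply c 0
    rw [← e]
    refine H _ (-∑ j : s, c j • ψ j) ?_ j j.2
    rw [← f1_span (ι k) (ι _) (t * ι (∑ j : s, c j • φ j)), ← Finset.sum_coe_sort s, mul_assoc,
      ← map_mul]
    simp only [← smul_mul_assoc, ← Finset.sum_mul] at hc
    rw [mul_sub, mul_one, sub_eq_zero] at hc
    rw [← hc]
    simp [e, Finset.mul_sum, sub_eq_add_neg, Finset.sum_add_distrib]
  obtain ⟨ζ, b, hb⟩ := hA.pre.ri li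
  obtain ⟨V, _, hV⟩ := hr.subst hA.fr hT
  obtain ⟨γ, g, g1, g2, g3⟩ := exists_small hA.reg hA.fr hA.pt.1 hI.quot V
    fun j : s => φ j * (1 - k) * ζ
  obtain ⟨a', b', hg⟩ := hA.pi g (g2.ne_zero hA.pt.1)
  obtain ⟨x, y, hxy⟩ := hA.fr.of_countable s
  let z : s → A := fun j => (1 - k) * (ζ * (g * (b' * x j)))
  obtain ⟨θ, t1, t2, t3⟩ := hV Unit (fun _ => 1) (fun _ => 1) (fun _ => γ)
    (fun _ => ∑ i, ∑ j, ((if i = j then 1 else 0) + ψ i.1 * z j) * y j * a' * b i)
    (by simp) fun v h h' k => g1 _ (h k) (by simpa using h')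
  refine ⟨θ, t1, t2, ?_⟩
  rw [Ideal.map_span, Set.image_insert_eq, t1, Set.image_image, Set.image_eq_range]
  refine gen_of (J := s) (h := 1) (G := fun j => ι (z j)) (by rw [← map_mul, hk]) (fun _ => one_mul _)
    (fun i j => ?_) fun j => by rw [← map_mul, ← mul_assoc, mul_sub, hk, mul_one, sub_self,
      zero_mul, map_zero]
  have e1 := t3 ()
  rw [map_one, one_mul] at e1
  have e2 : γ * (φ i * z j) = 0 := by
    have := congrArg (· * (b' * x j)) (g3 i)
    simpa only [z, mul_assoc, zero_mul] using this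
  have e3 : ∀ i' j' : s, y j' * (a' * (b i' * (φ i * z j))) =
      if i' = i ∧ j' = j then 1 else 0 := fun i' j' => by
    have := congrArg (fun w => y j' * (a' * (w * (g * (b' * x j))))) (hb i' i)
    simp only [mul_assoc] at this
    simp only [z, this]
    by_cases e : i' = i
    · rw [if_pos e, one_mul, ← mul_assoc a', ← mul_assoc (a' * g), hg, one_mul, hxy]
      simp [e]
    · simp [e]
  rw [map_sub, map_mul, t1, t1, e1, sub_mul, mul_assoc, add_mul, mul_assoc, ← map_mul, ← map_mul,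
    ← map_mul, ← map_mul, e2, map_zero, mul_zero, zero_add, ← map_sub]
  simp only [Finset.sum_mul, mul_assoc, e3]
  rw [Finset.sum_eq_single_of_mem i (Finset.mem_univ _) fun _ _ h => by simp [h],
    Finset.sum_eq_single_of_mem j (Finset.mem_univ _) fun _ _ h => by simp [h]]
  simp [apply_ite ι]

end Pool.Agent.Lib.MP_57313b_al.Dia
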