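import Pool.Agent.Lib.MP_57313b_al.Dia.Free1

/-! The free step: trees and degree reduction. -/

namespace Pool.Agent.Lib.MP_57313b_al.Dia

variable {F : Type} [Field F] {A : Type} [Ring A] [Algebra F A] {M I : Ideal A}
  {T : Type} [Ring T] [Algebra F T] {ι : A →ₐ[F] T} {t r : T}

/-- a finite rooted tree of monomials: `b a = b (par a) * lab a * t` -/
structure IsTree (ι : A →ₐ[F] T) (t : T) {N : Type} [Fintype N] [DecidableEq N] (root : N)
    (par : N → N) (dep : N → ℕ) (lab : N → A) (b : N → T) : Prop where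
  dep_root : dep root = 0
  dep_par : ∀ a, a ≠ root → dep a = dep (par a) + 1
  b_root : b root = 1
  b_par : ∀ a, a ≠ root → b a = b (par a) * ι (lab a) * t
  indep : ∀ (p : N) (c : N → F), (∑ a with a ≠ root ∧ par a = p, c a • lab a) = 0 →
    ∀ a, a ≠ root → par a = p → c a = 0

/-- the monomial of a word -/
def f2Mon {κ : Type} (ι : A →ₐ[F] T) (t : T) (e : κ → A) : List κ → T
  | [] => 1
  | i :: w => f2Mon ι t e w * ι (e i) * t

/-- the first letter of a word -/
def f2Lab {κ : Type} (e : κ → A) : List κ → A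
  | [] => 0
  | i :: _ => e i

theorem f2_words (hT : IsFree ι t) {κ : Type} (e : Module.Basis κ F A) (x : T) :
    ∃ n : List κ →₀ A, x = n.sum fun w a => f2Mon ι t e w * ι a := by
  classical
  let S := AddSubmonoid.closure (Set.range fun p : List κ × A => f2Mon ι t e p.1 * ι p.2)
  have hm : ∀ w a, f2Mon ι t e w * ι a ∈ S := fun w a => AddSubmonoid.subset_closure ⟨(w, a), rfl⟩
  have hmul : ∀ y : T, (∀ w a, f2Mon ι t e w * ι a * y ∈ S) → ∀ x ∈ S, x * y ∈ S := by
    intro y hy x hx
    induction hx using AddSubmonoid.closure_induction with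
    | mem x hx => obtain ⟨p, rfl⟩ := hx; exact hy _ _
    | zero => rw [zero_mul]; exact S.zero_mem
    | add x y _ _ h1 h2 => rw [add_mul]; exact S.add_mem h1 h2
  have hx : x ∈ S := by
    refine hT.gens.right (P := fun x => x ∈ S) ?_ (fun x y => S.add_mem) (fun a => hmul _ ?_)
      (fun _ => hmul _ ?_) x
    · simpa [f2Mon] using hm [] 1
    · intro w a'
      rw [mul_assoc, ← map_mul]; exact hm _ _
    · intro w a
      rw [← e.linearCombination_repr a, Finsupp.linearCombination_apply, Finsupp.sum, map_sum,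
        Finset.mul_sum, Finset.sum_mul]
      refine S.sum_mem fun i _ => ?_
      have := hm (i :: w) (algebraMap F A (e.repr a i))
      rw [AlgHom.commutes, ← Algebra.commutes, ← Algebra.smul_def] at this
      simpa [f2Mon] using this
  induction hx using AddSubmonoid.closure_induction with
  | mem x hx =>
    obtain ⟨p, rfl⟩ := hx
    exact ⟨Finsupp.single p.1 p.2, by simp⟩
  | zero => exact ⟨0, by simp⟩
  | add x y _ _ h1 h2 =>
    obtain ⟨n, rfl⟩ := h1
    obtain ⟨n', rfl⟩ := h2
    exact ⟨n + n', (Finsupp.sum_add_index' (by simp) (by simp [mul_add])).symm⟩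

/-- Every element has a tree form. Take a basis `e i` of `A` over `F`, words `w : List _` with
`B [] = 1`, `B (i :: w) = B w * ι (e i) * t`; by `Gens.right`, `x = n.sum fun w a => B w * ι a`
for a finitely supported `n`; the nodes are the suffixes of the words in the support and `[]`. -/
theorem exists_tree (hT : IsFree ι t) (x : T) :
    ∃ (N : Type) (_ : Fintype N) (_ : DecidableEq N) (root : N) (par : N → N) (dep : N → ℕ)
      (lab : N → A) (b : N → T) (n : N → A),
      IsTree ι t root par dep lab b ∧ x = ∑ a, b a * ι (n a) := by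
  classical
  let e := Module.Basis.ofVectorSpace F A
  obtain ⟨n, rfl⟩ := f2_words hT e x
  let S := insert [] (n.support.biUnion fun w => w.tails.toFinset)
  have hS : ∀ w, w ∈ S ↔ w = [] ∨ ∃ v ∈ n.support, w <:+ v := fun w => by
    simp only [S, Finset.mem_insert, Finset.mem_biUnion, List.mem_toFinset, List.mem_tails]
  have htail : ∀ w ∈ S, w.tail ∈ S := by
    intro w hw
    rw [hS] at hw ⊢
    rcases hw with rfl | ⟨v, hv, h⟩
    · exact Or.inl rfl
    · exact Or.inr ⟨v, hv, (List.tail_suffix w).trans h⟩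
  refine ⟨S, inferInstance, inferInstance, ⟨[], (hS _).2 (Or.inl rfl)⟩,
    fun w => ⟨w.1.tail, htail _ w.2⟩, fun w => w.1.length, fun w => f2Lab e w.1,
    fun w => f2Mon ι t e w.1, fun w => n w.1, ⟨rfl, ?_, rfl, ?_, ?_⟩, ?_⟩
  · rintro ⟨_ | ⟨i, w⟩, hw⟩ h
    · exact absurd rfl h
    · rfl
  · rintro ⟨_ | ⟨i, w⟩, hw⟩ h
    · exact absurd rfl h
    · rfl
  · rintro p c hc ⟨_ | ⟨i, w⟩, hw⟩ h hp
    · exact absurd rfl h
    have h1 := congrArg (fun z => e.repr z i) hc
    simp only [map_sum, map_smul, Finsupp.finsetSum_apply, Finsupp.smul_apply, map_zero,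
      Finsupp.zero_apply] at h1
    rw [Finset.sum_eq_single ⟨i :: w, hw⟩] at h1
    · simpa [f2Lab] using h1
    · rintro ⟨_ | ⟨i', w'⟩, hw'⟩ h2 h3
      · simp at h2
      · have h4 : w' = w := congrArg Subtype.val ((Finset.mem_filter.1 h2).2.2.trans hp.symm)
        subst h4
        have h5 : i' ≠ i := fun h5 => h3 (by subst h5; rfl)
        simp [f2Lab, h5]
    · intro h2
      exact absurd (Finset.mem_filter.2 ⟨Finset.mem_univ _, h, hp⟩) h2
  · rw [Finsupp.sum_of_support_subset n (s := S)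
      (fun w hw => (hS w).2 (Or.inr ⟨w, hw, List.suffix_refl w⟩)) _ (by simp)]
    exact (Finset.sum_coe_sort S fun w => f2Mon ι t e w * ι (n w)).symm

/-- the rules of a derivation relation modulo `J` -/
structure DerSys (I : Ideal A) (ι : A →ₐ[F] T) (J : Ideal A) (Der : T → T → Prop) : Prop where
  trans : ∀ x y z, Der x y → Der y z → Der x z
  map : ∀ θ : T →ₐ[F] T, (∀ a, θ (ι a) = ι a) → ∀ x y, Der x y → Der (θ x) (θ y)
  base : ∀ n ∉ J, ∀ j ∈ J.map ι, Der (ι n + j) 1
  kill : ∀ (W : Type) [Fintype W] (n : W → A) (w₀ : W), n w₀ ∉ J →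
    ∀ V : Submodule F (A ⧸ I), FiniteDimensional F V →
      ∃ (κ : Type) (_ : Fintype κ) (δ : κ → A) (k₀ : κ) (η : W × κ → A), Ind V η ∧
        (∀ w, ∑ k, η (w, k) * n w * δ k ∈ J) ∧ n w₀ * δ k₀ ∉ J ∧ (∀ k, ∀ j ∈ J, j * δ k ∈ J) ∧
        ∀ (x : T) (τ : κ → T), ∀ j ∈ J.map ι, Der x (∑ k, τ k * x * ι (δ k) + j)

theorem f2_map_mem {J : Ideal A} (θ : T →ₐ[F] T) (hθ : ∀ a, θ (ι a) = ι a) {j : T}
    (hj : j ∈ J.map ι) : θ j ∈ J.map ι := by
  induction hj using Submodule.span_induction with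
  | mem x hx => obtain ⟨a, ha, rfl⟩ := hx; rw [hθ]; exact Ideal.mem_map_of_mem _ ha
  | zero => rw [map_zero]; exact Ideal.zero_mem _
  | add x y _ _ h1 h2 => rw [map_add]; exact Ideal.add_mem _ h1 h2
  | smul c x _ h1 => rw [smul_eq_mul, map_mul]; exact Ideal.mul_mem_left _ _ h1

theorem f2_line (h1 : (1 : A) ≠ 0) (D : ℕ) :
    IsTree ι t (0 : Fin (D + 1)) (fun i => ⟨i.1 - 1, by omega⟩) (fun i => i.1) (fun _ => 1)
      fun i => t ^ i.1 := by
  refine ⟨rfl, fun a ha => ?_, by simp, fun a ha => ?_, fun p c hc a ha hp => ?_⟩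
  · have : a.1 ≠ 0 := fun h => ha (Fin.ext h)
    simp only; omega
  · have : a.1 ≠ 0 := fun h => ha (Fin.ext h)
    simp only [map_one, mul_one, ← pow_succ]
    congr 1; omega
  · rw [Finset.sum_eq_single a] at hc
    · exact (smul_eq_zero.1 hc).resolve_right h1
    · intro a' h2 h3
      obtain ⟨-, h4, h5⟩ := Finset.mem_filter.1 h2
      have h6 : a'.1 ≠ 0 := fun h => h4 (Fin.ext h)
      have h7 : a.1 ≠ 0 := fun h => ha (Fin.ext h)
      have h8 : a'.1 - 1 = a.1 - 1 := congrArg Fin.val (h5.trans hp.symm)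
      exact absurd (Fin.ext (by omega)) h3
    · intro h2
      exact absurd (Finset.mem_filter.2 ⟨Finset.mem_univ _, ha, hp⟩) h2

/-- one step of the degree reduction -/
theorem f2_step {J : Ideal A} {Der : T → T → Prop} (hA : Good F M) (hI : NS M I)
    (hT : IsFree ι t) (hD : DerSys I ι J Der) (hr : Wit I ι t r) {N : Type} [Fintype N]
    [DecidableEq N] {root : N} {par : N → N} {dep : N → ℕ} {lab : N → A} {b : N → T}
    (hb : IsTree ι t root par dep lab b) (n : N → A) {D : ℕ} (hn : ∀ a, n a ∉ J → dep a ≤ D + 1)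
    {a₀ : N} (h0 : n a₀ ∉ J) (hd0 : dep a₀ = D + 1) {j : T} (hj : j ∈ J.map ι) :
    ∃ θ : T →ₐ[F] T, (∀ a, θ (ι a) = ι a) ∧ Wit I ι t (θ r) ∧
      ∃ m : Fin (D + 1) → A, m (Fin.last D) ∉ J ∧ ∃ j' ∈ J.map ι,
        Der (θ (∑ a, b a * ι (n a) + j)) (∑ i : Fin (D + 1), t ^ i.1 * ι (m i) + j') := by
  classical
  obtain ⟨V, hV, hsub⟩ := hr.subst hA.fr hT
  obtain ⟨κ, _, δ, k₀, η, hη, hk1, hk2, hk3, hk4⟩ := hD.kill N n a₀ h0 V hV
  obtain ⟨x, y, hxy⟩ := hA.fr.of_countable (N × κ)
  have hli : LinearIndependent F fun q : {a // a ≠ root} × κ => x (par q.1.1, q.2) * lab q.1.1 := by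
    rw [Fintype.linearIndependent_iff]
    rintro c hc ⟨⟨a, ha⟩, k⟩
    have h1 := congrArg (y (par a, k) * ·) hc
    simp only [Finset.mul_sum, mul_smul_comm, ← mul_assoc, hxy, mul_zero] at h1
    have h2 := hb.indep (par a) (fun a' => if h : a' ≠ root then c (⟨a', h⟩, k) else 0) ?_ a ha rfl
    · simpa [ha] using h2
    rw [← h1, Fintype.sum_prod_type, Finset.sum_filter,
      ← Finset.sum_subtype_of_mem (s := Finset.univ.filter (· ≠ root)) (p := (· ≠ root))
        (f := fun a' => if a' ≠ root ∧ par a' = par a then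
          (if h : a' ≠ root then c (⟨a', h⟩, k) else 0) • lab a' else 0) (by simp) |>.trans
        (Finset.sum_subset (Finset.subset_univ _) (by simp +contextual))]
    refine Finset.sum_congr (by ext z; simpa using z.2) ?_
    rintro ⟨a', ha'⟩ -
    rw [Finset.sum_eq_single k]
    · by_cases h : par a' = par a
      · simp [h, ha']
      · simp [h, Ne.symm h]
    · intro k' _ hk'
      simp [Ne.symm hk']
    · simp
  let V' : Submodule F (A ⧸ I) := ⨆ q : N × κ, V.map (DistribSMul.toLinearMap F (A ⧸ I) (x q))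
  obtain ⟨ζ, a', hζ, hζV⟩ := hA.cli hI.quot V' hli
  have hind : Ind V fun q : N × κ => ζ * x q := by
    intro v hv hs q
    have h1 : ∑ q, x q • v q = 0 := by
      refine hζV _ (Submodule.sum_mem _ fun q _ => Submodule.mem_iSup_of_mem q ⟨v q, hv q, rfl⟩) ?_
      simpa only [Finset.smul_sum, mul_smul] using hs
    have h2 := congrArg (y q • ·) h1
    simpa [Finset.smul_sum, smul_smul, hxy] using h2
  obtain ⟨x', hx'⟩ := Ind.sum hA.fr hind hη
  let g : N → A := fun a => ∑ k, ζ * x (a, k) * (n a * δ k)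
  obtain ⟨μ, hμ⟩ : ∃ μ : A, (∑ a, if dep a = D then g a else 0) + μ * (n a₀ * δ k₀) ∉ J := by
    by_contra hc
    push Not at hc
    exact hk2 (by simpa using J.sub_mem (hc 1) (hc 0))
  let Γ : N × κ → A := fun q => if dep q.1 = D + 1 then x' * η q else ζ * x q
  let c : N × κ → A := fun q => if q = (a₀, k₀) then μ else 0
  have hΓ : Ind V fun q : {a // a ≠ root} × κ => Γ (q.1.1, q.2) := by
    have := hx'.comp (fun q : {a // a ≠ root} × κ =>
      if dep q.1.1 = D + 1 then Sum.inr (q.1.1, q.2) else Sum.inl (q.1.1, q.2)) (by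
        rintro ⟨⟨a, ha⟩, k⟩ ⟨⟨a₁, ha₁⟩, k₁⟩ h
        dsimp only at h
        split_ifs at h <;> simp_all)
    convert this using 1
    funext q
    simp only [Γ, Function.comp]
    split_ifs <;> rfl
  obtain ⟨θ, hθ, hθr, hθt⟩ := hsub ({a // a ≠ root} × κ)
    (fun q => ζ * (x (par q.1.1, q.2) * lab q.1.1)) a' _ (fun q => c (q.1.1, q.2)) hζ hΓ
  have hstep : ∀ a k, a ≠ root →
      ι (ζ * x (root, k)) * θ (b (par a)) = t ^ dep (par a) * ι (ζ * x (par a, k)) →
      ι (ζ * x (root, k)) * θ (b a) = t ^ dep (par a) * (t * ι (Γ (a, k)) + ι (c (a, k))) := by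
    intro a k ha h
    rw [← hθt (⟨a, ha⟩, k), hb.b_par a ha, map_mul θ, map_mul θ, hθ, ← mul_assoc, ← mul_assoc, h]
    simp only [map_mul, mul_assoc]
  have hlow : ∀ k d a, dep a = d → d ≤ D →
      ι (ζ * x (root, k)) * θ (b a) = t ^ dep a * ι (ζ * x (a, k)) := by
    intro k d
    induction d with
    | zero =>
      intro a ha _
      have : a = root := by
        by_contra h
        have := hb.dep_par a h
        omega
      subst this
      simp [hb.b_root, ha]
    | succ d ih =>
      intro a ha hd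
      have h1 : a ≠ root := by rintro rfl; rw [hb.dep_root] at ha; omega
      have h2 := hb.dep_par a h1
      have h3 : a ≠ a₀ := by rintro rfl; omega
      rw [hstep a k h1 (ih _ (by omega) (by omega)), h2, pow_succ]
      simp only [Γ, c, if_neg (show ¬dep a = D + 1 by omega), Prod.mk.injEq, h3, false_and,
        if_false, map_zero, add_zero, mul_assoc]
  have hterm : ∀ a, ∑ k, ι (ζ * x (root, k)) * θ (b a) * ι (n a * δ k) -
      ((if dep a ≤ D then t ^ dep a * ι (g a) else 0) +
        if a = a₀ then t ^ D * ι (μ * (n a₀ * δ k₀)) else 0) ∈ J.map ι := by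
    intro a
    rcases lt_trichotomy (dep a) (D + 1) with h | h | h
    · have h3 : a ≠ a₀ := by rintro rfl; omega
      rw [if_pos (by omega), if_neg h3, add_zero]
      have h4 := fun k => hlow k _ a rfl (by omega)
      simp only [h4]
      simp only [g, map_sum, Finset.mul_sum, mul_assoc, map_mul, sub_self]
      exact Ideal.zero_mem _
    · have h1 : a ≠ root := by rintro rfl; rw [hb.dep_root] at h; omega
      have h2 := hb.dep_par a h1
      have h3 : dep (par a) = D := by omega
      have h4 : ∀ k, ι (ζ * x (root, k)) * θ (b a) * ι (n a * δ k) =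
          t ^ D * t * ι x' * ι (η (a, k) * n a * δ k) + t ^ D * ι (c (a, k) * (n a * δ k)) := by
        intro k
        rw [hstep a k h1 (hlow _ _ _ h3 le_rfl), h3]
        simp only [Γ, if_pos h, map_mul, mul_add, add_mul, mul_assoc]
      have h5 : ∑ k, t ^ D * ι (c (a, k) * (n a * δ k)) =
          if a = a₀ then t ^ D * ι (μ * (n a₀ * δ k₀)) else 0 := by
        split_ifs with h5
        · subst h5
          rw [Finset.sum_eq_single k₀]
          · simp [c]
          · intro k _ hk; simp [c, hk]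
          · simp
        · simp [c, h5]
      rw [if_neg (by omega), zero_add]
      simp only [h4, Finset.sum_add_distrib, h5, add_sub_cancel_right, ← Finset.mul_sum,
        ← map_sum]
      exact Ideal.mul_mem_left _ _ (Ideal.mem_map_of_mem _ (hk1 a))
    · have h3 : a ≠ a₀ := by rintro rfl; omega
      have h4 : n a ∈ J := by
        by_contra h4
        have := hn a h4
        omega
      rw [if_neg (by omega), if_neg h3, add_zero, sub_zero]
      exact Ideal.sum_mem _ fun k _ =>
        Ideal.mul_mem_left _ _ (Ideal.mem_map_of_mem _ (hk3 k _ h4))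
  let m : Fin (D + 1) → A := fun i => (∑ a, if dep a = i.1 then g a else 0) +
    if i = Fin.last D then μ * (n a₀ * δ k₀) else 0
  have hm : ∑ i : Fin (D + 1), t ^ i.1 * ι (m i) =
      ∑ a, ((if dep a ≤ D then t ^ dep a * ι (g a) else 0) +
        if a = a₀ then t ^ D * ι (μ * (n a₀ * δ k₀)) else 0) := by
    simp only [m, map_add, mul_add, Finset.sum_add_distrib, map_sum, Finset.mul_sum]
    congr 1
    · rw [Finset.sum_comm]
      refine Finset.sum_congr rfl fun a _ => ?_
      split_ifs with h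
      · rw [Finset.sum_eq_single (⟨dep a, by omega⟩ : Fin (D + 1))]
        · simp
        · intro i _ hi
          rw [if_neg fun h' => hi (Fin.ext h'.symm), map_zero, mul_zero]
        · simp
      · refine Finset.sum_eq_zero fun i _ => ?_
        rw [if_neg (by have := i.2; omega), map_zero, mul_zero]
    · rw [Finset.sum_eq_single (Fin.last D)]
      · simp
      · intro i _ hi; simp [hi]
      · simp
  refine ⟨θ, hθ, hθr, m, by simpa [m] using hμ,
    ∑ k, ι (ζ * x (root, k)) * θ (∑ a, b a * ι (n a) + j) * ι (δ k) + 0 -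
      ∑ i : Fin (D + 1), t ^ i.1 * ι (m i), ?_, ?_⟩
  · have e : ∑ k, ι (ζ * x (root, k)) * θ (∑ a, b a * ι (n a) + j) * ι (δ k) =
        ∑ a, ∑ k, ι (ζ * x (root, k)) * θ (b a) * ι (n a * δ k) +
          ∑ k, ι (ζ * x (root, k)) * (θ j * ι (δ k)) := by
      rw [Finset.sum_comm, ← Finset.sum_add_distrib]
      refine Finset.sum_congr rfl fun k _ => ?_
      simp only [map_add, map_sum, map_mul θ, hθ, map_mul ι (n _), mul_add, add_mul,
        Finset.mul_sum, Finset.sum_mul, mul_assoc]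
    rw [add_zero, e, hm, add_sub_right_comm, ← Finset.sum_sub_distrib]
    refine Ideal.add_mem _ (Ideal.sum_mem _ fun a _ => hterm a) (Ideal.sum_mem _ fun k _ =>
      Ideal.mul_mem_left _ _ (map_mul_mem ι J _ _ (fun i hi => ?_) _ (f2_map_mem θ hθ hj)))
    rw [← map_mul]
    exact Ideal.mem_map_of_mem _ (hk3 k i hi)
  · rw [add_sub_cancel]
    exact hk4 _ _ 0 (Ideal.zero_mem _)

theorem f2_ind {J : Ideal A} {Der : T → T → Prop} (hA : Good F M) (hI : NS M I)
    (hT : IsFree ι t) (hD : DerSys I ι J Der) (D : ℕ) :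
    ∀ (r : T), Wit I ι t r → ∀ (N : Type) [Fintype N] [DecidableEq N] (root : N) (par : N → N)
      (dep : N → ℕ) (lab : N → A) (b : N → T), IsTree ι t root par dep lab b →
      ∀ n : N → A, (∃ a, n a ∉ J) → (∀ a, n a ∉ J → dep a ≤ D) → ∀ j ∈ J.map ι,
        ∃ θ : T →ₐ[F] T, (∀ a, θ (ι a) = ι a) ∧ Wit I ι t (θ r) ∧
          Der (θ (∑ a, b a * ι (n a) + j)) 1 := by
  induction D with
  | zero =>
    intro r hr N _ _ root par dep lab b hb n ⟨a₀, h0⟩ hn j hj
    have h1 : ∀ a, a ≠ root → n a ∈ J := fun a ha => by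
      by_contra h
      have := hn a h
      have := hb.dep_par a ha
      omega
    have h2 : a₀ = root := by
      by_contra h
      exact h0 (h1 _ h)
    subst h2
    refine ⟨AlgHom.id F T, fun _ => rfl, hr, ?_⟩
    rw [AlgHom.id_apply, ← Finset.add_sum_erase _ _ (Finset.mem_univ a₀), hb.b_root, one_mul,
      add_assoc]
    exact hD.base _ h0 _ (Ideal.add_mem _ (Ideal.sum_mem _ fun a ha => Ideal.mul_mem_left _ _
      (Ideal.mem_map_of_mem _ (h1 a (Finset.ne_of_mem_erase ha)))) hj)
  | succ D ih =>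
    intro r hr N _ _ root par dep lab b hb n hn0 hn j hj
    by_cases h : ∃ a, n a ∉ J ∧ dep a = D + 1
    · obtain ⟨a₀, h0, hd0⟩ := h
      obtain ⟨θ, hθ, hθr, m, hm, j', hj', hder⟩ := f2_step hA hI hT hD hr hb n hn h0 hd0 hj
      have h1 : (1 : A) ≠ 0 := fun h1 => hA.pt.1.1 (h1 ▸ M.zero_mem)
      obtain ⟨θ', hθ', hθr', hder'⟩ := ih _ hθr _ _ _ _ _ _ (f2_line h1 D) m ⟨_, hm⟩
        (fun i _ => Nat.lt_succ_iff.1 i.2) j' hj'
      exact ⟨θ'.comp θ, fun a => by simp [hθ, hθ'], hθr',
        hD.trans _ _ _ (hD.map θ' hθ' _ _ hder) hder'⟩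
    · push Not at h
      exact ih r hr N root par dep lab b hb n hn0
        (fun a ha => Nat.lt_succ_iff.1 ((hn a ha).lt_of_ne (h a ha))) j hj

/-- Degree reduction. Induction on a bound `D` for the depths of the nodes with `n a ∉ J`
(statement with an extra summand `j ∈ J.map ι`). Let `a₀` have maximal depth `D` among them.
`D = 0`: `base`, `θ = id`. `D > 0`: `V` from `Wit.subst`, `κ, δ, k₀, η` from `kill`; frames
`x (a, k)`; `ζ` from `Good.cli` for the independent family `x (par a, k) * lab a` (`a ≠ root`)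
and `V' = ∑ x (a, k) V`; `Γ (a, k) = x' η (a, k)` if `dep a = D`, else `ζ x (a, k)` (`x'` from
`Ind.sum`, then `Ind.comp`); probes `ξ (a, k) = ζ x (par a, k) lab a` for `a ≠ root`, constants
`c (a, k) = μ` if `(a, k) = (a₀, k₀)`, else `0`. Then `Γ (root, k) θ (b a) = t ^ dep a Γ (a, k)`
for `dep a < D` and `= t ^ (D - 1) (t Γ (a, k) + c (a, k))` for `dep a = D`, so
`∑ k, Γ (root, k) θ x δ k = ∑ i < D, t ^ i m i + j'` with `m (D - 1) ∉ J` for `μ = 0` or `1`.
This is a tree on `Fin D` with labels `1`. -/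
theorem reduce {J : Ideal A} {Der : T → T → Prop} (hA : Good F M) (hI : NS M I) (hT : IsFree ι t)
    (hD : DerSys I ι J Der) (hr : Wit I ι t r) {N : Type} [Fintype N] [DecidableEq N] {root : N}
    {par : N → N} {dep : N → ℕ} {lab : N → A} {b : N → T} (hb : IsTree ι t root par dep lab b)
    (n : N → A) (hn : ∃ a, n a ∉ J) :
    ∃ θ : T →ₐ[F] T, (∀ a, θ (ι a) = ι a) ∧ Wit I ι t (θ r) ∧
      Der (θ (∑ a, b a * ι (n a))) 1 := by
  have := f2_ind hA hI hT hD (Finset.univ.sup dep) r hr N root par dep lab b hb n hn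
    (fun a _ => Finset.le_sup (Finset.mem_univ a)) 0 (Ideal.zero_mem _)
  rwa [add_zero] at this

end Pool.Agent.Lib.MP_57313b_al.Dia
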