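import Pool.Agent.Lib.MP_57313b_al.Dia.Kit
import Pool.Agent.Lib.MP_57313b_al.Dia.Alg1

/-! Module theory for internal modules, seen from outside. Partial homomorphisms are treated as
graphs: submodules of a product. -/

namespace Pool.Agent.Lib.MP_57313b_al.Dia

universe u v w

set_option synthInstance.maxSize 4000

variable {M : Type u} (E : M → M → Prop) [Kit E] (R : Type v) [Ring R] [Obj E R] [IAdd E R]
  [IMul E R]

section
variable {N : Type w} [AddCommGroup N] [Module R N] [Obj E N] [IAdd E N] [ISMul E R N]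

/-- Baer's criterion for internal graphs with values in `W` -/
def Baer (W : Submodule R N) : Prop :=
  ∀ Γ : Submodule R (R × N), ISet E (Γ : Set (R × N)) → (∀ n, (0, n) ∈ Γ → n = 0) →
    (∀ p ∈ Γ, p.2 ∈ W) → ∃ n₀ ∈ W, ∀ p ∈ Γ, p.2 = p.1 • n₀

variable (N) in
/-- indecomposable with respect to internal submodules -/
def Ind' : Prop :=
  ∀ A C : Submodule R N, ISet E (A : Set N) → ISet E (C : Set N) → IsCompl A C → A = ⊤ ∨ C = ⊤

variable {E R}

/-- Extension. `zorn_sub` in `B × N` with `G = {p | p.2 ∈ W ∧ (p.1 = 0 → p.2 = 0)}`; for `b` use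
`Baer` on `{(r, n) | (r • b, n) ∈ Γ'}` and maximality at `(b, n₀)`. -/
theorem Baer.extend {W : Submodule R N} [ISet E (W : Set N)] (h : Baer E R W) {B : Type*}
    [AddCommGroup B] [Module R B] [Obj E B] [IAdd E B] [ISMul E R B] (Γ : Submodule R (B × N))
    [ISet E (Γ : Set (B × N))] (h1 : ∀ n, (0, n) ∈ Γ → n = 0) (h2 : ∀ p ∈ Γ, p.2 ∈ W) :
    ∃ Γ' : Submodule R (B × N), ISet E (Γ' : Set (B × N)) ∧ Γ ≤ Γ' ∧
      (∀ n, (0, n) ∈ Γ' → n = 0) ∧ (∀ p ∈ Γ', p.2 ∈ W) ∧ ∀ b, ∃ n, (b, n) ∈ Γ' := by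
  obtain ⟨Γ', i1, l1, l2, l3⟩ := zorn_sub (E := E) (R := R)
    {p : B × N | p.2 ∈ W ∧ (p.1 = 0 → p.2 = 0)} Γ (by
      rintro ⟨b, n⟩ hp
      refine ⟨h2 _ hp, fun hb => ?_⟩
      obtain rfl : b = 0 := hb
      exact h1 n hp)
  have f1 : ∀ n, (0, n) ∈ Γ' → n = 0 := fun n hn => (l2 hn).2 rfl
  have f2 : ∀ p ∈ Γ', p.2 ∈ W := fun p hp => (l2 hp).1
  refine ⟨Γ', i1, l1, f1, f2, fun b => ?_⟩
  let Δ : Submodule R (R × N) :=
    { carrier := {p | (p.1 • b, p.2) ∈ Γ'}
      add_mem' := fun {p q} hp hq => by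
        have := Γ'.add_mem hp hq
        simpa [add_smul] using this
      zero_mem' := by
        change ((0 : R) • b, (0 : N)) ∈ Γ'
        rw [zero_smul]
        exact Γ'.zero_mem
      smul_mem' := fun r p hp => by
        have := Γ'.smul_mem r hp
        simpa [mul_smul] using this }
  have iΔ : ISet E (Δ : Set (R × N)) :=
    ISet.of_mem_iff Δ (fun p => (p.1 • b, p.2) ∈ Γ') fun _ => Iff.rfl
  obtain ⟨n₀, hn₀, hn⟩ := h Δ iΔ (fun n hn => f1 n (by
    have : ((0 : R) • b, n) ∈ Γ' := hn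
    simpa using this)) (fun p hp => f2 (p.1 • b, p.2) hp)
  refine ⟨n₀, ?_⟩
  by_contra hb
  obtain ⟨a, ha, r, hr⟩ := l3 _ hb
  refine hr ⟨W.add_mem (f2 a ha) (W.smul_mem r hn₀), fun h0 => ?_⟩
  have h0' : a.1 + r • b = 0 := h0
  have e : r • b = -a.1 := eq_neg_of_add_eq_zero_right h0'
  have hm : (r, -a.2) ∈ Δ := by
    change (r • b, -a.2) ∈ Γ'
    rw [e]
    exact Γ'.neg_mem ha
  have := hn _ hm
  change a.2 + r • n₀ = 0
  simp only at this
  rw [← this, add_neg_cancel]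

/-- A maximal essential extension `W` of `S₀` (`zorn_sub` with
`G = {e | e = 0 ∨ ∃ r, r • e ∈ S₀ ∧ r • e ≠ 0}`) satisfies `Baer`: enlarge the graph to a maximal
graph `Γ'` with values in `W` (`zorn_sub`), get `y` from `Baer ⊤`; if `y ∉ W` some
`e + r • y ∉ G`. If `s • (e + r • y) ∈ W` then it is `0` (else a multiple lies in `S₀ \ 0`).
So `(r, -e)` can be added to `Γ'`, hence lies in it, `r • y = -e`, contradiction. -/
theorem Baer.ess (h : Baer E R (⊤ : Submodule R N)) (S₀ : Submodule R N) [ISet E (S₀ : Set N)] :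
    ∃ W : Submodule R N, ISet E (W : Set N) ∧ S₀ ≤ W ∧ Baer E R W ∧
      ∀ e ∈ W, e ≠ 0 → ∃ r : R, r • e ∈ S₀ ∧ r • e ≠ 0 := by
  obtain ⟨W, i1, l1, l2, l3⟩ := zorn_sub (E := E) (R := R)
    {e : N | e = 0 ∨ ∃ r : R, r • e ∈ S₀ ∧ r • e ≠ 0} S₀ (by
      intro e he
      by_cases h0 : e = 0
      · exact Or.inl h0
      · exact Or.inr ⟨1, by simpa using he, by simpa using h0⟩)
  have ess : ∀ e ∈ W, e ≠ 0 → ∃ r : R, r • e ∈ S₀ ∧ r • e ≠ 0 :=
    fun e he h0 => (l2 he).resolve_left h0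
  refine ⟨W, i1, l1, fun Γ iΓ h1 h2 => ?_, ess⟩
  obtain ⟨Γ', j1, m1, m2, m3⟩ := zorn_sub (E := E) (R := R)
    {p : R × N | p.2 ∈ W ∧ (p.1 = 0 → p.2 = 0)} Γ (by
      rintro ⟨b, n⟩ hp
      refine ⟨h2 _ hp, fun hb => ?_⟩
      obtain rfl : b = 0 := hb
      exact h1 n hp)
  obtain ⟨y, -, hy⟩ := h Γ' j1 (fun n hn => (m2 hn).2 rfl) fun _ _ => Submodule.mem_top
  refine ⟨y, ?_, fun p hp => hy p (m1 hp)⟩
  by_contra hyW
  obtain ⟨e, he, r, hr⟩ := l3 y hyW
  have hr0 : e + r • y ≠ 0 := fun h0 => hr (Or.inl h0)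
  have key : ∀ s : R, s • (e + r • y) ∈ W → s • (e + r • y) = 0 := by
    intro s hs
    by_contra h0
    obtain ⟨t, t1, t2⟩ := ess _ hs h0
    exact hr (Or.inr ⟨t * s, by rwa [mul_smul], by rwa [mul_smul]⟩)
  have hm : (r, -e) ∈ Γ' := by
    by_contra hm
    obtain ⟨a, ha, s, hs⟩ := m3 _ hm
    refine hs ⟨W.add_mem (m2 ha).1 (W.smul_mem s (W.neg_mem he)), fun h0 => ?_⟩
    have h0' : a.1 + s * r = 0 := h0
    have e1 : a.1 = -(s * r) := eq_neg_of_add_eq_zero_left h0'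
    have e2 : s • (e + r • y) = s • e - a.2 := by
      rw [hy a ha, e1, smul_add, neg_smul, mul_smul, sub_neg_eq_add]
    have e3 := key s (by
      rw [e2]
      exact W.sub_mem (W.smul_mem s he) (m2 ha).1)
    change a.2 + s • -e = 0
    rw [e2, sub_eq_zero] at e3
    rw [smul_neg, e3, add_neg_cancel]
  have := hy _ hm
  simp only at this
  exact hr0 (by rw [← this, add_neg_cancel])

theorem Baer.subtype {W : Submodule R N} [ISet E (W : Set N)] (h : Baer E R W) :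
    Baer E R (⊤ : Submodule R W) := by
  intro Γ iΓ h1 _
  let Δ : Submodule R (R × N) :=
    { carrier := {p | ∃ w : W, (p.1, w) ∈ Γ ∧ w.1 = p.2}
      add_mem' := by
        rintro p q ⟨w, hw, e⟩ ⟨w', hw', e'⟩
        exact ⟨w + w', Γ.add_mem hw hw', by simp [e, e']⟩
      zero_mem' := ⟨0, Γ.zero_mem, rfl⟩
      smul_mem' := by
        rintro r p ⟨w, hw, e⟩
        exact ⟨r • w, Γ.smul_mem r hw, by simp [e]⟩ }
  have iΔ : ISet E (Δ : Set (R × N)) :=
    ISet.of_mem_iff Δ (fun p => ∃ w : W, (p.1, w) ∈ Γ ∧ w.1 = p.2) fun _ => Iff.rfl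
  obtain ⟨n₀, hn₀, hn⟩ := h Δ iΔ (by
    rintro n ⟨w, hw, e⟩
    rw [h1 w hw] at e
    exact e.symm) (by
    rintro p ⟨w, -, e⟩
    exact e ▸ w.2)
  exact ⟨⟨n₀, hn₀⟩, Submodule.mem_top, fun p hp =>
    Subtype.ext (hn (p.1, p.2.1) ⟨p.2, hp, rfl⟩)⟩

/-- `W` from `Baer.ess` for `R x`; extend the identity of `W` to `N` (`Baer.extend`); its kernel
is a complement of `W`, so `W = ⊤` -/
theorem Baer.unif (h : Baer E R (⊤ : Submodule R N)) (h' : Ind' E R N) {x y : N} (hx : x ≠ 0)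
    (hy : y ≠ 0) : ∃ a b : R, a • x = b • y ∧ a • x ≠ 0 := by
  have i0 : ISet E ((Submodule.span R {x} : Submodule R N) : Set N) :=
    ISet.of_mem_iff _ (fun n => ∃ r : R, r • x = n) fun _ => Submodule.mem_span_singleton
  obtain ⟨W, i1, l1, l2, l3⟩ := h.ess (Submodule.span R {x})
  let Γ : Submodule R (N × N) :=
    { carrier := {p | p.1 ∈ W ∧ p.2 = p.1}
      add_mem' := by
        rintro p q ⟨hp, e⟩ ⟨hq, e'⟩
        exact ⟨W.add_mem hp hq, by simp [e, e']⟩
      zero_mem' := ⟨W.zero_mem, rfl⟩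
      smul_mem' := by
        rintro r p ⟨hp, e⟩
        exact ⟨W.smul_mem r hp, by simp [e]⟩ }
  have iΓ : ISet E (Γ : Set (N × N)) :=
    ISet.of_mem_iff Γ (fun p => p.1 ∈ W ∧ p.2 = p.1) fun _ => Iff.rfl
  obtain ⟨Γ', j1, m1, m2, m3, m4⟩ := l2.extend Γ (fun n hn => hn.2)
    fun p hp => hp.2 ▸ hp.1
  let C : Submodule R N :=
    { carrier := {n | (n, 0) ∈ Γ'}
      add_mem' := fun {p q} hp hq => by
        have := Γ'.add_mem hp hq
        simpa using this
      zero_mem' := Γ'.zero_mem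
      smul_mem' := fun r p hp => by
        have := Γ'.smul_mem r hp
        simpa using this }
  have iC : ISet E (C : Set N) := ISet.of_mem_iff C (fun n => (n, 0) ∈ Γ') fun _ => Iff.rfl
  have dj : ∀ n ∈ W, n ∈ C → n = 0 := by
    intro n hn hn'
    have a1 : (n, n) ∈ Γ' := m1 (show (n, n) ∈ Γ from ⟨hn, rfl⟩)
    have a2 : (n, 0) ∈ Γ' := hn'
    have := Γ'.sub_mem a1 a2
    exact m2 n (by simpa using this)
  have hc : IsCompl W C := by
    refine ⟨Submodule.disjoint_def.mpr dj, codisjoint_iff.mpr (eq_top_iff.mpr fun n _ => ?_)⟩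
    obtain ⟨w, hw⟩ := m4 n
    have hw' : w ∈ W := m3 _ hw
    have a1 : (w, w) ∈ Γ' := m1 (show (w, w) ∈ Γ from ⟨hw', rfl⟩)
    have a2 : n - w ∈ C := by
      have := Γ'.sub_mem hw a1
      change (n - w, 0) ∈ Γ'
      simpa using this
    exact Submodule.mem_sup.mpr ⟨w, hw', n - w, a2, by abel⟩
  rcases h' W C i1 iC hc with e | e
  · obtain ⟨b, b1, b2⟩ := l3 y (e ▸ Submodule.mem_top) hy
    obtain ⟨a, ha⟩ := Submodule.mem_span_singleton.mp b1
    exact ⟨a, b, ha, ha ▸ b2⟩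
  · exact absurd (dj x (l1 (Submodule.mem_span_singleton_self x)) (e ▸ Submodule.mem_top)) hx

end

variable {E R}

/-- For `x ∉ I` let `J` be a maximal internal left ideal containing `{b | b * x ∈ I}`
(`zorn_sub` with `G = {x | x ≠ 1}`); `star` for `J` (`Mx.unif`) and `Mx.exists_inv` give
`Det P I`. -/
theorem star_all {P : Ideal R} (hP : Mx P)
    (star : ∀ I : Ideal R, ISet E (I : Set R) → 1 ∉ I → Unif I → Mx I ∨ Det P I → ¬ NS P I)
    (I : Ideal R) [ISet E (I : Set R)] (h1 : 1 ∉ I) (hI : Unif I) : ¬ NS P I := by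
  refine star I inferInstance h1 hI (Or.inr fun x hx => ?_)
  let K : Ideal R :=
    { carrier := {b | b * x ∈ I}
      add_mem' := fun {p q} hp hq => by
        have := I.add_mem hp hq
        simpa [add_mul] using this
      zero_mem' := by simp
      smul_mem' := fun r p hp => by
        have := I.mul_mem_left r hp
        simpa [mul_assoc] using this }
  have iK : ISet E (K : Set R) := ISet.of_mem_iff K (fun b => b * x ∈ I) fun _ => Iff.rfl
  obtain ⟨J, i1, l1, l2, l3⟩ := zorn_sub (E := E) (R := R) {z : R | z ≠ 1} K (by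
    rintro z hz rfl
    exact hx (by simpa using (show 1 * x ∈ I from hz)))
  have hJ : Mx J := by
    refine ⟨fun h => l2 h rfl, fun w hw => ?_⟩
    obtain ⟨a, ha, r, hr⟩ := l3 w hw
    have e : a + r * w = 1 := not_not.mp hr
    refine ⟨r, ?_⟩
    have e' : r * w - 1 = -a := by rw [← e]; abel
    rw [e']
    exact J.neg_mem ha
  have hn := star J i1 hJ.1 hJ.unif (Or.inl hJ)
  unfold NS at hn
  push Not at hn
  obtain ⟨y, y1, y2⟩ := hn
  obtain ⟨v, v1, v2⟩ := hJ.exists_inv hP y2 y1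
  exact ⟨v, v1, fun c hc => v2 c (l1 (show c ∈ K from hc))⟩

/-- Uniqueness. For `x ≠ 0` in `N`, `I = {r | r • x = 0}` is uniform (`Baer.unif`), so some
`s = y • x ≠ 0` is killed by `P`. Extend the graph `{(r • s, r • d)}` to `N × H`; it is injective
since `R s` is essential in `N`; for `h ∈ H` apply `Baer` of `N` to
`{(r, n) | (n, r • h) ∈ Γ}`, get `n₀`, `(n₀, h') ∈ Γ`; if `h ≠ h'` then `r • (h - h') = d`. -/
theorem exists_iso {P : Ideal R} (hP : Mx P)
    (star : ∀ I : Ideal R, ISet E (I : Set R) → 1 ∉ I → Unif I → ¬ NS P I)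
    {H : Type*} [AddCommGroup H] [Module R H] [Obj E H] [IAdd E H] [ISMul E R H]
    (hH : Baer E R (⊤ : Submodule R H)) {d : H} (hd : d ≠ 0) (hd' : ∀ m ∈ P, m • d = 0)
    (hd'' : ∀ h : H, h ≠ 0 → ∃ r : R, r • h = d)
    {N : Type*} [AddCommGroup N] [Module R N] [Obj E N] [IAdd E N] [ISMul E R N] [Nontrivial N]
    (hN : Baer E R (⊤ : Submodule R N)) (hN' : Ind' E R N) :
    ∃ Γ : Submodule R (N × H), ISet E (Γ : Set (N × H)) ∧ (∀ h, (0, h) ∈ Γ → h = 0) ∧
      (∀ n, (n, 0) ∈ Γ → n = 0) ∧ (∀ n, ∃ h, (n, h) ∈ Γ) ∧ ∀ h, ∃ n, (n, h) ∈ Γ := by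
  obtain ⟨x, hx⟩ := exists_ne (0 : N)
  let I : Ideal R :=
    { carrier := {r | r • x = 0}
      add_mem' := fun {p q} hp hq => by
        change (p + q) • x = 0
        rw [add_smul, show p • x = 0 from hp, show q • x = 0 from hq, add_zero]
      zero_mem' := zero_smul R x
      smul_mem' := fun r p hp => by
        change (r * p) • x = 0
        rw [mul_smul, show p • x = 0 from hp, smul_zero] }
  have mI : ∀ r, r ∈ I ↔ r • x = 0 := fun _ => Iff.rfl
  have iI : ISet E (I : Set R) := ISet.of_mem_iff I (fun r => r • x = 0) mI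
  have hn := star I iI (by simpa [mI] using hx) (by
    intro u hu v hv
    obtain ⟨a, b, e, e'⟩ := hN.unif hN' (x := u • x) (y := v • x) hu hv
    exact ⟨a, b, by rw [mI, sub_smul, mul_smul, mul_smul, e, sub_self],
      by rwa [mI, mul_smul]⟩)
  unfold NS at hn
  push Not at hn
  obtain ⟨y, y1, y2⟩ := hn
  obtain ⟨s, hs⟩ : ∃ s, s = y • x := ⟨_, rfl⟩
  have s0 : s ≠ 0 := hs ▸ y2
  have s1 : ∀ m ∈ P, m • s = 0 := fun m hm => by rw [hs, ← mul_smul]; exact y1 m hm
  have s2 : ∀ r : R, r • s = 0 → r ∈ P := by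
    intro r hr
    by_contra h
    obtain ⟨z, hz⟩ := hP.2 r h
    have := s1 _ hz
    rw [sub_smul, mul_smul, hr, smul_zero, one_smul, zero_sub, neg_eq_zero] at this
    exact s0 this
  have d2 : ∀ r : R, r • d = 0 → r ∈ P := by
    intro r hr
    by_contra h
    obtain ⟨z, hz⟩ := hP.2 r h
    have := hd' _ hz
    rw [sub_smul, mul_smul, hr, smul_zero, one_smul, zero_sub, neg_eq_zero] at this
    exact hd this
  have i0 : ISet E ((Submodule.span R {(s, d)} : Submodule R (N × H)) : Set (N × H)) :=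
    ISet.of_mem_iff _ (fun p => ∃ r : R, r • (s, d) = p) fun _ => Submodule.mem_span_singleton
  have iT : ISet E ((⊤ : Submodule R H) : Set H) :=
    ISet.of_mem_iff _ (fun _ => True) fun _ => by simp
  obtain ⟨Γ, j1, m1, m2, -, m4⟩ := hH.extend (Submodule.span R {(s, d)}) (by
    intro h hh
    obtain ⟨r, hr⟩ := Submodule.mem_span_singleton.mp hh
    obtain ⟨r1, r2⟩ := Prod.ext_iff.mp hr
    exact r2.symm.trans (hd' r (s2 r r1))) fun _ _ => Submodule.mem_top
  have sd : (s, d) ∈ Γ := m1 (Submodule.mem_span_singleton_self _)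
  have inj : ∀ n, (n, 0) ∈ Γ → n = 0 := by
    intro n hn
    by_contra h0
    obtain ⟨a, b, e, e'⟩ := hN.unif hN' h0 s0
    have := Γ.sub_mem (Γ.smul_mem b sd) (Γ.smul_mem a hn)
    have h3 : b • d = 0 := m2 _ (by simpa [e] using this)
    exact e' (e.trans (s1 b (d2 b h3)))
  refine ⟨Γ, j1, m2, inj, m4, fun h => ?_⟩
  let Δ : Submodule R (R × N) :=
    { carrier := {p | (p.2, p.1 • h) ∈ Γ}
      add_mem' := fun {p q} hp hq => by
        have := Γ.add_mem hp hq
        simpa [add_smul] using this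
      zero_mem' := by
        change ((0 : N), (0 : R) • h) ∈ Γ
        rw [zero_smul]
        exact Γ.zero_mem
      smul_mem' := fun r p hp => by
        have := Γ.smul_mem r hp
        simpa [mul_smul] using this }
  have iΔ : ISet E (Δ : Set (R × N)) :=
    ISet.of_mem_iff Δ (fun p => (p.2, p.1 • h) ∈ Γ) fun _ => Iff.rfl
  obtain ⟨n₀, -, hn⟩ := hN Δ iΔ (fun n hn => inj n (by
    have : (n, (0 : R) • h) ∈ Γ := hn
    simpa using this)) fun _ _ => Submodule.mem_top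
  obtain ⟨h', hh'⟩ := m4 n₀
  by_cases e : h = h'
  · exact ⟨n₀, e ▸ hh'⟩
  · obtain ⟨r, hr⟩ := hd'' (h - h') (sub_ne_zero.mpr e)
    have hm : (r, s + r • n₀) ∈ Δ := by
      have := Γ.add_mem sd (Γ.smul_mem r hh')
      change (s + r • n₀, r • h) ∈ Γ
      have e2 : r • h = d + r • h' := by rw [← hr, smul_sub, sub_add_cancel]
      rw [e2]
      exact this
    have := hn _ hm
    simp only [add_eq_right] at this
    exact absurd this s0

end Pool.Agent.Lib.MP_57313b_al.Dia
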