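import Pool.Agent.Lib.MP_57313b_al.Dia.IAlg

/-! The internal injective hull of the simple module. -/

namespace Pool.Agent.Lib.MP_57313b_al.Dia

universe u v

set_option synthInstance.maxSize 4000
set_option linter.unusedSectionVars false

variable {M : Type u} {E : M → M → Prop} [Kit E] {R : Type v} [Ring R] [Obj E R] [IAdd E R]
  [IMul E R]

instance idMemSelf {α : Type*} [Obj E α] (S : Set α) [ISet E S] : IP E fun a => a ∈ S :=
  IP.mem (fun a => a) S

/-- additive characters with values in `ZMod 2` -/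
def IdCh (R : Type v) [Ring R] : Type v := R →+ ZMod 2

instance : AddCommGroup (IdCh R) := inferInstanceAs (AddCommGroup (R →+ ZMod 2))

/-- evaluation of a character -/
def IdCh.ev (ψ : IdCh R) (x : R) : ZMod 2 := (show R →+ ZMod 2 from ψ) x

theorem IdCh.ext' {ψ φ : IdCh R} (h : ∀ x, ψ.ev x = φ.ev x) : ψ = φ :=
  AddMonoidHom.ext (M := R) (N := ZMod 2) h

theorem IdCh.ev_add (ψ φ : IdCh R) (x : R) : (ψ + φ).ev x = ψ.ev x + φ.ev x := rfl

theorem IdCh.ev_zero (x : R) : (0 : IdCh R).ev x = 0 := rfl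

theorem IdCh.map_add' (ψ : IdCh R) (x y : R) : ψ.ev (x + y) = ψ.ev x + ψ.ev y :=
  map_add (show R →+ ZMod 2 from ψ) x y

theorem IdCh.map_zero' (ψ : IdCh R) : ψ.ev 0 = 0 :=
  map_zero (show R →+ ZMod 2 from ψ)

instance : SMul R (IdCh R) :=
  ⟨fun r ψ => (show R →+ ZMod 2 from ψ).comp (AddMonoidHom.mulRight r)⟩

theorem IdCh.ev_smul (r : R) (ψ : IdCh R) (x : R) : (r • ψ).ev x = ψ.ev (x * r) := rfl

instance : Module R (IdCh R) where
  one_smul ψ := IdCh.ext' fun x => by rw [IdCh.ev_smul, mul_one]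
  mul_smul r s ψ := IdCh.ext' fun x => by
    rw [IdCh.ev_smul, IdCh.ev_smul, IdCh.ev_smul, mul_assoc]
  smul_zero _ := IdCh.ext' fun _ => rfl
  smul_add _ _ _ := IdCh.ext' fun _ => rfl
  add_smul r s ψ := IdCh.ext' fun x => by
    rw [IdCh.ev_add, IdCh.ev_smul, IdCh.ev_smul, IdCh.ev_smul, mul_add, IdCh.map_add']
  zero_smul ψ := IdCh.ext' fun x => by rw [IdCh.ev_smul, mul_zero, IdCh.map_zero', IdCh.ev_zero]

theorem idz_add (a b : ZMod 2) : a + b = 1 ↔ ¬ (a = 1 ↔ b = 1) := by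
  revert a b; decide

theorem idz_ext {a b : ZMod 2} (h : a = 1 ↔ b = 1) : a = b := by
  revert a b; decide

theorem idz_zero {a : ZMod 2} (h : ¬ a = 1) : a = 0 := by
  revert a; decide

theorem idz_one {a : ZMod 2} (h : ¬ a + 1 = 1) : a = 1 := by
  revert a; decide

variable (E R) in
/-- the characters whose support is internal -/
def idSub : Submodule R (IdCh R) where
  carrier := {ψ | ISet E {x | ψ.ev x = 1}}
  add_mem' := fun {ψ φ} h h' => by
    have i1 : ISet E {x | ψ.ev x = 1} := h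
    have i2 : ISet E {x | φ.ev x = 1} := h'
    exact ISet.congr (inferInstance :
      ISet E {x | ¬ (x ∈ {x | ψ.ev x = 1} ↔ x ∈ {x | φ.ev x = 1})}) fun x => idz_add _ _
  zero_mem' := ISet.congr (inferInstance : ISet E {_x : R | False}) fun _ =>
    ⟨fun h => absurd (show (0 : ZMod 2) = 1 from h) (by decide), False.elim⟩
  smul_mem' := fun r ψ h => by
    have i1 : ISet E {x | ψ.ev x = 1} := h
    exact ISet.congr (inferInstance : ISet E {x | x * r ∈ {x | ψ.ev x = 1}}) fun _ => Iff.rfl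

variable (E R) in
/-- the internal character module -/
def IdD : Type v := idSub E R

instance : AddCommGroup (IdD E R) := inferInstanceAs (AddCommGroup (idSub E R))

instance : Module R (IdD E R) := inferInstanceAs (Module R (idSub E R))

/-- evaluation of an internal character -/
def IdD.ev (ψ : IdD E R) (x : R) : ZMod 2 := (show idSub E R from ψ).1.ev x

theorem IdD.ext' {ψ φ : IdD E R} (h : ∀ x, ψ.ev x = φ.ev x) : ψ = φ :=
  Subtype.ext (IdCh.ext' h)

theorem IdD.ev_add (ψ φ : IdD E R) (x : R) : (ψ + φ).ev x = ψ.ev x + φ.ev x := rfl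

theorem IdD.ev_zero (x : R) : (0 : IdD E R).ev x = 0 := rfl

theorem IdD.ev_smul (r : R) (ψ : IdD E R) (x : R) : (r • ψ).ev x = ψ.ev (x * r) := rfl

theorem IdD.map_add' (ψ : IdD E R) (x y : R) : ψ.ev (x + y) = ψ.ev x + ψ.ev y :=
  IdCh.map_add' _ x y

/-- the support of an internal character -/
def IdD.supp (ψ : IdD E R) : Pow E R := ⟨{x | ψ.ev x = 1}, (show idSub E R from ψ).2⟩

theorem IdD.supp_inj : Function.Injective (IdD.supp : IdD E R → Pow E R) := fun ψ φ h =>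
  IdD.ext' fun x => idz_ext (show x ∈ ψ.supp.1 ↔ x ∈ φ.supp.1 by rw [h])

theorem IdD.of_set (S : Set R) [i : ISet E S] (h : ∀ x y, x + y ∈ S ↔ ¬ (x ∈ S ↔ y ∈ S)) :
    ∃ ψ : IdD E R, ∀ x, ψ.ev x = 1 ↔ x ∈ S := by
  classical
  have e : ∀ x, (if x ∈ S then (1 : ZMod 2) else 0) = 1 ↔ x ∈ S := fun x => by
    by_cases hx : x ∈ S
    · simp [hx]
    · simp [hx]
  let f : R →+ ZMod 2 := AddMonoidHom.mk' (fun x => if x ∈ S then 1 else 0) fun x y =>
    idz_ext (by rw [idz_add, e, e, e, h])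
  exact ⟨(⟨f, ISet.congr i e⟩ : idSub E R), e⟩

theorem IdD.range_iset : ISet E (Set.range (IdD.supp : IdD E R → Pow E R)) := by
  refine ISet.congr (inferInstance : ISet E
    {S : Pow E R | ∀ x y : R, x + y ∈ S.1 ↔ ¬ (x ∈ S.1 ↔ y ∈ S.1)}) fun S => ⟨?_, fun h => ?_⟩
  · rintro ⟨ψ, rfl⟩ x y
    show ψ.ev (x + y) = 1 ↔ ¬ (ψ.ev x = 1 ↔ ψ.ev y = 1)
    rw [IdD.map_add', idz_add]
  · obtain ⟨ψ, hψ⟩ := IdD.of_set (E := E) S.1 h
    exact ⟨ψ, Subtype.ext (Set.ext hψ)⟩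

noncomputable instance : Obj E (IdD E R) :=
  haveI := IdD.range_iset (E := E) (R := R)
  Obj.ofEmb (E := E) IdD.supp IdD.supp_inj

instance : IF1 E (IdD.supp : IdD E R → Pow E R) := ⟨IF.of_io_eq _ fun _ => rfl⟩

instance : IAdd E (IdD E R) :=
  ⟨IF.of_graph _ (IP.congr (inferInstance : IP E fun p : (IdD E R × IdD E R) × IdD E R =>
    ∀ x : R, ¬ (x ∈ (IdD.supp p.1.1).1 ↔ x ∈ (IdD.supp p.1.2).1) ↔ x ∈ (IdD.supp p.2).1)
    fun p => ⟨fun h x => by rw [← h]; exact (idz_add _ _).symm,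
      fun h => IdD.ext' fun x => idz_ext ((idz_add _ _).trans (h x))⟩)⟩

instance : ISMul E R (IdD E R) :=
  ⟨IF.of_graph _ (IP.congr (inferInstance : IP E fun p : (R × IdD E R) × IdD E R =>
    ∀ x : R, x * p.1.1 ∈ (IdD.supp p.1.2).1 ↔ x ∈ (IdD.supp p.2).1)
    fun p => ⟨fun h x => by rw [← h]; exact Iff.rfl,
      fun h => IdD.ext' fun x => idz_ext (h x)⟩)⟩

/-- an internal subgroup and a point outside it are separated by an internal character -/
theorem IdD.sep (h2 : ∀ x : R, x + x = 0) (H : Set R) [ISet E H] (h0 : (0 : R) ∈ H)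
    (ha : ∀ x ∈ H, ∀ y ∈ H, x + y ∈ H) {a : R} (hn : a ∉ H) :
    ∃ ψ : IdD E R, ψ.ev a = 1 ∧ ∀ x ∈ H, ¬ ψ.ev x = 1 := by
  obtain ⟨A, i1, h1, h3, h4, h5⟩ := zorn_iset (E := E) (fun x y z : R => z = x + y)
    {x | x ≠ a} H (by rintro x hx y hy _ rfl; exact ha x hx y hy)
    (fun x hx e => hn (e ▸ hx))
  have add : ∀ {x y z : R}, x ∈ A → y ∈ A → z = x + y → z ∈ A :=
    fun hx hy e => h1 _ hx _ hy _ e
  have c1 : ∀ x y z : R, x + y = (x + z) + (y + z) := fun x y z => by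
    rw [add_add_add_comm, h2, add_zero]
  have c2 : ∀ x y : R, y = x + (x + y) := fun x y => by
    rw [← add_assoc, h2, zero_add]
  have key : ∀ x, x ∉ A → x + a ∈ A := by
    intro x hx
    by_contra hc
    refine hx (h5 {z | z ∈ A ∨ z + x ∈ A} inferInstance ?_ (fun z hz => Or.inl hz) ?_
      (Or.inr (by rw [h2]; exact h3 h0)))
    · rintro z (hz | hz) w (hw | hw) _ rfl
      · exact Or.inl (add hz hw rfl)
      · exact Or.inr (add hz hw (add_assoc _ _ _))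
      · exact Or.inr (add hz hw (add_right_comm _ _ _))
      · exact Or.inl (add hz hw (c1 _ _ _))
    · rintro z (hz | hz)
      · exact h4 hz
      · rintro rfl
        exact hc (by rwa [add_comm])
  obtain ⟨ψ, hψ⟩ := IdD.of_set (E := E) {x | x ∉ A} (fun x y => by
    show x + y ∉ A ↔ ¬ (x ∉ A ↔ y ∉ A)
    by_cases hx : x ∈ A <;> by_cases hy : y ∈ A
    · simp [hx, hy, add hx hy rfl]
    · have : x + y ∉ A := fun h => hy (add hx h (c2 _ _))
      simp [hx, hy, this]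
    · have : x + y ∉ A := fun h => hx (add hy h (by rw [add_comm x y]; exact c2 _ _))
      simp [hx, hy, this]
    · simp [hx, hy, add (key x hx) (key y hy) (c1 _ _ _)])
  exact ⟨ψ, (hψ a).mpr fun h => h4 h rfl, fun x hx h => (hψ x).mp h (h3 hx)⟩

theorem IdD.baer (h2 : ∀ x : R, x + x = 0) : Baer E R (⊤ : Submodule R (IdD E R)) := by
  intro Γ iΓ hΓ _
  suffices h : ∃ ψ : IdD E R, ∀ p ∈ Γ, p.2.ev 1 = ψ.ev p.1 by
    obtain ⟨ψ, hψ⟩ := h
    refine ⟨ψ, trivial, fun p hp => IdD.ext' fun x => ?_⟩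
    have := hψ _ (Γ.smul_mem x hp)
    rw [Prod.smul_snd, Prod.smul_fst, IdD.ev_smul, one_mul, smul_eq_mul] at this
    rw [this, IdD.ev_smul]
  by_cases hc : ∃ q ∈ Γ, q.2.ev 1 = 1
  · obtain ⟨q, hq, hq1⟩ := hc
    obtain ⟨ψ, h1, h3⟩ := IdD.sep (E := E) h2
      {r : R | ∃ φ : IdD E R, (r, φ) ∈ Γ ∧ ¬ (1 : R) ∈ (IdD.supp φ).1}
      ⟨0, Γ.zero_mem, fun h => absurd (show (0 : ZMod 2) = 1 from h) (by decide)⟩
      (by
        rintro x ⟨φ, hφ, e⟩ y ⟨χ, hχ, e'⟩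
        refine ⟨φ + χ, Γ.add_mem hφ hχ, fun h => ?_⟩
        exact (idz_add _ _).mp h ⟨fun h => absurd h e, fun h => absurd h e'⟩)
      (a := q.1) (by
        rintro ⟨φ, hφ, e⟩
        have h0 := hΓ (q.2 - φ) (by
          have := Γ.sub_mem hq hφ
          rwa [show q - (q.1, φ) = (0, q.2 - φ) from Prod.ext (sub_self _) rfl] at this)
        rw [sub_eq_zero] at h0
        exact e (h0 ▸ hq1))
    refine ⟨ψ, fun p hp => ?_⟩
    by_cases h : p.2.ev 1 = 1
    · have h4 := h3 (p.1 + q.1) ⟨p.2 + q.2, Γ.add_mem hp hq, fun h' =>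
        (idz_add _ _).mp h' ⟨fun _ => hq1, fun _ => h⟩⟩
      rw [IdD.map_add', h1] at h4
      rw [h, idz_one h4]
    · rw [idz_zero h, idz_zero (h3 p.1 ⟨p.2, hp, h⟩)]
  · exact ⟨0, fun p hp => idz_zero fun h => hc ⟨p, hp, h⟩⟩

/-- The character module in characteristic two: `D` is the set of internal `ψ ⊆ R` with
`x + y ∈ ψ ↔ Xor' (x ∈ ψ) (y ∈ ψ)` (a subtype of `Pow E R`), addition is symmetric difference,
`r • ψ = {x | x * r ∈ ψ}`. Key lemma (`zorn_iset` with `T x y z = (z = x + y)`): if `H₀` is an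
internal additive subgroup, `ψ₀` internal and disjoint from `H₀`, with `a + b ∈ H₀` for
`a, b ∈ ψ₀` and `a + h ∈ ψ₀` for `a ∈ ψ₀`, `h ∈ H₀`, and `ψ₀` nonempty, then a maximal subgroup
`H ⊇ H₀` missing `ψ₀` has index two and its complement is in `D`. Use it for
`ψ₀ = {r | ∃ ψ, (r, ψ) ∈ Γ ∧ 1 ∈ ψ}`, `H₀ = {r | ∃ ψ, (r, ψ) ∈ Γ ∧ 1 ∉ ψ}` (Baer), and for
`H₀ = P`, `ψ₀ = 1 + P` (the element `d`). -/
theorem exists_dual (h2 : ∀ x : R, x + x = 0) (P : Ideal R) [ISet E (P : Set R)] (hP : 1 ∉ P) :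
    ∃ (D : Type v) (_ : AddCommGroup D) (_ : Module R D) (_ : Obj E D) (_ : IAdd E D)
      (_ : ISMul E R D), Baer E R (⊤ : Submodule R D) ∧ ∃ d : D, d ≠ 0 ∧ ∀ m ∈ P, m • d = 0 := by
  obtain ⟨ψ, h1, h3⟩ := IdD.sep (E := E) h2 (P : Set R) P.zero_mem
    (fun _ hx _ hy => P.add_mem hx hy) hP
  refine ⟨IdD E R, inferInstance, inferInstance, inferInstance, inferInstance, inferInstance,
    IdD.baer h2, ψ, ?_, fun m hm => IdD.ext' fun x => ?_⟩
  · rintro rfl
    exact absurd (show (0 : ZMod 2) = 1 from h1) (by decide)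
  · exact idz_zero (h3 _ (P.mul_mem_left x hm))

/-- the injective hull of `R / P` -/
theorem exists_hull (h2 : ∀ x : R, x + x = 0) (P : Ideal R) [ISet E (P : Set R)] (hP : Mx P) :
    ∃ (H : Type v) (_ : AddCommGroup H) (_ : Module R H) (_ : Obj E H) (_ : IAdd E H)
      (_ : ISMul E R H), Baer E R (⊤ : Submodule R H) ∧ ∃ d : H, d ≠ 0 ∧ (∀ m ∈ P, m • d = 0) ∧
        ∀ h : H, h ≠ 0 → ∃ r : R, r • h = d := by
  obtain ⟨D, _, _, _, _, _, hD, d, hd, hd'⟩ := exists_dual (E := E) h2 P hP.1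
  have : ISet E ((Submodule.span R {d} : Submodule R D) : Set D) :=
    ISet.of_mem_iff _ (fun x => ∃ r : R, r • d = x) fun _ => Submodule.mem_span_singleton
  obtain ⟨W, iW, hW, hB, hE⟩ := hD.ess (Submodule.span R {d})
  refine ⟨W, inferInstance, inferInstance, inferInstance, inferInstance, inferInstance,
    hB.subtype, ⟨d, hW (Submodule.mem_span_singleton_self d)⟩, fun h => hd (congrArg (·.1) h),
    fun m hm => Subtype.ext (hd' m hm), fun h hh => ?_⟩
  obtain ⟨r, hr, hr'⟩ := hE h.1 h.2 fun e => hh (Subtype.ext e)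
  obtain ⟨s, hs⟩ := Submodule.mem_span_singleton.mp hr
  obtain ⟨z, hz⟩ := hP.2 s fun h' => hr' (hs ▸ hd' s h')
  refine ⟨z * r, Subtype.ext ?_⟩
  show (z * r) • h.1 = d
  have := hd' _ hz
  rwa [sub_smul, one_smul, sub_eq_zero, mul_smul, hs, ← mul_smul] at this

end Pool.Agent.Lib.MP_57313b_al.Dia
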