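import Pool.Agent.Shared.Forcing.Check
import Pool.Agent.Lib.MP_57313b_al.Dia.Defs

/-! Internal sets and functions of a model of set theory, seen from outside.
`Obj E α`: the type `α` is presented as a set of the model; `IP E P`, `ISet E S`, `IF E f`:
the predicate, set, function is (the trace of) a set of the model. Instances close these
classes under first-order logic. -/

namespace Pool.Agent.Lib.MP_57313b_al.Dia

open Pool.Agent.Shared.Forcing

universe u v w

set_option synthInstance.maxSize 4000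

/-- `A` is closed under the ternary relation `T`. -/
def Closed {M : Type u} (E : M → M → Prop) (T A : M) : Prop :=
  ∀ x y z, E x A → E y A → Op E T x y z → E z A

/-- The set existence principles used below. -/
class Kit {M : Type u} (E : M → M → Prop) : Prop where
  ext : ∀ a b, (∀ z, E z a ↔ E z b) → a = b
  pair : ∀ x y, ∃ p, ∀ z, E z p ↔ z = x ∨ z = y
  diff : ∀ a s, ∃ c, ∀ z, E z c ↔ E z a ∧ ¬ E z s
  prod : ∀ a b, ∃ c, ∀ z, E z c ↔ ∃ x y, E x a ∧ E y b ∧ IsKPair E z x y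
  dom : ∀ a s, ∃ c, ∀ z, E z c ↔ E z a ∧ ∃ y, Maps E s z y
  power : ∀ a, ∃ p, ∀ z, E z p ↔ Sub E z a
  rel_eq : ∀ a, ∃ f, ∀ x y, Maps E f x y ↔ E x a ∧ y = x
  rel_mem : ∀ a b, ∃ f, ∀ x y, Maps E f x y ↔ E x a ∧ E y b ∧ E x y
  rel_fst : ∀ a b, ∃ f, ∀ x y, Maps E f x y ↔ E x a ∧ E y b ∧ ∃ w, IsKPair E x y w
  rel_snd : ∀ a b, ∃ f, ∀ x y, Maps E f x y ↔ E x a ∧ E y b ∧ ∃ w, IsKPair E x w y
  rel_comp : ∀ a b g h, ∃ f, ∀ x y, Maps E f x y ↔ E x a ∧ E y b ∧
    ∃ w, Maps E g x w ∧ Maps E h w y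
  rel_pair : ∀ a b g h, ∃ f, ∀ x y, Maps E f x y ↔ E x a ∧ E y b ∧
    ∃ w w', Maps E g x w ∧ Maps E h x w' ∧ IsKPair E y w w'
  zorn : ∀ T G A₀, Closed E T A₀ → Sub E A₀ G → ∃ A, Closed E T A ∧ Sub E A₀ A ∧ Sub E A G ∧
    ∀ A', Closed E T A' → Sub E A A' → Sub E A' G → Sub E A' A

variable {M : Type u} {E : M → M → Prop}

/-- The type `α` is presented as a set of the model. -/
class Obj (E : M → M → Prop) (α : Type v) where
  ι : α → M
  inj : Function.Injective ι
  set : M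
  mem_set : ∀ z, E z set ↔ ∃ a, ι a = z

/-- the element of the model that presents `a` -/
abbrev io (E : M → M → Prop) {α : Type v} [Obj E α] (a : α) : M := Obj.ι E a

/-- the set of the model that presents the type `α` -/
abbrev car (E : M → M → Prop) (α : Type v) [Obj E α] : M := Obj.set E α

theorem io_inj {α : Type v} [Obj E α] {a b : α} : io E a = io E b ↔ a = b :=
  (Obj.inj (E := E)).eq_iff

theorem el_car {α : Type v} [Obj E α] {z : M} : E z (car E α) ↔ ∃ a : α, io E a = z :=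
  Obj.mem_set z

theorem io_el {α : Type v} [Obj E α] (a : α) : E (io E a) (car E α) := el_car.mpr ⟨a, rfl⟩

/-- internal predicate -/
class IP (E : M → M → Prop) {α : Type v} [Obj E α] (P : α → Prop) : Prop where
  ex : ∃ s, ∀ a, P a ↔ E (io E a) s

/-- internal set -/
class ISet (E : M → M → Prop) {α : Type v} [Obj E α] (S : Set α) : Prop where
  ex : ∃ s, ∀ a, a ∈ S ↔ E (io E a) s

/-- internal function -/
class IF (E : M → M → Prop) {α : Type v} {β : Type w} [Obj E α] [Obj E β] (f : α → β) : Prop where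
  ex : ∃ g, ∀ a y, Maps E g (io E a) y ↔ y = io E (f a)

/-- internal function, registered for composition -/
class IF1 (E : M → M → Prop) {α : Type v} {β : Type w} [Obj E α] [Obj E β] (f : α → β) :
    Prop where
  out : IF E f

variable [K : Kit E]

theorem kp_ex (x y : M) : ∃ p, IsKPair E p x y := by
  obtain ⟨s, hs⟩ := K.pair x x
  obtain ⟨t, ht⟩ := K.pair x y
  obtain ⟨p, hp⟩ := K.pair s t
  refine ⟨p, fun z => (hp z).trans (or_congr ⟨?_, fun h => ?_⟩ ⟨?_, fun h => ?_⟩)⟩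
  · rintro rfl; exact hs
  · exact K.ext _ _ fun w => (h w).trans (hs w).symm
  · rintro rfl; exact ht
  · exact K.ext _ _ fun w => (h w).trans (ht w).symm

/-- the Kuratowski pair -/
noncomputable def kp (E : M → M → Prop) [Kit E] (x y : M) : M := (kp_ex (E := E) x y).choose

theorem isKPair_iff {p x y : M} : IsKPair E p x y ↔ p = kp E x y :=
  ⟨fun h => K.ext _ _ fun z => (h z).trans ((kp_ex (E := E) x y).choose_spec z).symm,
    fun h => h ▸ (kp_ex (E := E) x y).choose_spec⟩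

theorem kp_inj {x y x' y' : M} : kp E x y = kp E x' y' ↔ x = x' ∧ y = y' :=
  ⟨fun h => IsKPair.uniq K.pair (isKPair_iff.mpr rfl) (isKPair_iff.mpr h),
    fun ⟨h, h'⟩ => h ▸ h' ▸ rfl⟩

theorem maps_iff {f x y : M} : Maps E f x y ↔ E (kp E x y) f := by
  simp only [Maps, isKPair_iff]
  exact ⟨fun ⟨_, h, e⟩ => e ▸ h, fun h => ⟨_, h, rfl⟩⟩

theorem op_iff {f x y z : M} : Op E f x y z ↔ Maps E f (kp E x y) z := by
  simp only [Op, isKPair_iff]
  exact ⟨fun ⟨_, e, h⟩ => e ▸ h, fun h => ⟨_, rfl, h⟩⟩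

theorem inter_ex (a s : M) : ∃ c, ∀ z, E z c ↔ E z a ∧ E z s := by
  obtain ⟨c, hc⟩ := K.diff a s
  obtain ⟨d, hd⟩ := K.diff a c
  exact ⟨d, fun z => by rw [hd, hc]; tauto⟩

section
variable {α : Type v} {β : Type w} {γ : Type*} [Obj E α] [Obj E β] [Obj E γ]

noncomputable instance Obj.prod : Obj E (α × β) where
  ι p := kp E (io E p.1) (io E p.2)
  inj := fun p q h => by
    obtain ⟨h1, h2⟩ := kp_inj.mp h
    exact Prod.ext (io_inj.mp h1) (io_inj.mp h2)
  set := (K.prod (car E α) (car E β)).choose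
  mem_set z := by
    rw [(K.prod (car E α) (car E β)).choose_spec]
    simp only [el_car, isKPair_iff]
    constructor
    · rintro ⟨_, _, ⟨a, rfl⟩, ⟨b, rfl⟩, rfl⟩
      exact ⟨(a, b), rfl⟩
    · rintro ⟨p, rfl⟩
      exact ⟨_, _, ⟨p.1, rfl⟩, ⟨p.2, rfl⟩, rfl⟩

theorem io_prod (p : α × β) : io E p = kp E (io E p.1) (io E p.2) := rfl

/-- an internal set has an exact representative -/
theorem ISet.exact (S : Set α) [h : ISet E S] : ∃ s, ∀ z, E z s ↔ ∃ a ∈ S, io E a = z := by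
  obtain ⟨s, hs⟩ := h.ex
  obtain ⟨c, hc⟩ := inter_ex (E := E) (car E α) s
  refine ⟨c, fun z => ?_⟩
  rw [hc, el_car (E := E)]
  constructor
  · rintro ⟨⟨a, rfl⟩, h⟩
    exact ⟨a, (hs a).mpr h, rfl⟩
  · rintro ⟨a, h, rfl⟩
    exact ⟨⟨a, rfl⟩, (hs a).mp h⟩

omit K in
theorem ISet.of_ip (S : Set α) [h : IP E fun a => a ∈ S] : ISet E S := ⟨h.ex⟩

omit K in
instance ISet.setOf (P : α → Prop) [h : IP E P] : ISet E {a | P a} := ⟨h.ex⟩

omit K in
theorem ISet.congr {S T : Set α} (h : ISet E S) (e : ∀ a, a ∈ T ↔ a ∈ S) : ISet E T :=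
  ⟨h.ex.imp fun _ hs a => (e a).trans (hs a)⟩

omit K in
theorem IP.congr {P Q : α → Prop} (h : IP E P) (e : ∀ a, Q a ↔ P a) : IP E Q :=
  ⟨h.ex.imp fun _ hs a => (e a).trans (hs a)⟩

omit K in
/-- the trace of a set of the model is internal -/
theorem ISet.trace (s : M) : ISet E {a : α | E (io E a) s} := ⟨s, fun _ => Iff.rfl⟩

instance (priority := high) IP.const (p : Prop) : IP E fun _ : α => p := by
  by_cases h : p
  · exact ⟨car E α, fun a => by simp [h, io_el]⟩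
  · obtain ⟨c, hc⟩ := K.diff (car E α) (car E α)
    exact ⟨c, fun a => by simp [h, hc]⟩

instance IP.not (P : α → Prop) [h : IP E P] : IP E fun a => ¬ P a := by
  obtain ⟨s, hs⟩ := h.ex
  obtain ⟨c, hc⟩ := K.diff (car E α) s
  exact ⟨c, fun a => by simp [hc, hs, io_el]⟩

instance IP.and (P Q : α → Prop) [h : IP E P] [h' : IP E Q] : IP E fun a => P a ∧ Q a := by
  obtain ⟨s, hs⟩ := h.ex
  obtain ⟨t, ht⟩ := h'.ex
  obtain ⟨c, hc⟩ := inter_ex (E := E) s t
  exact ⟨c, fun a => by rw [hc, hs, ht]⟩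

instance IP.or (P Q : α → Prop) [IP E P] [IP E Q] : IP E fun a => P a ∨ Q a :=
  IP.congr (inferInstance : IP E fun a => ¬ (¬ P a ∧ ¬ Q a)) fun a => by tauto

instance IP.imp (P Q : α → Prop) [IP E P] [IP E Q] : IP E fun a => P a → Q a :=
  IP.congr (inferInstance : IP E fun a => ¬ (P a ∧ ¬ Q a)) fun a => by tauto

instance IP.iff (P Q : α → Prop) [IP E P] [IP E Q] : IP E fun a => P a ↔ Q a :=
  IP.congr (inferInstance : IP E fun a => (P a → Q a) ∧ (Q a → P a)) fun _ => iff_def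

instance IP.exists (P : α → β → Prop) [h : IP E fun p : α × β => P p.1 p.2] :
    IP E fun a => ∃ b, P a b := by
  obtain ⟨s, hs⟩ := ISet.exact (E := E) {p : α × β | P p.1 p.2}
  obtain ⟨c, hc⟩ := K.dom (car E α) s
  refine ⟨c, fun a => ?_⟩
  simp only [hc, io_el, true_and, maps_iff, hs, io_prod, kp_inj, io_inj, Set.mem_ofPred_eq]
  constructor
  · rintro ⟨b, hb⟩
    exact ⟨_, (a, b), hb, rfl, rfl⟩
  · rintro ⟨_, p, hp, rfl, -⟩
    exact ⟨_, hp⟩

instance IP.forall (P : α → β → Prop) [h : IP E fun p : α × β => P p.1 p.2] :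
    IP E fun a => ∀ b, P a b :=
  IP.congr (inferInstance : IP E fun a => ¬ ∃ b, ¬ P a b) fun a => by simp

instance IP.eq (f g : α → β) [h : IF E f] [h' : IF E g] : IP E fun a => f a = g a := by
  obtain ⟨s, hs⟩ := h.ex
  obtain ⟨t, ht⟩ := h'.ex
  obtain ⟨c, hc⟩ := inter_ex (E := E) s t
  obtain ⟨d, hd⟩ := K.dom (car E α) c
  refine ⟨d, fun a => ?_⟩
  simp only [hd, io_el, true_and, maps_iff, hc]
  simp only [← maps_iff, hs, ht, exists_eq_left, io_inj]

instance IP.ne (f g : α → β) [IF E f] [IF E g] : IP E fun a => f a ≠ g a :=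
  IP.not fun a => f a = g a

instance IP.mem (f : α → β) (S : Set β) [h : IF E f] [h' : ISet E S] :
    IP E fun a => f a ∈ S := by
  obtain ⟨g, hg⟩ := h.ex
  obtain ⟨s, hs⟩ := h'.ex
  obtain ⟨t, ht⟩ := K.prod (car E α) s
  obtain ⟨c, hc⟩ := inter_ex (E := E) g t
  obtain ⟨d, hd⟩ := K.dom (car E α) c
  refine ⟨d, fun a => ?_⟩
  simp only [hd, io_el, true_and, maps_iff, hc, ht, isKPair_iff, kp_inj]
  simp only [← maps_iff, hg, exists_eq_left, hs]
  exact ⟨fun h => ⟨_, _, io_el a, h, rfl, rfl⟩, fun ⟨_, _, _, h, _, e⟩ => e ▸ h⟩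

instance IP.memLike {σ : Type*} [SetLike σ β] (f : α → β) (S : σ) [IF E f]
    [ISet E (S : Set β)] : IP E fun a => f a ∈ S :=
  IP.mem f (S : Set β)

instance IP.notMem (f : α → β) (S : Set β) [IF E f] [ISet E S] : IP E fun a => f a ∉ S :=
  IP.not fun a => f a ∈ S

instance (priority := high) IF.id : IF E fun a : α => a := by
  obtain ⟨f, hf⟩ := K.rel_eq (car E α)
  exact ⟨f, fun a y => by simp [hf, io_el]⟩

instance (priority := high) IF.const (b : β) : IF E fun _ : α => b := by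
  obtain ⟨s, hs⟩ := K.pair (io E b) (io E b)
  obtain ⟨t, ht⟩ := K.prod (car E α) s
  refine ⟨t, fun a y => ?_⟩
  simp only [maps_iff, ht, hs, isKPair_iff, kp_inj, or_self]
  exact ⟨fun ⟨_, _, _, h, _, e⟩ => e.trans h, fun h => ⟨_, _, io_el a, h, rfl, rfl⟩⟩

theorem IF.comp (g : β → γ) (f : α → β) [h' : IF E g] [h : IF E f] : IF E fun a => g (f a) := by
  obtain ⟨s, hs⟩ := h.ex
  obtain ⟨t, ht⟩ := h'.ex
  obtain ⟨c, hc⟩ := K.rel_comp (car E α) (car E γ) s t
  refine ⟨c, fun a y => ?_⟩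
  simp only [hc, io_el, true_and, hs, exists_eq_left, ht]
  exact ⟨fun h => h.2, fun h => ⟨h ▸ io_el _, h⟩⟩

theorem IP.comp (P : β → Prop) (f : α → β) [IP E P] [IF E f] : IP E fun a => P (f a) :=
  IP.mem f {b | P b}

instance IF.un (g : β → γ) (f : α → β) [h : IF1 E g] [IF E f] : IF E fun a => g (f a) :=
  haveI := h.out
  IF.comp g f

instance IF1.fst : IF1 E (Prod.fst : β × γ → β) := by
  obtain ⟨c, hc⟩ := K.rel_fst (car E (β × γ)) (car E β)
  refine ⟨c, fun p y => ?_⟩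
  rw [hc]
  simp only [io_el, true_and, isKPair_iff]
  simp only [io_prod, kp_inj]
  exact ⟨fun ⟨_, _, h, _⟩ => h.symm, fun h => ⟨h ▸ io_el _, _, h.symm, rfl⟩⟩

instance IF1.snd : IF1 E (Prod.snd : β × γ → γ) := by
  obtain ⟨c, hc⟩ := K.rel_snd (car E (β × γ)) (car E γ)
  refine ⟨c, fun p y => ?_⟩
  rw [hc]
  simp only [io_el, true_and, isKPair_iff]
  simp only [io_prod, kp_inj]
  exact ⟨fun ⟨_, _, _, h⟩ => h.symm, fun h => ⟨h ▸ io_el _, _, rfl, h.symm⟩⟩

instance IF.pair (f : α → β) (g : α → γ) [h : IF E f] [h' : IF E g] :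
    IF E fun a => (f a, g a) := by
  obtain ⟨s, hs⟩ := h.ex
  obtain ⟨t, ht⟩ := h'.ex
  obtain ⟨c, hc⟩ := K.rel_pair (car E α) (car E (β × γ)) s t
  refine ⟨c, fun a y => ?_⟩
  simp only [hc, io_el, true_and, hs, ht, isKPair_iff, io_prod]
  constructor
  · rintro ⟨-, _, _, rfl, rfl, h⟩
    exact h
  · rintro rfl
    exact ⟨io_el (f a, g a), _, _, rfl, rfl, rfl⟩

/-- internal binary function, registered for composition -/
class IF2 (E : M → M → Prop) [Kit E] {α : Type v} {β : Type w} {γ : Type*} [Obj E α] [Obj E β]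
    [Obj E γ] (f : α → β → γ) : Prop where
  out : IF E fun p : α × β => f p.1 p.2

instance IF.bin {δ : Type*} [Obj E δ] (op : β → γ → δ) (f : α → β) (g : α → γ) [h : IF2 E op]
    [IF E f] [IF E g] : IF E fun a => op (f a) (g a) :=
  haveI := h.out
  IF.comp (fun p : β × γ => op p.1 p.2) fun a => (f a, g a)

/-- a function with an internal graph is internal -/
theorem IF.of_graph (f : α → β) (h : IP E fun p : α × β => f p.1 = p.2) : IF E f := by
  obtain ⟨s, hs⟩ := ISet.exact (E := E) {p : α × β | f p.1 = p.2}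
  refine ⟨s, fun a y => ?_⟩
  simp only [maps_iff, hs, io_prod, kp_inj, io_inj, Set.mem_ofPred_eq]
  constructor
  · rintro ⟨p, hp, rfl, rfl⟩
    rw [hp]
  · rintro rfl
    exact ⟨(a, f a), rfl, rfl, rfl⟩

/-- a binary function given by a set of the model is internal -/
theorem IF.of_op (f : α → β → γ) (s : M)
    (h : ∀ x y z, Op E s (io E x) (io E y) z ↔ z = io E (f x y)) :
    IF E fun p : α × β => f p.1 p.2 :=
  ⟨s, fun p z => by rw [io_prod, ← op_iff, h]⟩

/-- an internal binary function is given by a set of the model -/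
theorem IF.op (f : α → β → γ) [h : IF E fun p : α × β => f p.1 p.2] :
    ∃ s, ∀ x y z, Op E s (io E x) (io E y) z ↔ z = io E (f x y) :=
  h.ex.imp fun _ hs x y z => by rw [op_iff]; exact hs (x, y) z

/-- an injection with internal range presents its domain -/
@[reducible] noncomputable def Obj.ofEmb {δ : Type*} (e : δ → α) (he : Function.Injective e)
    [ISet E (Set.range e)] : Obj E δ where
  ι d := io E (e d)
  inj := fun _ _ h => he (io_inj.mp h)
  set := (ISet.exact (E := E) (Set.range e)).choose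
  mem_set z := by
    rw [(ISet.exact (E := E) (Set.range e)).choose_spec]
    simp

/-- a map that does not change the presenting element is internal -/
theorem IF.of_io_eq (e : α → β) (he : ∀ a, io E (e a) = io E a) : IF E e := by
  obtain ⟨f, hf⟩ := K.rel_eq (car E α)
  exact ⟨f, fun a y => by simp [hf, io_el, he]⟩

omit K in
/-- `f` is internal if `e ∘ f` is, for `e` not changing the presenting element -/
theorem IF.of_comp_io_eq (e : β → γ) (he : ∀ b, io E (e b) = io E b) (f : α → β)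
    (h : IF E fun a => e (f a)) : IF E f :=
  ⟨h.ex.imp fun _ hs a y => by rw [hs, he]⟩

noncomputable instance Obj.subtype (S : Set α) [h : ISet E S] : Obj E S :=
  haveI : ISet E (Set.range (Subtype.val : S → α)) := h.congr fun a => by simp
  Obj.ofEmb (E := E) Subtype.val Subtype.val_injective

noncomputable instance Obj.setLike {σ : Type*} [SetLike σ α] (S : σ) [ISet E (S : Set α)] :
    Obj E S :=
  Obj.subtype (S : Set α)

theorem io_subtype (S : Set α) [ISet E S] (a : S) : io E a = io E a.1 := rfl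

theorem io_setLike {σ : Type*} [SetLike σ α] (S : σ) [ISet E (S : Set α)] (a : S) :
    io E a = io E a.1 := rfl

instance IF1.val (S : Set β) [ISet E S] : IF1 E (Subtype.val : S → β) :=
  ⟨IF.of_io_eq _ fun _ => rfl⟩

instance IF1.valLike {σ : Type*} [SetLike σ β] (S : σ) [ISet E (S : Set β)] :
    IF1 E (Subtype.val : S → β) :=
  IF1.val (S : Set β)

/-- the internal subsets of `α` -/
def Pow (E : M → M → Prop) (α : Type v) [Obj E α] : Type v := {S : Set α // ISet E S}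

noncomputable instance Obj.pow : Obj E (Pow E α) where
  ι S := (@ISet.exact _ E _ _ _ S.1 S.2).choose
  inj := fun S T h => by
    have hS := (@ISet.exact _ E _ _ _ S.1 S.2).choose_spec
    have hT := (@ISet.exact _ E _ _ _ T.1 T.2).choose_spec
    refine Subtype.ext (Set.ext fun a => ?_)
    have h1 := hS (io E a)
    have h2 := hT (io E a)
    simp only [io_inj, exists_eq_right] at h1 h2
    rw [← h1, ← h2]
    exact Iff.of_eq (congrArg _ h)
  set := (K.power (car E α)).choose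
  mem_set z := by
    rw [(K.power (car E α)).choose_spec]
    constructor
    · intro h
      refine ⟨⟨_, ISet.trace z⟩, K.ext _ _ fun w => ?_⟩
      rw [(@ISet.exact _ E _ _ _ _ (ISet.trace z)).choose_spec]
      constructor
      · rintro ⟨a, ha, rfl⟩
        exact ha
      · intro hw
        obtain ⟨a, rfl⟩ := el_car.mp (h w hw)
        exact ⟨a, hw, rfl⟩
    · rintro ⟨S, rfl⟩ w hw
      obtain ⟨a, -, rfl⟩ := ((@ISet.exact _ E _ _ _ S.1 S.2).choose_spec w).mp hw
      exact io_el a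

theorem el_pow (S : Pow E α) (z : M) : E z (io E S) ↔ ∃ a ∈ S.1, io E a = z :=
  (@ISet.exact _ E _ _ _ S.1 S.2).choose_spec z

omit K in
instance Pow.iset (S : Pow E α) : ISet E S.1 := S.2

instance IP.memPow (f : α → β) (g : α → Pow E β) [IF E f] [IF E g] :
    IP E fun a => f a ∈ (g a).1 := by
  have : IP E fun p : β × Pow E β => p.1 ∈ p.2.1 := by
    obtain ⟨c, hc⟩ := K.rel_mem (car E β) (car E (Pow E β))
    refine ⟨c, fun p => ?_⟩
    rw [io_prod, ← maps_iff (E := E), hc, el_pow (E := E)]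
    simp [io_el, io_inj]
  exact IP.comp (fun p : β × Pow E β => p.1 ∈ p.2.1) fun a => (f a, g a)

/-- Zorn's lemma for internal sets closed under an internal ternary relation -/
theorem zorn_iset (T : α → α → α → Prop) [IP E fun p : (α × α) × α => T p.1.1 p.1.2 p.2]
    (G A₀ : Set α) [ISet E G] [ISet E A₀] (h₀ : ∀ x ∈ A₀, ∀ y ∈ A₀, ∀ z, T x y z → z ∈ A₀)
    (hG : A₀ ⊆ G) : ∃ A : Set α, ISet E A ∧ (∀ x ∈ A, ∀ y ∈ A, ∀ z, T x y z → z ∈ A) ∧
      A₀ ⊆ A ∧ A ⊆ G ∧ ∀ A' : Set α, ISet E A' → (∀ x ∈ A', ∀ y ∈ A', ∀ z, T x y z → z ∈ A') →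
        A ⊆ A' → A' ⊆ G → A' ⊆ A := by
  obtain ⟨t, ht⟩ := ISet.exact (E := E) {p : (α × α) × α | T p.1.1 p.1.2 p.2}
  have key : ∀ (A : Set α) (s : M), (∀ z, E z s ↔ ∃ a ∈ A, io E a = z) →
      (Closed E t s ↔ ∀ x ∈ A, ∀ y ∈ A, ∀ z, T x y z → z ∈ A) := by
    intro A s hs
    constructor
    · intro h x hx y hy z hz
      obtain ⟨a, ha, e⟩ := (hs _).mp (h _ _ (io E z) ((hs _).mpr ⟨x, hx, rfl⟩)
        ((hs _).mpr ⟨y, hy, rfl⟩) (by
          rw [op_iff, maps_iff, ht]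
          exact ⟨((x, y), z), hz, rfl⟩))
      exact io_inj.mp e ▸ ha
    · intro h x y z hx hy hz
      obtain ⟨x, hx', rfl⟩ := (hs _).mp hx
      obtain ⟨y, hy', rfl⟩ := (hs _).mp hy
      rw [op_iff, maps_iff, ht] at hz
      obtain ⟨⟨⟨x', y'⟩, z'⟩, h1, h2⟩ := hz
      simp only [io_prod, kp_inj, io_inj] at h2
      obtain ⟨⟨rfl, rfl⟩, rfl⟩ := h2
      exact (hs _).mpr ⟨z', h _ hx' _ hy' _ h1, rfl⟩
  have sub : ∀ (A A' : Set α) (s s' : M), (∀ z, E z s ↔ ∃ a ∈ A, io E a = z) →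
      (∀ z, E z s' ↔ ∃ a ∈ A', io E a = z) → (Sub E s s' ↔ A ⊆ A') := by
    intro A A' s s' hs hs'
    constructor
    · intro h a ha
      obtain ⟨b, hb, e⟩ := (hs' _).mp (h _ ((hs _).mpr ⟨a, ha, rfl⟩))
      exact io_inj.mp e ▸ hb
    · intro h z hz
      obtain ⟨a, ha, rfl⟩ := (hs _).mp hz
      exact (hs' _).mpr ⟨a, h ha, rfl⟩
  obtain ⟨g, hg⟩ := ISet.exact (E := E) G
  obtain ⟨a₀, ha₀⟩ := ISet.exact (E := E) A₀
  obtain ⟨s, h1, h2, h3, h4⟩ := K.zorn t g a₀ ((key _ _ ha₀).mpr h₀) ((sub _ _ _ _ ha₀ hg).mpr hG)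
  have hs : ∀ z, E z s ↔ ∃ a ∈ {a : α | E (io E a) s}, io E a = z := by
    intro z
    constructor
    · intro hz
      obtain ⟨a, -, rfl⟩ := (hg _).mp (h3 z hz)
      exact ⟨a, hz, rfl⟩
    · rintro ⟨a, ha, rfl⟩
      exact ha
  refine ⟨_, ISet.trace s, (key _ _ hs).mp h1, (sub _ _ _ _ ha₀ hs).mp h2,
    (sub _ _ _ _ hs hg).mp h3, fun A' hA' c1 c2 c3 => ?_⟩
  obtain ⟨s', hs'⟩ := ISet.exact (E := E) A'
  exact (sub _ _ _ _ hs' hs).mp (h4 s' ((key _ _ hs').mpr c1) ((sub _ _ _ _ hs hs').mpr c2)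
    ((sub _ _ _ _ hs' hg).mpr c3))

end

/-- internal addition -/
abbrev IAdd (E : M → M → Prop) [Kit E] (α : Type v) [Add α] [Obj E α] : Prop :=
  IF2 E (HAdd.hAdd : α → α → α)

/-- internal multiplication -/
abbrev IMul (E : M → M → Prop) [Kit E] (α : Type v) [Mul α] [Obj E α] : Prop :=
  IF2 E (HMul.hMul : α → α → α)

/-- internal action -/
abbrev ISMul (E : M → M → Prop) [Kit E] (R : Type w) (α : Type v) [SMul R α] [Obj E R]
    [Obj E α] : Prop :=
  IF2 E (HSMul.hSMul : R → α → α)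

section
variable {α : Type v} {β : Type w} {R : Type*} [Obj E α] [Obj E β] [Obj E R]

instance IF1.neg [AddGroup β] [IAdd E β] : IF1 E (Neg.neg : β → β) :=
  ⟨IF.of_graph _ (IP.congr (inferInstance : IP E fun p : β × β => p.2 + p.1 = 0)
    fun p => by rw [neg_eq_iff_add_eq_zero, add_eq_zero_comm])⟩

instance IF2.sub [AddGroup β] [IAdd E β] : IF2 E (HSub.hSub : β → β → β) :=
  ⟨by simp only [sub_eq_add_neg]; infer_instance⟩

instance ISMul.self [Mul R] [IMul E R] : ISMul E R R :=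
  ⟨(inferInstance : IF E fun p : R × R => p.1 * p.2)⟩

instance IAdd.prod [Add α] [Add β] [IAdd E α] [IAdd E β] : IAdd E (α × β) :=
  ⟨(inferInstance : IF E fun p : (α × β) × (α × β) => (p.1.1 + p.2.1, p.1.2 + p.2.2))⟩

instance ISMul.prod [SMul R α] [SMul R β] [ISMul E R α] [ISMul E R β] : ISMul E R (α × β) :=
  ⟨(inferInstance : IF E fun p : R × (α × β) => (p.1 • p.2.1, p.1 • p.2.2))⟩

instance IAdd.submodule [Semiring R] [AddCommMonoid α] [Module R α] [IAdd E α]
    (S : Submodule R α) [ISet E (S : Set α)] : IAdd E S :=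
  ⟨IF.of_comp_io_eq (fun a : S => a.1) (fun _ => rfl) _
    (inferInstance : IF E fun p : S × S => p.1.1 + p.2.1)⟩

instance ISMul.submodule [Semiring R] [AddCommMonoid α] [Module R α] [ISMul E R α]
    (S : Submodule R α) [ISet E (S : Set α)] : ISMul E R S :=
  ⟨IF.of_comp_io_eq (fun a : S => a.1) (fun _ => rfl) _
    (inferInstance : IF E fun p : R × S => p.1 • p.2.1)⟩

omit K in
/-- a submodule given by an internal condition is internal -/
theorem ISet.of_mem_iff {σ : Type*} [SetLike σ α] (S : σ) (P : α → Prop) [h : IP E P]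
    (e : ∀ a, a ∈ S ↔ P a) : ISet E (S : Set α) :=
  ⟨h.ex.imp fun _ hs a => (e a).trans (hs a)⟩

/-- Zorn's lemma for internal submodules inside an internal set -/
theorem zorn_sub [Ring R] [AddCommGroup α] [Module R α] [IAdd E α] [ISMul E R α]
    (G : Set α) [ISet E G] (A₀ : Submodule R α) [ISet E (A₀ : Set α)] (hG : (A₀ : Set α) ⊆ G) :
    ∃ A : Submodule R α, ISet E (A : Set α) ∧ A₀ ≤ A ∧ (A : Set α) ⊆ G ∧
      ∀ w ∉ A, ∃ a ∈ A, ∃ r : R, a + r • w ∉ G := by
  obtain ⟨A, i1, h1, h2, h3, h4⟩ := zorn_iset (E := E)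
    (fun x y z : α => z = x + y ∨ ∃ r : R, z = r • x) G A₀ (by
      rintro x hx y hy _ (rfl | ⟨r, rfl⟩)
      exacts [A₀.add_mem hx hy, A₀.smul_mem r hx]) hG
  let A' : Submodule R α :=
    { carrier := A
      add_mem' := fun ha hb => h1 _ ha _ hb _ (Or.inl rfl)
      zero_mem' := h2 A₀.zero_mem
      smul_mem' := fun r _ ha => h1 _ ha _ ha _ (Or.inr ⟨r, rfl⟩) }
  refine ⟨A', i1, h2, h3, fun w hw => ?_⟩
  by_contra! H
  refine hw (h4 {z | ∃ a, a ∈ A ∧ ∃ r : R, z = a + r • w} inferInstance ?_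
    (fun a ha => ⟨a, ha, 0, by simp⟩) ?_ ⟨0, A'.zero_mem, 1, by simp⟩)
  · rintro _ ⟨a, ha, r, rfl⟩ _ ⟨b, hb, s, rfl⟩ _ (rfl | ⟨c, rfl⟩)
    · exact ⟨a + b, A'.add_mem ha hb, r + s, by rw [add_smul]; abel⟩
    · exact ⟨c • a, A'.smul_mem c ha, c * r, by rw [smul_add, mul_smul]⟩
  · rintro _ ⟨a, ha, r, rfl⟩
    exact H a ha r

example [Ring R] [IAdd E R] [IMul E R] [AddCommGroup α] [Module R α] [IAdd E α] [ISMul E R α]
    (G : Submodule R (R × α)) [ISet E (G : Set (R × α))] (I : Ideal R) [ISet E (I : Set R)]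
    (x₀ : α) :
    ISet E {p : R × α | ∀ r ∈ I, ∃ q, q ∈ G ∧ (q.1 = r * p.1 - 1 ∨ q.2 ≠ r • x₀ + p.2) ∧
      (r, x₀) ∉ G ∧ ∀ S : Pow E R, r ∈ S.1 → - r ∈ S.1} := inferInstance

end

end Pool.Agent.Lib.MP_57313b_al.Dia
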