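import Pool.Agent.Lib.MP_23bd8d_gt.Kit
import Pool.Agent.Lib.MP_57313b_al.Dia.Kit

/-! The generic extensions satisfy the set existence principles. -/

namespace Pool.Agent.Lib.MP_57313b_al.Dia

open Pool.Agent.Shared.Forcing Pool.Agent.Lib.MP_23bd8d_gt Cardinal

universe u

set_option synthInstance.maxSize 4000

variable {B : Type u} [CompleteBooleanAlgebra B] {l : Cardinal.{u}} [hl : Fact l.IsInaccessible]

instance Dec.op (f X Y Z : HName B l) :
    Dec (fun U => Op (El l U) (cls U f) (cls U X) (cls U Y) (cls U Z)) := by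
  unfold Op; infer_instance

instance Dec.closed (X Y : HName B l) : Dec (fun U => Closed (El l U) (cls U X) (cls U Y)) := by
  unfold Closed; infer_instance

/-- the name with the elements listed in `g` and the values `v` -/
def kmNm (g : SName B l) (v : g.idx → B) : SName B l := SName.mk g.idx g.card_idx g.fn v

omit hl in
theorem km_mono {g : SName B l} {v w : g.idx → B} (h : v ≤ w) (U : Ultra B) :
    Sub (El l U) (sm U (kmNm g v)) (sm U (kmNm g w)) := by
  intro z hz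
  obtain ⟨Z, rfl⟩ := cls_surj z
  refine wlog_mk Z g.card_idx g.fn v U hz ?_
  intro U i hi e
  rw [e]
  exact mem_mk g.card_idx g.fn w i (Ultra.mono hi (h i))

omit hl in
theorem km_sub {g : SName B l} {v : g.idx → B} (h : v ≤ g.val) (U : Ultra B) :
    Sub (El l U) (sm U (kmNm g v)) (sm U g) := by
  intro z hz
  obtain ⟨Z, rfl⟩ := cls_surj z
  refine wlog_mk Z g.card_idx g.fn v U hz ?_
  intro U i hi e
  rw [e]
  exact mem_intro g i (Ultra.mono hi (h i))

omit hl in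
theorem km_sup {g : SName B l} (v w : g.idx → B) (U : Ultra B) (z : Md l U) :
    El l U z (sm U (kmNm g (v ⊔ w))) ↔ El l U z (sm U (kmNm g v)) ∨ El l U z (sm U (kmNm g w)) := by
  refine ⟨fun hz => ?_, fun h => h.elim (km_mono le_sup_left U z) (km_mono le_sup_right U z)⟩
  obtain ⟨Z, rfl⟩ := cls_surj z
  refine wlog_mk Z g.card_idx g.fn (v ⊔ w) U hz ?_
  intro U i hi e
  rw [e]
  exact (Ultra.sup_mem.mp hi).imp (mem_mk g.card_idx g.fn v i) (mem_mk g.card_idx g.fn w i)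

omit hl in
@[elab_as_elim]
theorem km_wlog {Φ : Ultra B → Prop} {g : SName B l} (c : Set (g.idx → B)) (Z : HName B l)
    (U : Ultra B) (h : El l U (cls U Z) (sm U (kmNm g (sSup c)))) [Dec Φ]
    (H : ∀ U, ∀ v ∈ c, El l U (cls U Z) (sm U (kmNm g v)) → Φ U) : Φ U := by
  refine wlog_mk Z g.card_idx g.fn (sSup c) U h ?_
  intro U i hi e
  rw [sSup_apply] at hi
  revert e
  refine wlog_sup _ U hi ?_
  intro U v hv e
  exact H U v.1 v.2 (e ▸ mem_mk g.card_idx g.fn v.1 i hv)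

theorem km_closed_congr {M : Type*} {E : M → M → Prop} {T A A' : M} (h : ∀ z, E z A' ↔ E z A)
    (hA : Closed E T A) : Closed E T A' :=
  fun x y z hx hy ho => (h z).2 (hA x y z ((h x).1 hx) ((h y).1 hy) ho)

theorem km_zorn (T A₀ : HName B l) (g : SName B l) : ∃ v : g.idx → B, ∀ U : Ultra B,
    Closed (El l U) (cls U T) (cls U A₀) → Sub (El l U) (cls U A₀) (sm U g) →
    Closed (El l U) (cls U T) (sm U (kmNm g v)) ∧ Sub (El l U) (cls U A₀) (sm U (kmNm g v)) ∧
      Sub (El l U) (sm U (kmNm g v)) (sm U g) ∧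
      ∀ A', Closed (El l U) (cls U T) A' → Sub (El l U) (sm U (kmNm g v)) A' →
        Sub (El l U) A' (sm U g) → Sub (El l U) A' (sm U (kmNm g v)) := by
  let S : Set (g.idx → B) := {v | v ≤ g.val ∧ ∀ U : Ultra B,
    Closed (El l U) (cls U T) (cls U A₀) → Sub (El l U) (cls U A₀) (sm U g) →
    Closed (El l U) (cls U T) (sm U (kmNm g v)) ∧ Sub (El l U) (cls U A₀) (sm U (kmNm g v))}
  have h0 : (fun i => g.val i ⊓ bv fun U => El l U (sm U (g.fn i)) (cls U A₀)) ∈ S := by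
    refine ⟨fun i => inf_le_left, fun U h1 h2 => ?_⟩
    have key : ∀ z, El l U z (sm U (kmNm g
        fun i => g.val i ⊓ bv fun U => El l U (sm U (g.fn i)) (cls U A₀))) ↔
        El l U z (cls U A₀) := fun z =>
      (mem_sepName g (fun U z => El l U z (cls U A₀)) U z).trans
        ⟨fun h => h.2, fun h => ⟨h2 z h, h⟩⟩
    exact ⟨km_closed_congr key h1, fun z hz => (key z).2 hz⟩
  have hchain : ∀ c ⊆ S, IsChain (· ≤ ·) c → ∀ y ∈ c, ∃ ub ∈ S, ∀ z ∈ c, z ≤ ub := by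
    intro c hc hch y₀ hy₀
    refine ⟨sSup c, ⟨sSup_le fun v hv => (hc hv).1, fun U h1 h2 => ⟨?_, fun z hz =>
      km_mono (le_sSup hy₀) U z (((hc hy₀).2 U h1 h2).2 z hz)⟩⟩, fun z hz => le_sSup hz⟩
    intro x y z hx hy ho
    obtain ⟨X, rfl⟩ := cls_surj x
    obtain ⟨Y, rfl⟩ := cls_surj y
    obtain ⟨Z, rfl⟩ := cls_surj z
    revert h1 h2 hy ho
    refine km_wlog c X U hx ?_
    intro U v hv hx h1 h2 hy ho
    revert h1 h2 hx ho
    refine km_wlog c Y U hy ?_
    intro U w hw hy hx h1 h2 ho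
    rcases hch.total hv hw with h | h
    · exact km_mono (le_sSup hw) U _ (((hc hw).2 U h1 h2).1 _ _ _ (km_mono h U _ hx) hy ho)
    · exact km_mono (le_sSup hv) U _ (((hc hv).2 U h1 h2).1 _ _ _ hx (km_mono h U _ hy) ho)
  obtain ⟨m, -, hm⟩ := zorn_le_nonempty₀ S hchain _ h0
  refine ⟨m, fun U h1 h2 => ⟨(hm.prop.2 U h1 h2).1, (hm.prop.2 U h1 h2).2, km_sub hm.prop.1 U,
    fun A' c1 c2 c3 => ?_⟩⟩
  obtain ⟨Y, rfl⟩ := cls_surj A'
  let w : g.idx → B := fun i => g.val i ⊓ bv fun U =>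
    (Closed (El l U) (cls U T) (cls U Y) ∧ Sub (El l U) (sm U (kmNm g m)) (cls U Y) ∧
      Sub (El l U) (cls U Y) (sm U g)) ∧ El l U (sm U (g.fn i)) (cls U Y)
  have hw : ∀ (U : Ultra B) z, El l U z (sm U (kmNm g (m ⊔ w))) ↔
      El l U z (sm U (kmNm g m)) ∨ El l U z (sm U g) ∧
        (Closed (El l U) (cls U T) (cls U Y) ∧ Sub (El l U) (sm U (kmNm g m)) (cls U Y) ∧
          Sub (El l U) (cls U Y) (sm U g)) ∧ El l U z (cls U Y) := fun U z =>
    (km_sup m w U z).trans (or_congr Iff.rfl (mem_sepName g (fun U z =>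
      (Closed (El l U) (cls U T) (cls U Y) ∧ Sub (El l U) (sm U (kmNm g m)) (cls U Y) ∧
        Sub (El l U) (cls U Y) (sm U g)) ∧ El l U z (cls U Y)) U z))
  have hS : m ⊔ w ∈ S := by
    refine ⟨sup_le hm.prop.1 fun i => inf_le_left, fun U h1 h2 => ⟨?_, fun z hz =>
      km_mono le_sup_left U z ((hm.prop.2 U h1 h2).2 z hz)⟩⟩
    by_cases hC : Closed (El l U) (cls U T) (cls U Y) ∧
        Sub (El l U) (sm U (kmNm g m)) (cls U Y) ∧ Sub (El l U) (cls U Y) (sm U g)
    · exact km_closed_congr (fun z => (hw U z).trans ⟨fun h => h.elim (hC.2.1 z) fun h => h.2.2,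
        fun h => Or.inr ⟨hC.2.2 z h, hC, h⟩⟩) hC.1
    · exact km_closed_congr (fun z => (hw U z).trans
        ⟨fun h => h.elim id fun h => (hC h.2.1).elim, Or.inl⟩) (hm.prop.2 U h1 h2).1
  intro z hz
  exact km_mono (hm.le_of_ge hS le_sup_left) U z
    ((hw U z).2 (Or.inr ⟨c3 z hz, ⟨c1, c2, c3⟩, hz⟩))

/-- Zorn's lemma in the generic extension. -/
theorem md_zorn (U : Ultra B) (T G A₀ : Md l U) (h₀ : Closed (El l U) T A₀)
    (hG : Sub (El l U) A₀ G) : ∃ A, Closed (El l U) T A ∧ Sub (El l U) A₀ A ∧ Sub (El l U) A G ∧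
      ∀ A', Closed (El l U) T A' → Sub (El l U) A A' → Sub (El l U) A' G → Sub (El l U) A' A := by
  obtain ⟨T, rfl⟩ := cls_surj T
  obtain ⟨G, rfl⟩ := cls_surj G
  obtain ⟨A₀, rfl⟩ := cls_surj A₀
  revert h₀ hG
  refine wlog_small G U ?_
  intro U g e h₀ hG
  rw [e] at hG ⊢
  obtain ⟨v, hv⟩ := km_zorn T A₀ g
  exact ⟨_, hv U h₀ hG⟩

/-- The generic extensions satisfy the set existence principles. -/
theorem kit_md (hT : Tame B l) (U : Ultra B) : Kit (El l U) where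
  ext := md_ext U
  pair := md_pair U
  diff := fun a s => by
    obtain ⟨S, rfl⟩ := cls_surj s
    exact md_sep (fun U z => ¬ El l U z (cls U S)) U a
  prod := fun a b => by
    obtain ⟨P, hP⟩ := md_prod hT U a b
    obtain ⟨A, rfl⟩ := cls_surj a
    obtain ⟨C, rfl⟩ := cls_surj b
    obtain ⟨c, hc⟩ := md_sep (fun U z => ∃ x y, El l U x (cls U A) ∧ El l U y (cls U C) ∧
      IsKPair (El l U) z x y) U P
    exact ⟨c, fun z => (hc z).trans
      ⟨fun h => h.2, fun ⟨x, y, h1, h2, h3⟩ => ⟨hP z x y h1 h2 h3, x, y, h1, h2, h3⟩⟩⟩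
  dom := fun a s => by
    obtain ⟨S, rfl⟩ := cls_surj s
    exact md_sep (fun U z => ∃ y, Maps (El l U) (cls U S) z y) U a
  power := md_power hT U
  rel_eq := fun a => by
    obtain ⟨f, -, hf⟩ := md_rel hT (fun U x y => y = x) U a a
    exact ⟨f, fun x y => (hf x y).trans ⟨fun h => ⟨h.1, h.2.2⟩, fun h => ⟨h.1, h.2 ▸ h.1, h.2⟩⟩⟩
  rel_mem := fun a b =>
    (md_rel hT (fun U x y => El l U x y) U a b).imp fun _ h => h.2
  rel_fst := fun a b =>
    (md_rel hT (fun U x y => ∃ w, IsKPair (El l U) x y w) U a b).imp fun _ h => h.2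
  rel_snd := fun a b =>
    (md_rel hT (fun U x y => ∃ w, IsKPair (El l U) x w y) U a b).imp fun _ h => h.2
  rel_comp := fun a b g h => by
    obtain ⟨G, rfl⟩ := cls_surj g
    obtain ⟨H, rfl⟩ := cls_surj h
    exact (md_rel hT (fun U x y => ∃ w, Maps (El l U) (cls U G) x w ∧
      Maps (El l U) (cls U H) w y) U a b).imp fun _ h => h.2
  rel_pair := fun a b g h => by
    obtain ⟨G, rfl⟩ := cls_surj g
    obtain ⟨H, rfl⟩ := cls_surj h
    exact (md_rel hT (fun U x y => ∃ w w', Maps (El l U) (cls U G) x w ∧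
      Maps (El l U) (cls U H) x w' ∧ IsKPair (El l U) y w w') U a b).imp fun _ h => h.2
  zorn := md_zorn U

end Pool.Agent.Lib.MP_57313b_al.Dia
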