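import Pool.Agent.Lib.MP_57313b_al.Dia.LI0

/-! Independence lemmas. -/

set_option linter.unusedSectionVars false

namespace Pool.Agent.Lib.MP_57313b_al.Dia

variable {F : Type} [Field F] {A : Type} [Ring A] [Algebra F A]

section module
variable {U : Type} [AddCommGroup U] [Module A U] [Module F U] [IsScalarTower F A U]

/-- the action of a ring element as a map that is linear over the field -/
def liAct (F : Type) [Field F] {A : Type} [Ring A] [Algebra F A] (U : Type) [AddCommGroup U]
    [Module A U] [Module F U] [IsScalarTower F A U] (a : A) : U →ₗ[F] U where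
  toFun u := a • u
  map_add' := smul_add a
  map_smul' c u := smul_comm a c u

theorem liAct_apply (a : A) (u : U) : liAct F U a u = a • u := rfl

/-- for frames `x l`, `y l` nonzero vectors `w l ∈ W ∩ x l U` would be independent -/
theorem Fr.avoid (h : Fr A) (W : Submodule F U) [FiniteDimensional F W] :
    ∃ x y : A, y * x = 1 ∧ ∀ u : U, x • u ∈ W → u = 0 := by
  classical
  obtain ⟨x, y, hxy⟩ := h
  by_contra hcon
  push Not at hcon
  have h1 : ∀ l, ∃ u : U, x l • u ∈ W ∧ u ≠ 0 := fun l =>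
    hcon (x l) (y l) (by simp [hxy])
  choose u hu hu0 using h1
  have hli : LinearIndependent F fun l : ℕ => (⟨x l • u l, hu l⟩ : W) := by
    refine LinearIndependent.of_comp W.subtype ?_
    rw [linearIndependent_iff']
    intro s g hs i hi
    have h2 : y i • ∑ l ∈ s, g l • x l • u l = 0 := by
      have : ∑ l ∈ s, g l • x l • u l = 0 := hs
      rw [this, smul_zero]
    rw [Finset.smul_sum, Finset.sum_eq_single i] at h2
    · rw [smul_comm, smul_smul (y i), hxy, if_pos rfl, one_smul] at h2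
      exact (smul_eq_zero.1 h2).resolve_right (hu0 i)
    · intro l _ hl
      rw [smul_comm, smul_smul (y i), hxy, if_neg (Ne.symm hl), zero_smul, smul_zero]
    · exact fun h => absurd hi h
  exact Module.Finite.not_linearIndependent_of_infinite _ hli

/-- take `z ∈ Z` with kernel of least dimension; `x₁ • z + x₂ • z'` has kernel
`ker z ⊓ ker z'` -/
theorem Fr.exists_inj (h : Fr A) {W : Type} [AddCommGroup W] [Module F W] [FiniteDimensional F W]
    (Z : Submodule A (W →ₗ[F] U)) (hZ : ∀ w, w ≠ 0 → ∃ z ∈ Z, z w ≠ 0) :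
    ∃ z ∈ Z, Function.Injective z := by
  classical
  obtain ⟨x, y, hxy⟩ := h
  have hex : ∃ n, ∃ z ∈ Z, Module.finrank F (LinearMap.ker z) = n := ⟨_, 0, Z.zero_mem, rfl⟩
  obtain ⟨z, hz, hn⟩ := Nat.find_spec hex
  refine ⟨z, hz, ?_⟩
  rw [← LinearMap.ker_eq_bot, Submodule.eq_bot_iff]
  intro w hw
  by_contra hw0
  obtain ⟨z', hz', hw'⟩ := hZ w hw0
  have key : ∀ v, (x 0 • z + x 1 • z') v = 0 → z v = 0 ∧ z' v = 0 := by
    intro v hv
    have hv' : x 0 • z v + x 1 • z' v = 0 := hv
    have h0 : y 0 • (x 0 • z v + x 1 • z' v) = 0 := by rw [hv', smul_zero]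
    have h1 : y 1 • (x 0 • z v + x 1 • z' v) = 0 := by rw [hv', smul_zero]
    rw [smul_add, smul_smul, smul_smul, hxy, hxy] at h0 h1
    constructor
    · simpa using h0
    · simpa using h1
  have hlt : LinearMap.ker (x 0 • z + x 1 • z') < LinearMap.ker z := by
    refine lt_of_le_of_ne (fun v hv => (key v hv).1) fun he => ?_
    exact hw' (key w (by rw [← he] at hw; exact hw)).2
  have h3 := Submodule.finrank_lt_finrank_of_lt hlt
  rw [hn] at h3
  exact Nat.find_min hex h3 ⟨_, Z.add_mem (Z.smul_mem _ hz) (Z.smul_mem _ hz'), rfl⟩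

theorem Ind.comp {V : Submodule F U} {κ κ' : Type} [Fintype κ] [Fintype κ'] {γ : κ → A}
    (h : Ind V γ) (e : κ' → κ) (he : Function.Injective e) : Ind V (γ ∘ e) := by
  classical
  intro v hv hs k
  have h1 := h (fun j => ∑ k' ∈ Finset.univ.filter (fun k' => e k' = j), v k')
    (fun j => V.sum_mem fun k' _ => hv k') (by
      rw [← hs, ← Finset.sum_fiberwise Finset.univ e]
      refine Finset.sum_congr rfl fun j _ => ?_
      rw [Finset.smul_sum]
      refine Finset.sum_congr rfl fun k' hk' => ?_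
      rw [← (Finset.mem_filter.1 hk').2]
      rfl) (e k)
  rw [Finset.sum_eq_single k] at h1
  · exact h1
  · intro k' hk' hne
    exact absurd (he (Finset.mem_filter.1 hk').2) hne
  · intro hk
    exact absurd (by simp) hk

theorem Ind.sum (hA : Fr A) {V : Submodule F U} [FiniteDimensional F V] {κ κ' : Type}
    [Fintype κ] [Fintype κ'] {γ : κ → A} {γ' : κ' → A} (h : Ind V γ) (h' : Ind V γ') :
    ∃ x : A, Ind V (Sum.elim γ fun k => x * γ' k) := by
  obtain ⟨x, y, -, hx⟩ := hA.avoid (F := F) (⨆ k, V.map (liAct F U (γ k)))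
  refine ⟨x, fun v hv hs => ?_⟩
  rw [Fintype.sum_sum_type] at hs
  simp only [Sum.elim_inl, Sum.elim_inr, mul_smul] at hs
  rw [← Finset.smul_sum] at hs
  have h1 : ∑ k, γ' k • v (Sum.inr k) = 0 := by
    refine hx _ ?_
    rw [eq_neg_of_add_eq_zero_right hs]
    refine Submodule.neg_mem _ (Submodule.sum_mem _ fun k _ => ?_)
    exact Submodule.mem_iSup_of_mem k ⟨_, hv _, rfl⟩
  rw [h1, smul_zero, add_zero] at hs
  rintro (k | k)
  · exact h (fun k => v (Sum.inl k)) (fun k => hv _) hs k
  · exact h' (fun k => v (Sum.inr k)) (fun k => hv _) h1 k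

theorem Ind.prod {V : Submodule F U} {W κ : Type} [Fintype W] [DecidableEq W] [Fintype κ]
    {x y : W → A} (hxy : ∀ i j, y i * x j = if i = j then 1 else 0) {η : W → κ → A}
    (h : ∀ w, Ind V (η w)) : Ind V fun p : W × κ => x p.1 * η p.1 p.2 := by
  rintro v hv hs ⟨w, k⟩
  refine h w (fun k => v (w, k)) (fun k => hv _) ?_ k
  have h1 : y w • ∑ p : W × κ, (x p.1 * η p.1 p.2) • v p = 0 := by rw [hs, smul_zero]
  rw [Fintype.sum_prod_type, Finset.smul_sum, Finset.sum_eq_single w] at h1
  · rw [← h1, Finset.smul_sum]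
    refine Finset.sum_congr rfl fun k _ => ?_
    rw [smul_smul, ← mul_assoc, hxy, if_pos rfl, one_mul]
  · intro w' _ hw
    rw [Finset.smul_sum]
    refine Finset.sum_eq_zero fun k _ => ?_
    rw [smul_smul, ← mul_assoc, hxy, if_neg (Ne.symm hw), zero_mul, zero_smul]
  · exact fun hw => absurd (Finset.mem_univ _) hw

/-- `γ` in the annihilator of `X` modulo `N`, injective on `V` (`Mx.ann`, `Fr.exists_inj`);
then `rk` -/
theorem exists_small (hA : Reg A) (hfr : Fr A) {N : Ideal A} (hN : Mx N)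
    (hU : ∀ u : U, (∀ m ∈ N, m • u = 0) → u = 0) (V : Submodule F U) [FiniteDimensional F V]
    {κ : Type} [Finite κ] (X : κ → A) :
    ∃ γ g, (∀ v ∈ V, γ • v = 0 → v = 0) ∧ Sm N g ∧ ∀ k, γ * X k * g = 0 := by
  let J : Ideal A := ⨅ k, Submodule.comap (LinearMap.toSpanSingleton A A (X k)) N
  have hJ : ∀ w, w ∈ J ↔ ∀ k, w * X k ∈ N := fun w => by
    simp [J, Submodule.mem_iInf, LinearMap.toSpanSingleton_apply]
  obtain ⟨z, ⟨γ, hγ, rfl⟩, hinj⟩ := hfr.exists_inj (F := F)
    (Submodule.map (LinearMap.toSpanSingleton A (V →ₗ[F] U) V.subtype) J) (by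
      intro w hw
      obtain ⟨γ, h1, h2⟩ := hN.ann hU X (u := (w : U)) (by simpa using hw)
      exact ⟨_, ⟨γ, (hJ γ).2 h1, rfl⟩, h2⟩)
  obtain ⟨g, hg, -, hk⟩ := hA.rk (Sm.one N) (fun k => γ * X k) ((hJ γ).1 hγ)
  refine ⟨γ, g, fun v hv h0 => ?_, hg, hk⟩
  have : (⟨v, hv⟩ : V) = 0 := hinj (by rw [map_zero]; exact h0)
  exact congrArg Subtype.val this

end module

/-- Combined independence. `ζ₀`, `a j` from `li`; `γ`, `g` from `exists_small` for
`X = e i * a j`; `c g b = 1`; `x` from `Fr.avoid` for `W = c ζ₀ V`; `ζ = c ζ₀ + x γ`,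
new `a j = a j * g * b`. -/
theorem Good.cli {M : Ideal A} (h : Good F M) {U : Type} [AddCommGroup U] [Module A U]
    [Module F U] [IsScalarTower F A U] (hU : ∀ u : U, (∀ m ∈ M, m • u = 0) → u = 0)
    (V : Submodule F U) [FiniteDimensional F V] {κ : Type} [Fintype κ] [DecidableEq κ]
    {e : κ → A} (he : LinearIndependent F e) :
    ∃ (ζ : A) (a : κ → A), (∀ i j, ζ * e i * a j = if i = j then 1 else 0) ∧
      ∀ v ∈ V, ζ • v = 0 → v = 0 := by
  obtain ⟨ζ, a, hζ⟩ := h.pre.li he
  obtain ⟨γ, g, hγ, hg, hk⟩ := exists_small h.reg h.fr h.pt.1 hU V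
    fun p : κ × κ => e p.1 * a p.2
  obtain ⟨c, b, hcb⟩ := h.pi g (hg.ne_zero h.pt.1)
  obtain ⟨x, y, -, hx⟩ := h.fr.avoid (F := F) (V.map (liAct F U (c * ζ)))
  refine ⟨c * ζ + x * γ, fun j => a j * g * b, fun i j => ?_, fun v hv h0 => ?_⟩
  · have h1 : (c * ζ + x * γ) * e i * (a j * g * b) =
        c * (ζ * e i * a j) * g * b + x * (γ * (e i * a j) * g) * b := by noncomm_ring
    rw [h1, hk (i, j), hζ]
    split_ifs
    · simpa using hcb
    · simp
  · rw [add_smul, mul_smul x] at h0
    refine hγ v hv (hx _ ?_)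
    rw [eq_neg_of_add_eq_zero_right h0]
    exact Submodule.neg_mem _ ⟨v, hv, rfl⟩

/-- Take a basis `e μ` of `W`, `b ν * e μ * ζ = δ` (`ri`), frames `x j`, `y j`, and `c` from
`Fr.avoid` in `A ⧸ N` for the span of the classes of `y j * b ν`; `G j = ζ * x j * c`. -/
theorem Pre.am (h : Pre F A) {N : Ideal A} (hN : 1 ∉ N) (W : Submodule F A)
    [FiniteDimensional F W] (J : Type) [Fintype J] :
    ∃ G : J → A, ∀ (v : J → A) (c : F), (∀ j, v j ∈ W) →
      ∑ j, v j * G j - algebraMap F A c ∈ N → c = 0 ∧ ∀ j, v j = 0 := by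
  classical
  let B := Module.finBasis F W
  have hli : LinearIndependent F fun μ => (B μ : A) :=
    B.linearIndependent.map' W.subtype W.ker_subtype
  obtain ⟨ζ, b, hb⟩ := h.ri hli
  obtain ⟨x, y, hxy⟩ := h.fr.of_countable J
  have hsc : ∀ t : F, algebraMap F A t ∈ N → t = 0 := by
    intro t ht
    by_contra h0
    have := N.mul_mem_left (algebraMap F A t⁻¹) ht
    rw [← map_mul, inv_mul_cancel₀ h0, map_one] at this
    exact hN this
  let S : Submodule F (A ⧸ N) := Submodule.span F
    (Set.range fun p : J × Fin (Module.finrank F W) =>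
      (Submodule.Quotient.mk (y p.1 * b p.2) : A ⧸ N))
  have : FiniteDimensional F S := FiniteDimensional.span_of_finite F (Set.finite_range _)
  obtain ⟨d, d', -, hd⟩ := h.fr.avoid (F := F) S
  have hcoef : ∀ (w : W) ν, b ν * (w : A) * ζ = algebraMap F A (B.repr w ν) := by
    intro w ν
    have h1 : (w : A) = ∑ μ, B.repr w μ • (B μ : A) := by
      have h0 := congrArg W.subtype (B.sum_repr w)
      rw [map_sum] at h0
      exact h0.symm
    conv_lhs => rw [h1]
    rw [Finset.mul_sum, Finset.sum_mul, Finset.sum_eq_single ν]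
    · rw [mul_smul_comm, smul_mul_assoc, hb, if_pos rfl, Algebra.algebraMap_eq_smul_one]
    · intro μ _ hμ
      rw [mul_smul_comm, smul_mul_assoc, hb, if_neg (Ne.symm hμ), smul_zero]
    · exact fun hν => absurd (Finset.mem_univ _) hν
  refine ⟨fun j => ζ * x j * d, fun v c hv hs => ?_⟩
  have hv0 : ∀ j, v j = 0 := by
    intro j
    have h2 : ∀ ν, B.repr ⟨v j, hv j⟩ ν = 0 := by
      intro ν
      have h3 := N.mul_mem_left (y j * b ν) hs
      have h4 : y j * b ν * ∑ i, v i * (ζ * x i * d) =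
          d * algebraMap F A (B.repr ⟨v j, hv j⟩ ν) := by
        have h5 : ∀ i, y j * b ν * (v i * (ζ * x i * d)) =
            B.repr ⟨v i, hv i⟩ ν • (y j * x i * d) := by
          intro i
          have h6 := hcoef ⟨v i, hv i⟩ ν
          have h7 : y j * b ν * (v i * (ζ * x i * d)) = y j * (b ν * v i * ζ) * (x i * d) := by
            noncomm_ring
          rw [h7]
          simp only at h6
          rw [h6, Algebra.algebraMap_eq_smul_one]
          simp [mul_assoc]
        rw [Finset.mul_sum, Finset.sum_eq_single j]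
        · rw [h5, hxy, if_pos rfl, one_mul, Algebra.algebraMap_eq_smul_one]
          simp
        · intro i _ hi
          rw [h5, hxy, if_neg (Ne.symm hi), zero_mul, smul_zero]
        · exact fun hj => absurd (Finset.mem_univ _) hj
      rw [mul_sub, h4] at h3
      have h8 : d • (Submodule.Quotient.mk (algebraMap F A (B.repr ⟨v j, hv j⟩ ν)) : A ⧸ N) =
          c • (Submodule.Quotient.mk (y j * b ν) : A ⧸ N) := by
        rw [← Submodule.Quotient.mk_smul, ← Submodule.Quotient.mk_smul,
          Submodule.Quotient.eq]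
        have h0 : c • (y j * b ν) = y j * b ν * algebraMap F A c := by
          rw [Algebra.algebraMap_eq_smul_one, mul_smul_comm, mul_one]
        rw [h0, smul_eq_mul]
        exact h3
      have h9 := hd _ (by
        rw [h8]
        exact S.smul_mem c (Submodule.subset_span ⟨(j, ν), rfl⟩))
      exact hsc _ ((Submodule.Quotient.mk_eq_zero N).1 h9)
    have h10 : (⟨v j, hv j⟩ : W) = 0 := B.repr.injective (by ext ν; simpa using h2 ν)
    exact congrArg Subtype.val h10
  refine ⟨hsc c ?_, hv0⟩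
  simpa [hv0] using hs

end Pool.Agent.Lib.MP_57313b_al.Dia
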