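import Pool.Agent.Lib.MP_57313b_al.Dia.Alg2

/-! Independent elements become frames; points in countable rings. -/

namespace Pool.Agent.Lib.MP_57313b_al.Dia

variable {F : Type} [Field F] {A : Type} [Ring A] [Algebra F A]

/-- a frame for the family `e` -/
def LI0Frame {κ : Type} (e : κ → A) (ζ : A) (a : κ → A) : Prop :=
  (∀ i, ζ * e i * a i = 1) ∧ ∀ i j, i ≠ j → ζ * e i * a j = 0

theorem LI0Frame.sum_left {κ : Type} [Fintype κ] {e : κ → A} {ζ : A} {a : κ → A}
    (hf : LI0Frame e ζ a) (i : κ) (u : κ → A) : ζ * e i * ∑ j, a j * u j = u i := by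
  rw [Finset.mul_sum, Finset.sum_eq_single i]
  · rw [← mul_assoc, hf.1, one_mul]
  · intro j _ hj; rw [← mul_assoc, hf.2 i j hj.symm, zero_mul]
  · simp

theorem LI0Frame.sum_right {κ : Type} [Fintype κ] {e : κ → A} {ζ : A} {a : κ → A}
    (hf : LI0Frame e ζ a) (i : κ) (u : κ → A) : (∑ j, u j * (ζ * e j)) * a i = u i := by
  rw [Finset.sum_mul, Finset.sum_eq_single i]
  · rw [mul_assoc, hf.1, mul_one]
  · intro j _ hj; rw [mul_assoc, hf.2 j i hj, mul_zero]
  · simp

theorem LI0Frame.rescale {κ : Type} {e : κ → A} {ζ : A} {a : κ → A}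
    (hf : LI0Frame e ζ a) {c b : A} (h : c * b = 1) :
    LI0Frame e (c * ζ) fun j => a j * b := by
  have key : ∀ i j, c * ζ * e i * (a j * b) = c * (ζ * e i * a j) * b := fun i j => by
    simp only [mul_assoc]
  exact ⟨fun i => by rw [key, hf.1, mul_one, h],
    fun i j hij => by rw [key, hf.2 i j hij, mul_zero, zero_mul]⟩

theorem LI0Frame.extend (hpi : PI A) {κ : Type} [Fintype κ] {e : Option κ → A} {ζ : A}
    {a : κ → A} (hf : LI0Frame (fun i => e (some i)) ζ a)
    (hβ : ζ * e none * (1 - ∑ j, a j * (ζ * e (some j))) ≠ 0) :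
    ∃ ζ' a', LI0Frame e ζ' a' := by
  obtain ⟨c, b, hcb⟩ := hpi _ hβ
  set E := ∑ j, a j * (ζ * e (some j)) with hE
  have h0 : ∀ i, c * ζ * e (some i) * ((1 - E) * b) = 0 := fun i => by
    have : ζ * e (some i) * E = ζ * e (some i) := hf.sum_left i _
    calc _ = c * (ζ * e (some i) - ζ * e (some i) * E) * b := by noncomm_ring
      _ = 0 := by rw [this, sub_self, mul_zero, zero_mul]
  have h1 : c * ζ * e none * ((1 - E) * b) = 1 := by simpa only [mul_assoc] using hcb
  have hr := hf.rescale (c := c) (b := ζ * e none * (1 - E) * b)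
    (by simpa only [mul_assoc] using hcb)
  set a' : κ → A := fun j => a j * (ζ * e none * (1 - E) * b) with ha'
  refine ⟨c * ζ, fun o => o.elim ((1 - E) * b)
    fun j => a' j - (1 - E) * b * (c * ζ * e none * a' j), ?_, ?_⟩
  · rintro (_ | i)
    · exact h1
    · simp only [Option.elim]
      rw [mul_sub, ← mul_assoc _ ((1 - E) * b), h0, zero_mul, sub_zero]
      exact hr.1 i
  · rintro (_ | i) (_ | j) hij
    · exact (hij rfl).elim
    · simp only [Option.elim]
      rw [mul_sub, ← mul_assoc _ ((1 - E) * b), h1, one_mul, sub_self]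
    · exact h0 i
    · simp only [Option.elim]
      rw [mul_sub, ← mul_assoc _ ((1 - E) * b), h0, zero_mul, sub_zero]
      exact hr.2 i j fun e => hij (congrArg some e)

theorem Pre.li0_step (h : Pre F A) {κ : Type} [Fintype κ] {e : Option κ → A}
    (he : LinearIndependent F e) {ζ : A} {a : κ → A}
    (hf : LI0Frame (fun i => e (some i)) ζ a) : ∃ ζ' a', LI0Frame e ζ' a' := by
  by_cases hβ : ζ * e none * (1 - ∑ j, a j * (ζ * e (some j))) = 0
  swap
  · exact hf.extend h.pi hβ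
  by_cases hs : ∀ j, ∃ l : F, ζ * e none * a j = algebraMap F A l
  swap
  · push Not at hs
    obtain ⟨j₀, hj⟩ := hs
    obtain ⟨g, u, hgu, hne⟩ := h.nc _ hj
    obtain ⟨c, b, hcb⟩ := h.pi _ hne
    have hr := hf.rescale (c := c * g) (b := ζ * e none * a j₀ * u * b)
      (by rw [← hcb]; simp only [mul_assoc])
    refine hr.extend h.pi fun h0 => h.ne ?_
    have h1 := hf.sum_right j₀ fun j => a j * (ζ * e none * a j₀ * u * b) * (c * g)
    have h2 : ∑ j, a j * (ζ * e none * a j₀ * u * b) * (c * g * ζ * e (some j)) =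
        ∑ j, a j * (ζ * e none * a j₀ * u * b) * (c * g) * (ζ * e (some j)) := by
      simp only [mul_assoc]
    rw [h2] at h0
    set E := ∑ j, a j * (ζ * e none * a j₀ * u * b) * (c * g) * (ζ * e (some j))
    calc (1 : A) = c * (g * (ζ * e none * a j₀) * u) * b := hcb.symm
      _ = c * g * ζ * e none * (1 - E) * a j₀ * u * b +
          c * g * ζ * e none * (E * a j₀) * u * b := by noncomm_ring
      _ = c * g * ζ * e none * (a j₀ * (ζ * e none * a j₀ * u * b) * c) * (g * u) * b := by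
          rw [h0, h1]; noncomm_ring
      _ = 0 := by rw [hgu, mul_zero, zero_mul]
  choose l hl using hs
  set q := e none - ∑ j, l j • e (some j) with hq
  have hq0 : q ≠ 0 := by
    intro h0
    have := Fintype.linearIndependent_iff.1 he (fun o => o.elim 1 fun j => - l j)
      (by rw [Fintype.sum_option]; simpa [sub_eq_add_neg, hq] using h0) none
    simp at this
  have hζq : ζ * q = 0 := by
    rw [← hβ, hq, mul_sub, mul_sub, mul_one, Finset.mul_sum, Finset.mul_sum]
    congr 1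
    refine Finset.sum_congr rfl fun j _ => ?_
    rw [← mul_assoc, hl, mul_smul_comm, Algebra.smul_def]
  obtain ⟨N, hN⟩ := exists_mx h.ne
  obtain ⟨w, hw, hwq⟩ := hN.ann (U := A)
    (fun u hu => hN.ns_bot h.pi h.fr u fun m hm => hu m hm)
    (fun x : Option κ × κ => e x.1 * a x.2) hq0
  obtain ⟨g, hg, -, hwg⟩ := h.reg.rk (Sm.one N) _ hw
  obtain ⟨c, b, hcb⟩ := h.pi _ (hg.ne_zero hN)
  have k0 : ∀ i j, w * e i * a j * g = 0 := fun i j => by
    rw [mul_assoc w]; exact hwg (i, j)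
  have key : ∀ i j, c * (ζ + g * b * w) * e i * (a j * (g * b)) = c * (ζ * e i * a j) * g * b :=
    fun i j => by
      calc _ = c * (ζ * e i * a j) * g * b + c * g * b * (w * e i * a j * g) * b := by noncomm_ring
        _ = _ := by rw [k0, mul_zero, zero_mul, add_zero]
  have hr : LI0Frame (fun i => e (some i)) (c * (ζ + g * b * w)) fun j => a j * (g * b) :=
    ⟨fun i => by rw [key, hf.1, mul_one, hcb],
      fun i j hij => by rw [key, hf.2 i j hij, mul_zero, zero_mul, zero_mul]⟩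
  refine hr.extend h.pi fun h0 => hwq ?_
  set ζ' := c * (ζ + g * b * w) with hζ'
  have h1 : ζ' * q = w * q := by
    calc _ = c * (ζ * q) + c * g * b * (w * q) := by rw [hζ']; noncomm_ring
      _ = _ := by rw [hζq, hcb, mul_zero, zero_add, one_mul]
  have h2 : ∀ j, ζ' * e none * (a j * (g * b)) = algebraMap F A (l j) := fun j => by
    rw [key, hl, ← Algebra.commutes, mul_assoc, mul_assoc, ← mul_assoc c, hcb, mul_one]
  rw [smul_eq_mul, ← h1, ← h0, hq, mul_sub, mul_sub, mul_one, Finset.mul_sum, Finset.mul_sum]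
  congr 1
  refine Finset.sum_congr rfl fun j _ => ?_
  rw [← mul_assoc, h2, mul_smul_comm, Algebra.smul_def]

theorem Pre.li0 (h : Pre F A) (κ : Type) [Finite κ] :
    ∀ e : κ → A, LinearIndependent F e → ∃ ζ a, LI0Frame e ζ a := by
  refine Finite.induction_empty_option
    (P := fun κ : Type => ∀ e : κ → A, LinearIndependent F e → ∃ ζ a, LI0Frame e ζ a)
    ?_ ?_ ?_ κ
  · intro α β η ih e he
    obtain ⟨ζ, a, h1, h2⟩ := ih (e ∘ η) (he.comp η η.injective)
    refine ⟨ζ, a ∘ η.symm, fun i => ?_, fun i j hij => ?_⟩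
    · simpa using h1 (η.symm i)
    · simpa using h2 (η.symm i) (η.symm j) (η.symm.injective.ne hij)
  · intro e _
    exact ⟨0, fun _ => 0, fun i => i.elim, fun i => i.elim⟩
  · intro α _ ih e he
    obtain ⟨ζ, a, hf⟩ := ih (fun i => e (some i)) (he.comp some (Option.some_injective α))
    exact h.li0_step he hf

theorem Pre.li0_shrink (h : Pre F A) {g : A} (hg : g * g = g) (hg0 : g ≠ 0) (a : A) :
    ∃ g', g' * g' = g' ∧ g' ≠ 0 ∧ Le g' g ∧ (∃ l : F, g' * a * g' = l • g') ∧
      (a * g' = 0 ∨ ∃ c, c * a * g' = g') := by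
  obtain ⟨g₁, i1, n1, l1, l, hl⟩ :
      ∃ g', g' * g' = g' ∧ g' ≠ 0 ∧ Le g' g ∧ ∃ l : F, g' * a * g' = l • g' := by
    by_cases hd : ∃ l : F, g * a * g = l • g
    · exact ⟨g, hg, hg0, Le.refl hg, hd⟩
    push Not at hd
    obtain ⟨ζ, b, h1, h2⟩ := h.li0 (Fin 2) ![g, g * a * g]
      ((LinearIndependent.pair_iff' hg0).2 fun l => (hd l).symm)
    have e1 : ζ * g * b 0 = 1 := h1 0
    have e2 : ζ * (g * a * g) * b 0 = 0 := h2 1 0 (by simp)
    refine ⟨g * b 0 * ζ * g, ?_, fun h0 => h.ne ?_, ⟨?_, ?_⟩, 0, ?_⟩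
    · calc _ = g * b 0 * (ζ * (g * g) * b 0) * ζ * g := by simp only [mul_assoc]
        _ = _ := by rw [hg, e1, mul_one]
    · calc (1 : A) = ζ * g * b 0 * (ζ * g * b 0) := by rw [e1, mul_one]
        _ = ζ * (g * b 0 * ζ * g) * b 0 := by simp only [mul_assoc]
        _ = 0 := by rw [h0, mul_zero, zero_mul]
    · simp only [← mul_assoc, hg]
    · rw [mul_assoc, hg]
    · calc _ = g * b 0 * (ζ * (g * a * g) * b 0) * ζ * g := by simp only [mul_assoc]
        _ = _ := by rw [e2, mul_zero, zero_mul, zero_mul, zero_smul]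
  by_cases h0 : a * g₁ = 0
  · exact ⟨g₁, i1, n1, l1, ⟨l, hl⟩, Or.inl h0⟩
  obtain ⟨c, b, hcb⟩ := h.pi _ h0
  have l2 : Le (g₁ * b * c * a * g₁) g₁ :=
    ⟨by simp only [← mul_assoc, i1], by rw [mul_assoc, i1]⟩
  refine ⟨g₁ * b * c * a * g₁, ?_, fun h0 => h.ne ?_, l2.trans l1, ⟨l, ?_⟩,
    Or.inr ⟨g₁ * b * c, ?_⟩⟩
  · calc _ = g₁ * b * (c * (a * (g₁ * g₁)) * b) * c * a * g₁ := by simp only [mul_assoc]
      _ = _ := by rw [i1, hcb, mul_one]
  · calc (1 : A) = c * (a * g₁) * b * (c * (a * g₁) * b) := by rw [hcb, mul_one]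
      _ = c * a * (g₁ * b * c * a * g₁) * b := by simp only [mul_assoc]
      _ = 0 := by rw [h0, mul_zero, zero_mul]
  · calc _ = g₁ * b * c * a * (g₁ * a * g₁) * b * c * a * g₁ := by simp only [mul_assoc]
      _ = l • (g₁ * b * (c * (a * g₁) * b) * c * a * g₁) := by
          rw [hl]; simp only [mul_assoc, mul_smul_comm, smul_mul_assoc]
      _ = _ := by rw [hcb, mul_one]
  · calc _ = g₁ * b * (c * (a * g₁) * b) * c * a * g₁ := by simp only [mul_assoc]
      _ = _ := by rw [hcb, mul_one]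

/-- Independent elements become a frame. Induction on `n` for `Fin n`; let `ζ`, `a j` work for
the first `n`, `E = ∑ a j * ζ * e j`, `p = ζ * e last`, `β = p * (1 - E)`.
Case `β ≠ 0`: `c β b = 1`; use `c ζ`, `a last = (1 - E) b`, `a' j = a j β b`, corrected by
subtracting `a last * (c p a' j)`.
Case `β = 0` and some `α = p * a j₀` not scalar: `g h = 0`, `c g α h b = 1`; replace `ζ` by
`c g ζ`, `a j` by `a j α h b`; the new `β` has `β a j₀ h = c g α h ≠ 0`.
Case all `p * a j = λ j` scalar: put `q = e last - ∑ λ j • e j ≠ 0`, `ζ q = 0`. With a maximal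
left ideal `N` (`exists_mx`, `Mx.ns_bot`, `Mx.ann`, `rk`) find `w`, `g ≠ 0` with
`w * e i * a j * g = 0` for all `i`, `j` (also `i = last`) and `w q ≠ 0`; `c g b = 1`; use
`c (ζ + g b w)` and `a j g b` for the family with `q` in place of `e last`: now `β ≠ 0`.
A frame for `(e j, q)` gives one for `(e j, e last)`. -/
theorem Pre.li (h : Pre F A) {κ : Type} [Fintype κ] [DecidableEq κ] {e : κ → A}
    (he : LinearIndependent F e) :
    ∃ (ζ : A) (a : κ → A), ∀ i j, ζ * e i * a j = if i = j then 1 else 0 := by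
  obtain ⟨ζ, a, h1, h2⟩ := h.li0 κ e he
  refine ⟨ζ, a, fun i j => ?_⟩
  split_ifs with hij
  · rw [hij, h1]
  · exact h2 i j hij

/-- `Pre.li` for the opposite ring -/
theorem Pre.ri (h : Pre F A) {κ : Type} [Fintype κ] [DecidableEq κ] {e : κ → A}
    (he : LinearIndependent F e) :
    ∃ (ζ : A) (b : κ → A), ∀ i j, b i * e j * ζ = if i = j then 1 else 0 := by
  obtain ⟨ζ, a, h1⟩ := h.op.li (e := fun i => MulOpposite.op (e i))
    (he.map' (MulOpposite.opLinearEquiv F : A ≃ₗ[F] Aᵐᵒᵖ).toLinearMap (LinearEquiv.ker _))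
  refine ⟨ζ.unop, fun i => (a i).unop, fun i j => ?_⟩
  have := congrArg MulOpposite.unop (h1 j i)
  simp only [MulOpposite.unop_mul, MulOpposite.unop_op, ← mul_assoc] at this
  rw [this]
  by_cases hij : i = j
  · simp [hij]
  · simp [hij, Ne.symm hij]

/-- A point in a countable ring. Enumerate `A`; build nonzero idempotents `g (n+1) ≤ g n` with
(1) `g (n+1) * a n * g (n+1)` a scalar multiple of `g (n+1)` (if `g, g a g` are independent,
`ζ g a₁ = 1`, `ζ g a g a₁ = 0` by `li`, take `g a₁ ζ g`), (2) `a n * g (n+1) = 0` or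
`c * a n * g (n+1) = g (n+1)` for some `c` (if `c' a g b = 1` take `g b c' a g`).
`M = {a | ∃ n, a * g n = 0}`. -/
theorem Pre.exists_good [Countable A] (h : Pre F A) : ∃ M : Ideal A, Good F M := by
  obtain ⟨a, ha⟩ := exists_surjective_nat A
  choose f f1 f2 f3 f4 f5 using
    fun (g : {g : A // g * g = g ∧ g ≠ 0}) (x : A) => h.li0_shrink g.2.1 g.2.2 x
  let g : ℕ → {g : A // g * g = g ∧ g ≠ 0} := fun n =>
    Nat.rec ⟨1, mul_one 1, h.ne⟩ (fun n g => ⟨f g (a n), f1 g _, f2 g _⟩) n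
  have gs : ∀ n, (g (n + 1)).1 = f (g n) (a n) := fun _ => rfl
  have mono : ∀ n m, n ≤ m → (g n).1 * (g m).1 = (g m).1 := by
    intro n m hnm
    induction m, hnm using Nat.le_induction with
    | base => exact (g n).2.1
    | succ m _ ih => rw [gs, ← (f3 (g m) (a m)).1, ← mul_assoc, ih]
  have up : ∀ x n m, n ≤ m → x * (g n).1 = 0 → x * (g m).1 = 0 := fun x n m hnm h0 => by
    rw [← mono n m hnm, ← mul_assoc, h0, zero_mul]
  let M : Ideal A :=
    { carrier := {x | ∃ n, x * (g n).1 = 0}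
      zero_mem' := ⟨0, zero_mul _⟩
      add_mem' := by
        rintro x y ⟨n, hn⟩ ⟨m, hm⟩
        exact ⟨max n m, by
          rw [add_mul, up x n _ (le_max_left _ _) hn, up y m _ (le_max_right _ _) hm, add_zero]⟩
      smul_mem' := by
        rintro c x ⟨n, hn⟩
        exact ⟨n, by rw [smul_eq_mul, mul_assoc, hn, mul_zero]⟩ }
  have hM : ∀ x, x ∈ M ↔ ∃ n, x * (g n).1 = 0 := fun _ => Iff.rfl
  refine ⟨M, h.reg, h.pi, h.fr, ⟨?_, ?_⟩, ?_⟩
  · rintro ⟨n, hn⟩
    exact (g n).2.2 (by rwa [one_mul] at hn)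
  · intro x hx
    obtain ⟨n, rfl⟩ := ha x
    rcases f5 (g n) (a n) with h0 | ⟨c, hc⟩
    · exact (hx ⟨n + 1, h0⟩).elim
    · exact ⟨c, n + 1, by rw [gs, sub_mul, hc, one_mul, sub_self]⟩
  · intro x hx
    obtain ⟨n, rfl⟩ := ha x
    obtain ⟨l, hl⟩ := f4 (g n) (a n)
    rw [← gs] at hl
    obtain ⟨m, hm⟩ := hx (1 - (g (n + 1)).1)
      ⟨n + 1, by rw [sub_mul, (g (n + 1)).2.1, one_mul, sub_self]⟩
    have h1 := up _ _ _ (le_max_left m (n + 1)) hm
    have h2 := mono _ _ (le_max_right m (n + 1))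
    refine ⟨l, max m (n + 1), ?_⟩
    set u := (g (max m (n + 1))).1
    set v := (g (n + 1)).1
    calc (a n - algebraMap F A l) * u
        = (1 - v) * a n * u + (v * a n * (v * u) - algebraMap F A l * u) := by
          rw [h2]; noncomm_ring
      _ = 0 := by
          rw [h1, ← mul_assoc, hl, smul_mul_assoc, h2, Algebra.smul_def, sub_self, add_zero]

end Pool.Agent.Lib.MP_57313b_al.Dia
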