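import Pool.Agent.Lib.MP_57313b_al.Dia.LI
import Pool.Agent.Lib.MP_57313b_al.Dia.Univ

/-! The merge step: transitions, degree reduction, normal form. -/

namespace Pool.Agent.Lib.MP_57313b_al.Dia

variable {F : Type} [Field F] [Countable F] {A : Type} [Ring A] [Algebra F A] [Countable A]
  {M : Bool → Ideal A}

/-- composition of transitions (`w = w₁ + w₂`) -/
theorem MS.Tr.trans {X Y Z : MS F M} (θ : X.Tr Y) (θ' : Y.Tr Z) :
    ∃ θ'' : X.Tr Z, ∀ x, θ''.f x = θ'.f (θ.f x) := by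
  refine ⟨⟨θ'.toHom.comp θ.toHom, fun ε => θ.w ε + θ'.w ε, fun ε => (θ'.le ε).trans (θ.le ε),
    fun ε => ?_, fun ε => ⟨?_, ?_⟩⟩, fun _ => rfl⟩
  · change θ'.f (θ.f (X.τ ε)) = _
    rw [θ.hτ, map_add, θ'.hι, θ'.hτ, map_add, add_assoc]
  · rw [add_mul, (θ'.hw ε).1, ← (θ'.le ε).1, ← mul_assoc, (θ.hw ε).1, zero_mul, add_zero]
  · rw [mul_add, (θ'.hw ε).2, ← (θ'.le (!ε)).2, mul_assoc, (θ.hw ε).2, mul_zero, add_zero]

theorem MS.Tr.refl (X : MS F M) : ∃ θ : X.Tr X, ∀ x, θ.f x = x :=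
  ⟨⟨Stg.Hom.id _, fun _ => 0, fun ε => Le.refl (X.sm ε).1, fun ε => by
    rw [map_zero, zero_add]; rfl, fun _ => ⟨zero_mul _, mul_zero _⟩⟩, fun _ => rfl⟩

/-- `exists_univ` with `g = 1`, `r = τ` -/
theorem MS.start (h : MH F M) : Nonempty (MS F M) := by
  obtain ⟨T, _, _, _, ι, τ, hu, hi⟩ := exists_univ (F := F) h.pi (fun _ => (1 : A))
    (fun _ => one_mul 1) fun ε => (Sm.one (M ε)).ne_zero (h.pt ε).1
  exact ⟨⟨⟨T, ι, τ⟩, fun _ => 1, τ, fun _ => Sm.one _, hu, hi,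
    fun ε => ⟨0, by simp, zero_mul _⟩, fun ε => by rw [← map_one ι]; exact hu.rel2 ε⟩⟩

/-- the ring identities behind `MS.tr`; primed letters belong to the other side -/
theorem m1_ring {R : Type*} [Ring R] {g g' a a' w w' u U v V : R} (hg : g * g = g)
    (hg' : g' * g' = g') (ha : a * a = a) (ha' : a' * a' = a') (l : Le a g) (l' : Le a' g')
    (hw : (g' - a') * w * (g - a) = w) (hw' : (g - a) * w' * (g' - a') = w')
    (r : w * w' * w = w) (r' : w' * w * w' = w')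
    (u1 : U * u = g' - a' - w * w') (u2 : u * (g' - a' - w * w') = u)
    (u3 : (g' - a' - w * w') * U = U) (u4 : Le (u * U) a)
    (v1 : V * v = g - a - w' * w) (v2 : v * (g - a - w' * w) = v) (v3 : (g - a - w' * w) * V = V)
    (v4 : Le (v * V) a') :
    (w' + V + u) * (w + U + v) = g - (a - u * U) ∧ (w + U + v) * (a - u * U) = 0 ∧
      (a' - v * V) * (w + U + v) = 0 ∧ g' * (w + U + v) * g = w + U + v ∧
      (w + U + v) * (w' * w) = w ∧ w * w' * (w + U + v) = w ∧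
      (a - u * U) * (a - u * U) = a - u * U ∧ Le (a - u * U) a := by
  have pp : (g - a) * (g - a) = g - a := by
    rw [sub_mul, mul_sub, mul_sub, hg, l.1, l.2, ha, sub_self, sub_zero]
  have pp' : (g' - a') * (g' - a') = g' - a' := by
    rw [sub_mul, mul_sub, mul_sub, hg', l'.1, l'.2, ha', sub_self, sub_zero]
  have pa : (g - a) * a = 0 := by rw [sub_mul, l.1, ha, sub_self]
  have pa' : (g' - a') * a' = 0 := by rw [sub_mul, l'.1, ha', sub_self]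
  have ap : a * (g - a) = 0 := by rw [mul_sub, l.2, ha, sub_self]
  have ap' : a' * (g' - a') = 0 := by rw [mul_sub, l'.2, ha', sub_self]
  have gp' : g' * (g' - a') = g' - a' := by rw [mul_sub, l'.1, hg']
  have pg : (g - a) * g = g - a := by rw [sub_mul, l.2, hg]
  have wp : w * (g - a) = w := by rw [← hw, mul_assoc _ (g - a), pp]
  have pw : (g' - a') * w = w := by rw [← hw, ← mul_assoc, ← mul_assoc, pp']
  have wp' : w' * (g' - a') = w' := by rw [← hw', mul_assoc _ (g' - a'), pp']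
  have pw' : (g - a) * w' = w' := by rw [← hw', ← mul_assoc, ← mul_assoc, pp]
  have wa : w * a = 0 := by rw [← wp, mul_assoc, pa, mul_zero]
  have wa' : w' * a' = 0 := by rw [← wp', mul_assoc, pa', mul_zero]
  have aw : a' * w = 0 := by rw [← pw, ← mul_assoc, ap', zero_mul]
  have aw' : a * w' = 0 := by rw [← pw', ← mul_assoc, ap, zero_mul]
  have wg : w * g = w := by rw [← wp, mul_assoc, pg]
  have gw : g' * w = w := by rw [← pw, ← mul_assoc, gp']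
  have uUu : u * U * u = u := by rw [mul_assoc, u1, u2]
  have UuU : U * (u * U) = U := by rw [← mul_assoc, u1, u3]
  have vVv : v * V * v = v := by rw [mul_assoc, v1, v2]
  have VvV : V * (v * V) = V := by rw [← mul_assoc, v1, v3]
  have Ua : U * a = U := by rw [← UuU, mul_assoc, u4.2]
  have Va : V * a' = V := by rw [← VvV, mul_assoc, v4.2]
  have av : a' * v = v := by rw [← vVv, ← mul_assoc, v4.1]
  have wU : w' * U = 0 := by
    rw [← u3, ← mul_assoc, mul_sub, wp', ← mul_assoc, r', sub_self, zero_mul]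
  have wv : w' * v = 0 := by rw [← av, ← mul_assoc, wa', zero_mul]
  have Vw : V * w = 0 := by rw [← Va, mul_assoc, aw, mul_zero]
  have aU : a' * U = 0 := by
    rw [← u3, ← mul_assoc, mul_sub, ap', ← mul_assoc, aw, zero_mul, sub_self, zero_mul]
  have VU : V * U = 0 := by rw [← Va, mul_assoc, aU, mul_zero]
  have uw : u * w = 0 := by rw [← u2, mul_assoc, sub_mul, pw, r, sub_self, mul_zero]
  have ua : u * a' = 0 := by
    rw [← u2, mul_assoc, sub_mul, pa', mul_assoc, wa', mul_zero, sub_self, mul_zero]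
  have uv : u * v = 0 := by rw [← av, ← mul_assoc, ua, zero_mul]
  have va : v * a = 0 := by
    rw [← v2, mul_assoc, sub_mul, pa, mul_assoc, wa, mul_zero, sub_self, mul_zero]
  have Uw : U * w' = 0 := by rw [← Ua, mul_assoc, aw', mul_zero]
  have vw : v * w' = 0 := by rw [← v2, mul_assoc, sub_mul, pw', r', sub_self, mul_zero]
  have gU : g' * U = U := by
    rw [← u3, ← mul_assoc, mul_sub, gp', ← mul_assoc, gw]
  have gv : g' * v = v := by rw [← av, ← mul_assoc, l'.1]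
  have Ug : U * g = U := by rw [← Ua, mul_assoc, l.2]
  have vg : v * g = v := by rw [← v2, mul_assoc, sub_mul, pg, mul_assoc, wg]
  have le2 : Le (a - u * U) a := ⟨by rw [mul_sub, ha, u4.1], by rw [sub_mul, ha, u4.2]⟩
  have le2' : Le (a' - v * V) a' := ⟨by rw [mul_sub, ha', v4.1], by rw [sub_mul, ha', v4.2]⟩
  refine ⟨?_, ?_, ?_, ?_, ?_, ?_, ?_, le2⟩
  · simp only [add_mul, mul_add, wU, wv, Vw, VU, v1, uw, uv]
    abel
  · rw [add_mul, add_mul, mul_sub U, Ua, UuU, ← le2.1, ← mul_assoc, ← mul_assoc, wa, va]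
    simp
  · rw [mul_add, mul_add, sub_mul _ _ v, av, vVv, ← le2'.2, mul_assoc, mul_assoc, aw, aU]
    simp
  · rw [mul_add, mul_add, gw, gU, gv, add_mul, add_mul, wg, Ug, vg]
  · rw [add_mul, add_mul, ← mul_assoc, ← mul_assoc, ← mul_assoc, r, Uw, vw]
    simp
  · rw [mul_add, mul_add, r, mul_assoc, mul_assoc, wU, wv]
    simp
  · rw [mul_sub, le2.2, sub_mul, u4.1, ← mul_assoc, uUu, sub_self, sub_zero]

/-- Transition extending a given local isomorphism `w₀`. Let `e ε = w₀ (!ε) w₀ ε`,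
`ρ ε = g ε - g₁ ε - e ε` (idempotent), `u ε`, `u' ε` from `exists_copy` for `N = M ε`, `g₁ ε`
and the idempotent `ρ (!ε)`; `g₂ ε = g₁ ε - u ε u' ε`, `w ε = w₀ ε + u' ε + u (!ε)`; then
`w (!ε) w ε = g ε - g₂ ε`. `Y` from `exists_univ` for `g₂`, `θ` from `lift` with
`σ ε = ι (w ε) + τ' ε`, `Y.r = θ ∘ X.r`. -/
theorem MS.tr (h : MH F M) (X : MS F M) (g₁ : Bool → A) (h₁ : ∀ ε, Sm (M ε) (g₁ ε))
    (hle : ∀ ε, Le (g₁ ε) (X.g ε)) (w₀ : Bool → A)
    (hw : ∀ ε, (X.g (!ε) - g₁ (!ε)) * w₀ ε * (X.g ε - g₁ ε) = w₀ ε)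
    (hw' : ∀ ε, w₀ ε * w₀ (!ε) * w₀ ε = w₀ ε) :
    ∃ (Y : MS F M) (θ : X.Tr Y), (∀ ε, Le (Y.g ε) (g₁ ε)) ∧
      ∀ ε, θ.w ε * (w₀ (!ε) * w₀ ε) = w₀ ε ∧ w₀ ε * w₀ (!ε) * θ.w ε = w₀ ε := by
  have hw2 : ∀ ε, (X.g ε - g₁ ε) * w₀ (!ε) * (X.g (!ε) - g₁ (!ε)) = w₀ (!ε) := fun ε => by
    simpa only [Bool.not_not] using hw (!ε)
  have hw2' : ∀ ε, w₀ (!ε) * w₀ ε * w₀ (!ε) = w₀ (!ε) := fun ε => by
    simpa only [Bool.not_not] using hw' (!ε)
  have hρ : ∀ ε, (X.g (!ε) - g₁ (!ε) - w₀ ε * w₀ (!ε)) * (X.g (!ε) - g₁ (!ε) - w₀ ε * w₀ (!ε)) =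
      X.g (!ε) - g₁ (!ε) - w₀ ε * w₀ (!ε) := fun ε => by
    have pp : (X.g (!ε) - g₁ (!ε)) * (X.g (!ε) - g₁ (!ε)) = X.g (!ε) - g₁ (!ε) := by
      rw [sub_mul, mul_sub, mul_sub, (X.sm _).1, (hle _).1, (hle _).2, (h₁ _).1, sub_self,
        sub_zero]
    have pw : (X.g (!ε) - g₁ (!ε)) * w₀ ε = w₀ ε := by
      rw [← hw ε, ← mul_assoc, ← mul_assoc, pp]
    have wp : w₀ (!ε) * (X.g (!ε) - g₁ (!ε)) = w₀ (!ε) := by
      rw [← hw2 ε, mul_assoc _ (X.g (!ε) - g₁ (!ε)), pp]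
    rw [sub_mul _ (w₀ ε * w₀ (!ε)), mul_sub _ _ (w₀ ε * w₀ (!ε)),
      mul_sub _ _ (w₀ ε * w₀ (!ε)), pp, ← mul_assoc, pw, ← mul_assoc, hw', mul_assoc, wp,
      sub_self, sub_zero]
  choose u U u1 u2 u3 u4 u5 using fun ε =>
    exists_copy h.reg h.pi h.fr (h.pt ε).1 (h₁ ε) (hρ ε)
  have key := fun ε => m1_ring (X.sm ε).1 (X.sm (!ε)).1 (h₁ ε).1 (h₁ (!ε)).1 (hle ε) (hle (!ε))
    (hw ε) (hw2 ε) (hw' ε) (hw2' ε) (u1 ε) (u2 ε) (u3 ε) (u4 ε)
    (by simpa only [Bool.not_not] using u1 (!ε)) (by simpa only [Bool.not_not] using u2 (!ε))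
    (by simpa only [Bool.not_not] using u3 (!ε)) (u4 (!ε))
  obtain ⟨g₂, hg₂⟩ : ∃ g₂ : Bool → A, ∀ ε, g₂ ε = g₁ ε - u ε * U ε := ⟨_, fun _ => rfl⟩
  obtain ⟨w, hw₁⟩ : ∃ w : Bool → A, ∀ ε, w ε = w₀ ε + U ε + u (!ε) := ⟨_, fun _ => rfl⟩
  have k1 : ∀ ε, w (!ε) * w ε = X.g ε - g₂ ε := fun ε => by
    rw [hw₁, hw₁, hg₂, Bool.not_not]; exact (key ε).1
  simp only [← hg₂, ← hw₁] at key
  have sm2 : ∀ ε, Sm (M ε) (g₂ ε) := fun ε => ⟨(key ε).2.2.2.2.2.2.1, by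
    rw [hg₂, ← sub_add]; exact add_mem (h₁ ε).2 (u5 ε)⟩
  have le2 : ∀ ε, Le (g₂ ε) (X.g ε) := fun ε => (key ε).2.2.2.2.2.2.2.trans (hle ε)
  obtain ⟨T, _, _, _, ι, τ, hu, hi⟩ := exists_univ (F := F) h.pi g₂ (fun ε => (sm2 ε).1)
    fun ε => (sm2 ε).ne_zero (h.pt ε).1
  obtain ⟨θ, hθ, hθ'⟩ := X.univ.lift T ι (fun ε => ι (w ε) + τ ε) (fun ε => by
      rw [mul_add, add_mul, ← map_mul, ← map_mul, (key ε).2.2.2.1, ← hu.rel1 ε]
      simp only [← mul_assoc]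
      rw [← map_mul, (le2 _).1, mul_assoc _ (ι (g₂ ε)), ← map_mul, (le2 _).2])
    fun ε => by
      have e1 : ι (w (!ε)) * τ ε = 0 := by
        rw [← hu.rel1 ε, ← mul_assoc, ← mul_assoc, ← map_mul, (key (!ε)).2.1, map_zero,
          zero_mul, zero_mul]
      have e2 : τ (!ε) * ι (w ε) = 0 := by
        rw [← hu.rel1 (!ε), mul_assoc, ← map_mul, (key ε).2.2.1, map_zero, mul_zero]
      rw [mul_add, add_mul, add_mul, e1, e2, hu.rel2, ← map_mul, k1, map_sub]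
      abel
  refine ⟨⟨⟨T, ι, fun ε => θ (X.r ε)⟩, g₂, τ, sm2, hu, hi, fun ε => ?_, fun ε => ?_⟩,
    ⟨⟨θ, hθ, fun _ => rfl⟩, w, le2, hθ', fun ε => ⟨(key ε).2.1, (key ε).2.2.1⟩⟩,
    fun ε => (key ε).2.2.2.2.2.2.2, fun ε => ⟨(key ε).2.2.2.2.1, (key ε).2.2.2.2.2.1⟩⟩
  · obtain ⟨v, e, hv⟩ := X.wit ε
    refine ⟨w ε + v, ?_, ?_⟩
    · change θ (X.r ε) = τ ε + ι (w ε + v)
      rw [e, map_add, hθ, hθ', map_add]; abel
    · change (w ε + v) * g₂ ε = 0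
      rw [add_mul, (key ε).2.1, ← (le2 ε).1, ← mul_assoc, hv, zero_mul, add_zero]
  · change θ (X.r (!ε)) * θ (X.r ε) = 1
    rw [← map_mul, X.inv, map_one]

/-- transition below given idempotents (`w₀ = 0`) -/
theorem MS.shrink (h : MH F M) (X : MS F M) (g₁ : Bool → A) (h₁ : ∀ ε, Sm (M ε) (g₁ ε))
    (hle : ∀ ε, Le (g₁ ε) (X.g ε)) : ∃ (Y : MS F M) (_ : X.Tr Y), ∀ ε, Le (Y.g ε) (g₁ ε) := by
  obtain ⟨Y, θ, h1, -⟩ := MS.tr h X g₁ h₁ hle (fun _ => 0) (fun _ => by simp) fun _ => by simp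
  exact ⟨Y, θ, h1⟩

/-- `shrink` with the two idempotents given separately -/
theorem MS.m1_shrink (h : MH F M) (X : MS F M) (ε : Bool) {a a' : A} (ha : Sm (M ε) a)
    (ha' : Sm (M (!ε)) a') (l : Le a (X.g ε)) (l' : Le a' (X.g (!ε))) :
    ∃ (Y : MS F M) (_ : X.Tr Y), Le (Y.g ε) a ∧ Le (Y.g (!ε)) a' := by
  obtain ⟨Y, θ, h1⟩ := MS.shrink h X (fun η => if η = ε then a else a')
    (fun η => by cases η <;> cases ε <;> assumption)
    fun η => by cases η <;> cases ε <;> assumption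
  exact ⟨Y, θ, by simpa using h1 ε, by simpa using h1 (!ε)⟩

theorem MS.m1_left (X : MS F M) (ε : Bool) : X.ι (X.g (!ε)) * X.τ ε = X.τ ε := by
  rw [← X.univ.rel1 ε, ← mul_assoc, ← mul_assoc, ← map_mul, (X.sm _).1]

theorem MS.m1_right (X : MS F M) (ε : Bool) : X.τ ε * X.ι (X.g ε) = X.τ ε := by
  rw [← X.univ.rel1 ε, mul_assoc, ← map_mul, (X.sm _).1]

/-- elements of degree at most one -/
def MS.m1D (X : MS F M) : AddSubmonoid X.T :=
  AddSubmonoid.closure (Set.range X.ι ∪ {x | ∃ b ε c, x = X.ι b * X.τ ε * X.ι c})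

theorem MS.m1D_ι (X : MS F M) (a : A) : X.ι a ∈ X.m1D :=
  AddSubmonoid.subset_closure (Or.inl ⟨a, rfl⟩)

theorem MS.m1D_τ (X : MS F M) (b : A) (ε : Bool) (c : A) : X.ι b * X.τ ε * X.ι c ∈ X.m1D :=
  AddSubmonoid.subset_closure (Or.inr ⟨b, ε, c, rfl⟩)

theorem MS.m1D_ind {X : MS F M} {P : X.T → Prop} (h1 : ∀ a, P (X.ι a))
    (h2 : ∀ b ε c, P (X.ι b * X.τ ε * X.ι c)) (h3 : ∀ x y, P x → P y → P (x + y)) {x : X.T}
    (hx : x ∈ X.m1D) : P x := by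
  induction hx using AddSubmonoid.closure_induction with
  | mem x hx =>
    rcases hx with ⟨a, rfl⟩ | ⟨b, ε, c, rfl⟩
    · exact h1 a
    · exact h2 b ε c
  | zero => exact map_zero X.ι ▸ h1 0
  | add x y _ _ hx hy => exact h3 x y hx hy

theorem MS.m1D_left {X : MS F M} (a : A) {x : X.T} (hx : x ∈ X.m1D) : X.ι a * x ∈ X.m1D := by
  refine MS.m1D_ind (P := fun x => X.ι a * x ∈ X.m1D) (fun b => ?_) (fun b ε c => ?_)
    (fun x y hx hy => ?_) hx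
  · rw [← map_mul]; exact X.m1D_ι _
  · rw [← mul_assoc, ← mul_assoc, ← map_mul]; exact X.m1D_τ _ _ _
  · rw [mul_add]; exact add_mem hx hy

theorem MS.m1D_right {X : MS F M} (a : A) {x : X.T} (hx : x ∈ X.m1D) : x * X.ι a ∈ X.m1D := by
  refine MS.m1D_ind (P := fun x => x * X.ι a ∈ X.m1D) (fun b => ?_) (fun b ε c => ?_)
    (fun x y hx hy => ?_) hx
  · rw [← map_mul]; exact X.m1D_ι _
  · rw [mul_assoc, ← map_mul]; exact X.m1D_τ _ _ _
  · rw [add_mul]; exact add_mem hx hy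

theorem MS.Tr.m1_term {X Y : MS F M} (θ : X.Tr Y) (b : A) (ε : Bool) (c : A) :
    θ.f (X.ι b * X.τ ε * X.ι c) = Y.ι (b * θ.w ε * c) + Y.ι b * Y.τ ε * Y.ι c := by
  rw [map_mul, map_mul, θ.hι, θ.hι, θ.hτ, mul_add, add_mul, map_mul, map_mul]

theorem MS.m1D_map {X Y : MS F M} (θ : X.Tr Y) {x : X.T} (hx : x ∈ X.m1D) : θ.f x ∈ Y.m1D := by
  refine MS.m1D_ind (P := fun x => θ.f x ∈ Y.m1D) (fun b => ?_) (fun b ε c => ?_)
    (fun x y hx hy => ?_) hx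
  · rw [θ.hι]; exact Y.m1D_ι _
  · rw [θ.m1_term]; exact add_mem (Y.m1D_ι _) (Y.m1D_τ _ _ _)
  · rw [map_add]; exact add_mem hx hy

theorem MS.m1D_form {X : MS F M} {x : X.T} (hx : x ∈ X.m1D) :
    ∃ (κ : Type) (_ : Fintype κ) (ε : κ → Bool) (a : A) (b c : κ → A),
      x = X.ι a + ∑ k, X.ι (b k) * X.τ (ε k) * X.ι (c k) := by
  refine MS.m1D_ind (P := fun x => ∃ (κ : Type) (_ : Fintype κ) (ε : κ → Bool) (a : A)
    (b c : κ → A), x = X.ι a + ∑ k, X.ι (b k) * X.τ (ε k) * X.ι (c k)) (fun a => ?_)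
    (fun b ε c => ?_) ?_ hx
  · exact ⟨Empty, inferInstance, fun _ => true, a, fun _ => 0, fun _ => 0, by simp⟩
  · exact ⟨Unit, inferInstance, fun _ => ε, 0, fun _ => b, fun _ => c, by simp⟩
  · rintro _ _ ⟨κ, _, ε, a, b, c, rfl⟩ ⟨κ', _, ε', a', b', c', rfl⟩
    refine ⟨κ ⊕ κ', inferInstance, Sum.elim ε ε', a + a', Sum.elim b b', Sum.elim c c', ?_⟩
    rw [Fintype.sum_sum_type, map_add]
    simp only [Sum.elim_inl, Sum.elim_inr]
    abel

/-- excision -/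
theorem MS.m1_excise (h : MH F M) (X : MS F M) (ε ε' : Bool) (b : A) :
    ∃ (Y : MS F M) (_ : X.Tr Y), Y.τ ε * Y.ι b * Y.τ ε' ∈ Y.m1D := by
  have hns : NS (M (!ε)) (M ε) := by simpa only [Bool.not_not] using h.ns (!ε)
  have mid : ∀ Y : MS F M, Y.τ ε * Y.ι b * Y.τ ε' =
      Y.τ ε * Y.ι (Y.g ε * b * Y.g (!ε')) * Y.τ ε' := fun Y => by
    rw [map_mul, map_mul, ← mul_assoc, ← mul_assoc, Y.m1_right,
      mul_assoc _ (Y.ι (Y.g (!ε'))) (Y.τ ε'), Y.m1_left]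
  by_cases he : ε' = ε
  · subst he
    obtain ⟨a, ha, l, hab⟩ := lk_other h.reg (h.pt ε') (h.pt (!ε')).1 hns (X.sm ε') fun _ : Unit => b
    obtain ⟨a', ha', l', hab'⟩ := h.reg.rk (X.sm (!ε')) (fun _ : Unit => a * b) hab
    obtain ⟨Y, θ, h1, h2⟩ := MS.m1_shrink h X ε' ha ha' l l'
    refine ⟨Y, θ, ?_⟩
    rw [mid, ← h1.2, ← h2.1, mul_assoc _ a, ← mul_assoc _ a', mul_assoc _ _ a', hab' (),
      mul_zero, zero_mul, map_zero, mul_zero, zero_mul]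
    exact zero_mem _
  · obtain rfl : ε' = !ε := by revert he; cases ε <;> cases ε' <;> simp
    obtain ⟨a, ha, l, c, hc⟩ := lk_same h.reg (h.pt ε) (h.pt (!ε)).1 hns (X.sm ε) b
    obtain ⟨a', ha', l', hc'⟩ := h.reg.rk ha (fun _ : Unit => a * b - algebraMap F A c) fun _ => hc
    obtain ⟨Y, θ, h1, -⟩ := MS.m1_shrink h X ε ha' (X.sm (!ε)) (l'.trans l) (Le.refl (X.sm _).1)
    refine ⟨Y, θ, ?_⟩
    have e1 : a * b * a' = algebraMap F A c * a' := by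
      have := hc' ()
      rwa [sub_mul, sub_eq_zero] at this
    have e2 : Y.g ε * b * Y.g ε = c • Y.g ε := by
      calc Y.g ε * b * Y.g ε = Y.g ε * (a * b * a') * Y.g ε := by
            rw [mul_assoc _ (a * b * a'), mul_assoc _ a', h1.1, ← mul_assoc, ← mul_assoc,
              (h1.trans l').2]
        _ = _ := by
            rw [e1, ← Algebra.smul_def, mul_smul_comm, smul_mul_assoc, h1.2, (Y.sm ε).1]
    have e3 : Y.τ ε * Y.τ (!ε) = Y.ι (Y.g (!ε)) := by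
      simpa only [Bool.not_not] using Y.univ.rel2 (!ε)
    rw [mid, Bool.not_not, e2, map_smul, mul_smul_comm, smul_mul_assoc, Y.m1_right, e3,
      ← map_smul]
    exact Y.m1D_ι _

/-- after every transition there is a further one reducing `x` to degree one -/
def MS.m1Q (X : MS F M) (x : X.T) : Prop :=
  ∀ (Y : MS F M) (θ : X.Tr Y), ∃ (Z : MS F M) (θ' : Y.Tr Z), θ'.f (θ.f x) ∈ Z.m1D

theorem MS.m1Q_of {X : MS F M} {x : X.T} (hx : x ∈ X.m1D) : X.m1Q x := fun Y θ => by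
  obtain ⟨θ', -⟩ := MS.Tr.refl Y
  exact ⟨Y, θ', MS.m1D_map θ' (MS.m1D_map θ hx)⟩

theorem MS.m1Q.add {X : MS F M} {x y : X.T} (hx : X.m1Q x) (hy : X.m1Q y) : X.m1Q (x + y) := by
  intro Y θ
  obtain ⟨Z, θ', h1⟩ := hx Y θ
  obtain ⟨η, hη⟩ := θ.trans θ'
  obtain ⟨W, θ'', h2⟩ := hy Z η
  obtain ⟨η', hη'⟩ := θ'.trans θ''
  refine ⟨W, η', ?_⟩
  rw [hη', map_add, map_add, map_add, ← hη y]
  exact add_mem (MS.m1D_map θ'' h1) h2

theorem MS.m1Q.left {X : MS F M} (a : A) {x : X.T} (hx : X.m1Q x) : X.m1Q (X.ι a * x) := by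
  intro Y θ
  obtain ⟨Z, θ', h1⟩ := hx Y θ
  refine ⟨Z, θ', ?_⟩
  rw [map_mul, map_mul, θ.hι, θ'.hι]
  exact MS.m1D_left a h1

theorem MS.m1Q_quad (h : MH F M) (X : MS F M) (ε ε' : Bool) (b c : A) :
    X.m1Q (X.τ ε * (X.ι b * X.τ ε' * X.ι c)) := by
  intro Y θ
  obtain ⟨Z, θ', h1⟩ := MS.m1_excise h Y ε ε' b
  obtain ⟨η, hη⟩ := θ.trans θ'
  refine ⟨Z, θ', ?_⟩
  rw [← hη, map_mul, η.m1_term, η.hτ, add_mul, mul_add (Z.τ ε)]
  refine add_mem (MS.m1D_left _ (add_mem (Z.m1D_ι _) (Z.m1D_τ _ _ _))) (add_mem ?_ ?_)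
  · simpa using Z.m1D_τ 1 ε (b * η.w ε' * c)
  · rw [← mul_assoc, ← mul_assoc]
    exact MS.m1D_right c h1

theorem MS.m1Q.tau (h : MH F M) {X : MS F M} (ε : Bool) {x : X.T} (hx : X.m1Q x) :
    X.m1Q (X.τ ε * x) := by
  intro Y θ
  obtain ⟨Z, θ', h1⟩ := hx Y θ
  obtain ⟨η, hη⟩ := θ.trans θ'
  have h2 : Z.m1Q (Z.τ ε * θ'.f (θ.f x)) := by
    refine MS.m1D_ind (P := fun y => Z.m1Q (Z.τ ε * y)) (fun a => MS.m1Q_of ?_)
      (fun b ε' c => MS.m1Q_quad h Z ε ε' b c) (fun x y hx hy => ?_) h1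
    · simpa using Z.m1D_τ 1 ε a
    · rw [mul_add]; exact hx.add hy
  obtain ⟨ρ, hρ⟩ := MS.Tr.refl Z
  obtain ⟨W, θ'', h3⟩ := ((MS.m1Q_of (MS.m1D_left (η.w ε) h1)).add h2) Z ρ
  obtain ⟨η', hη'⟩ := θ'.trans θ''
  refine ⟨W, η', ?_⟩
  rw [hρ, ← add_mul, ← η.hτ, ← hη, ← map_mul, hη] at h3
  rw [hη']
  exact h3

/-- Reduction to degree one. Call a property `P` of pairs `g₂` dense open below `X.g` if every
small `g' ≤ X.g` has a small `g₁ ≤ g'` with `P g₂` for all small `g₂ ≤ g₁`; finite intersections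
are dense open. Excision: `g ε a g ε ∈ F g ε` (`lk_same`, `rk`) and `g ε a g (!ε) = 0`
(`lk_other`, `rk`) are dense open. Filtration: `Fl 0 = ι A`,
`Fl (n+1) = Fl n + ∑ Fl n * τ ε * ι A`, exhaustive, preserved by transitions. For
`x ∈ Fl (n+2)` the property of `g₂` that every transition to a stage with idempotents `g₂`
sends `x` into `Fl (n+1)` is dense open (for `y τ ε a τ ε' c` expand
`(w + τ') a (w' + τ')` and excise `a`). -/
theorem MS.deg_one (h : MH F M) (X : MS F M) (x : X.T) :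
    ∃ (Y : MS F M) (θ : X.Tr Y) (κ : Type) (_ : Fintype κ) (ε : κ → Bool) (a : A) (b c : κ → A),
      θ.f x = Y.ι a + ∑ k, Y.ι (b k) * Y.τ (ε k) * Y.ι (c k) := by
  have hQ : X.m1Q x := X.univ.gens.left (MS.m1Q_of (map_one X.ι ▸ X.m1D_ι 1))
    (fun _ _ => MS.m1Q.add) (fun a _ => MS.m1Q.left a) (fun ε _ => MS.m1Q.tau h ε) x
  obtain ⟨ρ, hρ⟩ := MS.Tr.refl X
  obtain ⟨Y, θ, h1⟩ := hQ X ρ
  rw [hρ] at h1
  exact ⟨Y, θ, MS.m1D_form h1⟩

theorem MS.Tr.m1_sum {X Y : MS F M} (θ : X.Tr Y) {κ : Type} [Fintype κ] (ε : κ → Bool) (a : A)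
    (b c : κ → A) : θ.f (X.ι a + ∑ k, X.ι (b k) * X.τ (ε k) * X.ι (c k)) =
      Y.ι (a + ∑ k, b k * θ.w (ε k) * c k) + ∑ k, Y.ι (b k) * Y.τ (ε k) * Y.ι (c k) := by
  rw [map_add, map_sum, θ.hι, map_add, map_sum, add_assoc, ← Finset.sum_add_distrib]
  simp only [θ.m1_term]

theorem MS.m1_nf (h : MH F M) (n : ℕ) : ∀ (X : MS F M) (κ : Type) [Fintype κ] (ε : κ → Bool)
    (a : A) (b c : κ → A), Fintype.card κ < n →
    ∃ (Y : MS F M) (θ : X.Tr Y) (κ' : Type) (_ : Fintype κ') (_ : DecidableEq κ')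
      (ε' : κ' → Bool) (a' : A) (b' c' ξ : κ' → A),
      θ.f (X.ι a + ∑ k, X.ι (b k) * X.τ (ε k) * X.ι (c k)) =
        Y.ι a' + ∑ k, Y.ι (b' k) * Y.τ (ε' k) * Y.ι (c' k) ∧
      ∀ k i, ξ k * b' i * Y.g (!ε' i) = if k = i then Y.g (!ε' i) else 0 := by
  classical
  induction n with
  | zero => intro _ _ _ _ _ _ _ hn; exact absurd hn (Nat.not_lt_zero _)
  | succ n ih =>
    intro X κ _ ε a b c hn
    by_cases hind : ∀ η, IndM F (M (!η)) fun i : {i // ε i = η} => b i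
    · have hξ : ∀ k, ∃ ξ : A, ∀ i, ξ * b i - (if k = i then 1 else 0) ∈ M (!ε i) := fun k => by
        obtain ⟨p, h1, h2⟩ := density (h.pt (!ε k)) (h.pt (ε k)).1 (h.ns (ε k)) _ (hind (ε k))
          (fun i => if k = i then 1 else 0) fun i : {i // ε i ≠ ε k} => b i
        refine ⟨p, fun i => ?_⟩
        by_cases hi : ε i = ε k
        · rw [hi]; exact h1 ⟨i, hi⟩
        · have e : (!ε i) = ε k := by revert hi; cases ε i <;> cases ε k <;> simp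
          rw [if_neg (fun c : k = i => hi (by rw [c])), sub_zero, e]
          exact h2 ⟨i, hi⟩
      choose ξ hξ using hξ
      choose g₁ h1 h2 h3 using fun η => h.reg.rk (X.sm η)
        (fun p : κ × {i // (!ε i) = η} => ξ p.1 * b p.2 - if p.1 = p.2 then 1 else 0)
        fun p => by have := hξ p.1 p.2.1; rwa [p.2.2] at this
      obtain ⟨Y, θ, h4⟩ := MS.shrink h X g₁ h1 h2
      refine ⟨Y, θ, κ, inferInstance, inferInstance, ε, _, b, c, ξ, θ.m1_sum ε a b c,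
        fun k i => ?_⟩
      have := h3 (!ε i) (k, ⟨i, rfl⟩)
      rw [sub_mul, sub_eq_zero] at this
      rw [← (h4 _).1, ← mul_assoc, this, mul_assoc, (h4 _).1]
      split_ifs <;> simp
    · simp only [IndM, not_forall] at hind
      obtain ⟨η, l, hl, k₀, hk₀⟩ := hind
      obtain ⟨a', ha', l', hm⟩ := h.reg.rk (X.sm (!η)) (fun _ : Unit => ∑ k, l k • b k) fun _ => hl
      obtain ⟨Y, θ, -, h2⟩ := MS.m1_shrink h X η (X.sm η) ha' (Le.refl (X.sm η).1) l'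
      obtain ⟨l₁, hl₁⟩ : ∃ l₁ : κ → F, ∀ k, l₁ k = if hk : ε k = η then l ⟨k, hk⟩ else 0 :=
        ⟨_, fun _ => rfl⟩
      have e0 : l₁ k₀ = l k₀ := by rw [hl₁, dif_pos k₀.2]
      have e1 : ∑ k, l₁ k • (Y.ι (b k) * Y.τ (ε k)) = 0 := by
        have e2 : Y.ι (∑ k, l k • b k) * Y.τ η = 0 := by
          rw [← Y.m1_left η, ← mul_assoc, ← map_mul, ← h2.1, ← mul_assoc, hm (), zero_mul,
            map_zero, zero_mul]
        rw [← e2, map_sum, Finset.sum_mul, ← Fintype.sum_subtype_add_sum_subtype (ε · = η),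
          Finset.sum_eq_zero (s := (Finset.univ : Finset {k // ¬ ε k = η}))
            fun k _ => by rw [hl₁, dif_neg k.2, zero_smul], add_zero]
        refine Finset.sum_congr rfl fun k _ => ?_
        rw [hl₁, dif_pos k.2, k.2, map_smul, smul_mul_assoc]
      have e3 : ∑ k, Y.ι (b k) * Y.τ (ε k) * Y.ι (c k) = ∑ k : {k // k ≠ k₀.1},
          Y.ι (b k) * Y.τ (ε k) * Y.ι (c k - (l₁ k / l k₀) • c k₀) := by
        have e4 : ∑ k, Y.ι (b k) * Y.τ (ε k) * Y.ι (c k - (l₁ k / l k₀) • c k₀) =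
            ∑ k, Y.ι (b k) * Y.τ (ε k) * Y.ι (c k) -
              (∑ k, l₁ k • (Y.ι (b k) * Y.τ (ε k))) * Y.ι ((l k₀)⁻¹ • c k₀) := by
          rw [Finset.sum_mul, ← Finset.sum_sub_distrib]
          refine Finset.sum_congr rfl fun k _ => ?_
          rw [map_sub, mul_sub, div_eq_mul_inv, mul_smul, map_smul, mul_smul_comm,
            smul_mul_assoc]
        rw [e1, zero_mul, sub_zero] at e4
        rw [← e4, Fintype.sum_eq_add_sum_subtype_ne _ k₀.1, e0, div_self hk₀, one_smul, sub_self,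
          map_zero, mul_zero, zero_add]
      obtain ⟨Z, θ', κ', _, _, ε', a'', b', c', ξ, e5, e6⟩ := ih Y {k // k ≠ k₀.1}
        (fun k => ε k) (a + ∑ k, b k * θ.w (ε k) * c k) (fun k => b k)
        (fun k => c k - (l₁ k / l k₀) • c k₀)
        (lt_of_lt_of_le (Fintype.card_subtype_lt (x := k₀.1) (by simp)) (by omega))
      obtain ⟨ρ, hρ⟩ := θ.trans θ'
      exact ⟨Z, ρ, κ', _, _, ε', a'', b', c', ξ, by rw [hρ, θ.m1_sum, e3, e5], e6⟩

/-- Normal form. Starting from `deg_one`, induct on the number of terms: if for some `ε₀` the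
`b k` with `ε k = ε₀` are dependent modulo `M (!ε₀)`, kill the combination by `rk` and `shrink`
and drop a term. Otherwise `density` gives `ξ k` with `ξ k b i - δ ∈ M (!ε i)`; `rk`, `shrink`.
A transition keeps `b`, `c` and changes only `a`. -/
theorem MS.nf (h : MH F M) (X : MS F M) (x : X.T) :
    ∃ (Y : MS F M) (θ : X.Tr Y) (κ : Type) (_ : Fintype κ) (_ : DecidableEq κ) (ε : κ → Bool)
      (a : A) (b c ξ : κ → A), θ.f x = Y.ι a + ∑ k, Y.ι (b k) * Y.τ (ε k) * Y.ι (c k) ∧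
      ∀ k i, ξ k * b i * Y.g (!ε i) = if k = i then Y.g (!ε i) else 0 := by
  obtain ⟨Y, θ, κ, _, ε, a, b, c, e⟩ := MS.deg_one h X x
  obtain ⟨Z, θ', κ', _, _, ε', a', b', c', ξ, e1, e2⟩ :=
    MS.m1_nf h _ Y κ ε a b c (Nat.lt_succ_self _)
  obtain ⟨ρ, hρ⟩ := θ.trans θ'
  exact ⟨Z, ρ, κ', _, _, ε', a', b', c', ξ, by rw [hρ, e, e1], e2⟩

end Pool.Agent.Lib.MP_57313b_al.Dia
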