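import Pool.Agent.Lib.MP_57313b_al.Dia.Merge1

/-! The merge step: evaluation tasks. -/

namespace Pool.Agent.Lib.MP_57313b_al.Dia

variable {F : Type} [Field F] [Countable F] {A : Type} [Ring A] [Algebra F A] [Countable A]
  {M : Bool → Ideal A}

omit [Countable F] [Countable A] in
theorem m2_tau_right (X : MS F M) (ε : Bool) : X.τ ε * X.ι (X.g ε) = X.τ ε := by
  have h := X.univ.rel1 ε
  calc X.τ ε * X.ι (X.g ε) = X.ι (X.g (!ε)) * X.τ ε * X.ι (X.g ε) * X.ι (X.g ε) := by rw [h]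
    _ = X.ι (X.g (!ε)) * X.τ ε * X.ι (X.g ε * X.g ε) := by rw [map_mul, mul_assoc _ _ (X.ι _)]
    _ = X.τ ε := by rw [(X.sm ε).1, h]

omit [Countable F] [Countable A] in
theorem m2_tau_left (X : MS F M) (ε : Bool) : X.ι (X.g (!ε)) * X.τ ε = X.τ ε := by
  have h := X.univ.rel1 ε
  calc X.ι (X.g (!ε)) * X.τ ε
      = X.ι (X.g (!ε)) * (X.ι (X.g (!ε)) * X.τ ε * X.ι (X.g ε)) := by rw [h]
    _ = X.ι (X.g (!ε) * X.g (!ε)) * X.τ ε * X.ι (X.g ε) := by simp only [map_mul, mul_assoc]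
    _ = X.τ ε := by rw [(X.sm (!ε)).1, h]

omit [Countable F] [Countable A] in
theorem m2_kill_left (X : MS F M) (ε : Bool) {a : A} (ha : a * X.g (!ε) = 0) :
    X.ι a * X.τ ε = 0 := by
  rw [← m2_tau_left X ε, ← mul_assoc, ← map_mul, ha, map_zero, zero_mul]

omit [Countable F] [Countable A] in
theorem m2_tau_mem (X : MS F M) (ε : Bool) {J : Ideal A} {c : A} (hc : X.g ε * c ∈ J) :
    X.τ ε * X.ι c ∈ J.map X.ι := by
  rw [← m2_tau_right X ε, mul_assoc, ← map_mul]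
  exact Ideal.mul_mem_left _ _ (Ideal.mem_map_of_mem _ hc)

omit [Countable F] [Countable A] in
theorem m2_map_mem {X Y : MS F M} (θ : X.Tr Y) {J : Ideal A} {x : X.T} (hx : x ∈ J.map X.ι) :
    θ.f x ∈ J.map Y.ι := by
  have : J.map X.ι ≤ (J.map Y.ι).comap θ.f := by
    rw [Ideal.map_le_iff_le_comap]
    intro a ha
    simp only [Ideal.mem_comap, θ.hι]
    exact Ideal.mem_map_of_mem _ ha
  exact this hx

omit [Countable F] [Countable A] in
/-- a multiplier isolates one term of a normal form -/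
theorem m2_isolate (X : MS F M) {κ : Type} [Fintype κ] [DecidableEq κ] (ε : κ → Bool) (a : A)
    (b c ξ : κ → A)
    (hξ : ∀ k i, ξ k * b i * X.g (!ε i) = if k = i then X.g (!ε i) else 0) (k : κ) :
    X.ι (ξ k) * (X.ι a + ∑ i, X.ι (b i) * X.τ (ε i) * X.ι (c i)) =
      X.ι (ξ k * a) + X.τ (ε k) * X.ι (c k) := by
  have key : ∀ i, X.ι (ξ k) * (X.ι (b i) * X.τ (ε i) * X.ι (c i)) =
      if k = i then X.τ (ε i) * X.ι (c i) else 0 := by
    intro i
    have e : X.ι (ξ k) * (X.ι (b i) * X.τ (ε i) * X.ι (c i)) =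
        X.ι (ξ k * b i * X.g (!ε i)) * X.τ (ε i) * X.ι (c i) := by
      rw [map_mul, map_mul, mul_assoc _ (X.ι (X.g _)), m2_tau_left]
      simp only [mul_assoc]
    rw [e, hξ]
    split_ifs
    · rw [m2_tau_left]
    · simp
  rw [mul_add, Finset.mul_sum, map_mul]
  simp only [key, Finset.sum_ite_eq, Finset.mem_univ, if_true]

/-- a transition carrying the row `γ (!ε)` to the row `γ ε` -/
theorem m2_rows (h : MH F M) (X : MS F M) (γ γ' : Bool → A) (hγ : ∀ ε, γ ε ∈ M ε)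
    (hg : ∀ ε, γ ε * X.g ε = γ ε) (hinv : ∀ ε, γ ε * γ' ε = 1) :
    ∃ (Y : MS F M) (θ : X.Tr Y), (∀ ε, γ ε * Y.g ε = 0) ∧ ∀ ε, γ (!ε) * θ.w ε = γ ε := by
  have h1 : ∀ ε, ∃ g₁, Sm (M ε) g₁ ∧ Le g₁ (X.g ε) ∧ γ ε * g₁ = 0 := by
    intro ε
    obtain ⟨g₁, h1, h2, h3⟩ := h.reg.rk (X.sm ε) (fun _ : Unit => γ ε) fun _ => hγ ε
    exact ⟨g₁, h1, h2, h3 ()⟩
  choose g₁ hsm hle hk using h1
  have hd : ∀ ε, (X.g ε - g₁ ε) * (X.g ε - g₁ ε) = X.g ε - g₁ ε := by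
    intro ε
    rw [sub_mul, mul_sub, mul_sub, (X.sm ε).1, (hle ε).1, (hle ε).2, (hsm ε).1]
    abel
  have hγd : ∀ ε, γ ε * (X.g ε - g₁ ε) = γ ε := by
    intro ε
    rw [mul_sub, hg, hk, sub_zero]
  have hγd' : ∀ ε y, γ ε * ((X.g ε - g₁ ε) * y) = γ ε * y := by
    intro ε y
    rw [← mul_assoc, hγd]
  have hinv' : ∀ ε y, γ ε * (γ' ε * y) = y := by
    intro ε y
    rw [← mul_assoc, hinv, one_mul]
  obtain ⟨Y, θ, hY, hw⟩ := MS.tr h X g₁ hsm hle
    (fun ε => (X.g (!ε) - g₁ (!ε)) * γ' (!ε) * γ ε)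
    (fun ε => by
      rw [← mul_assoc, ← mul_assoc, hd, mul_assoc _ (γ ε), hγd])
    (fun ε => by
      simp only [Bool.not_not, mul_assoc, hγd', hinv'])
  refine ⟨Y, θ, fun ε => ?_, fun ε => ?_⟩
  · rw [← (hY ε).1, ← mul_assoc, hk, zero_mul]
  · have := congrArg (fun y => γ (!ε) * y) (hw ε).2
    simpa only [Bool.not_not, mul_assoc, hγd', hinv'] using this

/-- Prescribing a row. `β, β'` from `exists_right_inv` for `M ε`, `g ε`, `c`, `J`; `α, α'` from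
the same lemma for `M (!ε)`, `g (!ε)`, `c = 1`, `J = ⊥` (`Mx.ns_bot`). Scale `β` by a scalar so
that `α a + β c ∉ J` (`F` is infinite). `rk`: `α g₁ (!ε) = 0`, `β g₁ ε = 0`;
`w₀ ε = (g - g₁)(!ε) α' β`, `w₀ (!ε) = (g - g₁)(ε) β' α`; `MS.tr` gives `α w ε = β`. -/
theorem MS.eval [Infinite F] (h : MH F M) (X : MS F M) (ε : Bool) (a c : A) {J : Ideal A} {m : A}
    (hm : m ∈ M ε) (hc : m * X.g ε * c ∉ J) :
    ∃ (Y : MS F M) (θ : X.Tr Y) (α n : A), n ∉ J ∧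
      Y.ι α * θ.f (X.ι a + X.τ ε * X.ι c) = Y.ι n := by
  classical
  obtain ⟨β₀, β₀', hβ1, hβ2, hβ3, hβ4⟩ := exists_right_inv h.reg h.pi (X.sm ε) hm hc
  have hne : X.g (!ε) ≠ 0 := (X.sm (!ε)).ne_zero (h.pt (!ε)).1
  have h0 : ∃ m' ∈ M (!ε), m' * X.g (!ε) * 1 ∉ (⊥ : Ideal A) := by
    by_contra hcon
    push Not at hcon
    apply hne
    have := (h.pt (!ε)).1.ns_bot h.pi h.fr (X.g (!ε)) fun m' hm' => by
      simpa using hcon m' hm'
    simpa using this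
  obtain ⟨m', hm', hm''⟩ := h0
  obtain ⟨α, α', hα1, hα2, hα3, -⟩ := exists_right_inv h.reg h.pi (X.sm (!ε)) hm' hm''
  have hβ : ∃ β β', β ∈ M ε ∧ β * X.g ε = β ∧ β * β' = 1 ∧ α * a + β * c ∉ J := by
    by_cases h1 : α * a + β₀ * c ∈ J
    · obtain ⟨l, hl⟩ := Infinite.exists_notMem_finset ({0, 1} : Finset F)
      simp only [Finset.mem_insert, Finset.mem_singleton, not_or] at hl
      refine ⟨l • β₀, l⁻¹ • β₀', ?_, ?_, ?_, ?_⟩
      · rw [Algebra.smul_def]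
        exact Ideal.mul_mem_left _ _ hβ1
      · rw [smul_mul_assoc, hβ2]
      · rw [smul_mul_smul_comm, hβ3, mul_inv_cancel₀ hl.1, one_smul]
      · intro h2
        apply hβ4
        have h3 := J.sub_mem h2 h1
        have h4 : β₀ * c = algebraMap F A (l - 1)⁻¹ *
            (α * a + l • β₀ * c - (α * a + β₀ * c)) := by
          have e : α * a + l • β₀ * c - (α * a + β₀ * c) = (l - 1) • (β₀ * c) := by
            rw [smul_mul_assoc, sub_smul, one_smul]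
            abel
          rw [e, ← Algebra.smul_def, smul_smul, inv_mul_cancel₀ (sub_ne_zero.mpr hl.2), one_smul]
        rw [h4]
        exact Ideal.mul_mem_left _ _ h3
    · exact ⟨β₀, β₀', hβ1, hβ2, hβ3, h1⟩
  obtain ⟨β, β', hb1, hb2, hb3, hb4⟩ := hβ
  have hε : (!ε) ≠ ε := by cases ε <;> simp
  have hcase : ∀ ε', ε' = ε ∨ ε' = !ε := by
    intro ε'
    cases ε <;> cases ε' <;> simp
  obtain ⟨Y, θ, hY, hw⟩ := m2_rows h X (fun ε' => if ε' = ε then β else α)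
    (fun ε' => if ε' = ε then β' else α')
    (fun ε' => by rcases hcase ε' with rfl | rfl <;> simp [hε, hb1, hα1])
    (fun ε' => by rcases hcase ε' with rfl | rfl <;> simp [hε, hb2, hα2])
    (fun ε' => by rcases hcase ε' with rfl | rfl <;> simp [hε, hb3, hα3])
  have e1 : α * Y.g (!ε) = 0 := by simpa [hε] using hY (!ε)
  have e2 : α * θ.w ε = β := by simpa [hε] using hw ε
  refine ⟨Y, θ, α, α * a + β * c, hb4, ?_⟩
  rw [map_add, map_mul, θ.hι, θ.hι, θ.hτ, mul_add, ← mul_assoc, mul_add, m2_kill_left Y ε e1,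
    add_zero, ← map_mul, ← map_mul, ← map_mul, e2, ← map_add]

/-- In normal form either all `g (ε k) c k ∈ J`, or `ξ k` isolates a term and `eval` applies. -/
theorem MS.eval_ns [Infinite F] (h : MH F M) (X : MS F M) {J : Ideal A} (hJ : ∀ ε, NS (M ε) J)
    (x : X.T) : ∃ (Y : MS F M) (θ : X.Tr Y), θ.f x ∈ J.map Y.ι ∨
      ∃ z n, n ∉ J ∧ z * θ.f x - Y.ι n ∈ J.map Y.ι := by
  obtain ⟨Y, θ, κ, _, _, ε, a, b, c, ξ, hx, hξ⟩ := MS.nf h X x
  by_cases hall : ∀ k, Y.g (ε k) * c k ∈ J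
  · have hs : ∑ k, Y.ι (b k) * Y.τ (ε k) * Y.ι (c k) ∈ J.map Y.ι :=
      Ideal.sum_mem _ fun k _ => by
        rw [mul_assoc]
        exact Ideal.mul_mem_left _ _ (m2_tau_mem Y _ (hall k))
    refine ⟨Y, θ, ?_⟩
    by_cases ha : a ∈ J
    · left
      rw [hx]
      exact Ideal.add_mem _ (Ideal.mem_map_of_mem _ ha) hs
    · right
      refine ⟨1, a, ha, ?_⟩
      rw [hx, one_mul, add_sub_cancel_left]
      exact hs
  · push Not at hall
    obtain ⟨k, hk⟩ := hall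
    have h0 : ∃ m ∈ M (ε k), m * Y.g (ε k) * c k ∉ J := by
      by_contra hcon
      push Not at hcon
      exact hk (hJ (ε k) _ fun m hm => by simpa only [mul_assoc] using hcon m hm)
    obtain ⟨m, hm, hm'⟩ := h0
    obtain ⟨Z, θ', α, n, hn, he⟩ := MS.eval h Y (ε k) (ξ k * a) (c k) hm hm'
    obtain ⟨θ'', hθ⟩ := θ.trans θ'
    refine ⟨Z, θ'', Or.inr ⟨Z.ι α * Z.ι (ξ k), n, hn, ?_⟩⟩
    rw [hθ, hx, mul_assoc, ← θ'.hι (ξ k), ← map_mul, m2_isolate Y ε a b c ξ hξ k, he, sub_self]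
    exact Ideal.zero_mem _

theorem MS.task_pi [Infinite F] (h : MH F M) (X : MS F M) (x : X.T) :
    ∃ (Y : MS F M) (θ : X.Tr Y), θ.f x = 0 ∨ ∃ a b, a * θ.f x * b = 1 := by
  obtain ⟨Y, θ, hY⟩ := MS.eval_ns h X (J := ⊥) (fun ε => (h.pt ε).1.ns_bot h.pi h.fr) x
  refine ⟨Y, θ, ?_⟩
  rw [Ideal.map_bot] at hY
  rcases hY with h0 | ⟨z, n, hn, hz⟩
  · left
    simpa using h0
  · right
    obtain ⟨a, b, hab⟩ := h.pi n (by simpa using hn)
    have hz' : z * θ.f x = Y.ι n := sub_eq_zero.mp (by simpa using hz)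
    refine ⟨Y.ι a * z, Y.ι b, ?_⟩
    rw [mul_assoc (Y.ι a), hz', ← map_mul, ← map_mul, hab, map_one]

/-- an element in normal form whose right coefficients are not all in `M false` becomes
left invertible modulo `M false` -/
theorem m2_eval_pt [Infinite F] (h : MH F M) (X : MS F M) {κ : Type} [Fintype κ] [DecidableEq κ]
    (ε : κ → Bool) (ψ₀ : A) (b ψ ξ : κ → A)
    (hξ : ∀ k i, ξ k * b i * X.g (!ε i) = if k = i then X.g (!ε i) else 0)
    (hψ : ∀ k, X.g (ε k) * ψ k = ψ k) (hn : ¬ (ψ₀ ∈ M false ∧ ∀ k, ψ k ∈ M false)) :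
    ∃ (Y : MS F M) (θ : X.Tr Y) (z : Y.T),
      z * θ.f (X.ι ψ₀ + ∑ k, X.ι (b k) * X.τ (ε k) * X.ι (ψ k)) - 1 ∈ (M false).map Y.ι := by
  by_cases h1 : ∃ k, ∃ m ∈ M (ε k), m * ψ k ∉ M false
  · obtain ⟨k, m, hm, hm'⟩ := h1
    obtain ⟨Y, θ, α, n, hn, he⟩ := MS.eval h X (ε k) (ξ k * ψ₀) (ψ k) (J := M false) hm
      (by rwa [mul_assoc, hψ])
    obtain ⟨z, hz⟩ := (h.pt false).1.2 n hn
    refine ⟨Y, θ, Y.ι z * (Y.ι α * Y.ι (ξ k)), ?_⟩
    rw [mul_assoc, mul_assoc, ← θ.hι (ξ k), ← map_mul, m2_isolate X ε ψ₀ b ψ ξ hξ k, he,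
      ← map_mul, ← map_one Y.ι, ← map_sub]
    exact Ideal.mem_map_of_mem _ hz
  push Not at h1
  by_cases h2 : ∀ k, ψ k ∈ M false
  · have h0 : ψ₀ ∉ M false := fun h' => hn ⟨h', h2⟩
    obtain ⟨z, hz⟩ := (h.pt false).1.2 ψ₀ h0
    obtain ⟨θ, hθ⟩ := MS.Tr.refl X
    refine ⟨X, θ, X.ι z, ?_⟩
    rw [hθ, mul_add, add_sub_right_comm, ← map_mul, ← map_one X.ι, ← map_sub]
    refine Ideal.add_mem _ (Ideal.mem_map_of_mem _ hz) (Ideal.mul_mem_left _ _ ?_)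
    exact Ideal.sum_mem _ fun k _ => Ideal.mul_mem_left _ _ (Ideal.mem_map_of_mem _ (h2 k))
  push Not at h2
  obtain ⟨k, hk⟩ := h2
  have hεk : ε k = false := by
    by_contra hcon
    have hcon' : ε k = true := by simpa using hcon
    exact hk (h.ns true _ fun m hm => h1 k m (hcon' ▸ hm))
  obtain ⟨l, hl⟩ := (h.pt false).2 (ψ k) fun m hm => h1 k m (hεk ▸ hm)
  have hl0 : l ≠ 0 := by
    rintro rfl
    exact hk (by simpa using hl)
  obtain ⟨g₁, hg1, hg2, hg3⟩ := lk_other h.reg (h.pt true) (h.pt false).1 (h.ns false)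
    (X.sm true) (fun _ : Unit => ξ k * ψ₀)
  obtain ⟨Y, θ, hY⟩ := MS.shrink h X (fun e => if e then g₁ else X.g false)
    (fun e => by cases e <;> simp [hg1, X.sm false])
    (fun e => by cases e <;> simp [hg2, Le.refl (X.sm false).1])
  have hle : Le (Y.g true) g₁ := by simpa using hY true
  refine ⟨Y, θ, Y.ι (algebraMap F A l⁻¹) * (Y.τ true * Y.ι (ξ k)), ?_⟩
  rw [mul_assoc, mul_assoc, ← θ.hι (ξ k), ← map_mul, m2_isolate X ε ψ₀ b ψ ξ hξ k, hεk, map_add,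
    map_mul θ.f, θ.hι, θ.hι, θ.hτ]
  have e1 : Y.τ true * Y.ι (θ.w false) = 0 := by
    rw [← m2_tau_right Y true, mul_assoc, ← map_mul]
    have := (θ.hw false).2
    simp only [Bool.not_false] at this
    rw [this, map_zero, mul_zero]
  have e2 : Y.τ true * Y.τ false = Y.ι (Y.g false) := Y.univ.rel2 false
  have e3 : Y.τ true * Y.ι (ξ k * ψ₀) ∈ (M false).map Y.ι := by
    apply m2_tau_mem
    rw [← hle.2, mul_assoc]
    exact Ideal.mul_mem_left _ _ (hg3 ())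
  have e4 : algebraMap F A l⁻¹ * (Y.g false * ψ k) - 1 ∈ M false := by
    have e : algebraMap F A l⁻¹ * (Y.g false * ψ k) - 1 =
        algebraMap F A l⁻¹ * (Y.g false * (ψ k - algebraMap F A l)) - (1 - Y.g false) := by
      rw [mul_sub, mul_sub, ← Algebra.commutes l, ← mul_assoc _ (algebraMap F A l), ← map_mul,
        inv_mul_cancel₀ hl0, map_one, one_mul]
      abel
    rw [e]
    exact Ideal.sub_mem _ (Ideal.mul_mem_left _ _ (Ideal.mul_mem_left _ _ hl)) (Y.sm false).2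
  rw [mul_add, ← mul_assoc (Y.τ true) (_ + _), mul_add (Y.τ true), e1, zero_add, e2, mul_add,
    add_sub_assoc, ← map_mul, ← map_mul, ← map_one Y.ι, ← map_sub]
  exact Ideal.add_mem _ (Ideal.mul_mem_left _ _ e3) (Ideal.mem_map_of_mem _ e4)

theorem m2_prom_Z [IsAlgClosed F] (h : MH F M) (X : MS F M) {I : Ideal A} {d : A}
    (hπ : (Prom.Z I d).Holds F (M false)) (x : X.T) :
    ∃ (Y : MS F M) (θ : X.Tr Y), θ.f x ∈ I.map Y.ι ∨
      (1 : Y.T) ∈ Ideal.span (Set.range fun i : ℕ => θ.f x * Y.ι d ^ i) ⊔ I.map Y.ι := by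
  obtain ⟨Y, θ, hY⟩ := MS.eval_ns h X (J := I) (fun ε => Prom.ns_of_Z (h.pt ε) hπ) x
  refine ⟨Y, θ, ?_⟩
  rcases hY with h0 | ⟨z, n, hn, hz⟩
  · exact Or.inl h0
  right
  have h1 : (1 : A) ∈ Ideal.span (Set.range fun i : ℕ => n * d ^ i) ⊔ I :=
    (hπ.2 n).resolve_left hn
  have hd : ∀ j ∈ I.map Y.ι, j * Y.ι d ∈ I.map Y.ι :=
    map_mul_mem Y.ι I _ _ fun i hi => by
      rw [← map_mul]
      exact Ideal.mem_map_of_mem _ (hπ.1.1 i hi)
  have hdi : ∀ i : ℕ, ∀ j ∈ I.map Y.ι, j * Y.ι d ^ i ∈ I.map Y.ι := by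
    intro i
    induction i with
    | zero => intro j hj; simpa using hj
    | succ i ih => intro j hj; rw [pow_succ, ← mul_assoc]; exact hd _ (ih j hj)
  have hle : Ideal.span (Set.range fun i : ℕ => n * d ^ i) ⊔ I ≤
      (Ideal.span (Set.range fun i : ℕ => θ.f x * Y.ι d ^ i) ⊔ I.map Y.ι).comap Y.ι := by
    refine sup_le (Ideal.span_le.mpr ?_) fun i hi => ?_
    · rintro _ ⟨i, rfl⟩
      have e : Y.ι (n * d ^ i) = z * (θ.f x * Y.ι d ^ i) - (z * θ.f x - Y.ι n) * Y.ι d ^ i := by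
        rw [map_mul, map_pow, sub_mul, mul_assoc]
        abel
      simp only [SetLike.mem_coe, Ideal.mem_comap]
      rw [e]
      exact Ideal.sub_mem _
        (Ideal.mul_mem_left _ _ (Ideal.mem_sup_left (Ideal.subset_span ⟨i, rfl⟩)))
        (Ideal.mem_sup_right (hdi i _ hz))
    · exact Ideal.mem_sup_right (Ideal.mem_map_of_mem _ hi)
  simpa using hle h1

theorem m2_prom_G [Infinite F] (h : MH F M) (X : MS F M) {J : Ideal A} {S : Set (A × A)}
    (hπ : (Prom.G J S).Holds F (M false)) (x : X.T) :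
    ∃ (Y : MS F M) (θ : X.Tr Y), θ.f x ∈ J.map Y.ι ∨ ∃ p ∈ S, ∃ B z,
      θ.f x - B * Y.ι p.1 ∈ J.map Y.ι ∧ z * (B * Y.ι p.2) - 1 ∈ (M false).map Y.ι := by
  obtain ⟨Y, θ, κ, _, _, ε, a, b, c, ξ, hx, hξ⟩ := MS.nf h X x
  obtain ⟨xx, yy, hxy⟩ := h.fr.of_countable (Option κ)
  set N : A := xx none * a + ∑ k, xx (some k) * (Y.g (ε k) * c k) with hN
  have hN0 : yy none * N = a := by
    simp [hN, mul_add, Finset.mul_sum, ← mul_assoc, hxy]
  have hNk : ∀ k, yy (some k) * N = Y.g (ε k) * c k := by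
    intro k
    simp [hN, mul_add, Finset.mul_sum, ← mul_assoc, hxy, ite_mul]
  rcases hπ.2 N with hJ | ⟨p, hp, β, z, hβ, hz⟩
  · refine ⟨Y, θ, Or.inl ?_⟩
    rw [hx]
    refine Ideal.add_mem _ (Ideal.mem_map_of_mem _ (hN0 ▸ Ideal.mul_mem_left _ _ hJ))
      (Ideal.sum_mem _ fun k _ => ?_)
    rw [mul_assoc]
    exact Ideal.mul_mem_left _ _ (m2_tau_mem Y _ (hNk k ▸ Ideal.mul_mem_left _ _ hJ))
  set E : A := xx none * yy none + ∑ k, xx (some k) * (Y.g (ε k) * yy (some k)) with hE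
  have hEN : E * N = N := by
    rw [hE, add_mul, Finset.sum_mul, mul_assoc, hN0]
    conv_rhs => rw [hN]
    congr 1
    refine Finset.sum_congr rfl fun k _ => ?_
    rw [mul_assoc, mul_assoc, hNk, ← mul_assoc (Y.g _), (Y.sm _).1]
  have h1 : (1 - E) * β * p.2 ∈ M false := by
    refine hπ.1 p hp _ ?_
    have e : (1 - E) * β * p.1 = -((1 - E) * (N - β * p.1)) := by
      rw [mul_sub (1 - E), sub_mul 1 E N, hEN, one_mul, sub_self, zero_sub, neg_neg, mul_assoc]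
    rw [e]
    exact J.neg_mem (Ideal.mul_mem_left _ _ hβ)
  have h2 : ¬ (yy none * β * p.2 ∈ M false ∧
      ∀ k, Y.g (ε k) * (yy (some k) * β * p.2) ∈ M false) := by
    rintro ⟨h3, h4⟩
    apply (h.pt false).1.1
    have h5 : E * β * p.2 ∈ M false := by
      rw [hE, add_mul, add_mul, Finset.sum_mul, Finset.sum_mul]
      refine Ideal.add_mem _ ?_ (Ideal.sum_mem _ fun k _ => ?_)
      · simpa only [mul_assoc] using Ideal.mul_mem_left _ (xx none) h3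
      · simpa only [mul_assoc] using Ideal.mul_mem_left _ (xx (some k)) (h4 k)
    have e : (1 : A) = z * ((1 - E) * β * p.2 + E * β * p.2) - (z * (β * p.2) - 1) := by
      noncomm_ring
    rw [e]
    exact Ideal.sub_mem _ (Ideal.mul_mem_left _ _ (Ideal.add_mem _ h1 h5)) hz
  obtain ⟨Z, θ', z', hz'⟩ := m2_eval_pt h Y ε (yy none * β * p.2) b
    (fun k => Y.g (ε k) * (yy (some k) * β * p.2)) ξ hξ
    (fun k => by rw [← mul_assoc, (Y.sm _).1]) h2
  obtain ⟨θ'', hθ⟩ := θ.trans θ'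
  refine ⟨Z, θ'', Or.inr ⟨p, hp,
    θ'.f (Y.ι (yy none * β) + ∑ k, Y.ι (b k) * Y.τ (ε k) * Y.ι (yy (some k) * β)), z', ?_, ?_⟩⟩
  · rw [hθ, ← θ'.hι p.1, ← map_mul, ← map_sub]
    apply m2_map_mem
    rw [hx, add_mul, Finset.sum_mul, add_sub_add_comm, ← Finset.sum_sub_distrib, ← map_mul,
      ← map_sub]
    refine Ideal.add_mem _ (Ideal.mem_map_of_mem _ ?_) (Ideal.sum_mem _ fun k _ => ?_)
    · rw [← hN0, mul_assoc, ← mul_sub]
      exact Ideal.mul_mem_left _ _ hβ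
    · rw [mul_assoc _ (Y.ι _) (Y.ι p.1), ← map_mul, ← mul_sub, ← map_sub, mul_assoc]
      refine Ideal.mul_mem_left _ _ (m2_tau_mem Y _ ?_)
      have e : Y.g (ε k) * (c k - yy (some k) * β * p.1) =
          Y.g (ε k) * (yy (some k) * (N - β * p.1)) := by
        rw [mul_sub (yy _), hNk, mul_sub, mul_sub, ← mul_assoc (Y.g _) (Y.g _), (Y.sm _).1,
          mul_assoc (yy _)]
      rw [e]
      exact Ideal.mul_mem_left _ _ (Ideal.mul_mem_left _ _ hβ)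
  · have e : (Y.ι (yy none * β) + ∑ k, Y.ι (b k) * Y.τ (ε k) * Y.ι (yy (some k) * β)) * Y.ι p.2 =
        Y.ι (yy none * β * p.2) +
          ∑ k, Y.ι (b k) * Y.τ (ε k) * Y.ι (Y.g (ε k) * (yy (some k) * β * p.2)) := by
      rw [add_mul, Finset.sum_mul, ← map_mul]
      congr 1
      refine Finset.sum_congr rfl fun k _ => ?_
      rw [map_mul Y.ι (Y.g _), ← mul_assoc, mul_assoc _ (Y.τ _) (Y.ι (Y.g _)), m2_tau_right,
        mul_assoc _ _ (Y.ι p.2), ← map_mul]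
    rw [← θ'.hι p.2, ← map_mul, e]
    exact hz'

/-- `Z`: `Prom.ns_of_Z` and `eval_ns`. `G J S`: normal form, frames `x₀, x k`,
`N = x₀ a + ∑ x k g (ε k) c k`, `E = x₀ y₀ + ∑ x k g (ε k) y k`. If `N ∉ J`: `N - β u ∈ J`,
`β v ∉ M false`, `(1 - E) β v ∈ M false` by `Stat`; `ψ₀ = y₀ β v`, `ψ k = g (ε k) y k β v` not
all in `M false`; multiplier `B = y₀ β + ∑ b k τ (ε k) y k β`, `B v = ψ₀ + ∑ b k τ (ε k) ψ k`.
(i) some `m ∈ M (ε k)` has `m ψ k ∉ M false`: isolate by `ξ k`, `eval` with `J = M false`.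
(ii) otherwise `ψ k ∈ M false` if `ε k = true` (`ns`) and `ψ k - λ k ∈ M false` if
`ε k = false` (`pt`). If all `λ k = 0` use `ψ₀`. If `λ k ≠ 0`, `ξ k B v ≡ ξ k ψ₀ + λ k τ false`;
`lk_other` gives `g₁ true ξ k ψ₀ ∈ M false`; `shrink`; multiply by the new `τ true`. -/
theorem MS.task_prom [IsAlgClosed F] (h : MH F M) (X : MS F M) {π : Prom A}
    (hπ : π.Holds F (M false)) (x : X.T) :
    ∃ (Y : MS F M) (θ : X.Tr Y), (π.map Y.ι).Done ((M false).map Y.ι) (θ.f x) := by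
  cases π with
  | G J S =>
    obtain ⟨Y, θ, hY⟩ := m2_prom_G h X hπ x
    refine ⟨Y, θ, ?_⟩
    rcases hY with h0 | ⟨p, hp, B, z, h1, h2⟩
    · exact Or.inl h0
    · exact Or.inr ⟨Prod.map Y.ι Y.ι p, ⟨p, hp, rfl⟩, B, z, h1, h2⟩
  | Z I d => exact m2_prom_Z h X hπ x

omit [Countable F] [Countable A] in
/-- `lk_same` for a finite family -/
theorem m2_lk_same (hA : Reg A) {N N' : Ideal A} (hN : Pt F N) (hN' : Mx N') (hns : NS N' N)
    {g : A} (hg : Sm N g) {κ : Type} (a : κ → A) (s : Finset κ) :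
    ∃ g₁, Sm N g₁ ∧ Le g₁ g ∧ ∀ k ∈ s, ∃ c : F, g₁ * a k - algebraMap F A c ∈ N := by
  classical
  induction s using Finset.induction_on with
  | empty => exact ⟨g, hg, Le.refl hg.1, by simp⟩
  | insert k s _ ih =>
    obtain ⟨g₁, h1, h2, h3⟩ := ih
    obtain ⟨g₂, h4, h5, h6⟩ := lk_same hA hN hN' hns h1 (a k)
    refine ⟨g₂, h4, h5.trans h2, fun i hi => ?_⟩
    rcases Finset.mem_insert.mp hi with rfl | hi
    · exact h6
    · obtain ⟨c, hc⟩ := h3 i hi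
      refine ⟨c, ?_⟩
      have e : g₂ * a i - algebraMap F A c =
          g₂ * (g₁ * a i - algebraMap F A c) - algebraMap F A c * (1 - g₂) := by
        rw [mul_sub, ← mul_assoc, h5.2, ← Algebra.commutes c g₂, mul_sub, mul_one]
        abel
      rw [e]
      exact Ideal.sub_mem _ (Ideal.mul_mem_left _ _ hc) (Ideal.mul_mem_left _ _ h4.2)

/-- From `deg_one`; `lk_same` for the terms `b τ false c`, `lk_other` for `b τ true c`;
`τ false = r false - ι v`. -/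
theorem MS.task_abs (h : MH F M) (X : MS F M) (x : X.T) :
    ∃ (Y : MS F M) (θ : X.Tr Y) (a a' : A),
      θ.f x - Y.ι a - Y.ι a' * Y.r false ∈ (M false).map Y.ι := by
  obtain ⟨Y, θ, κ, _, ε, a, b, c, hx⟩ := MS.deg_one h X x
  obtain ⟨g₀, h01, h02, h03⟩ := m2_lk_same h.reg (h.pt false) (h.pt true).1 (h.ns true)
    (Y.sm false) c Finset.univ
  obtain ⟨g₁, h11, h12, h13⟩ := lk_other h.reg (h.pt true) (h.pt false).1 (h.ns false)
    (Y.sm true) c
  obtain ⟨Z, θ', hZ⟩ := MS.shrink h Y (fun e => if e then g₁ else g₀)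
    (fun e => by cases e <;> simp [h01, h11]) (fun e => by cases e <;> simp [h02, h12])
  have hle0 : Le (Z.g false) g₀ := by simpa using hZ false
  have hle1 : Le (Z.g true) g₁ := by simpa using hZ true
  obtain ⟨θ'', hθ⟩ := θ.trans θ'
  obtain ⟨v, hv, -⟩ := Z.wit false
  have hterm : ∀ k, ∃ a a' : A, θ'.f (Y.ι (b k) * Y.τ (ε k) * Y.ι (c k)) - Z.ι a -
      Z.ι a' * Z.r false ∈ (M false).map Z.ι := by
    intro k
    rw [map_mul, map_mul, θ'.hι, θ'.hι, θ'.hτ]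
    cases hk : ε k
    · obtain ⟨l, hl⟩ := h03 k (Finset.mem_univ k)
      refine ⟨b k * θ'.w false * c k - b k * algebraMap F A l * v, b k * algebraMap F A l, ?_⟩
      have e : Z.ι (b k) * (Z.ι (θ'.w false) + Z.τ false) * Z.ι (c k) -
          Z.ι (b k * θ'.w false * c k - b k * algebraMap F A l * v) -
          Z.ι (b k * algebraMap F A l) * Z.r false =
          Z.ι (b k) * (Z.τ false * Z.ι (c k - algebraMap F A l)) := by
        have e1 : Z.τ false * Z.ι (algebraMap F A l) = Z.ι (algebraMap F A l) * Z.τ false := by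
          rw [AlgHom.commutes, Algebra.commutes]
        rw [hv, map_sub Z.ι (c k), mul_sub (Z.τ false), e1]
        simp only [map_sub, map_mul]
        noncomm_ring
      rw [e]
      refine Ideal.mul_mem_left _ _ (m2_tau_mem Z false ?_)
      have e2 : Z.g false * (c k - algebraMap F A l) =
          Z.g false * (g₀ * c k - algebraMap F A l) := by
        rw [mul_sub, mul_sub, ← mul_assoc, hle0.2]
      rw [e2]
      exact Ideal.mul_mem_left _ _ hl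
    · refine ⟨b k * θ'.w true * c k, 0, ?_⟩
      have e : Z.ι (b k) * (Z.ι (θ'.w true) + Z.τ true) * Z.ι (c k) -
          Z.ι (b k * θ'.w true * c k) - Z.ι 0 * Z.r false =
          Z.ι (b k) * (Z.τ true * Z.ι (c k)) := by
        simp only [map_mul, map_zero]
        noncomm_ring
      rw [e]
      refine Ideal.mul_mem_left _ _ (m2_tau_mem Z true ?_)
      rw [← hle1.2, mul_assoc]
      exact Ideal.mul_mem_left _ _ (h13 k)
  choose a₁ a₂ ha using hterm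
  refine ⟨Z, θ'', a + ∑ k, a₁ k, ∑ k, a₂ k, ?_⟩
  have e : θ''.f x - Z.ι (a + ∑ k, a₁ k) - Z.ι (∑ k, a₂ k) * Z.r false =
      ∑ k, (θ'.f (Y.ι (b k) * Y.τ (ε k) * Y.ι (c k)) - Z.ι (a₁ k) - Z.ι (a₂ k) * Z.r false) := by
    rw [hθ, hx, map_add, θ'.hι, map_sum, map_add, map_sum, map_sum, Finset.sum_mul,
      Finset.sum_sub_distrib, Finset.sum_sub_distrib]
    abel
  rw [e]
  exact Ideal.sum_mem _ fun k _ => ha k

/-- `rk` and `shrink`: `m r ε = m v ∈ M ε` once `m g (!ε) = 0` -/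
theorem MS.task_kill (h : MH F M) (X : MS F M) (ε : Bool) {m : A} (hm : m ∈ M (!ε)) :
    ∃ (Y : MS F M) (_ : X.Tr Y), Y.ι m * Y.r ε ∈ (M ε).map Y.ι := by
  have h1 : ∀ ε', ∃ g₁, Sm (M ε') g₁ ∧ Le g₁ (X.g ε') ∧ (ε' = !ε → m * g₁ = 0) := by
    intro ε'
    by_cases he : ε' = !ε
    · subst he
      obtain ⟨g₁, h1, h2, h3⟩ := h.reg.rk (X.sm (!ε)) (fun _ : Unit => m) fun _ => hm
      exact ⟨g₁, h1, h2, fun _ => h3 ()⟩
    · exact ⟨X.g ε', X.sm ε', Le.refl (X.sm ε').1, fun h' => absurd h' he⟩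
  choose g₁ hsm hle hk using h1
  obtain ⟨Y, θ, hY⟩ := MS.shrink h X g₁ hsm hle
  refine ⟨Y, θ, ?_⟩
  obtain ⟨v, hv, hv'⟩ := Y.wit ε
  have e : m * Y.g (!ε) = 0 := by rw [← (hY (!ε)).1, ← mul_assoc, hk _ rfl, zero_mul]
  rw [hv, mul_add, m2_kill_left Y ε e, zero_add]
  exact Ideal.mul_mem_left _ _ (Ideal.mem_map_of_mem _ ((Y.sm ε).mem_of_mul_eq_zero hv'))

end Pool.Agent.Lib.MP_57313b_al.Dia
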