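import Pool.Agent.Lib.MP_57313b_al.Dia.Merge2

/-! The merge step: the computation inside `A` behind the regularity task. -/

namespace Pool.Agent.Lib.MP_57313b_al.Dia

variable {F : Type} [Field F] {A : Type} [Ring A] [Algebra F A]

theorem m3_sub_idem {g₁ g : A} (hg : g * g = g) (h₁ : g₁ * g₁ = g₁) (h : Le g₁ g) :
    (g - g₁) * (g - g₁) = g - g₁ := by
  rw [sub_mul, mul_sub, mul_sub, hg, h.1, h.2, h₁]; abel

/-- a double family built from an independent family and `Pre.am` is independent, also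
together with `1` -/
theorem m3_indM {N : Ideal A} {J : Type} [Fintype J] (W : Submodule F A) (G₀ : J → A)
    (hG : ∀ (v : J → A) (c : F), (∀ j, v j ∈ W) →
      ∑ j, v j * G₀ j - algebraMap F A c ∈ N → c = 0 ∧ ∀ j, v j = 0)
    (u : J → A) (hu : ∀ i, u i ∈ W) (hind : ∀ c : J → F, ∑ j, c j • u j = 0 → ∀ j, c j = 0) :
    IndM F N (fun o : Option (J × J) => o.elim 1 fun p => u p.1 * G₀ p.2) := by
  intro c hc
  rw [Fintype.sum_option] at hc
  simp only [Option.elim] at hc
  have h1 : ∑ j, (∑ i, c (some (i, j)) • u i) * G₀ j - algebraMap F A (- c none) ∈ N := by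
    have e : ∑ j, (∑ i, c (some (i, j)) • u i) * G₀ j - algebraMap F A (- c none) =
        c none • (1 : A) + ∑ p : J × J, c (some p) • (u p.1 * G₀ p.2) := by
      rw [map_neg, sub_neg_eq_add, add_comm, Algebra.algebraMap_eq_smul_one,
        Fintype.sum_prod_type_right]
      congr 1
      refine Finset.sum_congr rfl fun j _ => ?_
      rw [Finset.sum_mul]
      refine Finset.sum_congr rfl fun i _ => ?_
      rw [smul_mul_assoc]
    rw [e]; exact hc
  obtain ⟨h0, h2⟩ := hG _ _ (fun j => W.sum_mem fun i _ => W.smul_mem _ (hu i)) h1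
  rintro (_ | ⟨i, j⟩)
  · exact neg_eq_zero.1 h0
  · exact hind (fun i => c (some (i, j))) (h2 j) i

/-- the two elements exchanging the families `α` and `β` -/
theorem m3_swap {K : Type} [Fintype K] [DecidableEq K] {e e' h : A} (he : e * e = e)
    (he' : e' * e' = e') {α β a b : K → A} (hα : ∀ κ, e * α κ = α κ) (hβ : ∀ κ, e' * β κ = β κ)
    (hα' : ∀ κ, α κ * h = α κ) (hβ' : ∀ κ, β κ * h = β κ)
    (ha : ∀ κ κ', a κ * α κ' = if κ = κ' then h else 0)
    (hb : ∀ κ κ', b κ * β κ' = if κ = κ' then h else 0) :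
    ∃ w w' : A, e' * w * e = w ∧ e * w' * e' = w' ∧ w * w' * w = w ∧ w' * w * w' = w' ∧
      (∀ κ, w * α κ = β κ) ∧ ∀ κ, w' * β κ = α κ := by
  have k1 : ∀ κ', (∑ κ, β κ * a κ * e) * α κ' = β κ' := by
    intro κ'
    rw [Finset.sum_mul]
    have : ∀ κ, β κ * a κ * e * α κ' = if κ = κ' then β κ' else 0 := by
      intro κ
      rw [mul_assoc, hα, mul_assoc, ha]
      split_ifs with hk
      · rw [hβ', hk]
      · rw [mul_zero]
    simp [this]
  have k2 : ∀ κ', (∑ κ, α κ * b κ * e') * β κ' = α κ' := by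
    intro κ'
    rw [Finset.sum_mul]
    have : ∀ κ, α κ * b κ * e' * β κ' = if κ = κ' then α κ' else 0 := by
      intro κ
      rw [mul_assoc, hβ, mul_assoc, hb]
      split_ifs with hk
      · rw [hα', hk]
      · rw [mul_zero]
    simp [this]
  refine ⟨∑ κ, β κ * a κ * e, ∑ κ, α κ * b κ * e', ?_, ?_, ?_, ?_, k1, k2⟩
  · rw [Finset.mul_sum, Finset.sum_mul]
    refine Finset.sum_congr rfl fun κ _ => ?_
    rw [← mul_assoc, ← mul_assoc, hβ, mul_assoc _ e e, he]
  · rw [Finset.mul_sum, Finset.sum_mul]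
    refine Finset.sum_congr rfl fun κ _ => ?_
    rw [← mul_assoc, ← mul_assoc, hα, mul_assoc _ e' e', he']
  · rw [Finset.mul_sum]
    refine Finset.sum_congr rfl fun κ _ => ?_
    rw [← mul_assoc, ← mul_assoc, mul_assoc _ _ (β κ), k2, k1]
  · rw [Finset.mul_sum]
    refine Finset.sum_congr rfl fun κ _ => ?_
    rw [← mul_assoc, ← mul_assoc, mul_assoc _ _ (α κ), k1, k2]

theorem m3_kill {N : Ideal A} {x y h : A} (_ : x - y ∈ N) (hk : (x - y) * h = 0) :
    x * h = y * h := by
  rw [sub_mul] at hk; exact sub_eq_zero.1 hk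

/-- the data for `MS.tr` in the regularity task -/
theorem m3_core {M : Bool → Ideal A} (h : MH F M) {g : Bool → A} (hg : ∀ ε, Sm (M ε) (g ε))
    {J : Type} [Fintype J] [DecidableEq J] {φ ψ : J → A} (hφ : ∀ j, g false * φ j = φ j)
    (hψ : ∀ j, g true * ψ j = ψ j) {k : A} (hk : k * k = k)
    (iφ : ∀ c : J → F, ∑ j, c j • (φ j * (1 - k)) = 0 → ∀ j, c j = 0)
    (iψ : ∀ c : J → F, ∑ j, c j • (ψ j * (1 - k)) = 0 → ∀ j, c j = 0) :
    ∃ (G : J → A) (g₁ w₀ : Bool → A), (∀ ε, Sm (M ε) (g₁ ε)) ∧ (∀ ε, Le (g₁ ε) (g ε)) ∧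
      (∀ ε, (g (!ε) - g₁ (!ε)) * w₀ ε * (g ε - g₁ ε) = w₀ ε) ∧
      (∀ ε, w₀ ε * w₀ (!ε) * w₀ ε = w₀ ε) ∧ (∀ j, k * G j = 0) ∧
      (∀ i j, g₁ false * (φ i * G j * g₁ true) = 0) ∧
      (∀ i j, w₀ false * (φ i * G j * g₁ true) =
        ψ i * G j * g₁ true - if i = j then g₁ true else 0) ∧
      ∀ i j, w₀ true * (ψ i * G j * g₁ true - if i = j then g₁ true else 0) =
        φ i * G j * g₁ true := by
  classical
  have hpre : Pre F A := Good.pre (M := M true) ⟨h.reg, h.pi, h.fr, h.pt true⟩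
  let W : Submodule F A := Submodule.span F
    (Set.range (Sum.elim (fun j => φ j * (1 - k)) fun j => ψ j * (1 - k)))
  have : FiniteDimensional F W := FiniteDimensional.span_of_finite F (Set.finite_range _)
  obtain ⟨G₀, hG₀⟩ := hpre.am (h.pt true).1.1 W J
  have i1 := m3_indM W G₀ hG₀ (fun j => φ j * (1 - k))
    (fun i => Submodule.subset_span ⟨Sum.inl i, rfl⟩) iφ
  have i2 := m3_indM W G₀ hG₀ (fun j => ψ j * (1 - k))
    (fun i => Submodule.subset_span ⟨Sum.inr i, rfl⟩) iψ
  set G : J → A := fun j => (1 - k) * G₀ j with hGdef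
  have eφ : ∀ i j, φ i * (1 - k) * G₀ j = φ i * G j := fun i j => by rw [hGdef, mul_assoc]
  have eψ : ∀ i j, ψ i * (1 - k) * G₀ j = ψ i * G j := fun i j => by rw [hGdef, mul_assoc]
  have dens := fun (e : Option (J × J) → A) (he : IndM F (M true) e) (c : Option (J × J) → A) =>
    density (h.pt true) (h.pt false).1 (h.ns false) e he c (fun _ : Empty => (0 : A))
  -- the rows
  have ha : ∀ κ : J × J, ∃ a : A, ∀ κ' : J × J,
      a * (φ κ'.1 * G κ'.2) - (if κ = κ' then 1 else 0) ∈ M true := by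
    intro κ
    obtain ⟨p, hp, -⟩ := dens _ i1 (fun o => if o = some κ then 1 else 0)
    refine ⟨p, fun κ' => ?_⟩
    have := hp (some κ')
    simp only [Option.elim, eφ, Option.some.injEq] at this
    simpa only [eq_comm] using this
  choose a ha using ha
  have hb : ∀ κ : J × J, ∃ b : A, b ∈ M true ∧ ∀ κ' : J × J,
      b * (ψ κ'.1 * G κ'.2) - (if κ = κ' then 1 else 0) ∈ M true := by
    intro κ
    obtain ⟨p, hp, -⟩ := dens _ i2 (fun o => if o = some κ then 1 else 0)
    refine ⟨p, ?_, fun κ' => ?_⟩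
    · simpa using hp none
    · have := hp (some κ')
      simp only [Option.elim, eψ, Option.some.injEq] at this
      simpa only [eq_comm] using this
  choose b hb0 hb using hb
  obtain ⟨p, hp, -⟩ := dens _ i2 (fun o => o.elim 1 fun κ => if κ.1 = κ.2 then 1 else 0)
  have hp1 : 1 - p ∈ M true := by
    have := hp none
    simp only [Option.elim, mul_one] at this
    simpa using (M true).neg_mem this
  have hp2 : ∀ i j, p * (ψ i * G j) - (if i = j then 1 else 0) ∈ M true := by
    intro i j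
    have := hp (some (i, j))
    simpa only [Option.elim, eψ] using this
  obtain ⟨g', c, hg', hle', hc⟩ := h.reg.lk (hg true) hp1
  have hc1 : c - 1 ∈ M true := by
    have e1 : (1 - p) * g true ∈ M true := (hg true).mul_mem hp1
    have e : c - 1 = c * ((1 - g true) + (1 - p) * g true) - (1 - g') := by
      rw [hc]; noncomm_ring
    rw [e]
    exact (M true).sub_mem ((M true).mul_mem_left _ ((M true).add_mem (hg true).2 e1)) hg'.2
  have hg2 : ∀ i j, g' * (ψ i * G j) - (if i = j then 1 else 0) ∈ M true := by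
    intro i j
    have e : g' * (ψ i * G j) - (if i = j then 1 else 0) =
        c * (p * (ψ i * G j) - (if i = j then 1 else 0)) + (if i = j then c - 1 else 0) := by
      rw [hc, mul_assoc, ← mul_assoc (g true), hψ]
      split_ifs <;> noncomm_ring
    rw [e]
    refine (M true).add_mem ((M true).mul_mem_left _ (hp2 i j)) ?_
    split_ifs
    · exact hc1
    · exact (M true).zero_mem
  obtain ⟨g₁, hg₁, hle₁, hk₁⟩ := lk_other h.reg (h.pt false) (h.pt true).1 (h.ns true) (hg false)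
    (fun κ : J × J => φ κ.1 * G κ.2)
  let m : ((J × J) × (J × J)) ⊕ ((J × J) × (J × J)) ⊕ (J × J) ⊕ (J × J) ⊕ (J × J) → A :=
    Sum.elim (fun q => a q.1 * (φ q.2.1 * G q.2.2) - (if q.1 = q.2 then 1 else 0))
      (Sum.elim (fun q => b q.1 * (ψ q.2.1 * G q.2.2) - (if q.1 = q.2 then 1 else 0))
        (Sum.elim b (Sum.elim (fun q => g' * (ψ q.1 * G q.2) - (if q.1 = q.2 then 1 else 0))
          fun q => g₁ * (φ q.1 * G q.2))))
  have hm : ∀ q, m q ∈ M true := by
    rintro (q | q | q | q | q)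
    · exact ha _ _
    · exact hb _ _
    · exact hb0 _
    · exact hg2 _ _
    · exact hk₁ _
  obtain ⟨e, he, hle, hme⟩ := h.reg.rk hg' m hm
  have hee : e * e = e := he.1
  have hle2 : Le e (g true) := hle.trans hle'
  have m1 : ∀ κ κ' : J × J, a κ * (φ κ'.1 * G κ'.2 * e) = if κ = κ' then e else 0 := by
    intro κ κ'
    have := m3_kill (ha κ κ') (hme (Sum.inl (κ, κ')))
    rw [← mul_assoc, this]
    split_ifs <;> simp
  have m3 : ∀ κ, b κ * e = 0 := fun κ => hme (Sum.inr (Sum.inr (Sum.inl κ)))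
  have m2 : ∀ κ κ' : J × J, b κ * (ψ κ'.1 * G κ'.2 * e - if κ'.1 = κ'.2 then e else 0) =
      if κ = κ' then e else 0 := by
    intro κ κ'
    have := m3_kill (hb κ κ') (hme (Sum.inr (Sum.inl (κ, κ'))))
    rw [mul_sub, ← mul_assoc, this]
    have e0 : b κ * (if κ'.1 = κ'.2 then e else 0) = 0 := by
      split_ifs
      · exact m3 κ
      · exact mul_zero _
    rw [e0, sub_zero]
    split_ifs <;> simp
  have m4 : ∀ i j, g' * (ψ i * G j * e - if i = j then e else 0) = 0 := by
    intro i j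
    have := m3_kill (hg2 i j) (hme (Sum.inr (Sum.inr (Sum.inr (Sum.inl (i, j))))))
    rw [mul_sub, ← mul_assoc, this]
    split_ifs
    · rw [one_mul, hle.1, sub_self]
    · simp
  have m5 : ∀ i j, g₁ * (φ i * G j * e) = 0 := by
    intro i j
    have := hme (Sum.inr (Sum.inr (Sum.inr (Sum.inr (i, j)))))
    rw [← mul_assoc]
    exact this
  obtain ⟨w, w', s1, s2, s3, s4, s5, s6⟩ := m3_swap (K := J × J) (e := g false - g₁)
    (e' := g true - e) (h := e) (m3_sub_idem (hg false).1 hg₁.1 hle₁)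
    (m3_sub_idem (hg true).1 hee hle2) (α := fun κ => φ κ.1 * G κ.2 * e)
    (β := fun κ => ψ κ.1 * G κ.2 * e - if κ.1 = κ.2 then e else 0) (a := a) (b := b)
    (fun κ => by
      rw [sub_mul, m5, sub_zero, ← mul_assoc, ← mul_assoc, hφ])
    (fun κ => by
      have e1 : e * (ψ κ.1 * G κ.2 * e - if κ.1 = κ.2 then e else 0) = 0 := by
        rw [← hle.2, mul_assoc e g', hle.2, m4, mul_zero]
      rw [sub_mul, e1, sub_zero, mul_sub, ← mul_assoc, ← mul_assoc, hψ]
      split_ifs
      · rw [hle2.1]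
      · rw [mul_zero])
    (fun κ => by rw [mul_assoc, hee])
    (fun κ => by
      rw [sub_mul, mul_assoc, hee]
      split_ifs
      · rw [hee]
      · rw [zero_mul])
    m1 m2
  refine ⟨G, fun ε => cond ε e g₁, fun ε => cond ε w' w, ?_, ?_, ?_, ?_, ?_, m5, ?_, ?_⟩
  · rintro (_ | _)
    · exact hg₁
    · exact he
  · rintro (_ | _)
    · exact hle₁
    · exact hle2
  · rintro (_ | _)
    · exact s1
    · exact s2
  · rintro (_ | _)
    · exact s3
    · exact s4
  · intro j
    rw [hGdef, ← mul_assoc, mul_sub, mul_one, hk, sub_self, zero_mul]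
  · intro i j
    exact s5 (i, j)
  · intro i j
    exact s6 (i, j)

end Pool.Agent.Lib.MP_57313b_al.Dia
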