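import Pool.Agent.Lib.MP_57313b_al.Dia.Poset
import Pool.Agent.Lib.MP_57313b_al.Dia.KitMd

/-! The names of the generic ring and its outside view. -/

namespace Pool.Agent.Lib.MP_57313b_al.Dia

open Pool.Agent.Shared.Forcing Pool.Agent.Lib.MP_23bd8d_gt Cardinal

set_option synthInstance.maxSize 4000

abbrev FF : Type := AlgebraicClosure (ZMod 2)

instance : Countable FF := by
  rw [← mk_le_aleph0_iff]
  exact (Algebra.IsAlgebraic.cardinalMk_le_max (ZMod 2) FF).trans
    (max_le mk_le_aleph0 le_rfl)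

abbrev CC : Type := Cond FF

abbrev BB : Type 1 := RO (ULift.{1} CC)

noncomputable abbrev ll : Cardinal.{1} := Cardinal.univ.{0, 1}

instance : Fact ll.IsInaccessible := ⟨Cardinal.IsInaccessible.univ⟩

abbrev UU : Type 1 := Ultra BB

abbrev HN : Type 2 := HName BB ll

abbrev MU (U : UU) : Type 2 := Md ll U

abbrev EU (U : UU) : MU U → MU U → Prop := El ll U

theorem ul_lt (ι : Type) : #(ULift.{1} ι) < ll := by
  rw [mk_uLift]; exact lift_lt_univ _

theorem BB_lt : #BB < ll :=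
  (mk_le_of_injective (f := fun b : BB => b.s) fun a b h => RO.ext' fun p => by
    rw [RO.mem_def, RO.mem_def, show a.s = b.s from h]).trans_lt (set_lt_l (ul_lt _))

theorem tame : Tame BB ll := tame_of_small BB_lt

instance (U : UU) : Kit (EU U) := kit_md tame U

theorem exists_emb : Nonempty (ULift.{1} Om ↪ OT ll) := by
  rw [← le_def, mk_ord_toType]
  exact (ul_lt _).le

/-- the name of a point -/
noncomputable def nm (ω : Om) : SName BB ll := chk BB (exists_emb.some ⟨ω⟩)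

noncomputable abbrev pt (U : UU) (ω : Om) : MU U := sm U (nm ω)

theorem pt_inj {U : UU} {ω ω' : Om} (h : pt U ω = pt U ω') : ω = ω' :=
  congrArg ULift.down (exists_emb.some.injective (ck_inj h))

/-- the condition `p` lies in the generic filter described by `U` -/
def GG (U : UU) (p : CC) : Prop := RO.io (ULift.up.{1} p) ∈ U

instance (p : CC) : Dec fun U => GG U p := Dec.const _

theorem GG.mono {U : UU} {p q : CC} (h : GG U q) (hq : q.le p) : GG U p :=
  Ultra.mono h (RO.io_mono (show ULift.up.{1} q ≤ ULift.up.{1} p from hq))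

theorem exists_GG (p : CC) : ∃ U, GG U p := Ultra.exists_mem (RO.io_ne_bot _)

/-- the Boolean value of meeting a set of conditions -/
noncomputable def frc (P : CC → Prop) : BB := RO.hull {p | P p.down}

theorem GG.frc {U : UU} {p : CC} (h : GG U p) {P : CC → Prop} (hP : P p) : frc P ∈ U :=
  Ultra.mono h (RO.io_le.mpr (RO.mem_hull_of_mem hP))

/-- below `p`, a condition of the set may be assumed to be in the filter -/
@[elab_as_elim]
theorem wlog_frc {Φ : UU → Prop} (P : CC → Prop) (p : CC) (U : UU) (h : frc P ∈ U) (hp : GG U p)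
    [Dec Φ] (H : ∀ U q r, P q → Cond.le r q → Cond.le r p → GG U r → Φ U) : Φ U := by
  refine of_dense (b := frc P ⊓ RO.io ⟨p⟩) (fun c hc hc0 => ?_) U (Ultra.inf_mem.mpr ⟨h, hp⟩)
  obtain ⟨s, hs⟩ := RO.ne_bot_iff.mp hc0
  obtain ⟨h1, h2⟩ := RO.mem_inf.mp (hc s hs)
  obtain ⟨s₁, a1, a2⟩ := RO.mem_io.mp h2 s le_rfl
  obtain ⟨r, b1, q, b2, b3⟩ := RO.mem_hull.mp h1 s₁ a1
  exact ⟨RO.io r, RO.io_le.mpr (RO.mono hs (b1.trans a1)), RO.io_ne_bot _,
    fun U hU => H U q.down r.down b2 b3 (show r ≤ ⟨p⟩ from b1.trans a2) hU⟩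

@[elab_as_elim]
theorem wlog_top {Φ : UU → Prop} (U : UU) [Dec Φ] (H : ∀ U p, GG U p → Φ U) : Φ U := by
  refine of_dense (b := ⊤) (fun c _ hc0 => ?_) U U.top_mem
  obtain ⟨s, hs⟩ := RO.ne_bot_iff.mp hc0
  exact ⟨RO.io s, RO.io_le.mpr hs, RO.io_ne_bot _, fun U hU => H U s.down hU⟩

theorem exists_forces (Φ : UU → Prop) [Dec Φ] {U : UU} {p : CC} (hp : GG U p) (h : Φ U) :
    ∃ q : CC, q.le p ∧ ∀ U', GG U' q → Φ U' := by
  obtain ⟨s, hs⟩ := RO.ne_bot_iff.mp (Ultra.ne_bot (Ultra.inf_mem.mpr ⟨bv_mem.mpr h, hp⟩))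
  obtain ⟨h1, h2⟩ := RO.mem_inf.mp hs
  obtain ⟨r, a1, a2⟩ := RO.mem_io.mp h2 s le_rfl
  exact ⟨r.down, a2, fun U' hU => bv_mem.mp (Ultra.mono hU (RO.io_le.mpr (RO.mono h1 a1)))⟩

/-- the name of the union of the sets `S p` -/
noncomputable def setN (S : ∀ p : CC, Set p.A) : SName BB ll :=
  SName.mk (ULift.{1} Om) (ul_lt _) (fun ω => nm ω.down)
    fun ω => frc fun p => ∃ x ∈ S p, p.j x = ω.down

theorem el_setN {S : ∀ p : CC, Set p.A} {U : UU} {p : CC} (h : GG U p) {x : p.A} (hx : x ∈ S p) :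
    EU U (pt U (p.j x)) (sm U (setN S)) :=
  mem_mk (ul_lt _) (fun ω : ULift.{1} Om => nm ω.down) _ ⟨p.j x⟩ (h.frc ⟨x, hx, rfl⟩)

@[elab_as_elim]
theorem wlog_setN {Φ : UU → Prop} (S : ∀ p : CC, Set p.A)
    (hS : ∀ q p φ, Ext q p φ → ∀ x ∈ S p, φ x ∈ S q) (X : HN) (p : CC) (U : UU)
    (h : EU U (cls U X) (sm U (setN S))) (hp : GG U p) [Dec Φ]
    (H : ∀ U q φ x, Ext q p φ → x ∈ S q → GG U q → cls U X = pt U (q.j x) → Φ U) : Φ U := by
  revert hp
  refine wlog_mk X (ul_lt _) _ _ U h ?_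
  intro U ω hω e hp
  revert e
  refine wlog_frc _ p U hω hp ?_
  rintro U q r ⟨x, hx, hx'⟩ ⟨ψ, hψ⟩ ⟨φ, hφ⟩ hr e
  exact H U r φ (ψ x) hφ (hS _ _ _ hψ x hx) hr (by rw [e, hψ.j, hx'])

/-- the name of the generic ring -/
noncomputable def RN : SName BB ll := setN fun _ => Set.univ

/-- a binary operation on all conditions, compatible with extensions -/
structure COp where
  f : ∀ p : CC, p.A → p.A → p.A
  compat : ∀ q p φ, Ext q p φ → ∀ x y, φ (f p x y) = f q (φ x) (φ y)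

noncomputable def COp.N (o : COp) : SName BB ll :=
  relName (J := ULift.{1} (Om × Om × Om)) (ul_lt _)
    (fun t => kpName (nm t.down.1) (nm t.down.2.1)) (fun t => nm t.down.2.2)
    fun t => frc fun p => ∃ x y, p.j x = t.down.1 ∧ p.j y = t.down.2.1 ∧
      p.j (o.f p x y) = t.down.2.2

theorem COp.op_iff (o : COp) {U : UU} {p : CC} (h : GG U p) (x y : p.A) (z : MU U) :
    Op (EU U) (sm U o.N) (pt U (p.j x)) (pt U (p.j y)) z ↔ z = pt U (p.j (o.f p x y)) := by
  constructor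
  · rintro ⟨w, h1, h2⟩
    obtain ⟨W, rfl⟩ := cls_surj w
    obtain ⟨Z, rfl⟩ := cls_surj z
    revert h h1
    refine wlog_rel W Z (ul_lt _) _ _ _ U h2 ?_
    intro U t ht e1 e2 h h1
    rw [e1] at h1
    obtain ⟨a1, a2⟩ := IsKPair.uniq (md_pair U) h1 (isKPair_kpName U _ _)
    replace a1 := pt_inj a1
    replace a2 := pt_inj a2
    rw [e2]
    refine wlog_frc _ p U ht h ?_
    rintro U q r ⟨x', y', b1, b2, b3⟩ ⟨ψ, hψ⟩ ⟨φ, hφ⟩ -
    have c1 : ψ x' = φ x := r.j_inj (by rw [hψ.j, hφ.j, b1, a1])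
    have c2 : ψ y' = φ y := r.j_inj (by rw [hψ.j, hφ.j, b2, a2])
    rw [← b3, ← hψ.j, ← hφ.j, o.compat _ _ _ hψ, o.compat _ _ _ hφ, c1, c2]
  · rintro rfl
    exact ⟨_, isKPair_kpName U _ _, maps_relName (J := ULift.{1} (Om × Om × Om)) (ul_lt _) _ _ _
      ⟨(p.j x, p.j y, p.j (o.f p x y))⟩ (h.frc ⟨x, y, rfl, rfl, rfl⟩)⟩

theorem COp.isOp (o : COp) (U : UU) :
    IsOp (EU U) (sm U o.N) (sm U RN) (sm U RN) (sm U RN) := by
  intro x y hx hy
  obtain ⟨X, rfl⟩ := cls_surj x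
  obtain ⟨Y, rfl⟩ := cls_surj y
  revert hx hy
  refine wlog_top U ?_
  intro U p hp hx hy
  revert hy
  refine wlog_setN (fun _ => Set.univ) (fun _ _ _ _ _ _ => trivial) X p U hx hp ?_
  intro U q _ x _ _ hq e hy
  revert e
  refine wlog_setN (fun _ => Set.univ) (fun _ _ _ _ _ _ => trivial) Y q U hy hq ?_
  intro U r φ y hφ _ hr e' e
  rw [e, e', ← hφ.j]
  exact ⟨_, el_setN hr trivial, o.op_iff hr _ _⟩

/-- the generic ring seen from outside -/
def RR (U : UU) : Type 2 := {x : MU U // EU U x (sm U RN)}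

noncomputable def COp.app (o : COp) {U : UU} (x y : RR U) : RR U :=
  ⟨(o.isOp U _ _ x.2 y.2).choose, (o.isOp U _ _ x.2 y.2).choose_spec.1⟩

theorem COp.app_spec (o : COp) {U : UU} (x y : RR U) (z : MU U) :
    Op (EU U) (sm U o.N) x.1 y.1 z ↔ z = (o.app x y).1 :=
  (o.isOp U _ _ x.2 y.2).choose_spec.2 z

/-- a family of ring elements given by a name -/
class Named (t : ∀ U, RR U) : Prop where
  ex : ∃ X : HN, ∀ U, (t U).1 = cls U X

theorem Named.of_spec (t : ∀ U, RR U) (Ψ : ∀ U : UU, MU U → Prop)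
    [∀ X, Dec fun U => Ψ U (cls U X)] (h : ∀ U z, Ψ U z ↔ z = (t U).1) : Named t := by
  obtain ⟨X, hX⟩ := exists_witness Ψ
  exact ⟨X, fun U => ((h U _).mp (hX U ⟨_, (h U _).mpr rfl⟩)).symm⟩

theorem Named.app (o : COp) (s t : ∀ U, RR U) [hs : Named s] [ht : Named t] :
    Named fun U => o.app (s U) (t U) := by
  obtain ⟨X, hX⟩ := hs.ex
  obtain ⟨Y, hY⟩ := ht.ex
  exact Named.of_spec _ (fun U z => Op (EU U) (sm U o.N) (cls U X) (cls U Y) z)
    fun U z => by rw [← hX, ← hY, o.app_spec]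

theorem exists_dflt : ∃ X : HN, ∀ U, EU U (cls U X) (sm U RN) := by
  obtain ⟨X, hX⟩ := exists_witness (fun (U : UU) (z : MU U) => EU U z (sm U RN))
  refine ⟨X, fun U => hX U ?_⟩
  refine wlog_top U ?_
  exact fun U p hp => ⟨_, el_setN hp (x := 0) trivial⟩

open Classical in
/-- the ring element named by `X`, if it is one -/
noncomputable def el (X : HN) (U : UU) : RR U :=
  if h : EU U (cls U X) (sm U RN) then ⟨_, h⟩ else ⟨_, exists_dflt.choose_spec U⟩

theorem el_val {X : HN} {U : UU} (h : EU U (cls U X) (sm U RN)) : (el X U).1 = cls U X := by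
  rw [el, dif_pos h]

instance (X : HN) : Named (el X) :=
  Named.of_spec _ (fun U z => (EU U (cls U X) (sm U RN) ∧ z = cls U X) ∨
    (¬ EU U (cls U X) (sm U RN) ∧ z = cls U exists_dflt.choose)) fun U z => by
      by_cases h : EU U (cls U X) (sm U RN)
      · simp [el, h]
      · simp [el, h]

theorem el_surj {U : UU} (x : RR U) : ∃ X, el X U = x := by
  obtain ⟨x, hx⟩ := x
  obtain ⟨X, rfl⟩ := cls_surj x
  exact ⟨X, Subtype.ext (el_val hx)⟩

/-- the ring element given by a point -/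
noncomputable abbrev cst (ω : Om) (U : UU) : RR U := el (HName.emb (nm ω)) U

theorem cst_val {U : UU} {p : CC} (h : GG U p) (x : p.A) : (cst (p.j x) U).1 = pt U (p.j x) :=
  el_val (el_setN h trivial)

instance Dec.eqR (s t : ∀ U, RR U) [hs : Named s] [ht : Named t] : Dec fun U => s U = t U := by
  obtain ⟨X, hX⟩ := hs.ex
  obtain ⟨Y, hY⟩ := ht.ex
  obtain ⟨b, hb⟩ := (Dec.eq X Y).ex
  exact ⟨b, fun U => by rw [← hb, ← hX, ← hY]; exact Subtype.ext_iff⟩

instance Dec.neR (s t : ∀ U, RR U) [Named s] [Named t] : Dec fun U => s U ≠ t U :=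
  Dec.not fun U => s U = t U

instance Dec.elR (t : ∀ U, RR U) [ht : Named t] (Y : HN) :
    Dec fun U => EU U (t U).1 (cls U Y) := by
  obtain ⟨X, hX⟩ := ht.ex
  simp only [hX]
  infer_instance

instance Dec.existsR (Ψ : ∀ U, RR U → Prop) [h : ∀ X, Dec fun U => Ψ U (el X U)] :
    Dec fun U => ∃ x, Ψ U x := by
  have : ∀ X : HN, Dec fun U => ∃ h : EU U (cls U X) (sm U RN), Ψ U ⟨_, h⟩ := fun X => by
    obtain ⟨b, hb⟩ := (inferInstance : Dec fun U => EU U (cls U X) (sm U RN) ∧ Ψ U (el X U)).ex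
    refine ⟨b, fun U => Iff.trans ?_ (hb U)⟩
    exact ⟨fun ⟨h1, h2⟩ => ⟨h1, by rwa [el, dif_pos h1]⟩,
      fun ⟨h1, h2⟩ => ⟨h1, by rwa [el, dif_pos h1] at h2⟩⟩
  obtain ⟨b, hb⟩ := (Dec.exists fun (U : UU) (z : MU U) =>
    ∃ h : EU U z (sm U RN), Ψ U ⟨z, h⟩).ex
  exact ⟨b, fun U => Iff.trans ⟨fun ⟨x, hx⟩ => ⟨x.1, x.2, hx⟩, fun ⟨_, _, hx⟩ => ⟨_, hx⟩⟩ (hb U)⟩

instance Dec.forallR (Ψ : ∀ U, RR U → Prop) [∀ X, Dec fun U => Ψ U (el X U)] :
    Dec fun U => ∀ x, Ψ U x :=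
  ⟨bv fun U => ¬ ∃ x, ¬ Ψ U x, fun U => by rw [bv_mem]; simp⟩

@[elab_as_elim]
theorem wlog_R {Φ : UU → Prop} (t : ∀ U, RR U) [ht : Named t] (p : CC) (U : UU) (hp : GG U p)
    [Dec Φ] (H : ∀ U q φ x, Ext q p φ → GG U q → t U = cst (q.j x) U → Φ U) : Φ U := by
  obtain ⟨X, hX⟩ := ht.ex
  refine wlog_setN (fun _ => Set.univ) (fun _ _ _ _ _ _ => trivial) X p U (hX U ▸ (t U).2) hp ?_
  intro U q φ x hφ _ hq e
  exact H U q φ x hφ hq (Subtype.ext (by rw [hX, e, cst_val hq]))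

/-- a property of three ring elements is checked in the conditions -/
theorem ind3 (Φ : ∀ U, RR U → RR U → RR U → Prop)
    [∀ X Y Z, Dec fun U => Φ U (el X U) (el Y U) (el Z U)]
    (H : ∀ U (p : CC) x y z, GG U p → Φ U (cst (p.j x) U) (cst (p.j y) U) (cst (p.j z) U))
    (U : UU) (x y z : RR U) : Φ U x y z := by
  obtain ⟨X, rfl⟩ := el_surj x
  obtain ⟨Y, rfl⟩ := el_surj y
  obtain ⟨Z, rfl⟩ := el_surj z
  refine wlog_top U ?_
  intro U p hp
  refine wlog_R (el X) p U hp ?_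
  intro U q _ x _ hq e1
  revert e1
  refine wlog_R (el Y) q U hq ?_
  intro U r φ y hφ hr e2
  revert e2
  refine wlog_R (el Z) r U hr ?_
  intro U s ψ z hψ hs e3 e2 e1
  rw [e1, e2, e3, ← hφ.j, ← hψ.j, ← hψ.j]
  exact H U s _ _ _ hs

theorem COp.app_cst (o : COp) {U : UU} {p : CC} (h : GG U p) (x y : p.A) :
    o.app (cst (p.j x) U) (cst (p.j y) U) = cst (p.j (o.f p x y)) U := by
  refine Subtype.ext ?_
  rw [cst_val h, ← o.op_iff h, ← cst_val h, ← cst_val h, o.app_spec]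

noncomputable def oAdd : COp := ⟨fun _ x y => x + y, fun _ _ φ _ => map_add φ⟩
noncomputable def oMul : COp := ⟨fun _ x y => y * x, fun _ _ φ _ x y => map_mul φ y x⟩
noncomputable def oNeg : COp := ⟨fun _ x _ => -x, fun _ _ φ _ x _ => map_neg φ x⟩
noncomputable def oZero : COp := ⟨fun _ _ _ => 0, fun _ _ φ _ _ _ => map_zero φ⟩
noncomputable def oOne : COp := ⟨fun _ _ _ => 1, fun _ _ φ _ _ _ => map_one φ⟩

def om0 : Om := (∅ : Set ℕ)

section ring

noncomputable instance (U : UU) : Add (RR U) := ⟨oAdd.app⟩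
noncomputable instance (U : UU) : Mul (RR U) := ⟨fun x y => oMul.app y x⟩
noncomputable instance (U : UU) : Neg (RR U) := ⟨fun x => oNeg.app x x⟩
noncomputable instance (U : UU) : Zero (RR U) := ⟨oZero.app (cst om0 U) (cst om0 U)⟩
noncomputable instance (U : UU) : One (RR U) := ⟨oOne.app (cst om0 U) (cst om0 U)⟩

instance Named.add (s t : ∀ U, RR U) [Named s] [Named t] : Named fun U => s U + t U :=
  Named.app oAdd s t
instance Named.mul (s t : ∀ U, RR U) [Named s] [Named t] : Named fun U => s U * t U :=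
  Named.app oMul t s
instance Named.neg (s : ∀ U, RR U) [Named s] : Named fun U => - s U := Named.app oNeg s s
instance Named.zero : Named fun _ => 0 := Named.app oZero _ _
instance Named.one : Named fun _ => 1 := Named.app oOne _ _

variable {U : UU} {p : CC}

theorem cst_add (h : GG U p) (x y : p.A) :
    cst (p.j x) U + cst (p.j y) U = cst (p.j (x + y)) U := oAdd.app_cst h x y

theorem cst_mul (h : GG U p) (x y : p.A) :
    cst (p.j x) U * cst (p.j y) U = cst (p.j (x * y)) U := oMul.app_cst h y x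

theorem cst_neg (h : GG U p) (x : p.A) : - cst (p.j x) U = cst (p.j (-x)) U :=
  oNeg.app_cst h x x

theorem cst_zero (h : GG U p) : 0 = cst (p.j 0) U := by
  refine wlog_R (cst om0) p U h ?_
  intro U q φ x hφ hq e
  rw [← hφ.j, map_zero]
  exact (congrArg₂ oZero.app e e).trans (oZero.app_cst hq x x)

theorem cst_one (h : GG U p) : 1 = cst (p.j 1) U := by
  refine wlog_R (cst om0) p U h ?_
  intro U q φ x hφ hq e
  rw [← hφ.j, map_one]
  exact (congrArg₂ oOne.app e e).trans (oOne.app_cst hq x x)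

noncomputable instance (U : UU) : Ring (RR U) :=
  Ring.ofMinimalAxioms
    (ind3 (fun _ x y z => x + y + z = x + (y + z))
      (fun _ _ _ _ _ h => by simp only [cst_add h, add_assoc]) U)
    (fun x => ind3 (fun _ x _ _ => 0 + x = x)
      (fun _ _ _ _ _ h => by simp only [cst_zero h, cst_add h, zero_add]) U x x x)
    (fun x => ind3 (fun _ x _ _ => -x + x = 0)
      (fun _ _ _ _ _ h => by simp only [cst_zero h, cst_neg h, cst_add h, neg_add_cancel]) U x x x)
    (ind3 (fun _ x y z => x * y * z = x * (y * z))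
      (fun _ _ _ _ _ h => by simp only [cst_mul h, mul_assoc]) U)
    (fun x => ind3 (fun _ x _ _ => 1 * x = x)
      (fun _ _ _ _ _ h => by simp only [cst_one h, cst_mul h, one_mul]) U x x x)
    (fun x => ind3 (fun _ x _ _ => x * 1 = x)
      (fun _ _ _ _ _ h => by simp only [cst_one h, cst_mul h, mul_one]) U x x x)
    (ind3 (fun _ x y z => x * (y + z) = x * y + x * z)
      (fun _ _ _ _ _ h => by simp only [cst_mul h, cst_add h, mul_add]) U)
    (ind3 (fun _ x y z => (x + y) * z = x * z + y * z)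
      (fun _ _ _ _ _ h => by simp only [cst_mul h, cst_add h, add_mul]) U)

instance Named.sub (s t : ∀ U, RR U) [Named s] [Named t] : Named fun U => s U - t U := by
  simp only [sub_eq_add_neg]
  infer_instance

/-- the ring of a condition in the filter is a subring of the generic ring -/
noncomputable def GG.hom (h : GG U p) : p.A →+* RR U where
  toFun x := cst (p.j x) U
  map_one' := (cst_one h).symm
  map_mul' x y := (cst_mul h x y).symm
  map_zero' := (cst_zero h).symm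
  map_add' x y := (cst_add h x y).symm

theorem GG.hom_apply (h : GG U p) (x : p.A) : h.hom x = cst (p.j x) U := rfl

theorem cst_inj (h : GG U p) {x y : p.A} (e : cst (p.j x) U = cst (p.j y) U) : x = y :=
  p.j_inj (pt_inj (by rw [← cst_val h, ← cst_val h, e]))

end ring

end Pool.Agent.Lib.MP_57313b_al.Dia
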