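import Pool.Agent.Lib.MP_57313b_al.Dia.Base

/-! The forcing notion: good rings on countable subsets of `Om`, with promises. -/

namespace Pool.Agent.Lib.MP_57313b_al.Dia

/-- an uncountable set of points -/
def Om : Type := Set ℕ

variable (F : Type) [Field F]

/-- an algebra on a countable subset of `Om` -/
structure RC : Type where
  s : Set Om
  cnt : s.Countable
  ring : Ring s
  alg : @Algebra F s _ ring.toSemiring

variable {F}

def RC.A (c : RC F) : Type := c.s

instance (c : RC F) : Ring c.A := c.ring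
instance (c : RC F) : Algebra F c.A := c.alg
instance (c : RC F) : Countable c.A := c.cnt.to_subtype

def RC.j (c : RC F) (x : c.A) : Om := Subtype.val x

theorem RC.j_inj (c : RC F) : Function.Injective c.j := Subtype.val_injective

variable (F) in
/-- a forcing condition -/
structure Cond : Type extends RC F where
  M : Ideal toRC.A
  S : Set (Prom toRC.A)
  good : Good F M
  Scnt : S.Countable
  holds : ∀ π ∈ S, π.Holds F M

/-- `φ` witnesses that `q` extends `p` -/
structure Ext (q p : Cond F) (φ : p.A →ₐ[F] q.A) : Prop where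
  j : ∀ x, q.j (φ x) = p.j x
  M : q.M = p.M.map φ
  S : ∀ π ∈ p.S, π.map φ ∈ q.S

/-- `q` extends `p` -/
def Cond.le (q p : Cond F) : Prop := ∃ φ, Ext q p φ

/-- no extension of `p` forces `ω` into the named set -/
def Out (In : Cond F → Om → Prop) (p : Cond F) (ω : Om) : Prop := ∀ q, q.le p → ¬ In q ω

/-- `In` is the forcing relation of a name for a proper left ideal with uniform quotient
without socle, below `p₀` -/
structure Nm (In : Cond F → Om → Prop) (p₀ : Cond F) : Prop where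
  mono : ∀ p q ω, q.le p → In p ω → In q ω
  reg : ∀ p ω, ¬ In p ω → ∃ q, q.le p ∧ Out In q ω
  zero : ∀ p, p.le p₀ → In p (p.j 0)
  add : ∀ p, p.le p₀ → ∀ x y, In p (p.j x) → In p (p.j y) → In p (p.j (x + y))
  mul : ∀ p, p.le p₀ → ∀ a x, In p (p.j x) → In p (p.j (a * x))
  one : ∀ p, p.le p₀ → ¬ In p (p.j 1)
  ns : ∀ p, p.le p₀ → ∀ x, Out In p (p.j x) →
    ∃ q φ, Ext q p φ ∧ ∃ m ∈ q.M, Out In q (q.j (m * φ x))
  unif : ∀ p, p.le p₀ → ∀ x y, Out In p (p.j x) → Out In p (p.j y) →
    ∃ q φ, Ext q p φ ∧ ∃ a b, In q (q.j (a * φ x - b * φ y)) ∧ Out In q (q.j (a * φ x))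

/-- the named ideal is maximal -/
def NmMx (In : Cond F → Om → Prop) (p₀ : Cond F) : Prop :=
  ∀ p : Cond F, p.le p₀ → ∀ x, Out In p (p.j x) →
    ∃ q φ, Ext q p φ ∧ ∃ a, In q (q.j (a * φ x - 1))

/-- the named ideal has the detection property -/
def NmDet (In : Cond F → Om → Prop) (p₀ : Cond F) : Prop :=
  ∀ p : Cond F, p.le p₀ → ∀ x, Out In p (p.j x) → ∃ q φ, Ext q p φ ∧ ∃ v ∉ q.M,
    ∀ s ψ, Ext s q ψ → ∀ c, In s (s.j (c * ψ (φ x))) → c * ψ v ∈ s.M

end Pool.Agent.Lib.MP_57313b_al.Dia
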