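import Pool.Agent.Lib.MP_57313b_al.Dia.PDefs
import Pool.Agent.Lib.MP_57313b_al.Dia.LI0
import Pool.Agent.Lib.MP_57313b_al.Dia.BaseRing

/-! The forcing notion is countably closed. -/

namespace Pool.Agent.Lib.MP_57313b_al.Dia

variable {F : Type} [Field F]

theorem poset_map_map {A B C : Type} [Ring A] [Algebra F A] [Ring B] [Algebra F B] [Ring C]
    [Algebra F C] (I : Ideal A) (φ : A →ₐ[F] B) (ψ : B →ₐ[F] C) :
    (I.map φ).map ψ = I.map (ψ.comp φ) :=
  Ideal.map_map (φ : A →+* B) (ψ : B →+* C)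

theorem poset_map_id {A : Type} [Ring A] [Algebra F A] (I : Ideal A) :
    I.map (AlgHom.id F A) = I :=
  Ideal.map_id I

theorem poset_om_unc : Uncountable Om := by
  unfold Om
  rw [← Cardinal.aleph0_lt_mk_iff, Cardinal.mk_set, Cardinal.mk_nat]
  exact Cardinal.cantor _

/-- a countable type embeds in the complement of a countable set of points -/
theorem poset_inj (B : Type) [Countable B] (s : Set Om) (hs : s.Countable) :
    ∃ g : B → Om, Function.Injective g ∧ ∀ b, g b ∉ s := by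
  have hinf : (sᶜ).Infinite := by
    intro hfin
    have h1 : (Set.univ : Set Om).Countable := by
      rw [← Set.union_compl_self s]
      exact hs.union hfin.countable
    have := poset_om_unc
    exact Set.not_countable_univ h1
  obtain ⟨f, hf⟩ := Countable.exists_injective_nat B
  refine ⟨fun b => (hinf.natEmbedding _ (f b) : Om), ?_, fun b => (hinf.natEmbedding _ (f b)).2⟩
  intro a b hab
  exact hf ((hinf.natEmbedding _).injective (Subtype.ext hab))

theorem Ext.refl (p : Cond F) : Ext p p (AlgHom.id F _) := by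
  refine ⟨fun _ => rfl, (poset_map_id _).symm, fun π hπ => ?_⟩
  rw [Prom.map_id]
  exact hπ

theorem Ext.trans {s q p : Cond F} {ψ : q.A →ₐ[F] s.A} {φ : p.A →ₐ[F] q.A} (h : Ext s q ψ)
    (h' : Ext q p φ) : Ext s p (ψ.comp φ) := by
  refine ⟨fun x => ?_, ?_, fun π hπ => ?_⟩
  · rw [AlgHom.comp_apply, h.j, h'.j]
  · rw [h.M, h'.M, poset_map_map]
  · rw [← Prom.map_map]
    exact h.S _ (h'.S _ hπ)

theorem Ext.inj {q p : Cond F} {φ : p.A →ₐ[F] q.A} (h : Ext q p φ) : Function.Injective φ := by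
  intro x y hxy
  apply p.j_inj
  rw [← h.j, ← h.j, hxy]

theorem Ext.uniq {q p : Cond F} {φ ψ : p.A →ₐ[F] q.A} (h : Ext q p φ) (h' : Ext q p ψ) :
    φ = ψ := by
  ext x
  apply q.j_inj
  rw [h.j, h'.j]

theorem Ext.mem_M {q p : Cond F} {φ : p.A →ₐ[F] q.A} (h : Ext q p φ) (x : p.A) :
    φ x ∈ q.M ↔ x ∈ p.M := by
  rw [h.M]
  exact Reg.map_mem_map_iff φ p.good.reg h.inj _ _

instance : Preorder (Cond F) where
  le := Cond.le
  le_refl p := ⟨_, Ext.refl p⟩
  le_trans _ _ _ := fun ⟨_, h⟩ ⟨_, h'⟩ => ⟨_, h.trans h'⟩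

/-- transport of an abstract good ring along an injection into `Om` (`Equiv.ring`,
`Equiv.algebra` on `Set.range j`, `good_of_cover`) -/
theorem exists_cond_of {B : Type} [Ring B] [Algebra F B] [Countable B] (j : B → Om)
    (hj : Function.Injective j) {M : Ideal B} (hM : Good F M) (S : Set (Prom B))
    (hS : S.Countable) (hS' : ∀ π ∈ S, π.Holds F M) :
    ∃ (p : Cond F) (e : B →ₐ[F] p.A), Function.Bijective e ∧ (∀ x, p.j (e x) = j x) ∧
      p.M = M.map e ∧ ∀ π ∈ S, π.map e ∈ p.S := by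
  let e₀ : (Set.range j) ≃ B := (Equiv.ofInjective j hj).symm
  let c : RC F :=
    { s := Set.range j
      cnt := Set.countable_range j
      ring := e₀.ring
      alg := Equiv.algebra F e₀ }
  let e₁ : c.A ≃ₐ[F] B := Equiv.algEquiv F e₀
  let e : B →ₐ[F] c.A := e₁.symm.toAlgHom
  have he : Function.Bijective e := e₁.symm.bijective
  have hg : Good F (M.map e) :=
    good_of_cover (ι := Unit) (fun _ => B) (fun _ => M) (fun _ => hM) (fun _ => e)
      (fun _ => he.1) _ (fun _ => rfl) (fun x => ⟨(), he.2 x⟩)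
  refine ⟨⟨c, M.map e, (fun π => π.map e) '' S, hg, hS.image _, ?_⟩, e, he, fun x => rfl, rfl,
    fun π hπ => ⟨π, hπ, rfl⟩⟩
  rintro _ ⟨π, hπ, rfl⟩
  refine ⟨(hS' π hπ).1.map hM.reg e, fun x => ?_⟩
  obtain ⟨y, rfl⟩ := he.2 x
  exact ((hS' π hπ).2 y).map e

/-- an abstract extension of a condition gives an extension (`Om` is uncountable) -/
theorem Cond.extend (p : Cond F) {B : Type} [Ring B] [Algebra F B] [Countable B]
    (φ : p.A →ₐ[F] B) (hφ : Function.Injective φ) (hM : Good F (p.M.map φ))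
    (S : Set (Prom p.A)) (hpS : p.S ⊆ S) (hS : S.Countable)
    (hS' : ∀ π ∈ S, (π.map φ).Holds F (p.M.map φ)) :
    ∃ (q : Cond F) (e : B →ₐ[F] q.A), Function.Bijective e ∧ Ext q p (e.comp φ) ∧
      ∀ π ∈ S, π.map (e.comp φ) ∈ q.S := by
  classical
  obtain ⟨g, hg, hgs⟩ := poset_inj B p.s p.cnt
  let j : B → Om := Function.extend φ p.j g
  have hj1 : ∀ x, j (φ x) = p.j x := fun x => hφ.extend_apply _ _ x
  have hj2 : ∀ b, (¬ ∃ x, φ x = b) → j b = g b := fun b hb => Function.extend_apply' _ _ b hb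
  have hj : Function.Injective j := by
    intro a b hab
    by_cases ha : ∃ x, φ x = a
    · obtain ⟨x, rfl⟩ := ha
      by_cases hb : ∃ y, φ y = b
      · obtain ⟨y, rfl⟩ := hb
        rw [hj1, hj1] at hab
        rw [p.j_inj hab]
      · rw [hj1, hj2 b hb] at hab
        exact absurd (hab ▸ x.2 : g b ∈ p.s) (hgs b)
    · by_cases hb : ∃ y, φ y = b
      · obtain ⟨y, rfl⟩ := hb
        rw [hj1, hj2 a ha] at hab
        exact absurd (hab ▸ y.2 : g a ∈ p.s) (hgs a)
      · rw [hj2 a ha, hj2 b hb] at hab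
        exact hg hab
  obtain ⟨q, e, he, hqj, hqM, hqS⟩ := exists_cond_of j hj hM ((fun π => π.map φ) '' S)
    (hS.image _) (by rintro _ ⟨π, hπ, rfl⟩; exact hS' π hπ)
  have hS2 : ∀ π ∈ S, π.map (e.comp φ) ∈ q.S := fun π hπ => by
    rw [← Prom.map_map]
    exact hqS _ ⟨π, hπ, rfl⟩
  refine ⟨q, e, he, ⟨fun x => ?_, ?_, fun π hπ => hS2 π (hpS hπ)⟩, hS2⟩
  · rw [AlgHom.comp_apply, hqj, hj1]
  · rw [hqM, poset_map_map]

theorem Cond.nonempty [Countable F] : Nonempty (Cond F) := by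
  obtain ⟨A, _, _, _, hA⟩ := exists_pre (F := F)
  obtain ⟨M, hM⟩ := hA.exists_good
  obtain ⟨g, hg, -⟩ := poset_inj A ∅ Set.countable_empty
  obtain ⟨p, -⟩ := exists_cond_of g hg hM ∅ Set.countable_empty (by simp)
  exact ⟨p⟩

/-- countably closed, with the union as underlying set (`exists_limit`, `good_of_cover`,
`exists_cond_of`) -/
theorem Cond.lim (p : ℕ → Cond F) (h : ∀ n, (p (n + 1)).le (p n)) :
    ∃ q : Cond F, (∀ n, q.le (p n)) ∧ ∀ x : q.A, ∃ n y, (p n).j y = q.j x := by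
  choose φ hφ using h
  obtain ⟨B, _, _, _, f, Θ, hΘ0, hΘs, hfΘ, hcov, hker⟩ := exists_limit (fun n => (p n).A) φ
  have hE : ∀ n m (h : n ≤ m), Ext (p m) (p n) (Θ n m h) := by
    intro n m h
    induction m, h using Nat.le_induction with
    | base =>
      have : Θ n n le_rfl = AlgHom.id F _ := AlgHom.ext (hΘ0 n)
      rw [this]
      exact Ext.refl _
    | succ m h ih =>
      have : Θ n (m + 1) (h.trans (Nat.le_succ m)) = (φ m).comp (Θ n m h) :=
        AlgHom.ext (hΘs n m h)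
      rw [this]
      exact (hφ m).trans ih
  have hfc : ∀ n m (h : n ≤ m), (f m).comp (Θ n m h) = f n :=
    fun n m h => AlgHom.ext (hfΘ n m h)
  have hfi : ∀ n, Function.Injective (f n) := by
    intro n
    rw [injective_iff_map_eq_zero]
    intro x hx
    obtain ⟨m, h, hm⟩ := hker n x hx
    exact (hE n m h).inj (hm.trans (map_zero _).symm)
  have key : ∀ n m x y, f n x = f m y ↔ (p n).j x = (p m).j y := by
    intro n m x y
    have h1 := le_max_left n m
    have h2 := le_max_right n m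
    rw [← hfΘ n _ h1, ← hfΘ m _ h2, ← (hE n _ h1).j, ← (hE m _ h2).j, (hfi _).eq_iff,
      (RC.j_inj _).eq_iff]
  choose ι σ hσ using hcov
  let j : B → Om := fun b => (p (ι b)).j (σ b)
  have hjf : ∀ n x, j (f n x) = (p n).j x := fun n x => (key _ _ _ _).1 (hσ _)
  have hj : Function.Injective j := by
    intro a b hab
    rw [← hσ a, ← hσ b]
    exact (key _ _ _ _).2 hab
  let N : Ideal B := (p 0).M.map (f 0)
  have hN : ∀ n, (p n).M.map (f n) = N := by
    intro n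
    rw [(hE 0 n (Nat.zero_le n)).M, poset_map_map, hfc]
  have hg : Good F N :=
    good_of_cover (fun n => (p n).A) (fun n => (p n).M) (fun n => (p n).good) f hfi N hN
      (fun b => ⟨ι b, σ b, hσ b⟩)
  let S : Set (Prom B) := ⋃ n, (fun π => π.map (f n)) '' (p n).S
  have hS : S.Countable := Set.countable_iUnion fun n => (p n).Scnt.image _
  have hS' : ∀ π ∈ S, π.Holds F N := by
    intro π' hπ'
    obtain ⟨n, π, hπ, rfl⟩ := Set.mem_iUnion.1 hπ'
    refine ⟨?_, fun b => ?_⟩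
    · rw [← hN n]
      exact ((p n).holds π hπ).1.map (p n).good.reg (f n)
    · have h1 := le_max_left n (ι b)
      have h2 := le_max_right n (ι b)
      have h3 := (((p _).holds _ ((hE n _ h1).S π hπ)).2 (Θ _ _ h2 (σ b))).map (f _)
      rwa [Prom.map_map, hfc, hN, hfΘ, hσ] at h3
  obtain ⟨q, e, he, hqj, hqM, hqS⟩ := exists_cond_of j hj hg S hS hS'
  refine ⟨q, fun n => ⟨e.comp (f n), fun x => ?_, ?_, fun π hπ => ?_⟩, fun x => ?_⟩
  · rw [AlgHom.comp_apply, hqj, hjf]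
  · rw [hqM, ← hN n, poset_map_map]
  · rw [← Prom.map_map]
    exact hqS _ (Set.mem_iUnion.2 ⟨n, π, hπ, rfl⟩)
  · obtain ⟨b, rfl⟩ := he.2 x
    exact ⟨ι b, σ b, (hqj b).symm⟩

theorem poset_le_trans {s q p : Cond F} (h : s.le q) (h' : q.le p) : s.le p :=
  let ⟨_, h⟩ := h
  let ⟨_, h'⟩ := h'
  ⟨_, h.trans h'⟩

/-- a descending sequence built by a step rule -/
theorem poset_seq (p₀ : Cond F) (R : ℕ → Cond F → Cond F → Prop)
    (step : ∀ n p, p.le p₀ → ∃ q : Cond F, q.le p ∧ R n p q) :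
    ∃ r : ℕ → Cond F, r 0 = p₀ ∧ ∀ n, (r (n + 1)).le (r n) ∧ R n (r n) (r (n + 1)) := by
  choose g hg hR using step
  let r : ℕ → {p : Cond F // p.le p₀} := fun n =>
    Nat.rec ⟨p₀, _, Ext.refl p₀⟩
      (fun n p => ⟨g n p.1 p.2, poset_le_trans (hg n p.1 p.2) p.2⟩) n
  exact ⟨fun n => (r n).1, rfl, fun n => ⟨hg n _ (r n).2, hR n _ (r n).2⟩⟩

/-- fusion -/
theorem Cond.fusion (p₀ : Cond F) (W : Cond F → Om → Prop)
    (mono : ∀ p q ω, q.le p → W p ω → W q ω)
    (dense : ∀ p : Cond F, p.le p₀ → ∀ x, ∃ q : Cond F, q.le p ∧ W q (p.j x)) :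
    ∃ q : Cond F, q.le p₀ ∧ ∀ x, W q (q.j x) := by
  have one : ∀ p : Cond F, p.le p₀ → ∃ q : Cond F, q.le p ∧ ∀ x, W q (p.j x) := by
    intro p hp
    have : Nonempty p.A := ⟨0⟩
    obtain ⟨u, hu⟩ := exists_surjective_nat p.A
    obtain ⟨r, hr0, hr⟩ := poset_seq p (fun n _ q => W q (p.j (u n))) (by
      intro n s hs
      obtain ⟨q, hq, hW⟩ := dense s (poset_le_trans hs hp) (hs.choose (u n))
      rw [hs.choose_spec.j] at hW
      exact ⟨q, hq, hW⟩)
    obtain ⟨q, hq, -⟩ := Cond.lim r fun n => (hr n).1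
    refine ⟨q, hr0 ▸ hq 0, fun x => ?_⟩
    obtain ⟨n, rfl⟩ := hu x
    exact mono _ _ _ (hq (n + 1)) (hr n).2
  obtain ⟨r, hr0, hr⟩ := poset_seq p₀ (fun _ p q => ∀ x, W q (p.j x)) fun _ p hp => one p hp
  obtain ⟨q, hq, hc⟩ := Cond.lim r fun n => (hr n).1
  refine ⟨q, hr0 ▸ hq 0, fun x => ?_⟩
  obtain ⟨n, y, hy⟩ := hc x
  rw [← hy]
  exact mono _ _ _ (hq (n + 1)) ((hr n).2 y)

end Pool.Agent.Lib.MP_57313b_al.Dia
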